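import Pool.Agent.H33.SS.Defs

/-! # SS.ThA : path words, skew products (elementary)

PROOF. `pv (a :: w) = pv w * val a`: definition of `pv` (`List.map_cons`, `List.reverse_cons`, `List.prod_append`). `pv_app` similarly. `pv_surj`: `FreeGroup.induction_on` (or `u.toWord.reverse`): the values of path words contain `1`, the generators and their inverses and are closed under products by `pv_app`.
`ac_sk`: induction on `w` (`FreeGroup.induction_on`) for the statement: there is `c` such that for all `h`, `ac (sk X β) w (v, h) = (ac X w v, c * h)` (for all `v`); then `c` is the value at `h = 1`. `th_mul`, `th_one` follow. `th_of`, `th_inv`: definition of `sk`.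
`th_agree`: induction on `w` generalizing `v v'`. For `a :: w`: the prefix `[]` gives `β v = β' v'`, the prefix `[a]` gives the equality at the next points; `Th (pv (a :: w)) v = Th (pv w) (ac X (val a) v) * Th (val a) v` and the prefixes `w1` of `w` give the prefixes `a :: w1`. `th_on`: the same induction with `On`. -/

set_option autoImplicit false
set_option synthInstance.maxSize 4000

open MeasureTheory H31.BE H33.HN

namespace H33.SS

variable {S G V : Type}

theorem pv_nil : pv ([] : List (S × Bool)) = 1 := by
  simp [pv]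

theorem pv_cons' (a : S × Bool) (w : List (S × Bool)) : pv (a :: w) = pv w * val a := by
  simp [pv]

theorem pv_app (w w' : List (S × Bool)) : pv (w ++ w') = pv w' * pv w := by
  simp [pv]

theorem pv_surj (u : FreeGroup S) : ∃ w : List (S × Bool), pv w = u := by
  refine FreeGroup.induction_on (C := fun u => ∃ w : List (S × Bool), pv w = u) u ?_ ?_ ?_ ?_
  · exact ⟨[], pv_nil⟩
  · intro s
    exact ⟨[(s, true)], by rw [pv_cons', pv_nil, one_mul]; simp [val]⟩
  · intro s _
    exact ⟨[(s, false)], by rw [pv_cons', pv_nil, one_mul]; simp [val]⟩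
  · rintro x y ⟨w, hw⟩ ⟨w', hw'⟩
    exact ⟨w' ++ w, by rw [pv_app, hw, hw']⟩

variable [Group G]

theorem ac_sk (X : S → Equiv.Perm V) (β : V → S → G) (w : FreeGroup S) (v : V) (h : G) :
    ac (sk X β) w (v, h) = (ac X w v, Th X β w v * h) := by
  have key : ∀ (w : FreeGroup S) (v : V), ∃ c : G, ∀ h : G, ac (sk X β) w (v, h) = (ac X w v, c * h) := by
    intro w
    refine FreeGroup.induction_on
      (C := fun w => ∀ v : V, ∃ c : G, ∀ h : G, ac (sk X β) w (v, h) = (ac X w v, c * h)) w ?_ ?_ ?_ ?_
    · intro v
      exact ⟨1, fun h => by simp⟩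
    · intro s v
      refine ⟨β v s, fun h => ?_⟩
      simp only [ac, FreeGroup.lift_apply_of]
      rfl
    · intro s _ v
      refine ⟨(β ((X s).symm v) s)⁻¹, fun h => ?_⟩
      simp only [ac, map_inv, FreeGroup.lift_apply_of]
      rfl
    · intro x y hx hy v
      obtain ⟨c, hc⟩ := hy v
      obtain ⟨d, hd⟩ := hx (ac X y v)
      refine ⟨d * c, fun h => ?_⟩
      rw [map_mul, map_mul, Equiv.Perm.mul_apply, Equiv.Perm.mul_apply, hc, hd, mul_assoc]
  obtain ⟨c, hc⟩ := key w v
  have h1 : Th X β w v = c := by
    unfold Th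
    rw [hc 1, mul_one]
  rw [hc h, h1]

theorem th_mul (X : S → Equiv.Perm V) (β : V → S → G) (w' w : FreeGroup S) (v : V) :
    Th X β (w' * w) v = Th X β w' (ac X w v) * Th X β w v := by
  have h1 : ac (sk X β) (w' * w) (v, 1) = ac (sk X β) w' (ac (sk X β) w (v, 1)) := by
    rw [map_mul, Equiv.Perm.mul_apply]
  have h2 := congrArg Prod.snd h1
  rw [ac_sk X β w v 1, ac_sk, ac_sk] at h2
  simpa using h2

theorem th_one (X : S → Equiv.Perm V) (β : V → S → G) (v : V) : Th X β 1 v = 1 := by
  unfold Th
  simp

theorem th_of (X : S → Equiv.Perm V) (β : V → S → G) (s : S) (v : V) : Th X β (FreeGroup.of s) v = β v s := by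
  unfold Th
  simp only [ac, FreeGroup.lift_apply_of]
  change β v s * 1 = β v s
  rw [mul_one]

theorem th_inv (X : S → Equiv.Perm V) (β : V → S → G) (s : S) (v : V) :
    Th X β (FreeGroup.of s)⁻¹ v = (β ((X s).symm v) s)⁻¹ := by
  unfold Th
  simp only [ac, map_inv, FreeGroup.lift_apply_of]
  change (β ((X s).symm v) s)⁻¹ * 1 = _
  rw [mul_one]

theorem th_agree {V' : Type} (X : S → Equiv.Perm V) (β : V → S → G) (X' : S → Equiv.Perm V') (β' : V' → S → G)
    (w : List (S × Bool)) (v : V) (v' : V')
    (h : ∀ w1 : List (S × Bool), w1 <+: w → β (ac X (pv w1) v) = β' (ac X' (pv w1) v')) :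
    Th X β (pv w) v = Th X' β' (pv w) v' := by
  induction w generalizing v v' with
  | nil => rw [pv_nil, th_one, th_one]
  | cons a w ih =>
    have h0 : β v = β' v' := by
      have := h [] (List.nil_prefix)
      simpa [pv_nil] using this
    have h1 : β (ac X (val a) v) = β' (ac X' (val a) v') := by
      have := h [a] (by simp)
      simpa [pv_cons', pv_nil] using this
    have h2 : Th X β (val a) v = Th X' β' (val a) v' := by
      rcases a with ⟨s, b⟩
      cases b with
      | true =>
        simp only [val, if_true]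
        rw [th_of, th_of, h0]
      | false =>
        simp only [val, Bool.false_eq_true, if_false] at h1 ⊢
        rw [th_inv, th_inv]
        have e1 : ac X (FreeGroup.of s)⁻¹ v = (X s).symm v := by
          simp only [ac, map_inv, FreeGroup.lift_apply_of]; rfl
        have e2 : ac X' (FreeGroup.of s)⁻¹ v' = (X' s).symm v' := by
          simp only [ac, map_inv, FreeGroup.lift_apply_of]; rfl
        rw [e1, e2] at h1
        rw [h1]
    rw [pv_cons', th_mul, th_mul, h2]
    congr 1
    refine ih _ _ (fun w1 hw1 => ?_)
    have h3 := h (a :: w1) (by simpa using hw1)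
    rw [pv_cons', map_mul, map_mul, Equiv.Perm.mul_apply, Equiv.Perm.mul_apply] at h3
    exact h3

theorem th_on (X : S → Equiv.Perm V) (β β' : V → S → G) (E : Set (V × S)) (h : ∀ v s, (v, s) ∈ E → β v s = β' v s)
    (w : List (S × Bool)) (v : V) (hw : On E X w v) : Th X β (pv w) v = Th X β' (pv w) v := by
  induction w generalizing v with
  | nil => rw [pv_nil, th_one, th_one]
  | cons a w ih =>
    rcases a with ⟨s, b⟩
    cases b with
    | true =>
      have h1 : (v, s) ∈ E ∧ On E X w (X s v) := hw
      have e1 : val (s, true) = FreeGroup.of s := by simp [val]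
      have e2 : ac X (FreeGroup.of s) v = X s v := by simp only [ac, FreeGroup.lift_apply_of]
      rw [pv_cons', th_mul, th_mul, e1, th_of, th_of, h v s h1.1, e2, ih _ h1.2]
    | false =>
      have h1 : ((X s).symm v, s) ∈ E ∧ On E X w ((X s).symm v) := hw
      have e1 : val (s, false) = (FreeGroup.of s)⁻¹ := by simp [val]
      have e2 : ac X (FreeGroup.of s)⁻¹ v = (X s).symm v := by
        simp only [ac, map_inv, FreeGroup.lift_apply_of]; rfl
      rw [pv_cons', th_mul, th_mul, e1, th_inv, th_inv, h _ s h1.1, e2, ih _ h1.2]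

end H33.SS
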