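import Pool.Agent.H33.SS.DefsW
import Pool.Agent.H33.SS.ThA

/-! # SS.AscA : ascending HNN extensions (group theory)

PROOF. `asc_el`: the set of elements of this form contains `1` and is closed under left multiplication by elements of `F`, by `t` and by `t⁻¹`: by `t⁻¹`: clear. By `t`: if `a ≥ 1` clear; if `a = 0`: `t * f * t^b = (t * f * t⁻¹) * t^(b+1)`. By `f' ∈ F`: `f' * (t⁻¹)^a * f * t^b = (t⁻¹)^a * (t^a * f' * (t⁻¹)^a) * f * t^b` and `t^a * f' * (t⁻¹)^a ∈ F`. Every element is a product of such elements and inverses (`Subgroup.closure_induction_left` or `Subgroup.closure_toSubmonoid`; the inverse of an element of `F` is in `F`).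
`asc_d`: let `y : Fin m → H` be generators of `F` (`hF`), `w i` path words with `lift g (pv (w i)) = y i` (`hg`, `pv_surj`), `L` the sum of their lengths, `n ≥ 1` with `L ≤ ε * n`. `K := (Subgroup.zpowers (Multiplicative.ofAdd (n : ℤ))).comap φ`; `K.index = n` (`Subgroup.index_comap_of_surjective`; `φ` is surjective since `φ t = ofAdd 1`; the index of `nℤ` in `ℤ` is `n`). `x i := ⟨y i, _⟩` (`φ (y i) = 1`). WqNormal: let `M` be a subgroup of `K` that contains all `x i` and is closed. Every `f ∈ F` is in `K` and `⟨f, _⟩ ∈ M` (closure induction). `u := ⟨t ^ n, _⟩`: for every `f ∈ F`: `⟨f, _⟩ ∈ M` and `u * ⟨f, _⟩ * u⁻¹ = ⟨t^n * f * (t^n)⁻¹, _⟩ ∈ M` since `t^n * f * (t^n)⁻¹ ∈ F` (induction on `n`); `F` is infinite; so `u ∈ M`. Let `x ∈ K`, by `asc_el` `x = (t⁻¹)^a * f * t^b`, `φ x = ofAdd (b - a)`, so `n ∣ b - a`. With `A := a` (`n * a ≥ a`): `x = (t⁻¹)^(n*a) * (t^(n*a - a) * f * (t⁻¹)^(n*a - a)) * t^(n*a - a + b)`,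 the middle factor is in `F`, and `n ∣ n * a - a + b`; so `x` is a product of a power of `u⁻¹`, an element of `M` and a power of `u`. -/

set_option autoImplicit false
set_option synthInstance.maxSize 4000

open MeasureTheory H31.BE H33.HN

namespace H33.SS

private theorem AscA_conj {H : Type} [Group H] (F : Subgroup H) (t : H) (hc : ∀ x ∈ F, t * x * t⁻¹ ∈ F)
    (n : ℕ) : ∀ x ∈ F, t ^ n * x * (t⁻¹) ^ n ∈ F := by
  induction n with
  | zero =>
    intro x hx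
    simpa using hx
  | succ n ih =>
    intro x hx
    have h1 := hc _ (ih x hx)
    have h2 : t ^ (n + 1) * x * (t⁻¹) ^ (n + 1) = t * (t ^ n * x * (t⁻¹) ^ n) * t⁻¹ := by
      rw [pow_succ' t n, pow_succ (t⁻¹) n]
      simp only [mul_assoc]
    rw [h2]
    exact h1

theorem asc_el {H : Type} [Group H] (F : Subgroup H) (t : H) (hc : ∀ x ∈ F, t * x * t⁻¹ ∈ F)
    (hgen : Subgroup.closure ((F : Set H) ∪ {t}) = ⊤) (x : H) :
    ∃ (a b : ℕ), ∃ f ∈ F, x = (t⁻¹) ^ a * f * t ^ b := by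
  have hF : ∀ y ∈ F, ∀ z : H, (∃ (a b : ℕ), ∃ f ∈ F, z = (t⁻¹) ^ a * f * t ^ b) →
      ∃ (a b : ℕ), ∃ f ∈ F, y * z = (t⁻¹) ^ a * f * t ^ b := by
    rintro y hy z ⟨a, b, f, hf, rfl⟩
    refine ⟨a, b, (t ^ a * y * (t⁻¹) ^ a) * f, F.mul_mem (AscA_conj F t hc a y hy) hf, ?_⟩
    have h1 : (t⁻¹) ^ a * t ^ a = 1 := by
      rw [inv_pow, inv_mul_cancel]
    calc y * ((t⁻¹) ^ a * f * t ^ b) = ((t⁻¹) ^ a * t ^ a) * y * (t⁻¹) ^ a * f * t ^ b := by
          rw [h1, one_mul]; simp only [mul_assoc]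
      _ = (t⁻¹) ^ a * (t ^ a * y * (t⁻¹) ^ a * f) * t ^ b := by simp only [mul_assoc]
  have ht : ∀ z : H, (∃ (a b : ℕ), ∃ f ∈ F, z = (t⁻¹) ^ a * f * t ^ b) →
      ∃ (a b : ℕ), ∃ f ∈ F, t * z = (t⁻¹) ^ a * f * t ^ b := by
    rintro z ⟨a, b, f, hf, rfl⟩
    rcases a with _ | a
    · refine ⟨0, b + 1, t * f * t⁻¹, hc f hf, ?_⟩
      rw [pow_zero, one_mul, one_mul, pow_succ' t b, mul_assoc (t * f) t⁻¹ (t * t ^ b),
        inv_mul_cancel_left, mul_assoc]
    · refine ⟨a, b, f, hf, ?_⟩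
      rw [pow_succ' (t⁻¹) a]
      simp only [mul_assoc, mul_inv_cancel_left]
  have hti : ∀ z : H, (∃ (a b : ℕ), ∃ f ∈ F, z = (t⁻¹) ^ a * f * t ^ b) →
      ∃ (a b : ℕ), ∃ f ∈ F, t⁻¹ * z = (t⁻¹) ^ a * f * t ^ b := by
    rintro z ⟨a, b, f, hf, rfl⟩
    refine ⟨a + 1, b, f, hf, ?_⟩
    rw [pow_succ' (t⁻¹) a]
    simp only [mul_assoc]
  have hx : x ∈ Subgroup.closure ((F : Set H) ∪ {t}) := by
    rw [hgen]
    exact Subgroup.mem_top x
  refine Subgroup.closure_induction_left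
    (p := fun z _ => ∃ (a b : ℕ), ∃ f ∈ F, z = (t⁻¹) ^ a * f * t ^ b) ?_ ?_ ?_ hx
  · exact ⟨0, 0, 1, F.one_mem, by simp⟩
  · intro y hy z _ hz
    rcases hy with hy | hy
    · exact hF y hy z hz
    · rw [Set.mem_singleton_iff.1 hy]
      exact ht z hz
  · intro y hy z _ hz
    rcases hy with hy | hy
    · exact hF y⁻¹ (F.inv_mem hy) z hz
    · rw [Set.mem_singleton_iff.1 hy]
      exact hti z hz

/-- the subgroup of index `n` -/
private theorem AscA_index {H : Type} [Group H] (φ : H →* Multiplicative ℤ) (t : H)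
    (hφt : φ t = Multiplicative.ofAdd 1) (n : ℕ) :
    ((Subgroup.zpowers (Multiplicative.ofAdd (n : ℤ))).comap φ).index = n := by
  have hs : Function.Surjective φ := by
    intro z
    refine ⟨t ^ (Multiplicative.toAdd z), ?_⟩
    rw [map_zpow, hφt, ← ofAdd_zsmul]
    simp
  rw [Subgroup.index_comap_of_surjective _ hs]
  have h1 : (AddSubgroup.zmultiples (n : ℤ)).index = n := Int.index_zmultiples (n : ℤ)
  exact h1

private theorem AscA_phi {H : Type} [Group H] (F : Subgroup H) (t : H) (φ : H →* Multiplicative ℤ)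
    (hφF : ∀ x ∈ F, φ x = 1) (hφt : φ t = Multiplicative.ofAdd 1) (a b : ℕ) (f : H) (hf : f ∈ F) :
    φ ((t⁻¹) ^ a * f * t ^ b) = Multiplicative.ofAdd ((b : ℤ) - a) := by
  rw [map_mul, map_mul, map_pow, map_pow, map_inv, hφF f hf, hφt, mul_one, ← ofAdd_neg, ← ofAdd_nsmul,
    ← ofAdd_nsmul, ← ofAdd_add]
  congr 1
  simp
  ring

theorem asc_d {S H : Type} [Group H] [Fintype S] (g : S → H) (hg : Function.Surjective (FreeGroup.lift g))
    (F : Subgroup H) (hF : F.FG) (hFi : Infinite F) (t : H) (hc : ∀ x ∈ F, t * x * t⁻¹ ∈ F)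
    (hgen : Subgroup.closure ((F : Set H) ∪ {t}) = ⊤) (φ : H →* Multiplicative ℤ) (hφF : ∀ x ∈ F, φ x = 1)
    (hφt : φ t = Multiplicative.ofAdd 1) (ε : ℝ) (hε : 0 < ε) :
    ∃ (K : Subgroup H) (_ : K.FiniteIndex) (m : ℕ) (w : Fin m → List (S × Bool)) (x : Fin m → K),
      (∀ i, FreeGroup.lift g (pv (w i)) = (x i : H)) ∧ WqNormal (Subgroup.closure (Set.range x)) ∧
      (∑ i, ((w i).length : ℝ)) ≤ ε * K.index := by
  classical
  obtain ⟨Y, hY⟩ := hF
  -- generators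
  set m : ℕ := Y.card with hm
  let y : Fin m → H := fun i => (Y.equivFin.symm i : H)
  have hyY : Set.range y = (Y : Set H) := by
    ext z
    constructor
    · rintro ⟨i, rfl⟩
      exact (Y.equivFin.symm i).2
    · intro hz
      exact ⟨Y.equivFin ⟨z, hz⟩, by simp [y]⟩
  have hyF : ∀ i, y i ∈ F := by
    intro i
    rw [← hY]
    exact Subgroup.subset_closure (Y.equivFin.symm i).2
  have hw0 : ∀ i, ∃ w : List (S × Bool), FreeGroup.lift g (pv w) = y i := by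
    intro i
    obtain ⟨u, hu⟩ := hg (y i)
    obtain ⟨w, hw⟩ := pv_surj u
    exact ⟨w, by rw [hw, hu]⟩
  choose w hw using hw0
  set L : ℝ := ∑ i, ((w i).length : ℝ) with hL
  obtain ⟨n0, hn0⟩ := exists_nat_ge (L / ε)
  set n : ℕ := n0 + 1 with hn
  have hLn : L ≤ ε * n := by
    have h1 : L / ε ≤ (n : ℝ) := by
      refine hn0.trans ?_
      rw [hn]
      push_cast
      linarith
    have h2 := (div_le_iff₀ hε).1 h1
    linarith [mul_comm (n : ℝ) ε]
  set K : Subgroup H := (Subgroup.zpowers (Multiplicative.ofAdd (n : ℤ))).comap φ with hK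
  have hKi : K.index = n := AscA_index φ t hφt n
  have hKmem : ∀ z : H, z ∈ K ↔ (n : ℤ) ∣ Multiplicative.toAdd (φ z) := by
    intro z
    rw [hK, Subgroup.mem_comap, Subgroup.mem_zpowers_iff]
    constructor
    · rintro ⟨k, hk⟩
      rw [← hk, ← ofAdd_zsmul]
      exact ⟨k, by simp [mul_comm]⟩
    · rintro ⟨k, hk⟩
      refine ⟨k, ?_⟩
      rw [← ofAdd_zsmul]
      apply Multiplicative.toAdd.injective
      rw [hk]
      simp [mul_comm]
  have hFK : ∀ z ∈ F, z ∈ K := by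
    intro z hz
    rw [hKmem, hφF z hz]
    simp
  have hfi : K.FiniteIndex := ⟨by rw [hKi]; omega⟩
  refine ⟨K, hfi, m, w, fun i => ⟨y i, hFK _ (hyF i)⟩, fun i => hw i, ?_, ?_⟩
  · intro M hM hcl
    -- F is inside M
    have hFM : ∀ (f : H) (hf : f ∈ F), (⟨f, hFK f hf⟩ : K) ∈ M := by
      have h1 : F ≤ M.map K.subtype := by
        rw [← hY, Subgroup.closure_le]
        intro z hz
        rw [← hyY] at hz
        obtain ⟨i, rfl⟩ := hz
        exact ⟨⟨y i, hFK _ (hyF i)⟩, hM (Subgroup.subset_closure ⟨i, rfl⟩), rfl⟩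
      intro f hf
      obtain ⟨z, hz, hzf⟩ := h1 hf
      have h2 : z = (⟨f, hFK f hf⟩ : K) := Subtype.ext hzf
      rw [← h2]
      exact hz
    have htn : t ^ n ∈ K := by
      rw [hKmem, map_pow, hφt, ← ofAdd_nsmul]
      exact ⟨1, by simp⟩
    have hu : (⟨t ^ n, htn⟩ : K) ∈ M := by
      refine hcl _ ?_
      have h1 : Set.Infinite (Set.range fun f : F => (⟨f, hFK f f.2⟩ : K)) := by
        refine Set.infinite_range_of_injective ?_
        intro f f' h
        have h2 := congrArg (fun z : K => (z : H)) h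
        exact Subtype.ext h2
      refine h1.mono ?_
      rintro _ ⟨f, rfl⟩
      refine ⟨hFM f f.2, ?_⟩
      have h3 := hFM _ (AscA_conj F t hc n f f.2)
      have h4 : (⟨t ^ n, htn⟩ : K) * (⟨f, hFK f f.2⟩ : K) * (⟨t ^ n, htn⟩ : K)⁻¹ =
          ⟨t ^ n * f * (t⁻¹) ^ n, hFK _ (AscA_conj F t hc n f f.2)⟩ := by
        apply Subtype.ext
        simp only [Subgroup.coe_mul, InvMemClass.coe_inv, inv_pow]
      show (⟨t ^ n, htn⟩ : K) * (⟨f, hFK f f.2⟩ : K) * (⟨t ^ n, htn⟩ : K)⁻¹ ∈ M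
      rw [h4]
      exact h3
    rw [eq_top_iff]
    rintro ⟨x, hx⟩ _
    obtain ⟨a, b, f, hf, e⟩ := asc_el F t hc hgen x
    have h5 : (n : ℤ) ∣ (b : ℤ) - a := by
      have h6 := (hKmem x).1 hx
      rw [e, AscA_phi F t φ hφF hφt a b f hf] at h6
      exact h6
    have hna : a ≤ n * a := Nat.le_mul_of_pos_left a (by omega)
    obtain ⟨d, hd⟩ := Nat.exists_eq_add_of_le hna
    have h7 : (n : ℤ) ∣ ((d + b : ℕ) : ℤ) := by
      have h8 : ((d + b : ℕ) : ℤ) = (n : ℤ) * a + ((b : ℤ) - a) := by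
        have h9 : ((n * a : ℕ) : ℤ) = a + d := by
          rw [hd]
          push_cast
          ring
        push_cast at h9 ⊢
        linarith
      rw [h8]
      exact dvd_add (Dvd.intro _ rfl) h5
    have h10 : n ∣ d + b := by exact_mod_cast h7
    obtain ⟨k, hk⟩ := h10
    have hmid : t ^ d * f * (t⁻¹) ^ d ∈ F := AscA_conj F t hc d f hf
    have h11 : x = ((t ^ n)⁻¹) ^ a * (t ^ d * f * (t⁻¹) ^ d) * (t ^ n) ^ k := by
      have e1 : ((t ^ n)⁻¹) ^ a = (t⁻¹) ^ a * (t⁻¹) ^ d := by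
        rw [← inv_pow, ← pow_mul, hd, pow_add]
      have e2 : (t ^ n) ^ k = t ^ d * t ^ b := by
        rw [← pow_mul, ← hk, pow_add]
      have e3 : (t⁻¹) ^ d * t ^ d = 1 := by
        rw [inv_pow, inv_mul_cancel]
      rw [e, e1, e2]
      calc (t⁻¹) ^ a * f * t ^ b = (t⁻¹) ^ a * 1 * f * 1 * t ^ b := by
            rw [mul_one, mul_one]
        _ = (t⁻¹) ^ a * ((t⁻¹) ^ d * t ^ d) * f * ((t⁻¹) ^ d * t ^ d) * t ^ b := by rw [e3]
        _ = (t⁻¹) ^ a * (t⁻¹) ^ d * (t ^ d * f * (t⁻¹) ^ d) * (t ^ d * t ^ b) := by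
            simp only [mul_assoc]
    have h12 : (⟨x, hx⟩ : K) = ((⟨t ^ n, htn⟩ : K)⁻¹) ^ a * (⟨t ^ d * f * (t⁻¹) ^ d, hFK _ hmid⟩ : K) *
        (⟨t ^ n, htn⟩ : K) ^ k := by
      apply Subtype.ext
      simp only [Subgroup.coe_mul, SubmonoidClass.coe_pow, InvMemClass.coe_inv]
      exact h11
    rw [h12]
    exact M.mul_mem (M.mul_mem (M.pow_mem (M.inv_mem hu) a) (hFM _ hmid)) (M.pow_mem hu k)
  · rw [hKi]
    exact hLn

end H33.SS
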