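import Pool.Agent.H33.SS.Defs
import Pool.Agent.H31.BE.Bern
import Pool.Agent.H31.BE.EntF

/-! # SS.EntG : the entropy of an independent field; measurability of functions of the labels

PROOF. `ent_field`: `ent_indep_pi` (H31/BE/EntF) for `f v ω := γ (ω v)`: the rectangle probabilities by `Measure.infinitePi_pi` (`bern V ν` is the product measure; as in `bern_pi` of H31/BE/Bern, for the finset `univ`) and each `ent (bern V ν) (fun ω => γ (ω v)) = ent ν γ` by `ent_map` with the measure preserving evaluation (`measurePreserving_eval_infinitePi` or the same proof as for `ent_lab`). `Fm` of each coordinate: `Fm.comp_measurable`.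
`fm_fun`: `fun ω v => q (ω v)` is `Fm` by `Fm.pi`, then `Fm.comp`. `prob_inst` is the existing instance. -/

set_option autoImplicit false
set_option synthInstance.maxSize 4000

open MeasureTheory H31.BE H33.HN

namespace H33.SS

theorem ent_field {V Γ : Type} [Fintype V] [Finite Γ] (ν : Measure ℝ) [IsProbabilityMeasure ν] (γ : ℝ → Γ)
    (hγ : Fm γ) : ent (bern V ν) (fun (ω : Bsh V) (v : V) => γ (ω v)) = Fintype.card V * ent ν γ := by
  have hm : ∀ v : V, Measurable (fun y : Bsh V => y v) := fun v =>
    measurable_pi_apply (X := fun _ : V => ℝ) v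
  have hF : ∀ v : V, Fm (fun ω : Bsh V => γ (ω v)) := fun v => Fm.comp_measurable (hm v) hγ
  have hp : ∀ v : V, MeasurePreserving (fun y : Bsh V => y v) (bern V ν) ν := fun v =>
    measurePreserving_eval_infinitePi (fun _ : V => ν) v
  have hpi : ∀ t : V → Set ℝ, (∀ i, MeasurableSet (t i)) →
      bern V ν {y : Bsh V | ∀ i ∈ (Finset.univ : Finset V), y i ∈ t i} = ∏ i, ν (t i) :=
    fun t ht => Measure.infinitePi_pi (fun _ : V => ν) (s := Finset.univ) (t := t) (fun i _ => ht i)
  have h := ent_indep_pi (P := bern V ν) (f := fun (v : V) (ω : Bsh V) => γ (ω v)) hF ?_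
  · rw [h, Finset.sum_congr rfl (fun v _ => ent_map (hp v) hγ)]
    simp
  · intro a
    have e1 : {ω : Bsh V | ∀ i, γ (ω i) = a i} =
        {y : Bsh V | ∀ i ∈ (Finset.univ : Finset V), y i ∈ γ ⁻¹' {a i}} := by
      ext ω
      simp
    have e2 : ∀ i : V, (bern V ν).real ((fun ω : Bsh V => γ (ω i)) ⁻¹' {a i}) =
        ν.real (γ ⁻¹' {a i}) := by
      intro i
      have e3 : (fun ω : Bsh V => γ (ω i)) ⁻¹' {a i} =
          (fun y : Bsh V => y i) ⁻¹' (γ ⁻¹' {a i}) := rfl
      rw [e3, measureReal_def, measureReal_def, (hp i).measure_preimage (hγ (a i)).nullMeasurableSet]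
    rw [e1, measureReal_def, hpi (fun i => γ ⁻¹' {a i}) (fun i => hγ (a i)), ENNReal.toReal_prod]
    exact Finset.prod_congr rfl fun i _ => (e2 i).symm

theorem fm_fun {V A B : Type} [Fintype V] [Finite A] (q : ℝ → A) (hq : Fm q) (F : (V → A) → B) :
    Fm (fun ω : Bsh V => F (fun v => q (ω v))) := by
  have hF : ∀ v : V, Fm (fun ω : Bsh V => q (ω v)) := fun v =>
    Fm.comp_measurable (measurable_pi_apply (X := fun _ : V => ℝ) v) hq
  have h1 : Fm (fun (ω : Bsh V) (v : V) => q (ω v)) := Fm.pi hF
  exact h1.comp F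

end H33.SS
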