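import Pool.Agent.H33.SS.Defs
import Pool.Agent.H31.BE.EntF

/-! # SS.GibA : the Gibbs inequality, conditional form

PROOF. `Fintype.ofFinite β`. Let `p a b := P.real (f ⁻¹' {a} ∩ g ⁻¹' {b})`, `r b := P.real (g ⁻¹' {b}) = ∑ a, p a b`. `entc P f g = ∑ b, ((∑ a, negMulLog (p a b)) - negMulLog (r b))` (`ent_eq`). The integral is `∑ a b, p a b * (-log (Q b a))` (the integrand is a function of the `Fm` function `(f, g)`; see how such integrals are computed in H31/BE/EntD, e.g. `entc_le_count`). For each `b`: `∑ a (negMulLog (p a b) + p a b * log (r b) + p a b * log (Q b a)) ≤ ∑ a (r b * Q b a - p a b) ≤ 0`: if `p a b > 0` then `r b > 0` and the term is `p a b * log (r b * Q b a / p a b) ≤ r b * Q b a - p a b` by `Real.log_le_sub_one_of_pos`; if `p a b = 0` the term is `0`. -/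

set_option autoImplicit false
set_option synthInstance.maxSize 4000

open MeasureTheory H31.BE H33.HN

namespace H33.SS

private theorem gibA_integral {Ω β : Type} [MeasurableSpace Ω] {P : Measure Ω} [IsProbabilityMeasure P]
    [Fintype β] {g : Ω → β} (hg : Fm g) (φ : β → ℝ) :
    ∫ ω, φ (g ω) ∂P = ∑ b, P.real (g ⁻¹' {b}) * φ b := by
  classical
  have h1 : ∀ ω, φ (g ω) = ∑ b, (g ⁻¹' {b}).indicator (fun _ => φ b) ω := by
    intro ω
    rw [Finset.sum_eq_single (g ω)]
    · simp
    · intro b _ hb
      exact Set.indicator_of_notMem (fun h => hb h.symm) _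
    · intro h
      exact absurd (Finset.mem_univ _) h
  simp_rw [h1]
  rw [integral_finset_sum]
  · refine Finset.sum_congr rfl fun b _ => ?_
    rw [integral_indicator_const _ (hg b), smul_eq_mul]
  · intro b _
    exact (integrable_const (φ b)).indicator (hg b)

private theorem gibA_sum {Ω α β : Type} [MeasurableSpace Ω] {P : Measure Ω} [IsProbabilityMeasure P]
    [Fintype α] [Finite β] {f : Ω → α} {g : Ω → β} (hf : Fm f) (hg : Fm g) (b : β) :
    P.real (g ⁻¹' {b}) = ∑ a, P.real ((fun ω => (f ω, g ω)) ⁻¹' {(a, b)}) := by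
  classical
  rw [← measureReal_biUnion_finset]
  · congr 1
    ext ω
    simp
  · intro a _ a' _ haa
    rw [Function.onFun, Set.disjoint_left]
    intro ω h h'
    simp only [Set.mem_preimage, Set.mem_singleton_iff, Prod.mk.injEq] at h h'
    exact haa (h.1.symm.trans h'.1)
  · intro a _
    exact (hf.prodMk hg) (a, b)

private theorem gibA_fin {α : Type} [Fintype α] (p q : α → ℝ) (hp : ∀ a, 0 ≤ p a) (hq : ∀ a, 0 < q a)
    (h1 : ∑ a, q a ≤ 1) :
    ∑ a, Real.negMulLog (p a) ≤ Real.negMulLog (∑ a, p a) + ∑ a, p a * -Real.log (q a) := by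
  classical
  rcases eq_or_lt_of_le (Finset.sum_nonneg fun a (_ : a ∈ Finset.univ) => hp a) with h0 | h0
  · have h1 : ∀ a, p a = 0 := by
      intro a
      exact (Finset.sum_eq_zero_iff_of_nonneg (fun a _ => hp a)).1 h0.symm a (Finset.mem_univ a)
    simp [h1]
  · set r := ∑ a, p a with hr
    have h2 : ∀ a, Real.negMulLog (p a) + p a * Real.log r + p a * Real.log (q a) ≤ r * q a - p a := by
      intro a
      rcases eq_or_lt_of_le (hp a) with ha | ha
      · rw [← ha]
        have := mul_pos h0 (hq a)
        simp only [Real.negMulLog_zero, zero_mul, sub_zero, add_zero]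
        exact this.le
      · have hqa := hq a
        have h3 : Real.log (r * q a / p a) ≤ r * q a / p a - 1 :=
          Real.log_le_sub_one_of_pos (by positivity)
        rw [Real.log_div (by positivity) ha.ne', Real.log_mul h0.ne' hqa.ne'] at h3
        have h4 := mul_le_mul_of_nonneg_left h3 ha.le
        have h5 : p a * (r * q a / p a - 1) = r * q a - p a := by
          field_simp
        rw [h5] at h4
        unfold Real.negMulLog
        nlinarith [h4]
    have h3 := Finset.sum_le_sum fun a (_ : a ∈ Finset.univ) => h2 a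
    rw [Finset.sum_add_distrib, Finset.sum_add_distrib, Finset.sum_sub_distrib, ← Finset.sum_mul,
      ← Finset.mul_sum, ← hr] at h3
    have h4 : r * ∑ a, q a ≤ r := by
      calc r * ∑ a, q a ≤ r * 1 := mul_le_mul_of_nonneg_left h1 h0.le
        _ = r := mul_one r
    have h5 : ∑ a, p a * -Real.log (q a) = -∑ a, p a * Real.log (q a) := by
      rw [← Finset.sum_neg_distrib]
      exact Finset.sum_congr rfl fun a _ => by ring
    rw [h5]
    have h6 : Real.negMulLog r = -(r * Real.log r) := by
      unfold Real.negMulLog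
      ring
    rw [h6]
    linarith

theorem gibbs {Ω α β : Type} [MeasurableSpace Ω] {P : Measure Ω} [IsProbabilityMeasure P] [Fintype α] [Finite β]
    {f : Ω → α} {g : Ω → β} (hf : Fm f) (hg : Fm g) (Q : β → α → ℝ) (h0 : ∀ b a, 0 < Q b a)
    (h1 : ∀ b, ∑ a, Q b a ≤ 1) : entc P f g ≤ ∫ ω, -Real.log (Q (g ω) (f ω)) ∂P := by
  classical
  letI := Fintype.ofFinite β
  have hI := gibA_integral (P := P) (hf.prodMk hg) (fun p : α × β => -Real.log (Q p.2 p.1))
  simp only at hI
  rw [hI]
  unfold entc
  rw [ent_eq, ent_eq, Fintype.sum_prod_type, Fintype.sum_prod_type, Finset.sum_comm,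
    ← Finset.sum_sub_distrib, Finset.sum_comm (s := (Finset.univ : Finset α))]
  refine Finset.sum_le_sum fun b _ => ?_
  have h2 := gibA_fin (fun a => P.real ((fun ω => (f ω, g ω)) ⁻¹' {(a, b)})) (Q b)
    (fun a => measureReal_nonneg) (h0 b) (h1 b)
  rw [← gibA_sum hf hg b] at h2
  linarith

end H33.SS
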