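import Pool.Agent.H33.SS.Defs

/-! # SS.GibB : products of kernels (finite combinatorics)

PROOF. Induction on `m`. `m = 0`: one function, empty product. `m + 1`: `Fin.consEquiv` (or `Fintype.sum_equiv` with `(Fin.consEquiv ..)`, `Fin.prod_univ_succ`): the sum over `u : Fin (m + 1) → α` is the sum over `u' : Fin m → α` and `a : α` of `κ 0 (Fin.cons a u') * ∏ j, κ j.succ (Fin.cons a u')`. For `j.succ` the value does not depend on `a` (`hdep`, since `0 < j.succ`), so take it at a fixed `a0` (if `α` is empty the sum is `0`); the inner sum over `a` of `κ 0 (cons a u') = κ 0 (Function.update (cons a0 u') 0 a)` is at most `1`. The rest is the induction hypothesis for `κ' j u' := κ j.succ (Fin.cons a0 u')`. -/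

set_option autoImplicit false
set_option synthInstance.maxSize 4000

open MeasureTheory H31.BE H33.HN

namespace H33.SS

theorem seq_le {α : Type} [Fintype α] {m : ℕ} (κ : Fin m → (Fin m → α) → ℝ) (h0 : ∀ j u, 0 ≤ κ j u)
    (hdep : ∀ j (u u' : Fin m → α), (∀ i, j ≤ i → u i = u' i) → κ j u = κ j u')
    (h1 : ∀ j (u : Fin m → α), ∑ a, κ j (Function.update u j a) ≤ 1) : ∑ u : Fin m → α, ∏ j, κ j u ≤ 1 := by
  induction m with
  | zero => simp
  | succ m ih =>
    rcases isEmpty_or_nonempty α with he | ⟨⟨a0⟩⟩
    · simp
    · have e : ∑ u : Fin (m + 1) → α, ∏ j, κ j u =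
          ∑ u' : Fin m → α, ∑ a : α, ∏ j, κ j (Fin.cons a u' : Fin (m + 1) → α) := by
        rw [← (Fin.consEquiv (fun _ : Fin (m + 1) => α)).sum_comp, Fintype.sum_prod_type, Finset.sum_comm]
        rfl
      rw [e]
      have key : ∀ u' : Fin m → α, ∑ a : α, ∏ j, κ j (Fin.cons a u' : Fin (m + 1) → α) ≤
          ∏ j : Fin m, κ j.succ (Fin.cons a0 u' : Fin (m + 1) → α) := by
        intro u'
        have h2 : ∀ a : α, ∏ j, κ j (Fin.cons a u' : Fin (m + 1) → α) =
            κ 0 (Function.update (Fin.cons a0 u' : Fin (m + 1) → α) 0 a) *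
              ∏ j : Fin m, κ j.succ (Fin.cons a0 u' : Fin (m + 1) → α) := by
          intro a
          rw [Fin.prod_univ_succ]
          congr 1
          · congr 1
            rw [Fin.update_cons_zero]
          · refine Finset.prod_congr rfl fun j _ => hdep _ _ _ fun i hi => ?_
            have hi0 : i ≠ 0 := fun h => by
              subst h
              exact absurd hi (by simp)
            obtain ⟨i', rfl⟩ := Fin.exists_succ_eq.2 hi0
            simp
        rw [Finset.sum_congr rfl fun a _ => h2 a, ← Finset.sum_mul]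
        exact mul_le_of_le_one_left (Finset.prod_nonneg fun j _ => h0 _ _) (h1 0 _)
      refine (Finset.sum_le_sum fun u' _ => key u').trans ?_
      refine ih (fun j u' => κ j.succ (Fin.cons a0 u' : Fin (m + 1) → α)) (fun j u => h0 _ _) ?_ ?_
      · intro j u u' h
        refine hdep _ _ _ fun i hi => ?_
        have hi0 : i ≠ 0 := fun h' => by
          subst h'
          exact absurd hi (by simp)
        obtain ⟨i', rfl⟩ := Fin.exists_succ_eq.2 hi0
        simp only [Fin.cons_succ]
        exact h i' (Fin.succ_le_succ_iff.1 hi)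
      · intro j u
        have h3 := h1 j.succ (Fin.cons a0 u : Fin (m + 1) → α)
        refine le_of_eq_of_le ?_ h3
        refine Finset.sum_congr rfl fun a _ => ?_
        rw [Fin.cons_update]

end H33.SS
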