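import Pool.Agent.H33.SS.CosB
import Pool.Agent.H33.SS.GibA
import Pool.Agent.H33.SS.GibB
import Pool.Agent.H31.BE.EntD

/-! # SS.EntU : the entropy of the array given the skeleton labels (abstract form)

PROOF. `gibbs` (GibA) with `Q x u := ∏ j, kap τ q (R x) j u`: positive by `kap_pos`, `∑ u, Q x u ≤ 1` by `seq_le` (GibB) with `kap_dep`, `kap_sum`, `kap_pos`. `-log (Q (s ω) (U ω)) = ∑ j, -log (kap ..)` (`Real.log_prod`, positivity). By `cost_le` (CosB) for every `ω` this is at most `∑ v, -log (qt τ q (w ω v)) + 2 * τ * m + C * {j | ¬ good ω j}.ncard`. Integrate (`integral_mono`; all integrands are finite valued measurable functions: they are functions of the `Fm` functions `(U, s)`, `w`, `good`; prove integrability by boundedness and measurability as in H31/BE/EntD) and `∫ {j | ¬ good ω j}.ncard = ∑ j, P.real {ω | ¬ good ω j}` (sum of indicators). -/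

set_option autoImplicit false
set_option synthInstance.maxSize 4000

open MeasureTheory H31.BE H33.HN

namespace H33.SS

/-- functions of finite valued measurable functions are integrable -/
private theorem EntU_int {Ω β : Type} [MeasurableSpace Ω] {PP : Measure Ω} [IsProbabilityMeasure PP]
    [Finite β] {g : Ω → β} (hg : Fm g) (φ : β → ℝ) : Integrable (fun ω => φ (g ω)) PP := by
  classical
  letI := Fintype.ofFinite β
  have h1 : (fun ω => φ (g ω)) = fun ω => ∑ b, (g ⁻¹' {b}).indicator (fun _ => φ b) ω := by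
    funext ω
    rw [Finset.sum_eq_single (g ω)]
    · simp
    · intro b _ hb
      exact Set.indicator_of_notMem (fun h => hb h.symm) _
    · intro h
      exact absurd (Finset.mem_univ _) h
  rw [h1]
  exact integrable_finsetSum _ fun b _ => (integrable_const (φ b)).indicator (hg b)

private theorem EntU_card {Ω : Type} [MeasurableSpace Ω] {PP : Measure Ω} [IsProbabilityMeasure PP] {m : ℕ}
    (good : Ω → Fin m → Prop) (hg : Fm good) :
    ∫ ω, ({j | ¬ good ω j}.ncard : ℝ) ∂PP = ∑ j, PP.real {ω | ¬ good ω j} := by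
  classical
  have hm : ∀ j, MeasurableSet {ω | ¬ good ω j} := fun j => hg.preimage {x | ¬ x j}
  have h1 : ∀ ω, ({j | ¬ good ω j}.ncard : ℝ) =
      ∑ j, ({ω | ¬ good ω j} : Set Ω).indicator (fun _ => (1 : ℝ)) ω := by
    intro ω
    have e : ({j | ¬ good ω j} : Set (Fin m)) =
        ((Finset.univ.filter fun j => ¬ good ω j : Finset (Fin m)) : Set (Fin m)) := by
      ext j
      simp
    rw [e, Set.ncard_coe_finset, Finset.card_filter]
    push_cast
    refine Finset.sum_congr rfl fun j _ => ?_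
    by_cases h : good ω j
    · rw [Set.indicator_of_notMem (show ω ∉ {ω | ¬ good ω j} from fun h' => h' h)]
      simp [h]
    · rw [Set.indicator_of_mem (show ω ∈ {ω | ¬ good ω j} from h)]
      simp [h]
  simp_rw [h1]
  rw [integral_finsetSum]
  · refine Finset.sum_congr rfl fun j _ => ?_
    rw [integral_indicator_const _ (hm j), smul_eq_mul, mul_one]
  · intro j _
    exact (integrable_const (1 : ℝ)).indicator (hm j)

theorem ent_u {Ω P V σ : Type} [MeasurableSpace Ω] {PP : Measure Ω} [IsProbabilityMeasure PP] [Fintype P] [Nonempty P]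
    [Fintype V] [Finite σ] {τ : ℝ} (h0 : 0 < τ) (h1 : τ ≤ 1 / 2) {q : P → ℝ} (hq : ∀ a, 0 ≤ q a) (hs : ∑ a, q a = 1)
    {m : ℕ} (R : σ → Fin m → Fin m → Prop) (U : Ω → Fin m → P) (hU : Fm U) (s : Ω → σ) (hsm : Fm s)
    (good : Ω → Fin m → Prop) (hg : Fm good) (φ : Ω → Fin m → V) (w : Ω → V → P) (hw : Fm w)
    (hu : ∀ ω j, U ω j = w ω (φ ω j)) (hA : ∀ ω j j', good ω j → R (s ω) j j' → U ω j = U ω j')
    (hB : ∀ ω j j', good ω j → j ≠ j' → φ ω j = φ ω j' → R (s ω) j j') :
    entc PP U s ≤ ∑ v, ∫ ω, -Real.log (qt τ q (w ω v)) ∂PP + 2 * τ * m +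
      Real.log (Fintype.card P / τ) * ∑ j, PP.real {ω | ¬ good ω j} := by
  classical
  have hg1 : entc PP U s ≤ ∫ ω, -Real.log (∏ j, kap τ q (R (s ω)) j (U ω)) ∂PP :=
    gibbs hU hsm (fun x u => ∏ j, kap τ q (R x) j u)
      (fun x u => Finset.prod_pos fun j _ => kap_pos h0 h1 hq (R x) j u)
      (fun x => seq_le (fun j u => kap τ q (R x) j u) (fun j u => (kap_pos h0 h1 hq (R x) j u).le)
        (fun j u u' h => kap_dep (R x) j u u' h) (fun j u => kap_sum h0 h1 hs (R x) j u))
  refine hg1.trans ?_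
  have hpt : ∀ ω, -Real.log (∏ j, kap τ q (R (s ω)) j (U ω)) ≤
      ∑ v, -Real.log (qt τ q (w ω v)) + 2 * τ * m +
        Real.log (Fintype.card P / τ) * ({j | ¬ good ω j}.ncard : ℝ) := by
    intro ω
    rw [Real.log_prod fun j _ => (kap_pos h0 h1 hq (R (s ω)) j (U ω)).ne', ← Finset.sum_neg_distrib]
    exact cost_le h0 h1 hq hs (R (s ω)) (U ω) (good ω) (φ ω) (w ω) (hu ω) (hA ω) (hB ω)
  have i1 : Integrable (fun ω => -Real.log (∏ j, kap τ q (R (s ω)) j (U ω))) PP :=
    EntU_int (hU.prodMk hsm) (fun x : (Fin m → P) × σ => -Real.log (∏ j, kap τ q (R x.2) j x.1))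
  have i2 : ∀ v, Integrable (fun ω => -Real.log (qt τ q (w ω v))) PP := fun v =>
    EntU_int hw (fun x : V → P => -Real.log (qt τ q (x v)))
  have i3 : Integrable (fun ω => ({j | ¬ good ω j}.ncard : ℝ)) PP :=
    EntU_int hg (fun x : Fin m → Prop => ({j | ¬ x j}.ncard : ℝ))
  have i4 : Integrable (fun ω => ∑ v, -Real.log (qt τ q (w ω v))) PP :=
    integrable_finsetSum _ fun v _ => i2 v
  have i5 : Integrable (fun ω => ∑ v, -Real.log (qt τ q (w ω v)) + 2 * τ * m) PP :=
    i4.add (integrable_const _)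
  refine (integral_mono i1 (i5.add (i3.const_mul _)) hpt).trans (le_of_eq ?_)
  rw [integral_add' i5 (i3.const_mul _), integral_const_mul, EntU_card good hg]
  congr 1
  have e : (∫ ω, (∑ v, -Real.log (qt τ q (w ω v)) + 2 * τ * m) ∂PP) =
      ∫ ω, (∑ v, -Real.log (qt τ q (w ω v))) ∂PP + ∫ _ω, 2 * τ * m ∂PP :=
    integral_add i4 (integrable_const _)
  rw [e, integral_finsetSum _ fun v _ => i2 v]
  simp

end H33.SS
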