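import Pool.Agent.H33.SS.LmA

/-! # SS.PthA : labels along paths in a finite structure

PROOF. (classical) Let `L1` be the finite set of all prefixes of the words of `R` (`List.inits`). `Z :=` all `pv w1` and `pv (wl (lift g (pv w1)))`, `w1 ∈ L1`; `K2 :=` all `lift g (pv w1)`. For a prefix `w1` of `w ∈ R`: the two words have the same value by `hwl`, so `ac X (pv w1) p = ac X (pv (wl (lift g (pv w1)))) p` by `Gr` and `l` of this point is `cf X wl l p (lift g (pv w1)) = t0 (lift g (pv w1))`. Hence `th_agree` with the structure `lm g` at `1` and the labels `b ∘ t0` (`ac_lm`), then `th_leg1`. -/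

set_option autoImplicit false
set_option synthInstance.maxSize 4000

open MeasureTheory H31.BE H33.HN

namespace H33.SS

variable {S G Λ : Type} [Group G]

theorem th_path (g : S → G) (wl : G → List (S × Bool)) (hwl : ∀ k, FreeGroup.lift g (pv (wl k)) = k)
    (b : Λ → S → G) (J : G → Finset G) (R : Finset (List (S × Bool))) :
    ∃ (Z : Finset (FreeGroup S)) (K2 : Finset G), ∀ (V : Type) (X : S → Equiv.Perm V) (l : V → Λ) (p : V)
      (t0 : G → Λ) (θ : G → G), Gr g X Z p → (∀ k ∈ K2, cf X wl l p k = t0 k) → Leg g b J t0 θ →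
      ∀ w ∈ R, Th X (fun v => b (l v)) (pv w) p = θ (FreeGroup.lift g (pv w)) := by
  classical
  set L1 : Finset (List (S × Bool)) := R.biUnion (fun w => w.inits.toFinset) with hL1
  refine ⟨L1.image pv ∪ L1.image (fun w1 => pv (wl (FreeGroup.lift g (pv w1)))),
    L1.image (fun w1 => FreeGroup.lift g (pv w1)), ?_⟩
  intro V X l p t0 θ hGr hK hL w hw
  refine (th_agree X (fun v => b (l v)) (lm g) (fun k' => b (t0 k')) w p 1 ?_).trans (th_leg1 hL (pv w))
  intro w1 hw1
  have hmem : w1 ∈ L1 := by
    rw [hL1, Finset.mem_biUnion]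
    exact ⟨w, hw, by simpa using hw1⟩
  have h1 : ac X (pv w1) p = ac X (pv (wl (FreeGroup.lift g (pv w1)))) p := by
    refine (hGr _ (Finset.mem_union_left _ (Finset.mem_image_of_mem _ hmem)) _
      (Finset.mem_union_right _ (Finset.mem_image_of_mem _ hmem))).2 ?_
    rw [hwl]
  have h2 := hK _ (Finset.mem_image_of_mem (fun w1 => FreeGroup.lift g (pv w1)) hmem)
  show b (l (ac X (pv w1) p)) = b (t0 (ac (lm g) (pv w1) 1))
  rw [ac_lm, mul_one, h1]
  exact congrArg b h2

end H33.SS
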