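import Pool.Agent.H33.SS.LmA

/-! # SS.ShA : the configuration at a neighbour

PROOF. `gr_mono`, `gr_eq`: immediate. `cf_sf`: (classical) `Z :=` all words `pv (wl k) * pv (wl u)`, `pv (wl (k * u))` for `k ∈ K`, `u ∈ T0`; `K2 :=` all `k * u`. `cf X wl l (ac X (pv (wl u)) p) k = l (ac X (pv (wl k)) (ac X (pv (wl u)) p)) = l (ac X (pv (wl k) * pv (wl u)) p)` (`map_mul`, `Equiv.Perm.mul_apply`), the two words have the same value `k * u`, so by `Gr` this is `l (ac X (pv (wl (k * u))) p) = cf X wl l p (k * u) = t0 (k * u) = sf u t0 k`.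
`lb_cf`: the same computation for the `A`-labels: `Z :=` all words `pv (wl h) * pv (wl k)`, `pv (wl (h * k))` for `h ∈ D'`, `k ∈ K`; `hβ'` reduces the claim to the coordinates `h ∈ D'`. -/

set_option autoImplicit false
set_option synthInstance.maxSize 4000

open MeasureTheory H31.BE H33.HN

namespace H33.SS

variable {S G Λ A : Type} [Group G]

theorem gr_mono {V : Type} {g : S → G} {X : S → Equiv.Perm V} {Z Z' : Finset (FreeGroup S)} (h : Z ⊆ Z') {p : V}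
    (hp : Gr g X Z' p) : Gr g X Z p :=
  fun w hw w' hw' => hp w (h hw) w' (h hw')

theorem cf_sf (g : S → G) (wl : G → List (S × Bool)) (hwl : ∀ k, FreeGroup.lift g (pv (wl k)) = k)
    (K T0 : Finset G) :
    ∃ (Z : Finset (FreeGroup S)) (K2 : Finset G), ∀ (V : Type) (X : S → Equiv.Perm V) (l : V → Λ) (p : V)
      (t0 : G → Λ), Gr g X Z p → (∀ k ∈ K2, cf X wl l p k = t0 k) →
      ∀ u ∈ T0, ∀ k ∈ K, cf X wl l (ac X (pv (wl u)) p) k = sf u t0 k := by
  classical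
  refine ⟨(K ×ˢ T0).image (fun x => pv (wl x.1) * pv (wl x.2)) ∪ (K ×ˢ T0).image (fun x => pv (wl (x.1 * x.2))),
    (K ×ˢ T0).image (fun x => x.1 * x.2), ?_⟩
  intro V X l p t0 hp ht u hu k hk
  have hku : (k, u) ∈ K ×ˢ T0 := Finset.mem_product.2 ⟨hk, hu⟩
  have h1 : pv (wl k) * pv (wl u) ∈ (K ×ˢ T0).image (fun x => pv (wl x.1) * pv (wl x.2)) ∪
      (K ×ˢ T0).image (fun x => pv (wl (x.1 * x.2))) :=
    Finset.mem_union_left _ (Finset.mem_image.2 ⟨(k, u), hku, rfl⟩)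
  have h2 : pv (wl (k * u)) ∈ (K ×ˢ T0).image (fun x => pv (wl x.1) * pv (wl x.2)) ∪
      (K ×ˢ T0).image (fun x => pv (wl (x.1 * x.2))) :=
    Finset.mem_union_right _ (Finset.mem_image.2 ⟨(k, u), hku, rfl⟩)
  have h3 : ac X (pv (wl k) * pv (wl u)) p = ac X (pv (wl (k * u))) p := by
    refine (hp _ h1 _ h2).2 ?_
    rw [map_mul, hwl, hwl, hwl]
  have h4 : k * u ∈ (K ×ˢ T0).image (fun x => x.1 * x.2) := Finset.mem_image.2 ⟨(k, u), hku, rfl⟩
  have h5 := ht _ h4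
  unfold cf at h5 ⊢
  unfold sf
  rw [← h5, ← h3, map_mul, Equiv.Perm.mul_apply]

theorem lb_cf (g : S → G) (wl : G → List (S × Bool)) (hwl : ∀ k, FreeGroup.lift g (pv (wl k)) = k)
    (D' : Finset G) (β' : (G → A) → Λ) (hβ' : Lc D' β') (K : Finset G) :
    ∃ Z : Finset (FreeGroup S), ∀ (V : Type) (X : S → Equiv.Perm V) (a : V → A) (p : V), Gr g X Z p →
      ∀ k ∈ K, cf X wl (lb X wl β' a) p k = β' (sf k (cf X wl a p)) := by
  classical
  refine ⟨(D' ×ˢ K).image (fun x => pv (wl x.1) * pv (wl x.2)) ∪ (D' ×ˢ K).image (fun x => pv (wl (x.1 * x.2))), ?_⟩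
  intro V X a p hp k hk
  show β' (cf X wl a (ac X (pv (wl k)) p)) = β' (sf k (cf X wl a p))
  apply hβ'
  intro h hh
  have hku : (h, k) ∈ D' ×ˢ K := Finset.mem_product.2 ⟨hh, hk⟩
  have h1 : pv (wl h) * pv (wl k) ∈ (D' ×ˢ K).image (fun x => pv (wl x.1) * pv (wl x.2)) ∪
      (D' ×ˢ K).image (fun x => pv (wl (x.1 * x.2))) :=
    Finset.mem_union_left _ (Finset.mem_image.2 ⟨(h, k), hku, rfl⟩)
  have h2 : pv (wl (h * k)) ∈ (D' ×ˢ K).image (fun x => pv (wl x.1) * pv (wl x.2)) ∪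
      (D' ×ˢ K).image (fun x => pv (wl (x.1 * x.2))) :=
    Finset.mem_union_right _ (Finset.mem_image.2 ⟨(h, k), hku, rfl⟩)
  have h3 : ac X (pv (wl h) * pv (wl k)) p = ac X (pv (wl (h * k))) p := by
    refine (hp _ h1 _ h2).2 ?_
    rw [map_mul, hwl, hwl, hwl]
  show a (ac X (pv (wl h)) (ac X (pv (wl k)) p)) = a (ac X (pv (wl (h * k))) p)
  rw [← h3, map_mul, Equiv.Perm.mul_apply]

end H33.SS
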