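import Pool.Agent.H33.SS.RhoA
import Pool.Agent.H33.SS.ShA
import Pool.Agent.H33.SS.PthA

/-! # SS.RelB : indices at the same point are related

PROOF. (classical) As in RelA: `K` from `rho_ex`, `(Z1, K1)` from `cf_sf` for `K`, `T0`, `(Z2, K2)` from `th_path` for `R`; `Z :=` union of `Z1`, `Z2` and of all words `(pv (wl r'))⁻¹ * pv (wl r)` and `pv (wl k)` for `r, r' ∈ K0`, `k ∈ T0`; the set of the statement is `K ∪ K1 ∪ K2`.
Let `r := rho (cf p) h`, `r' := rho (cf p') h'`; both are in `K0` by `rho_mem`. `k := r'⁻¹ * r ∈ T0`. From the hypothesis `p' = ac X ((pv (wl r'))⁻¹ * pv (wl r)) p = ac X (pv (wl k)) p` by `Gr` (both words have the value `k`). By `rho_ex` at `p`: `θ r = h`. By `cf_sf` the configuration at `p'` agrees on `K` with `sf k t0`, which has the position map `θ' x = θ (x * k) * (θ k)⁻¹` (`leg_sf`); so `rho_ex` gives `θ (r' * k) * (θ k)⁻¹ = h'`, and `r' * k = r`, so `h' = h * (θ k)⁻¹`.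 By `th_path` the factor is `θ k`. -/

set_option autoImplicit false
set_option synthInstance.maxSize 4000

open MeasureTheory H31.BE H33.HN

namespace H33.SS

variable {S G Λ P : Type} [Group G]

theorem rel_of (g : S → G) (wl : G → List (S × Bool)) (hwl : ∀ k, FreeGroup.lift g (pv (wl k)) = k)
    (b : Λ → S → G) (J : G → Finset G) (H0 K0 T0 : Finset G) (hJ : ∀ h ∈ H0, J h ⊆ K0) (h1 : (1 : G) ∈ K0)
    (hT0 : ∀ r ∈ K0, ∀ r' ∈ K0, r'⁻¹ * r ∈ T0) (R : Finset (List (S × Bool))) :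
    ∃ (Z : Finset (FreeGroup S)) (K2 : Finset G), ∀ (V : Type) (X : S → Equiv.Perm V) (l : V → Λ) (p p' : V)
      (t0 : G → Λ) (θ : G → G), Gr g X Z p → (∀ k ∈ K2, cf X wl l p k = t0 k) → Leg g b J t0 θ →
      ∀ h ∈ H0, ∀ h' ∈ H0, ac X (pv (wl (rho g wl b K0 (cf X wl l p) h))) p =
          ac X (pv (wl (rho g wl b K0 (cf X wl l p') h'))) p' →
        ∃ k ∈ T0, ac X (pv (wl k)) p = p' ∧
          ∀ w ∈ R, FreeGroup.lift g (pv w) = k → h = h' * Th X (fun v => b (l v)) (pv w) p := by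
  classical
  obtain ⟨K, hK⟩ := rho_ex g wl hwl b J K0
  obtain ⟨Z1, K1, hZ1⟩ := cf_sf (Λ := Λ) g wl hwl K T0
  obtain ⟨Z2, K2, hZ2⟩ := th_path g wl hwl b J R
  refine ⟨Z1 ∪ Z2 ∪ ((K0 ×ˢ K0).image (fun r => (pv (wl r.2))⁻¹ * pv (wl r.1)) ∪
    T0.image (fun k => pv (wl k))), K ∪ K1 ∪ K2, ?_⟩
  intro V X l p p' t0 θ hGr hcf hL h hh h' hh' he
  have gZ1 : Gr g X Z1 p := gr_mono
    (fun z hz => Finset.mem_union_left _ (Finset.mem_union_left _ hz)) hGr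
  have gZ2 : Gr g X Z2 p := gr_mono
    (fun z hz => Finset.mem_union_left _ (Finset.mem_union_right _ hz)) hGr
  have cK : ∀ k ∈ K, cf X wl l p k = t0 k := fun k hk =>
    hcf k (Finset.mem_union_left _ (Finset.mem_union_left _ hk))
  have cK1 : ∀ k ∈ K1, cf X wl l p k = t0 k := fun k hk =>
    hcf k (Finset.mem_union_left _ (Finset.mem_union_right _ hk))
  have cK2 : ∀ k ∈ K2, cf X wl l p k = t0 k := fun k hk =>
    hcf k (Finset.mem_union_right _ hk)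
  set r := rho g wl b K0 (cf X wl l p) h with hr
  set r' := rho g wl b K0 (cf X wl l p') h' with hr'
  have mr : r ∈ K0 := rho_mem g wl b K0 h1 _ h
  have mr' : r' ∈ K0 := rho_mem g wl b K0 h1 _ h'
  have mk : r'⁻¹ * r ∈ T0 := hT0 r mr r' mr'
  have e1 : ac X ((pv (wl r'))⁻¹ * pv (wl r)) p = p' := by
    rw [map_mul, map_inv, Equiv.Perm.mul_apply, he]
    exact Equiv.symm_apply_apply _ _
  have e2 : ac X ((pv (wl r'))⁻¹ * pv (wl r)) p = ac X (pv (wl (r'⁻¹ * r))) p := by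
    refine (hGr _ (Finset.mem_union_right _ (Finset.mem_union_left _ (Finset.mem_image.2
      ⟨(r, r'), Finset.mem_product.2 ⟨mr, mr'⟩, rfl⟩))) _ (Finset.mem_union_right _
      (Finset.mem_union_right _ (Finset.mem_image.2 ⟨r'⁻¹ * r, mk, rfl⟩)))).2 ?_
    rw [map_mul, map_inv, hwl, hwl, hwl]
  have e3 : ac X (pv (wl (r'⁻¹ * r))) p = p' := e2.symm.trans e1
  have t1 : θ r = h := ((hK H0 hJ _ t0 θ hL cK).2 h hh).2
  have t2 : θ (r' * (r'⁻¹ * r)) * (θ (r'⁻¹ * r))⁻¹ = h' := by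
    refine ((hK H0 hJ (cf X wl l p') (sf (r'⁻¹ * r) t0) _ (leg_sf hL (r'⁻¹ * r)) ?_).2 h' hh').2
    intro k hk
    rw [← e3]
    exact hZ1 V X l p t0 gZ1 cK1 _ mk k hk
  rw [mul_inv_cancel_left, t1] at t2
  refine ⟨r'⁻¹ * r, mk, e3, fun w hw hwk => ?_⟩
  rw [hZ2 V X l p t0 θ gZ2 cK2 hL w hw, hwk, ← t2, inv_mul_cancel_right]

end H33.SS
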