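import Pool.Agent.H33.SS.RelA
import Pool.Agent.H33.SS.RelB
import Pool.Agent.H33.SS.EntU
import Pool.Agent.H33.SS.EntG
import Pool.Agent.H31.BE.EntC

/-! # SS.ChA : the entropy of the array of labels given the skeleton labels

PROOF. (classical) `b' := fun l s => (b l s : G)`. `rel_up` and `rel_of` (for `b'`) give `(Z1, K1)`, `(Z2, K2)`; take the unions. Let `l ω := lb X wl β' (fun v => q (ω v))`; every function of `ω` below is a function of `fun v => q (ω v)`, hence `Fm` by `fm_fun`. Let `m := Fintype.card (↥N × ↥H0)` (at most `card V * H0.card`), `e : ↥N × ↥H0 ≃ Fin m`. By choice `pth : V → G → List (S × Bool)` with the property of `hpath` for all `p ∈ N`, `k ∈ T0` with `ac X (pv (wl k)) p ∈ N`. Apply `ent_u` with `Ω := Bsh V`, `σ := ↥E → ↥Fs`, `s ω := se E b (l ω)`,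
`R x j j' := ∃ k ∈ T0, ac X (pv (wl k)) p = p' ∧ h = h' * Th X (bs x) (pv (pth p k)) p` where `(p, h) = e.symm j`, `(p', h') = e.symm j'`,
`U ω j := Up .. (cf X wl (l ω) p) h`, `good ω j := Gd K TT (cf X wl (l ω) p)`, `φ ω j := ac X (pv (wl (rho g wl b' K0 (cf X wl (l ω) p) h))) p`, `w ω v := π (l ω v)`.
`hu`: definitions of `Up`, `cf`. For `hA` and `hB`: `Gd` gives `t0 ∈ TT` with `cf .. k = t0 k` on `K`, `hTT` gives `θ` with `Leg`; `bs (se E b (l ω))` and `fun v s => (b (l ω v) s : G)` agree on `E`, so by `th_on` the factors `Th X (bs ..) (pv (pth p k)) p` and `Th X (fun v => b' (l ω v)) (pv (pth p k)) p` agree when `On E X (pth p k) p`. `hA` is `rel_up` (with `w := pth p k`, `k := lift g (pv w)`), `hB` is `rel_of`. Finally pass from `Fin m` to `↥N × ↥H0` (`ent_inj` or `ent_comp_le`; the entropy does not change under the bijection `u ↦ u ∘ e`), and bound the last sum by `m * η ≤ card V * H0.card * η`, and `2 * τ * m ≤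 2 * τ * (card V * H0.card)`; `log (card P / τ) ≥ 0`. -/

set_option autoImplicit false
set_option synthInstance.maxSize 4000

open MeasureTheory H31.BE H33.HN

namespace H33.SS

theorem ent_up {S G Λ P : Type} [Group G] [Fintype S] [Finite Λ] [Fintype P] [Nonempty P] (g : S → G)
    (wl : G → List (S × Bool)) (hwl : ∀ k, FreeGroup.lift g (pv (wl k)) = k) {Fs : Finset G} (b : Λ → S → ↥Fs)
    (J : G → Finset G) (H0 K0 T0 : Finset G) (hJ : ∀ h ∈ H0, J h ⊆ K0) (h1 : (1 : G) ∈ K0)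
    (hT0 : ∀ r ∈ K0, ∀ r' ∈ K0, r'⁻¹ * r ∈ T0) (R : Finset (List (S × Bool))) (π : Λ → P) :
    ∃ (Z : Finset (FreeGroup S)) (K : Finset G), ∀ (TT : Set (G → Λ))
      (_ : ∀ t ∈ TT, ∃ θ : G → G, Leg g (fun l s => (b l s : G)) J t θ)
      (V : Type) [Fintype V] (X : S → Equiv.Perm V) (N : Set V) (E : Set (V × S)) (_ : ∀ p ∈ N, Gr g X Z p)
      (_ : ∀ p ∈ N, ∀ k ∈ T0, ac X (pv (wl k)) p ∈ N → ∃ w ∈ R, FreeGroup.lift g (pv w) = k ∧ On E X w p)
      (A : Type) [Finite A] (ν : Measure ℝ) [IsProbabilityMeasure ν] (q : ℝ → A) (_ : Fm q) (β' : (G → A) → Λ)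
      (τ : ℝ) (_ : 0 < τ) (_ : τ ≤ 1 / 2) (qq : P → ℝ) (_ : ∀ a, 0 ≤ qq a) (_ : ∑ a, qq a = 1) (η : ℝ) (_ : 0 ≤ η)
      (_ : ∀ p ∈ N, (bern V ν).real {ω : Bsh V | ¬ Gd K TT (cf X wl (lb X wl β' (fun v => q (ω v))) p)} ≤ η),
      entc (bern V ν)
        (fun (ω : Bsh V) (x : ↥N × ↥H0) => Up g wl (fun l s => (b l s : G)) K0 π
          (cf X wl (lb X wl β' (fun v => q (ω v))) x.1) (x.2 : G))
        (fun ω => se E b (lb X wl β' (fun v => q (ω v)))) ≤
      ∑ v, ∫ ω : Bsh V, -Real.log (qt τ qq (π (lb X wl β' (fun v => q (ω v)) v))) ∂(bern V ν) +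
        2 * τ * (Fintype.card V * H0.card) +
        Real.log (Fintype.card P / τ) * (Fintype.card V * H0.card * η) := by
  classical
  obtain ⟨Z1, K1, hr1⟩ := rel_up g wl hwl (fun l s => (b l s : G)) J H0 K0 T0 hJ R π
  obtain ⟨Z2, K2, hr2⟩ := rel_of g wl hwl (fun l s => (b l s : G)) J H0 K0 T0 hJ h1 hT0 R
  refine ⟨Z1 ∪ Z2, K1 ∪ K2, ?_⟩
  intro TT hTT V _ X N E hN hpath A _ ν _ q hq β' τ h0 h1' qq hqq hsum η hη0 hη
  haveI : Fintype ↥N := Fintype.ofFinite _
  have hm : Fintype.card (↥N × ↥H0) ≤ Fintype.card V * H0.card := by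
    rw [Fintype.card_prod, Fintype.card_coe]
    exact Nat.mul_le_mul_right _ (Fintype.card_le_of_injective (fun x : ↥N => (x : V)) Subtype.val_injective)
  let m := Fintype.card (↥N × ↥H0)
  let e : ↥N × ↥H0 ≃ Fin m := Fintype.equivFin _
  -- the paths
  have hch : ∃ pth : V → G → List (S × Bool), ∀ p ∈ N, ∀ k ∈ T0, ac X (pv (wl k)) p ∈ N →
      pth p k ∈ R ∧ FreeGroup.lift g (pv (pth p k)) = k ∧ On E X (pth p k) p := by
    refine ⟨fun p k => if h : p ∈ N ∧ k ∈ T0 ∧ ac X (pv (wl k)) p ∈ N then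
      (hpath p h.1 k h.2.1 h.2.2).choose else [], ?_⟩
    intro p hp k hk hac
    have hh : p ∈ N ∧ k ∈ T0 ∧ ac X (pv (wl k)) p ∈ N := ⟨hp, hk, hac⟩
    simp only [hh, and_self, dite_true]
    exact (hpath p hp k hk hac).choose_spec
  obtain ⟨pth, hpth⟩ := hch
  let l : Bsh V → V → Λ := fun ω => lb X wl β' (fun v => q (ω v))
  let sf' : Bsh V → (↥E → ↥Fs) := fun ω => se E b (l ω)
  let Rr : (↥E → ↥Fs) → Fin m → Fin m → Prop := fun x j j' =>
    ∃ k ∈ T0, ac X (pv (wl k)) ((e.symm j).1 : V) = ((e.symm j').1 : V) ∧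
      ((e.symm j).2 : G) = ((e.symm j').2 : G) * Th X (bs x) (pv (pth ((e.symm j).1 : V) k)) ((e.symm j).1 : V)
  let U : Bsh V → Fin m → P := fun ω j => Up g wl (fun l s => (b l s : G)) K0 π
    (cf X wl (l ω) ((e.symm j).1 : V)) ((e.symm j).2 : G)
  let good : Bsh V → Fin m → Prop := fun ω j => Gd (K1 ∪ K2) TT (cf X wl (l ω) ((e.symm j).1 : V))
  let φ : Bsh V → Fin m → V := fun ω j => ac X (pv (wl (rho g wl (fun l s => (b l s : G)) K0
    (cf X wl (l ω) ((e.symm j).1 : V)) ((e.symm j).2 : G)))) ((e.symm j).1 : V)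
  let w : Bsh V → V → P := fun ω v => π (l ω v)
  have hU : Fm U := fm_fun q hq (fun a j => Up g wl (fun l s => (b l s : G)) K0 π
    (cf X wl (lb X wl β' a) ((e.symm j).1 : V)) ((e.symm j).2 : G))
  have hs : Fm sf' := fm_fun q hq (fun a => se E b (lb X wl β' a))
  have hg : Fm good := fm_fun q hq (fun a j => Gd (K1 ∪ K2) TT (cf X wl (lb X wl β' a) ((e.symm j).1 : V)))
  have hw : Fm w := fm_fun q hq (fun a v => π (lb X wl β' a v))
  have hTh : ∀ (ω : Bsh V) (wd : List (S × Bool)) (p : V), On E X wd p →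
      Th X (bs (sf' ω)) (pv wd) p = Th X (fun v s => (b (l ω v) s : G)) (pv wd) p := by
    intro ω wd p hon
    refine th_on X _ _ E ?_ wd p hon
    intro v s hvs
    simp only [bs, hvs, dite_true]
    rfl
  have hA : ∀ ω j j', good ω j → Rr (sf' ω) j j' → U ω j = U ω j' := by
    intro ω j j' hgd hR
    obtain ⟨t0, ht0, hk0⟩ := hgd
    obtain ⟨θ, hθ⟩ := hTT t0 ht0
    obtain ⟨k, hk, hac, hh⟩ := hR
    have hjN : ((e.symm j).1 : V) ∈ N := (e.symm j).1.2
    have hjN' : ac X (pv (wl k)) ((e.symm j).1 : V) ∈ N := by rw [hac]; exact (e.symm j').1.2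
    obtain ⟨hp1, hp2, hp3⟩ := hpth _ hjN k hk hjN'
    rw [hTh ω _ _ hp3] at hh
    have hfin := hr1 V X (l ω) ((e.symm j).1 : V) t0 θ
      (gr_mono Finset.subset_union_left (hN _ hjN)) (fun x hx => hk0 x (Finset.mem_union_left _ hx)) hθ
      k hk (pth ((e.symm j).1 : V) k) hp1 hp2 ((e.symm j).2 : G) (e.symm j).2.2 ((e.symm j').2 : G)
      (e.symm j').2.2 hh
    rw [hac] at hfin
    exact hfin
  have hB : ∀ ω j j', good ω j → j ≠ j' → φ ω j = φ ω j' → Rr (sf' ω) j j' := by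
    intro ω j j' hgd _ hφ
    obtain ⟨t0, ht0, hk0⟩ := hgd
    obtain ⟨θ, hθ⟩ := hTT t0 ht0
    have hjN : ((e.symm j).1 : V) ∈ N := (e.symm j).1.2
    obtain ⟨k, hk, hac, hww⟩ := hr2 V X (l ω) ((e.symm j).1 : V) ((e.symm j').1 : V) t0 θ
      (gr_mono Finset.subset_union_right (hN _ hjN)) (fun x hx => hk0 x (Finset.mem_union_right _ hx)) hθ
      ((e.symm j).2 : G) (e.symm j).2.2 ((e.symm j').2 : G) (e.symm j').2.2 hφ
    have hjN' : ac X (pv (wl k)) ((e.symm j).1 : V) ∈ N := by rw [hac]; exact (e.symm j').1.2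
    obtain ⟨hp1, hp2, hp3⟩ := hpth _ hjN k hk hjN'
    refine ⟨k, hk, hac, ?_⟩
    rw [hTh ω _ _ hp3]
    exact hww _ hp1 hp2
  have key := ent_u (PP := bern V ν) h0 h1' hqq hsum Rr U hU sf' hs good hg φ w hw (fun ω j => rfl) hA hB
  -- from `Fin m` to the product
  have e1 : (fun (ω : Bsh V) (x : ↥N × ↥H0) => Up g wl (fun l s => (b l s : G)) K0 π
          (cf X wl (lb X wl β' (fun v => q (ω v))) x.1) (x.2 : G)) = fun ω => (fun u : Fin m → P => fun x => u (e x)) (U ω) := by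
    funext ω x
    show _ = Up g wl (fun l s => (b l s : G)) K0 π (cf X wl (l ω) ((e.symm (e x)).1 : V)) ((e.symm (e x)).2 : G)
    rw [Equiv.symm_apply_apply]
  rw [e1]
  have h2 := entc_comp_left (P := bern V ν) hU hs (fun u : Fin m → P => fun x : ↥N × ↥H0 => u (e x))
  refine h2.trans (key.trans ?_)
  have hP1 : (1 : ℝ) ≤ Fintype.card P := by exact_mod_cast Fintype.card_pos
  have hlog : 0 ≤ Real.log (Fintype.card P / τ) := by
    apply Real.log_nonneg
    rw [le_div_iff₀ h0]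
    linarith
  have hmR : (m : ℝ) ≤ Fintype.card V * H0.card := by exact_mod_cast hm
  have hsumle : ∑ j, (bern V ν).real {ω | ¬ good ω j} ≤ Fintype.card V * H0.card * η := by
    calc ∑ j, (bern V ν).real {ω | ¬ good ω j} ≤ ∑ _j : Fin m, η :=
          Finset.sum_le_sum (fun j _ => hη _ (e.symm j).1.2)
      _ = m * η := by rw [Finset.sum_const, Finset.card_univ, Fintype.card_fin, nsmul_eq_mul]
      _ ≤ _ := mul_le_mul_of_nonneg_right hmR hη0
  have h3 : 2 * τ * (m : ℝ) ≤ 2 * τ * (Fintype.card V * H0.card) :=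
    mul_le_mul_of_nonneg_left hmR (by linarith)
  have h4 := mul_le_mul_of_nonneg_left hsumle hlog
  linarith

end H33.SS
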