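import Pool.Agent.H33.SS.Defs
import Pool.Agent.H31.BE.EntF
import Pool.Agent.H31.BE.EntD

/-! # SS.DecV : the entropy of the field given decodable data (abstract form)

PROOF. `entc_small` (H31/BE/EntF) for `Γ`, `ε` gives `δ`. `entc_pi_le`: `entc P (Γ field) Y ≤ ∑ v, entc P (Γ · v) Y`. For `v ∈ cov`: `entc P (f v) Y ≤ entc P (f v) (dec v ∘ Y)` (`entc_anti`) `≤ ε` by the choice of `δ`. For `v ∉ cov`: `entc ≤ ent ≤ log (card Γ)` (`entc_le_ent`, `ent_le_log_card`). Sum: `card V * ε + {v | v ∉ cov}.ncard * log (card Γ)`. -/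

set_option autoImplicit false
set_option synthInstance.maxSize 4000

open MeasureTheory H31.BE H33.HN

namespace H33.SS

theorem dec_sum (Γ : Type) [Finite Γ] (ε : ℝ) (hε : 0 < ε) :
    ∃ δ : ℝ, 0 < δ ∧ ∀ (Ω V β : Type) [MeasurableSpace Ω] [Fintype V] [Finite β] (P : Measure Ω)
      [IsProbabilityMeasure P] (f : Ω → V → Γ) (_ : Fm f) (Y : Ω → β) (_ : Fm Y) (dec : V → β → Γ) (cov : Set V),
      (∀ v ∈ cov, P.real {ω | f ω v ≠ dec v (Y ω)} ≤ δ) →
      entc P f Y ≤ Fintype.card V * ε + ({v | v ∉ cov}.ncard : ℝ) * Real.log (Nat.card Γ) := by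
  classical
  obtain ⟨δ, hδ, h⟩ := entc_small Γ ε hε
  refine ⟨δ, hδ, ?_⟩
  intro Ω V β _ _ _ P _ f hf Y hY dec cov hcov
  have hfv : ∀ v, Fm (fun ω => f ω v) := fun v => hf.comp (fun x : V → Γ => x v)
  have h1 : entc P f Y ≤ ∑ v, entc P (fun ω => f ω v) Y := entc_pi_le (P := P) hfv hY
  refine h1.trans ?_
  have h2 : ∀ v, entc P (fun ω => f ω v) Y ≤ ε + (if v ∉ cov then Real.log (Nat.card Γ) else 0) := by
    intro v
    by_cases hv : v ∈ cov
    · rw [if_neg (not_not.2 hv), add_zero]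
      exact (entc_anti (P := P) (hfv v) hY (dec v)).trans
        (h Ω P (fun ω => f ω v) (fun ω => dec v (Y ω)) (hfv v) (hY.comp (dec v)) (hcov v hv))
    · rw [if_pos hv]
      have h3 := (entc_le_ent (P := P) (hfv v) hY).trans (ent_le_log_card (P := P) (fun ω => f ω v) (hfv v))
      linarith
  refine (Finset.sum_le_sum fun v (_ : v ∈ Finset.univ) => h2 v).trans (le_of_eq ?_)
  rw [Finset.sum_add_distrib, Finset.sum_const, nsmul_eq_mul, Finset.card_univ, ← Finset.sum_filter,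
    Finset.sum_const, nsmul_eq_mul]
  congr 3
  rw [← Set.ncard_coe_finset]
  congr 1
  ext v
  simp

end H33.SS
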