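import Pool.Agent.H33.SS.Defs
import Pool.Agent.H31.BE.Bern

/-! # SS.LawT : law of a local function at a good point of a finite structure

PROOF. (classical) `Z := ` all words `pv (wl k)`, `k ∈ D`. Let `x k := ac X (pv (wl k)) p`; by `Gr` and `hwl` it is injective on `D`. The function `k ↦ k⁻¹` is injective; `tq q y k = q ((k • y) 1) = q (y (k⁻¹ * 1))`. For `c : ↥D → A`: the probability of `∀ k : ↥D, q (ω (x k)) = c k` under `bern V ν` and the probability of `∀ k : ↥D, q (y k⁻¹) = c k` under `bern G ν` are both `∏ k : ↥D, ν (q ⁻¹' {c k})`: write the event as a rectangle over the finset `D.image x` (resp. `D.image (·⁻¹)`) and use `Measure.infinitePi_pi` (as in `bern_pi` of H31/BE/Bern; `bern V ν` is defined for every type `V`) and `Finset.prod_image`. Extend `c : ↥D → A` by a constant (`A` is nonempty: `q 0`) to `G`; by `hF`, `F (..) ∈ s` depends on the restriction to `D` only, and both sides of the statement are the sum over the `c` with `F (extension of c) ∈ s` of these probabilities (finite disjoint unions;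 `measureReal_biUnion_finset` or `MeasureTheory.measureReal` additivity). -/

set_option autoImplicit false
set_option synthInstance.maxSize 4000

open MeasureTheory H31.BE H33.HN

namespace H33.SS

/-- the law of finitely many labels at different points -/
private theorem LawT_pt {W K A : Type} [Fintype K] (ν : Measure ℝ) [IsProbabilityMeasure ν] (q : ℝ → A)
    (hq : Fm q) (x : K → W) (hx : Function.Injective x) (c : K → A) :
    MeasurableSet {ω : Bsh W | ∀ k, q (ω (x k)) = c k} ∧
    (bern W ν).real {ω : Bsh W | ∀ k, q (ω (x k)) = c k} = ∏ k : K, (ν (q ⁻¹' {c k})).toReal := by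
  classical
  have ht : ∀ w : W, MeasurableSet {r : ℝ | ∀ k, x k = w → q r = c k} := by
    intro w
    have h1 : {r : ℝ | ∀ k, x k = w → q r = c k} = ⋂ k, {r : ℝ | x k = w → q r = c k} := by
      ext r
      simp
    rw [h1]
    refine MeasurableSet.iInter fun k => ?_
    by_cases h : x k = w
    · have h2 : {r : ℝ | x k = w → q r = c k} = q ⁻¹' {c k} := by
        ext r
        simp [h]
      rw [h2]
      exact hq _
    · have h2 : {r : ℝ | x k = w → q r = c k} = Set.univ := by
        ext r
        simp [h]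
      rw [h2]
      exact MeasurableSet.univ
  have hset : {ω : Bsh W | ∀ k, q (ω (x k)) = c k} =
      Set.pi (↑(Finset.univ.image x)) (fun w => {r : ℝ | ∀ k, x k = w → q r = c k}) := by
    ext ω
    constructor
    · intro h
      refine Set.mem_pi.2 fun w _ k hk => ?_
      rw [← hk]
      exact h k
    · intro h k
      exact Set.mem_pi.1 h (x k) (by simp) k rfl
  have hm : MeasurableSet {ω : Bsh W | ∀ k, q (ω (x k)) = c k} := by
    rw [hset]
    exact MeasurableSet.pi (Finset.countable_toSet _) fun w _ => ht w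
  refine ⟨hm, ?_⟩
  rw [measureReal_def, hset]
  have h3 : bern W ν (Set.pi (↑(Finset.univ.image x))
      (fun w => {r : ℝ | ∀ k, x k = w → q r = c k})) =
      ∏ w ∈ Finset.univ.image x, ν {r : ℝ | ∀ k, x k = w → q r = c k} :=
    Measure.infinitePi_pi (fun _ : W => ν) (s := Finset.univ.image x) (fun w _ => ht w)
  rw [h3, Finset.prod_image fun a _ b _ h => hx h, ENNReal.toReal_prod]
  refine Finset.prod_congr rfl fun k _ => ?_
  congr 2
  ext r
  simp only [Set.mem_ofPred_eq, Set.mem_preimage, Set.mem_singleton_iff]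
  constructor
  · intro h
    exact h k rfl
  · intro h k' hk'
    rw [hx hk']
    exact h

private theorem LawT_set {W K A : Type} [Fintype K] [Finite A] (ν : Measure ℝ)
    [IsProbabilityMeasure ν] (q : ℝ → A) (hq : Fm q) (x : K → W) (hx : Function.Injective x)
    (s : Set (K → A)) (T : Finset (K → A)) (hT : ∀ c, c ∈ T ↔ c ∈ s) :
    (bern W ν).real {ω : Bsh W | (fun k => q (ω (x k))) ∈ s} =
      ∑ c ∈ T, ∏ k : K, (ν (q ⁻¹' {c k})).toReal := by
  classical
  have h1 : {ω : Bsh W | (fun k => q (ω (x k))) ∈ s} =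
      ⋃ c ∈ T, {ω : Bsh W | ∀ k, q (ω (x k)) = c k} := by
    ext ω
    simp only [Set.mem_ofPred_eq, Set.mem_iUnion, exists_prop]
    constructor
    · intro h
      exact ⟨_, (hT _).2 h, fun k => rfl⟩
    · rintro ⟨c, hc, h⟩
      have h2 : (fun k => q (ω (x k))) = c := funext h
      rw [h2]
      exact (hT c).1 hc
  rw [h1, measureReal_biUnion_finset]
  · exact Finset.sum_congr rfl fun c _ => (LawT_pt ν q hq x hx c).2
  · intro c _ c' _ hne
    change Disjoint _ _
    rw [Set.disjoint_left]
    intro ω h h'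
    exact hne (funext fun k => (h k).symm.trans (h' k))
  · exact fun c _ => (LawT_pt ν q hq x hx c).1

theorem law_t {S G A B : Type} [Group G] [Finite A] (g : S → G) (wl : G → List (S × Bool))
    (hwl : ∀ k, FreeGroup.lift g (pv (wl k)) = k) (ν : Measure ℝ) [IsProbabilityMeasure ν] (q : ℝ → A) (hq : Fm q)
    (F : (G → A) → B) (D : Finset G) (hF : Lc D F) :
    ∃ Z : Finset (FreeGroup S), ∀ (V : Type) [Fintype V] (X : S → Equiv.Perm V) (p : V), Gr g X Z p →
      ∀ s : Set B, (bern V ν).real {ω : Bsh V | F (cf X wl (fun v => q (ω v)) p) ∈ s} =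
        (bern G ν).real {y : Bsh G | F (tq q y) ∈ s} := by
  classical
  refine ⟨D.image fun k => pv (wl k), fun V _ X p hGr s => ?_⟩
  let E : (↥D → A) → (G → A) := fun c k => if h : k ∈ D then c ⟨k, h⟩ else q 0
  have hE : ∀ (t : G → A), F t = F (E fun k => t k) := by
    intro t
    refine hF _ _ fun k hk => ?_
    change t k = if h : k ∈ D then t k else q 0
    rw [dif_pos hk]
  have hx : Function.Injective (fun k : ↥D => ac X (pv (wl k)) p) := by
    intro k k' h
    have h1 := (hGr _ (Finset.mem_image.2 ⟨k, k.2, rfl⟩) _ (Finset.mem_image.2 ⟨k', k'.2, rfl⟩)).1 h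
    rw [hwl, hwl] at h1
    exact Subtype.ext h1
  have hx' : Function.Injective (fun k : ↥D => (k : G)⁻¹ * 1) := by
    intro k k' h
    have h1 : (k : G)⁻¹ = (k' : G)⁻¹ := mul_right_cancel h
    exact Subtype.ext (inv_injective h1)
  have hfin : (Set.univ : Set (↥D → A)).Finite := Set.toFinite _
  let T : Finset (↥D → A) := hfin.toFinset.filter fun c => F (E c) ∈ s
  have hT : ∀ c, c ∈ T ↔ c ∈ {c : ↥D → A | F (E c) ∈ s} := by
    intro c
    simp [T]
  have e1 : {ω : Bsh V | F (cf X wl (fun v => q (ω v)) p) ∈ s} =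
      {ω : Bsh V | (fun k : ↥D => q (ω (ac X (pv (wl k)) p))) ∈ {c : ↥D → A | F (E c) ∈ s}} := by
    ext ω
    simp only [Set.mem_ofPred_eq]
    rw [hE (cf X wl (fun v => q (ω v)) p)]
    rfl
  have e2 : {y : Bsh G | F (tq q y) ∈ s} =
      {y : Bsh G | (fun k : ↥D => q (y ((k : G)⁻¹ * 1))) ∈ {c : ↥D → A | F (E c) ∈ s}} := by
    ext y
    simp only [Set.mem_ofPred_eq]
    rw [hE (tq q y)]
    rfl
  rw [e1, e2, LawT_set ν q hq _ hx _ T hT, LawT_set ν q hq _ hx' _ T hT]

end H33.SS
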