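import Pool.Agent.H33.SS.UpL
import Pool.Agent.H33.SS.LawT
import Pool.Agent.H33.SS.DecV
import Pool.Agent.H33.SS.EntG

/-! # SS.ChB : decoding the base labels from the array

PROOF. (classical) `dec_sum` (DecV) for `Γ` and `ε` gives `δ1`. Given the data: `K` from `up_loc`; `Z1` from `lb_cf` for `D'`, `β'`, `K`. For `d ∈ D` let `F_d a := (pr (a (lift g d)) ≠ ψ (fun h => Up .. (fun k => β' (sf k a)) h) d)` (a `Prop`); it depends on the coordinates `lift g d` and `h * k`, `h ∈ D'`, `k ∈ K` only (`up_loc`, `hβ'`); `Z_d` from `law_t`. `Z :=` the union of `Z1`, the `Z_d` and of the words `d`, `pv (wl (lift g d))`, `d ∈ D`.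
Let `l ω := lb X wl β' (fun v => q (ω v))`. For a point `v = ac X d p`, `p ∈ N`, `d ∈ D` (choose `p`, `d` for every `v` in `cov := {v | ∃ p ∈ N, ∃ d ∈ D, ac X d p = v}`) let `dec v u := ψ (fun h => u (p, h)) d`. With `a := cf X wl (fun v => q (ω v)) p`: `cf X wl (l ω) p k = β' (sf k a)` for `k ∈ K` (`lb_cf`), so `Up .. (cf X wl (l ω) p) h = Up .. (fun k => β' (sf k a)) h`; `q (ω v) = a (lift g d)` since `ac X d p = ac X (pv (wl (lift g d))) p` by `Gr`. So `{pr (q (ω v)) ≠ dec v (U ω)} = {F_d a}` which has the probability `≤ δ1` by `law_t` and the hypothesis. The array is `Fm` by `fm_fun`. -/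

set_option autoImplicit false
set_option synthInstance.maxSize 4000

open MeasureTheory H31.BE H33.HN

namespace H33.SS

theorem dec_ent {S G Λ P Γ : Type} [Group G] [Fintype S] [Finite Λ] [Finite P] [Finite Γ] (g : S → G)
    (wl : G → List (S × Bool)) (hwl : ∀ k, FreeGroup.lift g (pv (wl k)) = k) (b : Λ → S → G) (H0 K0 : Finset G)
    (π : Λ → P) (D : Finset (FreeGroup S)) (ε : ℝ) (hε : 0 < ε) (δ1 : ℝ)
    (hδ1 : ∀ (Ω V β : Type) [MeasurableSpace Ω] [Fintype V] [Finite β] (P : Measure Ω)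
      [IsProbabilityMeasure P] (f : Ω → V → Γ) (_ : Fm f) (Y : Ω → β) (_ : Fm Y) (dec : V → β → Γ) (cov : Set V),
      (∀ v ∈ cov, P.real {ω | f ω v ≠ dec v (Y ω)} ≤ δ1) →
      entc P f Y ≤ Fintype.card V * ε + ({v | v ∉ cov}.ncard : ℝ) * Real.log (Nat.card Γ))
    (ψ : (↥H0 → P) → FreeGroup S → Γ) (A : Type) [Finite A] (ν : Measure ℝ) [IsProbabilityMeasure ν] (q : ℝ → A)
    (hq : Fm q) (pr : A → Γ) (D' : Finset G) (β' : (G → A) → Λ) (hβ' : Lc D' β')
    (he : ∀ d ∈ D, (bern G ν).real {y | pr (tq q y (FreeGroup.lift g d)) ≠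
      ψ (fun h => Up g wl b K0 π (fun k => β' (sf k (tq q y))) h) d} ≤ δ1) :
    ∃ Z : Finset (FreeGroup S), ∀ (V : Type) [Fintype V] (X : S → Equiv.Perm V) (N : Set V)
      (_ : ∀ p ∈ N, Gr g X Z p),
      entc (bern V ν) (fun (ω : Bsh V) (v : V) => pr (q (ω v)))
        (fun (ω : Bsh V) (x : ↥N × ↥H0) => Up g wl b K0 π (cf X wl (lb X wl β' (fun v => q (ω v))) x.1) (x.2 : G)) ≤
      Fintype.card V * ε + ({v | ¬ ∃ p ∈ N, ∃ d ∈ D, ac X d p = v}.ncard : ℝ) * Real.log (Nat.card Γ) := by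
  classical
  obtain ⟨K, hK⟩ := up_loc g wl b K0 π
  obtain ⟨Z1, hZ1⟩ := lb_cf g wl hwl D' β' hβ' K
  have hL : ∀ d : FreeGroup S, Lc (insert (FreeGroup.lift g d)
      ((D' ×ˢ K).image fun x : G × G => x.1 * x.2))
      (fun a : G → A => pr (a (FreeGroup.lift g d)) ≠
        ψ (fun h => Up g wl b K0 π (fun k => β' (sf k a)) h) d) := by
    intro d t t' htt
    have h1 : t (FreeGroup.lift g d) = t' (FreeGroup.lift g d) :=
      htt _ (Finset.mem_insert_self _ _)
    have h2 : ∀ k ∈ K, β' (sf k t) = β' (sf k t') := by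
      intro k hk
      refine hβ' _ _ ?_
      intro h hh
      exact htt _ (Finset.mem_insert_of_mem
        (Finset.mem_image.2 ⟨(h, k), Finset.mem_product.2 ⟨hh, hk⟩, rfl⟩))
    have h3 : ∀ h, Up g wl b K0 π (fun k => β' (sf k t)) h =
        Up g wl b K0 π (fun k => β' (sf k t')) h := hK _ _ h2
    show (pr (t (FreeGroup.lift g d)) ≠ ψ (fun h : ↥H0 =>
        Up g wl b K0 π (fun k => β' (sf k t)) (h : G)) d) =
      (pr (t' (FreeGroup.lift g d)) ≠ ψ (fun h : ↥H0 =>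
        Up g wl b K0 π (fun k => β' (sf k t')) (h : G)) d)
    have h4 : (fun h : ↥H0 => Up g wl b K0 π (fun k => β' (sf k t)) (h : G)) =
        (fun h : ↥H0 => Up g wl b K0 π (fun k => β' (sf k t')) (h : G)) := by
      funext h
      exact h3 h
    rw [h1, h4]
  have hlaw := fun d : FreeGroup S => law_t g wl hwl ν q hq _ _ (hL d)
  choose Zf hZf using hlaw
  refine ⟨Z1 ∪ D.biUnion Zf ∪ (D ∪ D.image fun d => pv (wl (FreeGroup.lift g d))), ?_⟩
  intro V _ X N hN
  have hch : ∀ v : V, ∃ (p : V) (d : FreeGroup S), v ∈ {v | ∃ p ∈ N, ∃ d ∈ D, ac X d p = v} →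
      (p ∈ N ∧ d ∈ D ∧ ac X d p = v) := by
    intro v
    by_cases hv : v ∈ {v | ∃ p ∈ N, ∃ d ∈ D, ac X d p = v}
    · obtain ⟨p, hp, d, hd, h⟩ := hv
      exact ⟨p, d, fun _ => ⟨hp, hd, h⟩⟩
    · exact ⟨v, 1, fun h => absurd h hv⟩
  choose pf df hpd using hch
  refine hδ1 (Bsh V) V (↥N × ↥H0 → P) (bern V ν) (fun (ω : Bsh V) (v : V) => pr (q (ω v)))
    (fm_fun q hq (fun t v => pr (t v)))
    (fun (ω : Bsh V) (x : ↥N × ↥H0) =>
      Up g wl b K0 π (cf X wl (lb X wl β' (fun v => q (ω v))) x.1) (x.2 : G))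
    (fm_fun q hq (fun t (x : ↥N × ↥H0) =>
      Up g wl b K0 π (cf X wl (lb X wl β' t) x.1) (x.2 : G)))
    (fun v u => if hv : pf v ∈ N then ψ (fun h => u (⟨pf v, hv⟩, h)) (df v) else pr (q 0))
    {v | ∃ p ∈ N, ∃ d ∈ D, ac X d p = v} ?_
  intro v hv
  obtain ⟨hp, hd, hac⟩ := hpd v hv
  have hG := hN (pf v) hp
  have hG1 : Gr g X Z1 (pf v) := gr_mono (fun z hz =>
    Finset.mem_union_left _ (Finset.mem_union_left _ hz)) hG
  have hG2 : Gr g X (Zf (df v)) (pf v) := gr_mono (fun z hz =>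
    Finset.mem_union_left _ (Finset.mem_union_right _
      (Finset.mem_biUnion.2 ⟨df v, hd, hz⟩))) hG
  have hpt : ac X (pv (wl (FreeGroup.lift g (df v)))) (pf v) = v := by
    refine Eq.trans ?_ hac
    refine ((hG (df v) ?_ (pv (wl (FreeGroup.lift g (df v)))) ?_).2 (hwl _).symm).symm
    · exact Finset.mem_union_right _ (Finset.mem_union_left _ hd)
    · exact Finset.mem_union_right _ (Finset.mem_union_right _
        (Finset.mem_image_of_mem _ hd))
  have h1 := hZf (df v) V X (pf v) hG2 {True}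
  have h2 : {y : Bsh G | (pr (tq q y (FreeGroup.lift g (df v))) ≠
      ψ (fun h => Up g wl b K0 π (fun k => β' (sf k (tq q y))) h) (df v)) ∈ ({True} : Set Prop)} =
      {y | pr (tq q y (FreeGroup.lift g (df v))) ≠
      ψ (fun h => Up g wl b K0 π (fun k => β' (sf k (tq q y))) h) (df v)} := by
    ext y
    rw [Set.mem_ofPred_eq, Set.mem_ofPred_eq, Set.mem_singleton_iff, eq_iff_iff, iff_true]
  have h3 : {ω : Bsh V | pr (q (ω v)) ≠
      (if hv : pf v ∈ N then ψ (fun h => (fun (x : ↥N × ↥H0) =>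
        Up g wl b K0 π (cf X wl (lb X wl β' (fun v => q (ω v))) x.1) (x.2 : G))
        (⟨pf v, hv⟩, h)) (df v) else pr (q 0))} =
      {ω : Bsh V | (pr (cf X wl (fun v => q (ω v)) (pf v) (FreeGroup.lift g (df v))) ≠
        ψ (fun h => Up g wl b K0 π (fun k => β' (sf k (cf X wl (fun v => q (ω v)) (pf v)))) h)
          (df v)) ∈ ({True} : Set Prop)} := by
    ext ω
    rw [Set.mem_ofPred_eq, Set.mem_ofPred_eq, Set.mem_singleton_iff, eq_iff_iff, iff_true,
      dif_pos hp]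
    have h4 : cf X wl (fun v => q (ω v)) (pf v) (FreeGroup.lift g (df v)) = q (ω v) := by
      unfold cf
      rw [hpt]
    have h5 : (fun h : ↥H0 => Up g wl b K0 π
        (cf X wl (lb X wl β' (fun v => q (ω v))) (pf v)) (h : G)) =
        (fun h : ↥H0 => Up g wl b K0 π
          (fun k => β' (sf k (cf X wl (fun v => q (ω v)) (pf v)))) (h : G)) := by
      funext h
      exact hK _ _ (hZ1 V X (fun v => q (ω v)) (pf v) hG1) h
    rw [h4]
    show (pr (q (ω v)) ≠ ψ (fun h : ↥H0 => Up g wl b K0 π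
        (cf X wl (lb X wl β' (fun v => q (ω v))) (pf v)) (h : G)) (df v)) ↔ _
    rw [h5]
  have h6 := he (df v) hd
  rw [← h2] at h6
  refine le_trans (le_of_eq ?_) h6
  rw [← h1]
  exact congrArg _ h3

end H33.SS
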