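import Pool.Agent.H33.SS.ShA
import Pool.Agent.H33.SS.LawT
import Pool.Agent.H33.SS.EntG
import Pool.Agent.H33.HN.CeA

/-! # SS.ChC : probabilities and costs at good points

PROOF. (classical) `gd_tr`: `Z1` from `lb_cf` for `K`; the function `a ↦ (Gd K TT (fun k => β' (sf k a)))` depends on the coordinates `h * k`, `h ∈ D'`, `k ∈ K` only; `Z2` from `law_t`; for `p` with `Gr`: `Gd K TT (cf X wl (lb ..) p) ↔ Gd K TT (fun k => β' (sf k (cf X wl (fun v => q (ω v)) p)))` (`Gd` depends on the values on `K` only).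
`cost_tr`: `Z` from `law_t` for `F := β'` (`lb X wl β' a v = β' (cf X wl a v)` by definition). Both integrals are `∑ x, prob (.. = x) * c x` (integral of a finite valued function; `Fm`). -/

set_option autoImplicit false
set_option synthInstance.maxSize 4000

open MeasureTheory H31.BE H33.HN

namespace H33.SS

private theorem chC_gd {G Λ : Type} (K : Finset G) (TT : Set (G → Λ)) {t t' : G → Λ} (h : ∀ k ∈ K, t k = t' k) :
    Gd K TT t ↔ Gd K TT t' := by
  constructor
  · rintro ⟨t0, h0, h1⟩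
    exact ⟨t0, h0, fun k hk => (h k hk).symm.trans (h1 k hk)⟩
  · rintro ⟨t0, h0, h1⟩
    exact ⟨t0, h0, fun k hk => (h k hk).trans (h1 k hk)⟩

private theorem chC_integral {Ω β : Type} [MeasurableSpace Ω] [Finite β] (P : Measure Ω) [IsProbabilityMeasure P]
    {g : Ω → β} (hg : Fm g) (φ : β → ℝ) :
    ∫ ω, φ (g ω) ∂P = @Finset.sum β ℝ _ (@Finset.univ β (Fintype.ofFinite β))
      fun b => P.real (g ⁻¹' {b}) * φ b := by
  classical
  letI := Fintype.ofFinite β
  have h1 : ∀ ω, φ (g ω) = ∑ b, (g ⁻¹' {b}).indicator (fun _ => φ b) ω := by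
    intro ω
    rw [Finset.sum_eq_single (g ω)]
    · simp
    · intro b _ hb
      exact Set.indicator_of_notMem (fun h => hb h.symm) _
    · intro h
      exact absurd (Finset.mem_univ _) h
  simp_rw [h1]
  rw [integral_finset_sum]
  · refine Finset.sum_congr rfl fun b _ => ?_
    rw [integral_indicator_const _ (hg b), smul_eq_mul]
  · intro b _
    exact (integrable_const (φ b)).indicator (hg b)

theorem gd_tr {S G Λ : Type} [Group G] [Fintype S] [Finite Λ] (g : S → G)
    (wl : G → List (S × Bool)) (hwl : ∀ k, FreeGroup.lift g (pv (wl k)) = k) (K : Finset G) (TT : Set (G → Λ))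
    (A : Type) [Finite A] (ν : Measure ℝ) [IsProbabilityMeasure ν] (q : ℝ → A)
    (hq : Fm q) (D' : Finset G) (β' : (G → A) → Λ) (hβ' : Lc D' β') :
    ∃ Z : Finset (FreeGroup S), ∀ (V : Type) [Fintype V] (X : S → Equiv.Perm V) (p : V) (_ : Gr g X Z p),
      (bern V ν).real {ω : Bsh V | ¬ Gd K TT (cf X wl (lb X wl β' (fun v => q (ω v))) p)} =
        (bern G ν).real {y | ¬ Gd K TT (fun k => β' (sf k (tq q y)))} := by
  classical
  have hF : Lc ((D' ×ˢ K).image fun x => x.1 * x.2) (fun t : G → A => Gd K TT (fun k => β' (sf k t))) := by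
    intro t t' h
    refine propext (chC_gd K TT fun k hk => ?_)
    refine hβ' _ _ fun d hd => ?_
    exact h _ (Finset.mem_image.2 ⟨(d, k), Finset.mem_product.2 ⟨hd, hk⟩, rfl⟩)
  obtain ⟨Z2, hZ2⟩ := law_t g wl hwl ν q hq (fun t : G → A => Gd K TT (fun k => β' (sf k t))) _ hF
  obtain ⟨Z1, hZ1⟩ := lb_cf g wl hwl D' β' hβ' K
  refine ⟨Z1 ∪ Z2, fun V _ X p hp => ?_⟩
  have h2 := hZ2 V X p (gr_mono Finset.subset_union_right hp) {P | ¬ P}
  have h3 : {ω : Bsh V | ¬ Gd K TT (cf X wl (lb X wl β' (fun v => q (ω v))) p)} =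
      {ω : Bsh V | (Gd K TT (fun k => β' (sf k (cf X wl (fun v => q (ω v)) p)))) ∈ {P : Prop | ¬ P}} := by
    ext ω
    exact not_congr (chC_gd K TT fun k hk =>
      hZ1 V X (fun v => q (ω v)) p (gr_mono Finset.subset_union_left hp) k hk)
  rw [h3]
  exact h2

theorem cost_tr {S G Λ : Type} [Group G] [Fintype S] [Finite Λ] (g : S → G)
    (wl : G → List (S × Bool)) (hwl : ∀ k, FreeGroup.lift g (pv (wl k)) = k)
    (A : Type) [Finite A] (ν : Measure ℝ) [IsProbabilityMeasure ν] (q : ℝ → A)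
    (hq : Fm q) (D' : Finset G) (β' : (G → A) → Λ) (hβ' : Lc D' β') (c : Λ → ℝ) :
    ∃ Z : Finset (FreeGroup S), ∀ (V : Type) [Fintype V] (X : S → Equiv.Perm V) (v : V) (_ : Gr g X Z v),
      ∫ ω : Bsh V, c (lb X wl β' (fun v => q (ω v)) v) ∂(bern V ν) = ∫ y, c (β' (tq q y)) ∂(bern G ν) := by
  classical
  obtain ⟨Z, hZ⟩ := law_t g wl hwl ν q hq β' D' hβ'
  refine ⟨Z, fun V _ X v hv => ?_⟩
  have hcount : Countable G := by
    have hs : Function.Surjective (fun w : List (S × Bool) => FreeGroup.lift g (pv w)) := fun k => ⟨wl k, hwl k⟩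
    exact hs.countable
  have h1 : Fm (fun ω : Bsh V => lb X wl β' (fun v => q (ω v)) v) :=
    fm_fun q hq (fun a : V → A => lb X wl β' a v)
  have h2 : Fm (fun y : Bsh G => β' (tq q y)) := fm_lc q hq D' β' hβ'
  rw [chC_integral (bern V ν) h1 c, chC_integral (bern G ν) h2 c]
  refine Finset.sum_congr rfl fun b _ => ?_
  congr 1
  exact hZ V X v hv {b}

end H33.SS
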