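import Pool.Agent.H33.SS.ChA
import Pool.Agent.H33.SS.ChB
import Pool.Agent.H33.SS.ChC

/-! # SS.ChD : the chain of entropies in a finite structure

PROOF. (classical) `(Z1, K)` from `ent_up`; the `K` of the statement is this `K`. Then, given the data, `Z2` from `dec_ent`, `Z3` from `gd_tr`, `Z4` from `cost_tr` for `c l := -log (qt τ qq (π l))`; `Z :=` the union (`gr_mono`). Let `C := log (card P / τ) ≥ 0`, `n := Fintype.card V`, `l ω := lb X wl β' (fun v => q (ω v))`, `U` the array, `s ω := se E b (l ω)`, `f ω v := pr (q (ω v)) = γ0 (ω v)`.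
`n * ent ν γ0 = ent f` (`ent_field`, `hpr`) `≤ ent (f, U, s)` (`ent_comp_le`) `= ent s + entc U s + entc f (U, s)` (`entc_chain` and the definition of `entc`) `≤ ent s + entc U s + entc f U` (`entc_anti`).
`ent s ≤ log (card (↥E → ↥Fs)) = E.ncard * log Fs.card` (`ent_le_log_card`, `Nat.card_fun`). `entc U s` by `ent_up` with `η := (bern G ν).real {¬ Gd ..}` (`gd_tr`; `N` consists of points with `Gr g X Z`). The sum over `v` of the integrals: for `v` with `Gr g X Z v` it is the integral on the infinite side (`cost_tr`), for the other `v` at most `C` (`qt_log`); the integral on the infinite side is nonnegative. `entc f U` by `dec_ent`. -/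

set_option autoImplicit false
set_option synthInstance.maxSize 4000

open MeasureTheory H31.BE H33.HN

namespace H33.SS

theorem chn {S G Λ P Γ : Type} [Group G] [Fintype S] [Finite Λ] [Fintype P] [Nonempty P] [Finite Γ] (g : S → G)
    (wl : G → List (S × Bool)) (hwl : ∀ k, FreeGroup.lift g (pv (wl k)) = k) {Fs : Finset G} (b : Λ → S → ↥Fs)
    (J : G → Finset G) (H0 K0 T0 : Finset G) (hJ : ∀ h ∈ H0, J h ⊆ K0) (h1 : (1 : G) ∈ K0)
    (hT0 : ∀ r ∈ K0, ∀ r' ∈ K0, r'⁻¹ * r ∈ T0) (R : Finset (List (S × Bool))) (π : Λ → P) :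
    ∃ K : Finset G, ∀ (TT : Set (G → Λ)) (_ : ∀ t ∈ TT, ∃ θ : G → G, Leg g (fun l s => (b l s : G)) J t θ)
      (D : Finset (FreeGroup S)) (ε : ℝ) (_ : 0 < ε) (δ1 : ℝ)
      (_ : ∀ (Ω V β : Type) [MeasurableSpace Ω] [Fintype V] [Finite β] (P : Measure Ω)
        [IsProbabilityMeasure P] (f : Ω → V → Γ) (_ : Fm f) (Y : Ω → β) (_ : Fm Y) (dec : V → β → Γ) (cov : Set V),
        (∀ v ∈ cov, P.real {ω | f ω v ≠ dec v (Y ω)} ≤ δ1) →
        entc P f Y ≤ Fintype.card V * ε + ({v | v ∉ cov}.ncard : ℝ) * Real.log (Nat.card Γ))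
      (ψ : (↥H0 → P) → FreeGroup S → Γ) (A : Type) [Finite A] (ν : Measure ℝ) [IsProbabilityMeasure ν] (q : ℝ → A)
      (_ : Fm q) (γ0 : ℝ → Γ) (_ : Fm γ0) (pr : A → Γ) (_ : ∀ x, pr (q x) = γ0 x) (D' : Finset G)
      (β' : (G → A) → Λ) (_ : Lc D' β')
      (_ : ∀ d ∈ D, (bern G ν).real {y | pr (tq q y (FreeGroup.lift g d)) ≠
        ψ (fun h => Up g wl (fun l s => (b l s : G)) K0 π (fun k => β' (sf k (tq q y))) h) d} ≤ δ1)
      (τ : ℝ) (_ : 0 < τ) (_ : τ ≤ 1 / 2) (qq : P → ℝ) (_ : ∀ a, 0 ≤ qq a) (_ : ∑ a, qq a = 1) (η : ℝ)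
      (_ : (bern G ν).real {y | ¬ Gd K TT (fun k => β' (sf k (tq q y)))} ≤ η),
      ∃ Z : Finset (FreeGroup S), ∀ (V : Type) [Fintype V] (X : S → Equiv.Perm V) (N : Set V) (E : Set (V × S))
        (_ : ∀ p ∈ N, Gr g X Z p)
        (_ : ∀ p ∈ N, ∀ k ∈ T0, ac X (pv (wl k)) p ∈ N → ∃ w ∈ R, FreeGroup.lift g (pv w) = k ∧ On E X w p),
        Fintype.card V * ent ν γ0 ≤ (E.ncard : ℝ) * Real.log Fs.card +
          Fintype.card V * (∫ y, -Real.log (qt τ qq (π (β' (tq q y)))) ∂(bern G ν)) +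
          ({v | ¬ Gr g X Z v}.ncard : ℝ) * Real.log (Fintype.card P / τ) +
          2 * τ * (Fintype.card V * H0.card) + Real.log (Fintype.card P / τ) * (Fintype.card V * H0.card * η) +
          Fintype.card V * ε +
          ({v | ¬ ∃ p ∈ N, ∃ d ∈ D, ac X d p = v}.ncard : ℝ) * Real.log (Nat.card Γ) := by
  classical
  obtain ⟨Z1, K, hup⟩ := ent_up g wl hwl b J H0 K0 T0 hJ h1 hT0 R π
  refine ⟨K, ?_⟩
  intro TT hTT D ε hε δ1 hδ1 ψ A _ ν _ q hq γ0 hγ0 pr hpr D' β' hβ' hdec τ h0 h1' qq hqq hsum η hη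
  obtain ⟨Z2, hZ2⟩ := dec_ent g wl hwl (fun l s => (b l s : G)) H0 K0 π D ε hε δ1 hδ1 ψ A ν q hq pr
    D' β' hβ' hdec
  obtain ⟨Z3, hZ3⟩ := gd_tr g wl hwl K TT A ν q hq D' β' hβ'
  obtain ⟨Z4, hZ4⟩ := cost_tr g wl hwl A ν q hq D' β' hβ' (fun l => -Real.log (qt τ qq (π l)))
  refine ⟨Z1 ∪ Z2 ∪ Z3 ∪ Z4, ?_⟩
  intro V _ X N E hN hpath
  have s1 : Z1 ⊆ Z1 ∪ Z2 ∪ Z3 ∪ Z4 := fun z hz => Finset.mem_union_left _
    (Finset.mem_union_left _ (Finset.mem_union_left _ hz))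
  have s2 : Z2 ⊆ Z1 ∪ Z2 ∪ Z3 ∪ Z4 := fun z hz => Finset.mem_union_left _
    (Finset.mem_union_left _ (Finset.mem_union_right _ hz))
  have s3 : Z3 ⊆ Z1 ∪ Z2 ∪ Z3 ∪ Z4 := fun z hz => Finset.mem_union_left _
    (Finset.mem_union_right _ hz)
  have s4 : Z4 ⊆ Z1 ∪ Z2 ∪ Z3 ∪ Z4 := fun z hz => Finset.mem_union_right _ hz
  have hη0 : 0 ≤ η := measureReal_nonneg.trans hη
  have hUp := hup TT hTT V X N E (fun p hp => gr_mono s1 (hN p hp)) hpath A ν q hq β' τ h0 h1' qq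
    hqq hsum η hη0 (fun p hp => by
      rw [hZ3 V X p (gr_mono s3 (hN p hp))]
      exact hη)
  have hDec := hZ2 V X N (fun p hp => gr_mono s2 (hN p hp))
  let f : Bsh V → V → Γ := fun ω v => pr (q (ω v))
  let U : Bsh V → (↥N × ↥H0 → P) := fun ω x => Up g wl (fun l s => (b l s : G)) K0 π
    (cf X wl (lb X wl β' (fun v => q (ω v))) x.1) (x.2 : G)
  let s : Bsh V → (↥E → ↥Fs) := fun ω => se E b (lb X wl β' (fun v => q (ω v)))
  have hf : Fm f := fm_fun q hq (fun t v => pr (t v))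
  have hU : Fm U := fm_fun q hq (fun t (x : ↥N × ↥H0) => Up g wl (fun l s => (b l s : G)) K0 π
    (cf X wl (lb X wl β' t) x.1) (x.2 : G))
  have hs : Fm s := fm_fun q hq (fun a => se E b (lb X wl β' a))
  have hUp' : entc (bern V ν) U s ≤
      ∑ v, ∫ ω : Bsh V, -Real.log (qt τ qq (π (lb X wl β' (fun v => q (ω v)) v))) ∂(bern V ν) +
        2 * τ * (Fintype.card V * H0.card) +
        Real.log (Fintype.card P / τ) * (Fintype.card V * H0.card * η) := hUp
  have hDec' : entc (bern V ν) f U ≤ Fintype.card V * ε +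
      ({v | ¬ ∃ p ∈ N, ∃ d ∈ D, ac X d p = v}.ncard : ℝ) * Real.log (Nat.card Γ) := hDec
  -- the entropy of the base labels
  have e1 : Fintype.card V * ent ν γ0 = ent (bern V ν) f := by
    rw [← ent_field ν γ0 hγ0]
    congr 1
    funext ω v
    exact (hpr _).symm
  have e2 : ent (bern V ν) f ≤ ent (bern V ν) (fun ω => (f ω, (U ω, s ω))) :=
    ent_comp_le (P := bern V ν) (hf.prodMk (hU.prodMk hs))
      (Prod.fst : (V → Γ) × ((↥N × ↥H0 → P) × (↥E → ↥Fs)) → (V → Γ))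
  have e3 : ent (bern V ν) (fun ω => (f ω, (U ω, s ω))) =
      entc (bern V ν) f (fun ω => (U ω, s ω)) + ent (bern V ν) (fun ω => (U ω, s ω)) := by
    unfold entc
    ring
  have e4 : ent (bern V ν) (fun ω => (U ω, s ω)) = entc (bern V ν) U s + ent (bern V ν) s := by
    unfold entc
    ring
  have e5 : entc (bern V ν) f (fun ω => (U ω, s ω)) ≤ entc (bern V ν) f U :=
    entc_anti (P := bern V ν) hf (hU.prodMk hs)
      (Prod.fst : (↥N × ↥H0 → P) × (↥E → ↥Fs) → (↥N × ↥H0 → P))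
  -- the skeleton labels
  have e6 : ent (bern V ν) s ≤ (E.ncard : ℝ) * Real.log Fs.card := by
    refine (ent_le_log_card (P := bern V ν) s hs).trans (le_of_eq ?_)
    rw [Nat.card_fun, Nat.card_coe_set_eq, Nat.card_eq_fintype_card, Fintype.card_coe,
      Nat.cast_pow, Real.log_pow]
  -- the costs
  have hP1 : (1 : ℝ) ≤ Fintype.card P := by exact_mod_cast Fintype.card_pos
  have hq1 : ∀ a, qt τ qq a ≤ 1 := by
    intro a
    have h2 : qq a ≤ 1 := by
      rw [← hsum]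
      exact Finset.single_le_sum (fun x _ => hqq x) (Finset.mem_univ a)
    have h3 : τ / Fintype.card P ≤ τ := div_le_self h0.le hP1
    have h4 : (1 - τ) * qq a ≤ (1 - τ) * 1 := mul_le_mul_of_nonneg_left h2 (by linarith)
    unfold qt
    linarith
  have hq0 : ∀ a, 0 < qt τ qq a := by
    intro a
    have h2 : 0 < τ / Fintype.card P := by positivity
    have h4 : 0 ≤ (1 - τ) * qq a := mul_nonneg (by linarith) (hqq a)
    unfold qt
    linarith
  have hpos : ∀ a, 0 ≤ -Real.log (qt τ qq a) := fun a =>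
    neg_nonneg.2 (Real.log_nonpos (hq0 a).le (hq1 a))
  have hC : 0 ≤ Real.log (Fintype.card P / τ) := by
    apply Real.log_nonneg
    rw [le_div_iff₀ h0]
    linarith
  have hI : 0 ≤ ∫ y, -Real.log (qt τ qq (π (β' (tq q y)))) ∂(bern G ν) :=
    integral_nonneg fun y => hpos _
  have e7 : ∀ v : V, ∫ ω : Bsh V, -Real.log (qt τ qq (π (lb X wl β' (fun v => q (ω v)) v)))
      ∂(bern V ν) ≤ (∫ y, -Real.log (qt τ qq (π (β' (tq q y)))) ∂(bern G ν)) +
        (if ¬ Gr g X (Z1 ∪ Z2 ∪ Z3 ∪ Z4) v then Real.log (Fintype.card P / τ) else 0) := by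
    intro v
    by_cases hv : Gr g X (Z1 ∪ Z2 ∪ Z3 ∪ Z4) v
    · rw [if_neg (not_not.2 hv), add_zero]
      exact (hZ4 V X v (gr_mono s4 hv)).le
    · rw [if_pos hv]
      have h5 : ∫ ω : Bsh V, -Real.log (qt τ qq (π (lb X wl β' (fun v => q (ω v)) v)))
          ∂(bern V ν) ≤ ∫ _ω : Bsh V, Real.log (Fintype.card P / τ) ∂(bern V ν) := by
        refine integral_mono_of_nonneg (Filter.Eventually.of_forall fun ω => hpos _)
          (integrable_const _) (Filter.Eventually.of_forall fun ω => ?_)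
        exact qt_log h0 h1' hqq _
      rw [integral_const, probReal_univ, one_smul] at h5
      linarith
  have e8 : ∑ v, ∫ ω : Bsh V, -Real.log (qt τ qq (π (lb X wl β' (fun v => q (ω v)) v)))
      ∂(bern V ν) ≤ Fintype.card V * (∫ y, -Real.log (qt τ qq (π (β' (tq q y)))) ∂(bern G ν)) +
        ({v | ¬ Gr g X (Z1 ∪ Z2 ∪ Z3 ∪ Z4) v}.ncard : ℝ) * Real.log (Fintype.card P / τ) := by
    refine (Finset.sum_le_sum fun v _ => e7 v).trans (le_of_eq ?_)
    rw [Finset.sum_add_distrib, Finset.sum_const, Finset.card_univ, nsmul_eq_mul,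
      ← Finset.sum_filter, Finset.sum_const, nsmul_eq_mul]
    congr 3
    rw [← Set.ncard_coe_finset]
    congr 1
    ext v
    simp
  rw [e1]
  linarith

end H33.SS
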