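import Pool.Agent.H33.SS.KapA

/-! # SS.CosB : the cost of the array, pointwise (finite combinatorics)

PROOF. Let `C := log (card P / τ)` (it is nonnegative: `qt_log` and `qt_le`). Split the indices `j` into three classes. (i) `¬ good j`: cost at most `C` (`kap_log`). (ii) `good j` and there is `j' > j` with `R j j'`: cost at most `2 * τ` by `kap_copy` (`hA`). (iii) `good j` and no such `j'` (the representatives): the cost is `-log (qt τ q (u j)) = -log (qt τ q (w (φ j)))` (`kap_rep`, `hu`); the map `φ` is injective on the class (iii): if `j < j'` are both in (iii) and `φ j = φ j'`, then `R j j'` by `hB`, a contradiction; so the sum over (iii) is at most the sum over all `v` of the nonnegative numbers `-log (qt τ q (w v))` (`Finset.sum_image`, `Finset.sum_le_sum_of_subset_of_nonneg`). The first two classes contribute at most `C * {j | ¬ good j}.ncard` and `2 * τ * m`. -/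

set_option autoImplicit false
set_option synthInstance.maxSize 4000

open MeasureTheory H31.BE H33.HN

namespace H33.SS

theorem cost_le {P V : Type} [Fintype P] [Nonempty P] [Fintype V] {τ : ℝ} (h0 : 0 < τ) (h1 : τ ≤ 1 / 2) {q : P → ℝ}
    (hq : ∀ a, 0 ≤ q a) (hs : ∑ a, q a = 1) {m : ℕ} (R : Fin m → Fin m → Prop) (u : Fin m → P) (good : Fin m → Prop)
    (φ : Fin m → V) (w : V → P) (hu : ∀ j, u j = w (φ j)) (hA : ∀ j j', good j → R j j' → u j = u j')
    (hB : ∀ j j', good j → j ≠ j' → φ j = φ j' → R j j') :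
    ∑ j, -Real.log (kap τ q R j u) ≤
      ∑ v, -Real.log (qt τ q (w v)) + 2 * τ * m + Real.log (Fintype.card P / τ) * ({j | ¬ good j}.ncard : ℝ) := by
  classical
  set C : ℝ := Real.log (Fintype.card P / τ) with hCdef
  have hg : ∀ v, 0 ≤ -Real.log (qt τ q (w v)) := by
    intro v
    have h2 := Real.log_nonpos (qt_pos h0 h1 hq (w v)).le (qt_le h0 h1 hq hs (w v))
    linarith
  have hC : 0 ≤ C := by
    obtain ⟨a⟩ := (inferInstance : Nonempty P)
    have h2 := Real.log_nonpos (qt_pos h0 h1 hq a).le (qt_le h0 h1 hq hs a)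
    have h3 := qt_log h0 h1 hq a
    linarith
  have hpt : ∀ j, -Real.log (kap τ q R j u) ≤
      ((if ¬ good j then C else 0) + 2 * τ) +
        (if good j ∧ ¬ ∃ j', j < j' ∧ R j j' then -Real.log (qt τ q (w (φ j))) else 0) := by
    intro j
    by_cases hj : good j
    · by_cases hr : ∃ j', j < j' ∧ R j j'
      · have h2 := kap_copy h0 h1 (q := q) R j u hr (fun j' _ h3 => hA j j' hj h3)
        rw [if_neg (not_not.2 hj), if_neg (fun h => h.2 hr)]
        linarith
      · have h2 := kap_rep (τ := τ) (q := q) R j u hr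
        rw [if_neg (not_not.2 hj), if_pos ⟨hj, hr⟩, h2, hu j]
        linarith
    · have h2 := kap_log h0 h1 hq R j u
      rw [if_pos hj, if_neg (fun h => hj h.1)]
      linarith
  refine (Finset.sum_le_sum fun j _ => hpt j).trans ?_
  rw [Finset.sum_add_distrib, Finset.sum_add_distrib, Finset.sum_const, Finset.card_univ,
    Fintype.card_fin, nsmul_eq_mul, ← Finset.sum_filter, Finset.sum_const, nsmul_eq_mul,
    ← Finset.sum_filter]
  have h4 : (({j | ¬ good j}.ncard : ℕ) : ℝ) = ((Finset.univ.filter fun j => ¬ good j).card : ℝ) := by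
    rw [← Set.ncard_coe_finset]
    congr 2
    ext j
    simp
  have h5 : ∑ j ∈ Finset.univ.filter (fun j => good j ∧ ¬ ∃ j', j < j' ∧ R j j'),
      -Real.log (qt τ q (w (φ j))) ≤ ∑ v, -Real.log (qt τ q (w v)) := by
    have hinj : Set.InjOn φ (Finset.univ.filter (fun j => good j ∧ ¬ ∃ j', j < j' ∧ R j j') :
        Finset (Fin m)) := by
      intro j hj j' hj' h
      rw [Finset.mem_coe, Finset.mem_filter] at hj hj'
      by_contra hne
      rcases lt_or_gt_of_ne hne with h6 | h6
      · exact hj.2.2 ⟨j', h6, hB j j' hj.2.1 hne h⟩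
      · exact hj'.2.2 ⟨j, h6, hB j' j hj'.2.1 (Ne.symm hne) h.symm⟩
    rw [← Finset.sum_image (f := fun v => -Real.log (qt τ q (w v))) hinj]
    exact Finset.sum_le_sum_of_subset_of_nonneg (Finset.subset_univ _) fun v _ _ => hg v
  rw [h4]
  linarith

end H33.SS
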