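import Pool.Agent.H33.HN.DefsG
import Pool.Agent.H33.HN.DefsF

/-! # SS.Defs : sparse skeletons and bounded orbit equivalence. Definitions only. Paper: /team-store/h33_sparse.md.

Path words are lists of signed letters, the first letter is applied first; `pv w` is the value of the path word `w` in the
free group, `ac X` is the action of the free group on a finite structure `X : S → Equiv.Perm V` (all from H33/HN/Defs). -/

set_option autoImplicit false
set_option synthInstance.maxSize 4000

open MeasureTheory H31.BE H33.HN

namespace H33.SS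

variable {S G V Λ A P : Type}

/-! ## Edge paths and skeletons -/

/-- the path of a path word from `v` uses only edges of `E`; the edge `(v, s)` goes from `v` to `X s v` -/
def On (E : Set (V × S)) (X : S → Equiv.Perm V) : List (S × Bool) → V → Prop
  | [], _ => True
  | (s, true) :: w, v => (v, s) ∈ E ∧ On E X w (X s v)
  | (s, false) :: w, v => ((X s).symm v, s) ∈ E ∧ On E X w ((X s).symm v)

/-- the edges of the path of a path word from `v` -/
def eds (X : S → Equiv.Perm V) : List (S × Bool) → V → List (V × S)
  | [], _ => []
  | (s, true) :: w, v => (v, s) :: eds X w (X s v)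
  | (s, false) :: w, v => ((X s).symm v, s) :: eds X w ((X s).symm v)

/-- The skeleton property of a family `g` of elements of a group, with the constant `κ`: there is a finite set `D` such
that for all finite `T` there is a finite set `R` of path words such that there are arbitrarily good finite structures
`X` with a set `N` of points (all of them good) from which almost all points are reached by words of `D`, and a set `E` of
at most `κ |V|` edges, such that any two points of `N` that are joined by a word of `T` are joined by a path of `R` in `E`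
with the same value. -/
def SK [Group G] (g : S → G) (κ : ℝ) : Prop :=
  ∃ D : Finset (FreeGroup S), ∀ T : Finset (FreeGroup S), ∃ R : Finset (List (S × Bool)),
    ∀ (W : Finset (FreeGroup S)) (δ : ℝ), 0 < δ →
      ∃ (V : Type) (_ : Fintype V) (_ : Nonempty V) (X : S → Equiv.Perm V) (N : Set V) (E : Set (V × S)),
        (∀ p ∈ N, ∀ w ∈ W, (ac X w p = p ↔ FreeGroup.lift g w = 1)) ∧
        ({v | ¬ ∀ w ∈ W, (ac X w v = v ↔ FreeGroup.lift g w = 1)}.ncard : ℝ) ≤ δ * Fintype.card V ∧
        ({v | ¬ ∃ p ∈ N, ∃ d ∈ D, ac X d p = v}.ncard : ℝ) ≤ δ * Fintype.card V ∧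
        (E.ncard : ℝ) ≤ κ * Fintype.card V ∧
        ∀ p ∈ N, ∀ u ∈ T, ac X u p ∈ N → ∃ w ∈ R, FreeGroup.lift g (pv w) = FreeGroup.lift g u ∧ On E X w p

/-- sofic groups -/
def Sofic (G : Type) [Group G] : Prop :=
  ∀ (F : Finset G) (ε : ℝ), 0 < ε → ∃ (n : ℕ) (σ : G → Equiv.Perm (Fin n)), 0 < n ∧
    (∀ g ∈ F, ∀ h ∈ F, ({i | σ g (σ h i) ≠ σ (g * h) i}.ncard : ℝ) ≤ ε * n) ∧
    ∀ g ∈ F, g ≠ 1 → ({i | σ g i = i}.ncard : ℝ) ≤ ε * n

/-- the words of `Z` act at the point `p` as in the group -/
def Gr [Group G] (g : S → G) (X : S → Equiv.Perm V) (Z : Finset (FreeGroup S)) (p : V) : Prop :=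
  ∀ w ∈ Z, ∀ w' ∈ Z, (ac X w p = ac X w' p ↔ FreeGroup.lift g w = FreeGroup.lift g w')

/-! ## Labels in the group along words -/

/-- skew product of a structure with labels in the group -/
def sk [Group G] (X : S → Equiv.Perm V) (β : V → S → G) : S → Equiv.Perm (V × G) := fun s =>
  { toFun := fun p => (X s p.1, β p.1 s * p.2)
    invFun := fun p => ((X s).symm p.1, (β ((X s).symm p.1) s)⁻¹ * p.2)
    left_inv := by intro p; simp
    right_inv := by intro p; simp }

/-- the product of the labels along a word, starting at `v` -/
noncomputable def Th [Group G] (X : S → Equiv.Perm V) (β : V → S → G) (w : FreeGroup S) (v : V) : G :=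
  (ac (sk X β) w (v, 1)).2

/-- the group as a structure: left multiplication -/
def lm [Group G] (g : S → G) : S → Equiv.Perm G := fun s => Equiv.mulLeft (g s)

/-- `θ` is the position map of the configuration `t` of labels: the position of `g s * k` is the position of `k` times
the label of the letter `s` at `k`; all positions occur within `J` -/
structure Leg [Group G] (g : S → G) (b : Λ → S → G) (J : G → Finset G) (t : G → Λ) (θ : G → G) : Prop where
  one : θ 1 = 1
  eq : ∀ s k, θ (g s * k) = b (t k) s * θ k
  inj : Function.Injective θ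
  inv : ∀ a k0 : G, ∃ k ∈ J a, θ (k * k0) = a * θ k0

open Classical in
/-- the element of `K0` whose position, computed from the labels along the words `wl`, is `h` -/
noncomputable def rho [Group G] (g : S → G) (wl : G → List (S × Bool)) (b : Λ → S → G) (K0 : Finset G) (t : G → Λ)
    (h : G) : G :=
  if hx : ∃ k, k ∈ K0 ∧ Th (lm g) (fun k' => b (t k')) (pv (wl k)) 1 = h then hx.choose else 1

/-- the `P`-label at the position `h` -/
noncomputable def Up [Group G] (g : S → G) (wl : G → List (S × Bool)) (b : Λ → S → G) (K0 : Finset G) (π : Λ → P)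
    (t : G → Λ) (h : G) : P := π (t (rho g wl b K0 t h))

/-- the configuration at a point of a finite structure -/
noncomputable def cf (X : S → Equiv.Perm V) (wl : G → List (S × Bool)) (l : V → Λ) (p : V) : G → Λ :=
  fun k => l (ac X (pv (wl k)) p)

/-- the configuration `t` agrees on `K` with one of `TT` -/
def Gd (K : Finset G) (TT : Set (G → Λ)) (t : G → Λ) : Prop := ∃ t0 ∈ TT, ∀ k ∈ K, t k = t0 k

/-! ## The labels of the finite structure -/

/-- labels of the points computed from the configurations of the `A`-labels -/
noncomputable def lb (X : S → Equiv.Perm V) (wl : G → List (S × Bool)) (β' : (G → A) → Λ) (a : V → A) : V → Λ :=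
  fun v => β' (cf X wl a v)

open Classical in
/-- labels in the group read off from the labels of the edges in `E` -/
noncomputable def bs [Group G] {Fs : Finset G} {E : Set (V × S)} (x : ↥E → ↥Fs) : V → S → G :=
  fun v s => if h : (v, s) ∈ E then (x ⟨(v, s), h⟩ : G) else 1

/-- the labels of the edges in `E` -/
def se [Group G] {Fs : Finset G} (E : Set (V × S)) (b : Λ → S → ↥Fs) (l : V → Λ) : ↥E → ↥Fs :=
  fun e => b (l e.1.1) e.1.2

/-! ## Constructions of finite structures -/

/-- product structure -/
def px {V1 V2 : Type} (X1 : S → Equiv.Perm V1) (X2 : S → Equiv.Perm V2) : S → Equiv.Perm (V1 × V2) :=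
  fun s => Equiv.prodCongr (X1 s) (X2 s)

/-- extension of a structure by letters that act trivially -/
def tx {S0 S1 V2 : Type} (X2 : S1 → Equiv.Perm V2) : S0 ⊕ S1 → Equiv.Perm V2 := Sum.elim (fun _ => 1) X2

/-- skew product of a structure with words that act on another structure -/
noncomputable def ix {SH V0 V1 : Type} (X : S → Equiv.Perm V0) (β : V0 → S → FreeGroup SH) (Y : SH → Equiv.Perm V1) :
    S → Equiv.Perm (V0 × V1) := fun s =>
  { toFun := fun p => (X s p.1, ac Y (β p.1 s) p.2)
    invFun := fun p => ((X s).symm p.1, (ac Y (β ((X s).symm p.1) s))⁻¹ p.2)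
    left_inv := by intro p; simp
    right_inv := by intro p; simp }

/-! ## Kernels -/

/-- smoothed law -/
noncomputable def qt [Fintype P] (τ : ℝ) (q : P → ℝ) (a : P) : ℝ := (1 - τ) * q a + τ / Fintype.card P

open Classical in
/-- The kernel of the index `j`, given the values at the larger indices: copy (up to `τ`) the value of a larger related
index if there is one, otherwise the law `q` (up to `τ`). -/
noncomputable def kap [Fintype P] {m : ℕ} (τ : ℝ) (q : P → ℝ) (R : Fin m → Fin m → Prop) (j : Fin m) (u : Fin m → P) :
    ℝ :=
  if h : ∃ j', j < j' ∧ R j j' then (1 - τ) * (if u j = u h.choose then 1 else 0) + τ / Fintype.card P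
  else qt τ q (u j)

end H33.SS
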