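import Pool.Agent.H33.SS.Defs

/-! # SS.DefsW : weighted skeletons, connecting elements, wq-normal subgroups. Definitions only. -/

set_option autoImplicit false
set_option synthInstance.maxSize 4000

open MeasureTheory H31.BE H33.HN

namespace H33.SS

variable {S S0 S1 G : Type}

/-- The weighted skeleton property: as `SK`, but every edge `(v, s)` of `E` counts `c s`. -/
def WK [Group G] (g : S → G) (c : S → ℕ) (κ : ℝ) : Prop :=
  ∃ D : Finset (FreeGroup S), ∀ T : Finset (FreeGroup S), ∃ R : Finset (List (S × Bool)),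
    ∀ (W : Finset (FreeGroup S)) (δ : ℝ), 0 < δ →
      ∃ (V : Type) (_ : Fintype V) (_ : Nonempty V) (X : S → Equiv.Perm V) (N : Set V) (E : Finset (V × S)),
        (∀ p ∈ N, ∀ w ∈ W, (ac X w p = p ↔ FreeGroup.lift g w = 1)) ∧
        ({v | ¬ ∀ w ∈ W, (ac X w v = v ↔ FreeGroup.lift g w = 1)}.ncard : ℝ) ≤ δ * Fintype.card V ∧
        ({v | ¬ ∃ p ∈ N, ∃ d ∈ D, ac X d p = v}.ncard : ℝ) ≤ δ * Fintype.card V ∧
        (∑ e ∈ E, (c e.2 : ℝ)) ≤ κ * Fintype.card V ∧
        ∀ p ∈ N, ∀ u ∈ T, ac X u p ∈ N → ∃ w ∈ R, FreeGroup.lift g (pv w) = FreeGroup.lift g u ∧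
          On (E : Set (V × S)) X w p

/-- The element `x` is connecting: for every `ε > 0` there are finite sets `R`, `W` such that in every finite structure
there is a set `E` of at most `ε |V|` edges such that from every point that is good for `W` there is a path of `R` with
value `x` that uses only edges of `E` and edges with letters of `S0`. -/
def Con [Group G] (g : S0 ⊕ S1 → G) (x : G) : Prop :=
  ∀ ε : ℝ, 0 < ε → ∃ (R : Finset (List ((S0 ⊕ S1) × Bool))) (W : Finset (FreeGroup (S0 ⊕ S1))),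
    ∀ (V : Type) [Fintype V] (X : S0 ⊕ S1 → Equiv.Perm V), ∃ E : Finset (V × (S0 ⊕ S1)),
      (E.card : ℝ) ≤ ε * Fintype.card V ∧
      ∀ p : V, (∀ w ∈ W, (ac X w p = p ↔ FreeGroup.lift g w = 1)) →
        ∃ w ∈ R, FreeGroup.lift g (pv w) = x ∧
          On ((E : Set (V × (S0 ⊕ S1))) ∪ {e | ∃ s, e.2 = Sum.inl s}) X w p

/-- `F` is wq-normal in `G`: every proper subgroup `M` that contains `F` has an infinite intersection with one of its
conjugates by an element `u` outside `M`. -/
def WqNormal [Group G] (F : Subgroup G) : Prop :=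
  ∀ M : Subgroup G, F ≤ M → (∀ u : G, {m | m ∈ M ∧ u * m * u⁻¹ ∈ M}.Infinite → u ∈ M) → M = ⊤

end H33.SS
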