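import Pool.Agent.H33.SS.SofM

/-! # SS.SkAll : every sofic group has the skeleton property with the number of letters

PROOF. (classical) `D := {1}`; for `T` let `R` be the image of `T` under a choice of path words with `pv (l u) = u` (`pv_surj`); `sof_mdl` for `W`, `δ`; `V := Fin n`, `N :=` the points where all the equivalences hold, `E := Set.univ` (`Set.ncard_univ`, `Nat.card_prod`: `n * card S`). Every `v ∈ N` is reached from `p = v` with `d = 1`. `On Set.univ X w v` holds by induction on `w`. -/

set_option autoImplicit false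
set_option synthInstance.maxSize 4000

open MeasureTheory H31.BE H33.HN

namespace H33.SS

private theorem SkAll_on {S V : Type} (X : S → Equiv.Perm V) (w : List (S × Bool)) :
    ∀ v : V, On (Set.univ : Set (V × S)) X w v := by
  induction w with
  | nil => intro v; trivial
  | cons a w ih =>
    intro v
    obtain ⟨s, b⟩ := a
    cases b with
    | true => exact ⟨Set.mem_univ _, ih _⟩
    | false => exact ⟨Set.mem_univ _, ih _⟩

theorem sk_all {S G : Type} [Group G] [Fintype S] (hG : Sofic G) (g : S → G) : SK g (Fintype.card S) := by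
  classical
  refine ⟨{1}, fun T => ?_⟩
  choose l hl using fun u : FreeGroup S => pv_surj u
  refine ⟨T.image l, fun W δ hδ => ?_⟩
  obtain ⟨n, X, hn, hX⟩ := sof_mdl hG g W δ hδ
  haveI : Nonempty (Fin n) := ⟨⟨0, hn⟩⟩
  refine ⟨Fin n, inferInstance, inferInstance, X,
    {v | ∀ w ∈ W, (ac X w v = v ↔ FreeGroup.lift g w = 1)}, Set.univ, fun p hp => hp, ?_, ?_, ?_,
    fun p _ u hu _ => ⟨l u, Finset.mem_image.2 ⟨u, hu, rfl⟩, by rw [hl u], SkAll_on X _ _⟩⟩
  · rw [Fintype.card_fin]
    exact hX
  · rw [Fintype.card_fin]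
    refine le_trans ?_ hX
    have h1 : {v : Fin n | ¬ ∃ p ∈ {v : Fin n | ∀ w ∈ W, (ac X w v = v ↔ FreeGroup.lift g w = 1)},
        ∃ d ∈ ({1} : Finset (FreeGroup S)), ac X d p = v} ⊆
        {v | ¬ ∀ w ∈ W, (ac X w v = v ↔ FreeGroup.lift g w = 1)} := by
      intro v hv hc
      exact hv ⟨v, hc, 1, Finset.mem_singleton_self _, by simp⟩
    exact_mod_cast Set.ncard_le_ncard h1 (Set.toFinite _)
  · rw [Set.ncard_univ, Nat.card_prod, Nat.card_eq_fintype_card, Nat.card_eq_fintype_card]
    push_cast
    rw [mul_comm]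

end H33.SS
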