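import Pool.Agent.H33.SS.MainM
import Pool.Agent.H33.SS.SkAll

/-! # SS.FinA : the theorem for all finitely generated sofic groups

PROOF. `hg`: the range of `lift g` is a subgroup containing all `g i`, hence everything by `hgen` (`FreeGroup.lift.range_eq_closure` or `Subgroup.closure_le`). `sk_all` gives `SK g (Fintype.card (Fin k))`, `hf_le` with `κ := k`. The orbit equivalence is given in the form of the final statements: rewrite `fun h => x (g⁻¹ * h)` as `g • x` (definitional, see `main_thm` of H33/HN/Main). -/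

set_option autoImplicit false
set_option synthInstance.maxSize 4000

open MeasureTheory H31.BE H33.HN

namespace H33.SS

theorem thm_a (G : Type) [Group G] [Infinite G] (hG : Sofic G) (k : ℕ) (g : Fin k → G)
    (hgen : Subgroup.closure (Set.range g) = ⊤) (F : Finset G) (μ ν : Measure ℝ) [IsProbabilityMeasure μ]
    [IsProbabilityMeasure ν] (T S : (G → ℝ) → (G → ℝ))
    (mT : MeasurePreserving T (Measure.infinitePi (fun _ : G => μ)) (Measure.infinitePi (fun _ : G => ν)))
    (mS : MeasurePreserving S (Measure.infinitePi (fun _ : G => ν)) (Measure.infinitePi (fun _ : G => μ)))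
    (hST : ∀ᵐ x ∂(Measure.infinitePi (fun _ : G => μ)), S (T x) = x)
    (hTS : ∀ᵐ y ∂(Measure.infinitePi (fun _ : G => ν)), T (S y) = y)
    (bT : ∀ g : G, ∃ F : Finset G, ∀ᵐ x ∂(Measure.infinitePi (fun _ : G => μ)),
      ∃ f ∈ F, T (fun h => x (g⁻¹ * h)) = fun h => T x (f⁻¹ * h))
    (bS : ∀ g : G, ∃ F : Finset G, ∀ᵐ y ∂(Measure.infinitePi (fun _ : G => ν)),
      ∃ f ∈ F, S (fun h => y (g⁻¹ * h)) = fun h => S y (f⁻¹ * h))
    (hF : ∀ i, ∀ᵐ y ∂(Measure.infinitePi (fun _ : G => ν)),
      ∃ f ∈ F, S (fun h => y ((g i)⁻¹ * h)) = fun h => S y (f⁻¹ * h)) :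
    HF ν ≤ HF μ + ENNReal.ofReal (k * Real.log F.card) := by
  classical
  have hs : Function.Surjective (FreeGroup.lift g) := by
    rw [← MonoidHom.range_eq_top, eq_top_iff, ← hgen, Subgroup.closure_le]
    rintro _ ⟨i, rfl⟩
    exact ⟨FreeGroup.of i, by simp⟩
  have h : OE G μ ν T S := ⟨mT, mS, hST, hTS, bT, bS⟩
  have hSK : SK g (k : ℝ) := by
    have h1 := sk_all hG g
    rwa [Fintype.card_fin] at h1
  exact hf_le g hs (k : ℝ) (Nat.cast_nonneg k) hSK μ ν T S h F (ae_all_iff.2 hF)

end H33.SS
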