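import Pool.Agent.H33.SS.ThA
import Pool.Agent.H33.HN.DefsH

/-! # SS.OnA : edge paths (elementary)

PROOF. All by induction on the list `w` generalizing `v`, using `pv_cons'`, `pv_app` from ThA. `on_app`: `ac X (pv (a :: w)) v = ac X (pv w) (ac X (val a) v)`. `pv_iv'`: `iv` is the inverse word (HN/DefsH). `on_iv`: the reversed path uses the same edges: for `(s, true)`: the reversed word ends with the letter `(s, false)` from `X s v` which uses the edge `((X s).symm (X s v), s) = (v, s)`; use `on_app` for `iv (a :: w) = iv w ++ [(a.1, !a.2)]`. `on_iff`, `eds_len`: immediate. -/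

set_option autoImplicit false
set_option synthInstance.maxSize 4000

open MeasureTheory H31.BE H33.HN

namespace H33.SS

variable {S V : Type}

private lemma onA_one (X : S → Equiv.Perm V) (v : V) : ac X 1 v = v := by
  simp [ac]

private lemma onA_mul (X : S → Equiv.Perm V) (u w : FreeGroup S) (v : V) : ac X (u * w) v = ac X u (ac X w v) := by
  simp [ac]

private lemma onA_true (X : S → Equiv.Perm V) (s : S) (v : V) : ac X (val (s, true)) v = X s v := by
  simp [ac, val]

private lemma onA_false (X : S → Equiv.Perm V) (s : S) (v : V) : ac X (val (s, false)) v = (X s).symm v := by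
  simp [ac, val]

theorem on_app (E : Set (V × S)) (X : S → Equiv.Perm V) (w w' : List (S × Bool)) (v : V) :
    On E X (w ++ w') v ↔ On E X w v ∧ On E X w' (ac X (pv w) v) := by
  induction w generalizing v with
  | nil =>
    rw [List.nil_append, pv_nil, onA_one]
    simp [On]
  | cons a w ih =>
    obtain ⟨s, b⟩ := a
    rw [List.cons_append, pv_cons', onA_mul]
    cases b with
    | true =>
      rw [onA_true]
      simp only [On, ih, and_assoc]
    | false =>
      rw [onA_false]
      simp only [On, ih, and_assoc]

theorem on_mono {E E' : Set (V × S)} (h : E ⊆ E') (X : S → Equiv.Perm V) (w : List (S × Bool)) (v : V)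
    (hw : On E X w v) : On E' X w v := by
  induction w generalizing v with
  | nil => trivial
  | cons a w ih =>
    obtain ⟨s, b⟩ := a
    cases b with
    | true => exact ⟨h hw.1, ih _ hw.2⟩
    | false => exact ⟨h hw.1, ih _ hw.2⟩

private lemma onA_iv_cons (a : S × Bool) (w : List (S × Bool)) : iv (a :: w) = iv w ++ [(a.1, !a.2)] := by
  simp [iv]

private lemma onA_pv_single (a : S × Bool) : pv [a] = val a := by
  rw [pv_cons', pv_nil, one_mul]

private lemma onA_val_not (a : S × Bool) : val (a.1, !a.2) = (val a)⁻¹ := by
  obtain ⟨s, b⟩ := a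
  cases b <;> simp [val]

theorem pv_iv' (w : List (S × Bool)) : pv (iv w) = (pv w)⁻¹ := by
  induction w with
  | nil =>
    have : iv ([] : List (S × Bool)) = [] := rfl
    rw [this, pv_nil, inv_one]
  | cons a w ih =>
    rw [onA_iv_cons, pv_app, onA_pv_single, onA_val_not, ih, pv_cons', mul_inv_rev]

theorem on_iv (E : Set (V × S)) (X : S → Equiv.Perm V) (w : List (S × Bool)) (v : V) :
    On E X (iv w) (ac X (pv w) v) ↔ On E X w v := by
  induction w generalizing v with
  | nil =>
    have : iv ([] : List (S × Bool)) = [] := rfl
    rw [this]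
    simp [On]
  | cons a w ih =>
    obtain ⟨s, b⟩ := a
    rw [onA_iv_cons, on_app, pv_cons', onA_mul, ih, ← onA_mul, ← onA_mul, pv_iv']
    rw [inv_mul_cancel, one_mul]
    cases b with
    | true =>
      rw [onA_true]
      simp [On, and_comm]
    | false =>
      rw [onA_false]
      simp [On, and_comm]

theorem on_iff (E : Set (V × S)) (X : S → Equiv.Perm V) (w : List (S × Bool)) (v : V) :
    On E X w v ↔ ∀ e ∈ eds X w v, e ∈ E := by
  induction w generalizing v with
  | nil => simp [On, eds]
  | cons a w ih =>
    obtain ⟨s, b⟩ := a
    cases b with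
    | true => simp [On, eds, ih]
    | false => simp [On, eds, ih]

theorem eds_len (X : S → Equiv.Perm V) (w : List (S × Bool)) (v : V) : (eds X w v).length = w.length := by
  induction w generalizing v with
  | nil => simp [eds]
  | cons a w ih =>
    obtain ⟨s, b⟩ := a
    cases b with
    | true => simp [eds, ih]
    | false => simp [eds, ih]

end H33.SS
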