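import Pool.Agent.H33.SS.IndA
import Pool.Agent.H33.SS.OnA

/-! # SS.SkFin : from a subgroup of finite index to the group

PROOF. (classical) `ind_ex`: `rp`, `Xc`, `βc`. `c0 := mk 1`. For every letter `a : SH` choose a path word `cc a` in `S` with `lift g (pv (cc a)) = h a` (`hg`, `pv_surj`); `L := 1 + ∑ a, (cc a).length`, `C := L`. Let `κ ≥ 0` with `SK h κ`: `DH`.
`D :=` one word `u` with `lift g u = rp c * lift h d` for every coset `c` and `d ∈ DH`. Given `T`: `TH := {Th Xc βc u c0 | u ∈ T}`, `RH`; `R :=` the images of the words of `RH` under the substitution `sb` (list of letters of `SH` to list of letters of `S`): `(a, true) ↦ cc a`, `(a, false) ↦ iv (cc a)` (`List.flatMap`). Values: `lift g (pv (sb w)) = lift h (pv w)` (as elements of `G`).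
Given `W`, `δ`: `WH :=` the finite set of: `Th Xc βc w c` for `w ∈ W` and all cosets `c`; for `u ∈ D` the words `d⁻¹ * Th Xc βc u c0` (`d ∈ DH` the corresponding word); for every prefix `w1` of every `w ∈ RH` and every letter `a : SH` the words `(pv w1)⁻¹ * (FreeGroup.of a)⁻¹ * Th Xc βc (pv (cc a)) c0 * pv w1` and `(pv w1)⁻¹ * Th Xc βc (pv (cc a)) c0 * (FreeGroup.of a)⁻¹ * pv w1`. Apply `SK h κ`: `VH`, `XH`, `NH`, `EH`. `V := (G ⧸ H) × VH`, `X := ix Xc βc XH`, `N := {(c0, p) | p ∈ NH}`, `E := {e | ∃ (v, a) ∈ EH, e ∈ eds X (cc a) (c0, v)}`.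
Goodness: `ac X w (c, v) = (ac Xc w c, ac XH (Th Xc βc w c) v)` (`ac_ix`). If `v` is good for `WH`: this is `(c, v)` iff `ac Xc w c = c` and `lift h (Th Xc βc w c) = 1`, i.e. iff `lift g w * rp c = rp c` (by `ind_ex`: with `c = mk (rp c)`; if `ac Xc w c = c` then the value is `(rp c)⁻¹ * lift g w * rp c`) iff `lift g w = 1`. So the bad points are in `(G ⧸ H) × bad`, at most `δ * card V`.
Covering: if `v = ac XH d p`, `p ∈ NH`, `d ∈ DH` and `u ∈ D` is the word of `(c, d)`: `ac X u (c0, p) = (c, ac XH (Th Xc βc u c0) p)` and the value of `Th Xc βc u c0` is `(rp c)⁻¹ * rp c * lift h d * rp c0 = lift h d`; as `p` is good for `WH`, it is `(c, ac XH d p) = (c, v)`.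
Edges: `E.ncard ≤ ∑ over EH of (cc a).length ≤ L * κ * card VH ≤ L * κ * card V`.
Paths: `p = (c0, p1) ∈ N`, `u ∈ T`, `ac X u p ∈ N`: `ac Xc u c0 = c0` and `ac XH (Th Xc βc u c0) p1 ∈ NH`; so there is `w ∈ RH` with `lift h (pv w) = lift h (Th Xc βc u c0) = lift g u` and `On EH XH w p1`. Claim: for every prefix decomposition `w = w1 ++ w2`: `ac X (pv (sb w1)) (c0, p1) = (c0, ac XH (pv w1) p1)` and `On E X (sb w1) (c0, p1)`, by induction on `w1` adding a letter at the end (`on_app`, `pv_app`): letter `(a, true)` at `v' := ac XH (pv w1) p1`: the path `cc a` from `(c0, v')` has its edges in `E` as `(v', a) ∈ EH`, and ends at `(c0, ac XH (Th Xc βc (pv (cc a)) c0) v') = (c0, XH a v')` by goodness of `p1`; letter `(a, false)`: with `v'' := (XH a).symm v'` the path `cc a` from `(c0, v'')` has its edges in `E` (`(v'', a) ∈ EH`) and ends at `(c0, v')` by goodness, so the reversed path `iv (cc a)` from `(c0, v')` has its edges in `E` (`on_iv`) and ends at `(c0,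 v'')`. -/

set_option autoImplicit false
set_option synthInstance.maxSize 4000

open MeasureTheory H31.BE H33.HN

namespace H33.SS

/-- substitution of words for letters -/
private def skfin_sb {S SH : Type} (cc : SH → List (S × Bool)) : List (SH × Bool) → List (S × Bool)
  | [] => []
  | (a, true) :: w => cc a ++ skfin_sb cc w
  | (a, false) :: w => iv (cc a) ++ skfin_sb cc w

private theorem skfin_val_true {S : Type} (s : S) : val (s, true) = FreeGroup.of s := by simp [val]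

private theorem skfin_val_false {S : Type} (s : S) : val (s, false) = (FreeGroup.of s)⁻¹ := by simp [val]

private theorem skfin_sb_val {S SH G : Type} [Group G] (H : Subgroup G) (g : S → G) (h : SH → H)
    (cc : SH → List (S × Bool)) (hcc : ∀ a, FreeGroup.lift g (pv (cc a)) = h a) (w : List (SH × Bool)) :
    FreeGroup.lift g (pv (skfin_sb cc w)) = ((FreeGroup.lift h (pv w) : H) : G) := by
  induction w with
  | nil => simp [skfin_sb, pv_nil]
  | cons a w ih =>
    rcases a with ⟨a, b⟩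
    cases b with
    | true =>
      rw [skfin_sb, pv_app, map_mul, ih, hcc, pv_cons', map_mul, skfin_val_true, FreeGroup.lift_apply_of]
      rfl
    | false =>
      rw [skfin_sb, pv_app, map_mul, ih, pv_iv', map_inv, hcc, pv_cons', map_mul, skfin_val_false, map_inv,
        FreeGroup.lift_apply_of]
      rfl

private theorem skfin_ncard_prod {A B : Type} [Fintype A] [Fintype B] (t : Set (A × B)) (s : Set B) (δ : ℝ)
    (hs : (s.ncard : ℝ) ≤ δ * Fintype.card B) (hts : ∀ x ∈ t, x.2 ∈ s) :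
    (t.ncard : ℝ) ≤ δ * Fintype.card (A × B) := by
  have h1 : t.ncard ≤ ((Set.univ : Set A) ×ˢ s).ncard := by
    apply Set.ncard_le_ncard _ (Set.toFinite _)
    intro x hx
    exact ⟨Set.mem_univ _, hts x hx⟩
  have h2 : ((Set.univ : Set A) ×ˢ s).ncard = Fintype.card A * s.ncard := by
    rw [Set.ncard_prod, Set.ncard_univ, Nat.card_eq_fintype_card]
  rw [h2] at h1
  have h3 : (t.ncard : ℝ) ≤ Fintype.card A * s.ncard := by exact_mod_cast h1
  rw [Fintype.card_prod]
  push_cast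
  calc (t.ncard : ℝ) ≤ Fintype.card A * s.ncard := h3
    _ ≤ Fintype.card A * (δ * Fintype.card B) := by
      apply mul_le_mul_of_nonneg_left hs (Nat.cast_nonneg _)
    _ = δ * (Fintype.card A * Fintype.card B) := by ring

private theorem skfin_ncard_union {A B : Type} [Fintype A] [Fintype B] (s : Set A) (L : ℕ) (f : A → List B)
    (hf : ∀ a, (f a).length ≤ L) : {e | ∃ a ∈ s, e ∈ f a}.ncard ≤ L * s.ncard := by
  classical
  have h1 : {e | ∃ a ∈ s, e ∈ f a} = ((s.toFinset.biUnion fun a => (f a).toFinset : Finset B) : Set B) := by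
    ext e
    simp
  rw [h1, Set.ncard_coe_finset, Set.ncard_eq_toFinset_card']
  calc (s.toFinset.biUnion fun a => (f a).toFinset).card ≤ ∑ a ∈ s.toFinset, ((f a).toFinset).card :=
        Finset.card_biUnion_le
    _ ≤ ∑ _a ∈ s.toFinset, L := Finset.sum_le_sum fun a _ => (List.toFinset_card_le _).trans (hf a)
    _ = L * s.toFinset.card := by rw [Finset.sum_const, smul_eq_mul, mul_comm]

private theorem skfin_path {S SH VH Cs : Type} (E : Set ((Cs × VH) × S)) (EH : Set (VH × SH))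
    (X : S → Equiv.Perm (Cs × VH)) (XH : SH → Equiv.Perm VH) (c0 : Cs) (cc : SH → List (S × Bool))
    (θ : SH → FreeGroup SH)
    (hX : ∀ a v, ac X (pv (cc a)) (c0, v) = (c0, ac XH (θ a) v))
    (hE : ∀ v a, (v, a) ∈ EH → On E X (cc a) (c0, v)) (p1 : VH) (w : List (SH × Bool))
    (g1 : ∀ w1 : List (SH × Bool), w1 <+: w → ∀ a, ac XH (θ a) (ac XH (pv w1) p1) = XH a (ac XH (pv w1) p1))
    (g2 : ∀ w1 : List (SH × Bool), w1 <+: w → ∀ a,
      ac XH (θ a) ((XH a).symm (ac XH (pv w1) p1)) = ac XH (pv w1) p1) :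
    ∀ (w2 w1 : List (SH × Bool)), w = w1 ++ w2 → On EH XH w2 (ac XH (pv w1) p1) →
      On E X (skfin_sb cc w2) (c0, ac XH (pv w1) p1) := by
  intro w2
  induction w2 with
  | nil => intro w1 _ _; trivial
  | cons a w2 ih =>
    intro w1 hw ho
    rcases a with ⟨a, b⟩
    cases b with
    | true =>
      obtain ⟨he, ho'⟩ : (ac XH (pv w1) p1, a) ∈ EH ∧ On EH XH w2 (XH a (ac XH (pv w1) p1)) := ho
      rw [skfin_sb, on_app]
      refine ⟨hE _ _ he, ?_⟩
      have e1 : ac XH (pv (w1 ++ [(a, true)])) p1 = XH a (ac XH (pv w1) p1) := by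
        rw [pv_app, pv_cons', pv_nil, one_mul, skfin_val_true, map_mul, Equiv.Perm.mul_apply,
          FreeGroup.lift_apply_of]
      rw [hX, g1 w1 ⟨_, hw.symm⟩ a, ← e1]
      apply ih (w1 ++ [(a, true)]) (by simpa using hw)
      rw [e1]
      exact ho'
    | false =>
      obtain ⟨he, ho'⟩ : ((XH a).symm (ac XH (pv w1) p1), a) ∈ EH ∧
        On EH XH w2 ((XH a).symm (ac XH (pv w1) p1)) := ho
      rw [skfin_sb, on_app]
      have e1 : ac XH (pv (w1 ++ [(a, false)])) p1 = (XH a).symm (ac XH (pv w1) p1) := by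
        rw [pv_app, pv_cons', pv_nil, one_mul, skfin_val_false, map_mul, Equiv.Perm.mul_apply,
          map_inv, FreeGroup.lift_apply_of]
        rfl
      have e2 : (c0, ac XH (pv w1) p1) = ac X (pv (cc a)) (c0, (XH a).symm (ac XH (pv w1) p1)) := by
        rw [hX, g2 w1 ⟨_, hw.symm⟩ a]
      constructor
      · rw [e2, on_iv]
        exact hE _ _ he
      · have e3 : ac X (pv (iv (cc a))) (c0, ac XH (pv w1) p1) = (c0, (XH a).symm (ac XH (pv w1) p1)) := by
          rw [pv_iv', map_inv, e2]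
          simp
        rw [e3, ← e1]
        apply ih (w1 ++ [(a, false)]) (by simpa using hw)
        rw [e1]
        exact ho'

theorem sk_fin {S SH G : Type} [Group G] [Fintype S] [Fintype SH] (H : Subgroup G) [H.FiniteIndex] (g : S → G)
    (hg : Function.Surjective (FreeGroup.lift g)) (h : SH → H) (hh : Function.Surjective (FreeGroup.lift h)) :
    ∃ C : ℝ, 0 ≤ C ∧ ∀ κ : ℝ, 0 ≤ κ → SK h κ → SK g (C * κ) := by
  classical
  have : Fintype (G ⧸ H) := H.fintypeQuotientOfFiniteIndex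
  obtain ⟨rp, Xc, βc, hrp1, hrpc, hXc, hval⟩ := ind_ex H g h hh
  set c0 : G ⧸ H := ((1 : G) : G ⧸ H) with hc0
  have hcc : ∀ a : SH, ∃ w : List (S × Bool), FreeGroup.lift g (pv w) = h a := by
    intro a
    obtain ⟨u, hu⟩ := hg (h a : G)
    obtain ⟨w, hw⟩ := pv_surj u
    exact ⟨w, by rw [hw, hu]⟩
  choose cc hcc using hcc
  set L : ℕ := ∑ a, (cc a).length with hL
  have hLa : ∀ a, (cc a).length ≤ L := fun a =>
    Finset.single_le_sum (f := fun a => (cc a).length) (fun _ _ => Nat.zero_le _) (Finset.mem_univ a)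
  refine ⟨L, Nat.cast_nonneg _, fun κ hκ hSK => ?_⟩
  obtain ⟨DH, hDH⟩ := hSK
  -- words for covering
  have huD : ∀ (c : G ⧸ H) (d : FreeGroup SH), ∃ u : FreeGroup S,
      FreeGroup.lift g u = rp c * ((FreeGroup.lift h d : H) : G) := fun c d => hg _
  choose uD huD using huD
  -- the coset of `lift g u`
  have hmul : ∀ (x : G) (y : H), ((x * (y : G) : G) : G ⧸ H) = (x : G ⧸ H) := by
    intro x y
    rw [QuotientGroup.eq]
    simp
  have hcos0 : ∀ (u : FreeGroup S) (y : H), FreeGroup.lift g u = (y : G) → ac Xc u c0 = c0 := by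
    intro u y hu
    rw [hc0, hXc, hu, mul_one]
    have := hmul 1 y
    rw [one_mul] at this
    exact this
  have hθ : ∀ a, FreeGroup.lift h (Th Xc βc (pv (cc a)) c0) = h a := by
    intro a
    apply Subtype.ext
    rw [hval, hcos0 _ (h a) (hcc a), hcc a, hrp1]
    simp
  refine ⟨(Finset.univ ×ˢ DH).image fun q => uD q.1 q.2, fun T => ?_⟩
  obtain ⟨RH, hRH⟩ := hDH (T.image fun u => Th Xc βc u c0)
  refine ⟨RH.image (skfin_sb cc), fun W δ hδ => ?_⟩
  set PR : Finset (List (SH × Bool)) := RH.biUnion fun w => w.inits.toFinset with hPR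
  set WH : Finset (FreeGroup SH) :=
    ((W ×ˢ (Finset.univ : Finset (G ⧸ H))).image fun q => Th Xc βc q.1 q.2) ∪
    (((Finset.univ : Finset (G ⧸ H)) ×ˢ DH).image fun q => q.2⁻¹ * Th Xc βc (uD q.1 q.2) c0) ∪
    ((PR ×ˢ (Finset.univ : Finset SH)).image fun q =>
      (pv q.1)⁻¹ * (FreeGroup.of q.2)⁻¹ * Th Xc βc (pv (cc q.2)) c0 * pv q.1) ∪
    ((PR ×ˢ (Finset.univ : Finset SH)).image fun q =>
      (pv q.1)⁻¹ * Th Xc βc (pv (cc q.2)) c0 * (FreeGroup.of q.2)⁻¹ * pv q.1) with hWH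
  obtain ⟨VH, iF, iN, XH, NH, EH, h1, h2, h3, h4, h5⟩ := hRH WH δ hδ
  have mem1 : ∀ w ∈ W, ∀ c, Th Xc βc w c ∈ WH := by
    intro w hw c
    rw [hWH]
    refine Finset.mem_union_left _ (Finset.mem_union_left _ (Finset.mem_union_left _ ?_))
    exact Finset.mem_image.2 ⟨(w, c), Finset.mem_product.2 ⟨hw, Finset.mem_univ _⟩, rfl⟩
  have mem2 : ∀ c, ∀ d ∈ DH, d⁻¹ * Th Xc βc (uD c d) c0 ∈ WH := by
    intro c d hd
    rw [hWH]
    refine Finset.mem_union_left _ (Finset.mem_union_left _ (Finset.mem_union_right _ ?_))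
    exact Finset.mem_image.2 ⟨(c, d), Finset.mem_product.2 ⟨Finset.mem_univ _, hd⟩, rfl⟩
  have mem3 : ∀ w1 ∈ PR, ∀ a, (pv w1)⁻¹ * (FreeGroup.of a)⁻¹ * Th Xc βc (pv (cc a)) c0 * pv w1 ∈ WH := by
    intro w1 hw1 a
    rw [hWH]
    refine Finset.mem_union_left _ (Finset.mem_union_right _ ?_)
    exact Finset.mem_image.2 ⟨(w1, a), Finset.mem_product.2 ⟨hw1, Finset.mem_univ _⟩, rfl⟩
  have mem4 : ∀ w1 ∈ PR, ∀ a, (pv w1)⁻¹ * Th Xc βc (pv (cc a)) c0 * (FreeGroup.of a)⁻¹ * pv w1 ∈ WH := by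
    intro w1 hw1 a
    rw [hWH]
    refine Finset.mem_union_right _ ?_
    exact Finset.mem_image.2 ⟨(w1, a), Finset.mem_product.2 ⟨hw1, Finset.mem_univ _⟩, rfl⟩
  -- goodness
  have good : ∀ (c : G ⧸ H) (v : VH), (∀ w ∈ WH, (ac XH w v = v ↔ FreeGroup.lift h w = 1)) →
      ∀ w ∈ W, (ac (ix Xc βc XH) w (c, v) = (c, v) ↔ FreeGroup.lift g w = 1) := by
    intro c v hv w hw
    rw [ac_ix]
    have hwc := hv _ (mem1 w hw c)
    constructor
    · intro heq
      have e1 : ac Xc w c = c := congrArg Prod.fst heq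
      have e2 : ac XH (Th Xc βc w c) v = v := congrArg Prod.snd heq
      have e3 := hval w c
      rw [hwc.1 e2, e1] at e3
      have e4 : (1 : G) = (rp c)⁻¹ * FreeGroup.lift g w * rp c := by simpa using e3
      have e5 : rp c * (1 : G) * (rp c)⁻¹ = FreeGroup.lift g w := by
        rw [e4]; group
      rw [← e5]; group
    · intro hw1
      have e1 : ac Xc w c = c := by
        have := hXc w (rp c)
        rw [hw1, one_mul, hrpc] at this
        exact this
      have e3 := hval w c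
      rw [e1, hw1] at e3
      have e4 : FreeGroup.lift h (Th Xc βc w c) = 1 := by
        apply Subtype.ext
        rw [e3]
        simp
      rw [e1, hwc.2 e4]
  refine ⟨(G ⧸ H) × VH, inferInstance, inferInstance, ix Xc βc XH, {p | p.1 = c0 ∧ p.2 ∈ NH},
    {e | ∃ q ∈ EH, e ∈ eds (ix Xc βc XH) (cc q.2) (c0, q.1)}, ?_, ?_, ?_, ?_, ?_⟩
  · rintro ⟨c, v⟩ ⟨-, hp2⟩ w hw
    exact good c v (h1 v hp2) w hw
  · refine skfin_ncard_prod _ _ δ h2 ?_
    rintro ⟨c, v⟩ hx hgood
    exact hx (good c v hgood)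
  · refine skfin_ncard_prod _ _ δ h3 ?_
    rintro ⟨c, v⟩ hx ⟨p, hp, d, hd, hdp⟩
    refine hx ⟨(c0, p), ⟨rfl, hp⟩, uD c d, Finset.mem_image.2 ⟨(c, d), ?_, rfl⟩, ?_⟩
    · exact Finset.mem_product.2 ⟨Finset.mem_univ _, hd⟩
    · have e1 : ac Xc (uD c d) c0 = c := by
        rw [hc0, hXc, huD, mul_one, hmul, hrpc]
      have e2 : FreeGroup.lift h (d⁻¹ * Th Xc βc (uD c d) c0) = 1 := by
        apply Subtype.ext
        rw [map_mul, map_inv]
        rw [Subgroup.coe_mul, hval, e1, huD, hrp1]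
        simp
      have e3 := (h1 p hp _ (mem2 c d hd)).2 e2
      rw [map_mul, map_inv, Equiv.Perm.mul_apply, Equiv.Perm.inv_eq_iff_eq] at e3
      rw [ac_ix, e1]
      simp only
      rw [e3, hdp]
  · have k1 : {e | ∃ q ∈ EH, e ∈ eds (ix Xc βc XH) (cc q.2) (c0, q.1)}.ncard ≤ L * EH.ncard := by
      refine skfin_ncard_union EH L (fun q => eds (ix Xc βc XH) (cc q.2) (c0, q.1)) ?_
      intro q
      rw [eds_len]
      exact hLa _
    have k2 : (({e | ∃ q ∈ EH, e ∈ eds (ix Xc βc XH) (cc q.2) (c0, q.1)}.ncard : ℕ) : ℝ) ≤ L * EH.ncard := by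
      exact_mod_cast k1
    refine k2.trans ?_
    have k3 : (Fintype.card VH : ℝ) ≤ Fintype.card ((G ⧸ H) × VH) := by
      rw [Fintype.card_prod]
      have : 1 ≤ Fintype.card (G ⧸ H) := Fintype.card_pos
      exact_mod_cast Nat.le_mul_of_pos_left _ this
    calc (L : ℝ) * EH.ncard ≤ L * (κ * Fintype.card VH) := mul_le_mul_of_nonneg_left h4 (Nat.cast_nonneg _)
      _ ≤ L * (κ * Fintype.card ((G ⧸ H) × VH)) := by
        apply mul_le_mul_of_nonneg_left _ (Nat.cast_nonneg _)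
        exact mul_le_mul_of_nonneg_left k3 hκ
      _ = L * κ * Fintype.card ((G ⧸ H) × VH) := by ring
  · rintro ⟨c, p1⟩ ⟨hc, hp1⟩ u hu huN
    have hc' : c = c0 := hc
    subst hc'
    rw [ac_ix] at huN
    obtain ⟨hn1, hn2⟩ := huN
    have hn1' : ac Xc u c0 = c0 := hn1
    have hn2' : ac XH (Th Xc βc u c0) p1 ∈ NH := hn2
    obtain ⟨w, hw, hwv, hwo⟩ := h5 p1 hp1 (Th Xc βc u c0) (Finset.mem_image.2 ⟨u, hu, rfl⟩) hn2'
    refine ⟨skfin_sb cc w, Finset.mem_image.2 ⟨w, hw, rfl⟩, ?_, ?_⟩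
    · rw [skfin_sb_val H g h cc hcc, hwv, hval, hn1', hrp1]
      simp
    · have hpre : ∀ w1 : List (SH × Bool), w1 <+: w → w1 ∈ PR := by
        intro w1 hw1
        rw [hPR]
        exact Finset.mem_biUnion.2 ⟨w, hw, List.mem_toFinset.2 ((List.mem_inits _ _).2 hw1)⟩
      have key := skfin_path {e | ∃ q ∈ EH, e ∈ eds (ix Xc βc XH) (cc q.2) (c0, q.1)} EH (ix Xc βc XH) XH c0 cc
        (fun a => Th Xc βc (pv (cc a)) c0) ?_ ?_ p1 w ?_ ?_ w [] (by simp) (by simpa [pv_nil] using hwo)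
      · simpa [pv_nil] using key
      · intro a v
        rw [ac_ix]
        simp only
        rw [hcos0 _ (h a) (hcc a)]
      · intro v a hva
        rw [on_iff]
        intro e he
        exact ⟨(v, a), hva, he⟩
      · intro w1 hw1 a
        have e2 : FreeGroup.lift h ((pv w1)⁻¹ * (FreeGroup.of a)⁻¹ * Th Xc βc (pv (cc a)) c0 * pv w1) = 1 := by
          rw [map_mul, map_mul, map_mul, map_inv, map_inv, hθ, FreeGroup.lift_apply_of]
          group
        have e3 := (h1 p1 hp1 _ (mem3 w1 (hpre w1 hw1) a)).2 e2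
        rw [map_mul, map_mul, map_mul, map_inv, map_inv, FreeGroup.lift_apply_of, Equiv.Perm.mul_apply,
          Equiv.Perm.mul_apply, Equiv.Perm.mul_apply, Equiv.Perm.inv_eq_iff_eq, Equiv.Perm.inv_eq_iff_eq] at e3
        exact e3
      · intro w1 hw1 a
        have e2 : FreeGroup.lift h ((pv w1)⁻¹ * Th Xc βc (pv (cc a)) c0 * (FreeGroup.of a)⁻¹ * pv w1) = 1 := by
          rw [map_mul, map_mul, map_mul, map_inv, map_inv, hθ, FreeGroup.lift_apply_of]
          group
        have e3 := (h1 p1 hp1 _ (mem4 w1 (hpre w1 hw1) a)).2 e2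
        rw [map_mul, map_mul, map_mul, map_inv, map_inv, FreeGroup.lift_apply_of, Equiv.Perm.mul_apply,
          Equiv.Perm.mul_apply, Equiv.Perm.mul_apply, Equiv.Perm.inv_eq_iff_eq] at e3
        exact e3

end H33.SS
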