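import Pool.Agent.H33.SS.Defs

/-! # SS.NetA : nets (finite combinatorics)

PROOF. (classical) Among all finsets `A` of good points such that the sets `{e i a | i}`, `a ∈ A`, are pairwise disjoint (equivalently `(a, i) ↦ e i a` is injective on `A × Fin m`) choose one of maximal cardinality (`V` is finite; `Finset.exists_maximal` or `Finset.exists_max_image` over the powerset of the good points). Injectivity gives `A.card * m ≤ card V`. If `v` is good and no `e i v` is equal to an `e j a`, `a ∈ A`, then `insert v A` is larger (`v ∉ A` since otherwise `e i v = e i v`; `m > 0`; `hinj` for `v` itself), a contradiction. -/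

set_option autoImplicit false
set_option synthInstance.maxSize 4000

open MeasureTheory H31.BE H33.HN

namespace H33.SS

theorem net_ex {V : Type} [Fintype V] {m : ℕ} (hm : 0 < m) (e : Fin m → Equiv.Perm V) (good : Set V)
    (hinj : ∀ v ∈ good, ∀ i j, e i v = e j v → i = j) :
    ∃ A : Set V, A ⊆ good ∧ A.ncard * m ≤ Fintype.card V ∧ ∀ v ∈ good, ∃ a ∈ A, ∃ i j, e i v = e j a := by
  classical
  let F : Finset (Finset V) := Finset.univ.filter fun A =>
    (∀ a ∈ A, a ∈ good) ∧ ∀ a ∈ A, ∀ b ∈ A, ∀ i j, e i a = e j b → a = b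
  have hF : ∀ A : Finset V, A ∈ F ↔ (∀ a ∈ A, a ∈ good) ∧
      ∀ a ∈ A, ∀ b ∈ A, ∀ i j, e i a = e j b → a = b := fun A => by
    simp only [F, Finset.mem_filter, Finset.mem_univ, true_and]
  have hne : F.Nonempty := ⟨∅, (hF ∅).2 ⟨fun a ha => absurd ha (Finset.notMem_empty a),
    fun a ha => absurd ha (Finset.notMem_empty a)⟩⟩
  obtain ⟨A, hA, hmax⟩ := Finset.exists_max_image F Finset.card hne
  obtain ⟨h1, h2⟩ := (hF A).1 hA
  refine ⟨(A : Set V), fun a ha => h1 a (Finset.mem_coe.1 ha), ?_, ?_⟩
  · rw [Set.ncard_coe_finset]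
    have h3 : (A ×ˢ (Finset.univ : Finset (Fin m))).card ≤ (Finset.univ : Finset V).card := by
      refine Finset.card_le_card_of_injOn (fun p => e p.2 p.1) (fun _ _ => Finset.mem_univ _) ?_
      rintro ⟨a, i⟩ ha ⟨b, j⟩ hb h
      have ha' : a ∈ A := (Finset.mem_product.1 (Finset.mem_coe.1 ha)).1
      have hb' : b ∈ A := (Finset.mem_product.1 (Finset.mem_coe.1 hb)).1
      have hab : a = b := h2 a ha' b hb' i j h
      subst hab
      have hij : i = j := hinj a (h1 a ha') i j h
      rw [hij]
    rw [Finset.card_product, Finset.card_univ, Finset.card_univ, Fintype.card_fin] at h3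
    exact h3
  · intro v hv
    by_contra hcon
    have hcon' : ∀ a ∈ A, ∀ i j, e i v ≠ e j a := fun a ha i j h =>
      hcon ⟨a, Finset.mem_coe.2 ha, i, j, h⟩
    have hvA : v ∉ A := fun h => hcon' v h ⟨0, hm⟩ ⟨0, hm⟩ rfl
    have hins : insert v A ∈ F := by
      refine (hF _).2 ⟨?_, ?_⟩
      · intro a ha
        rcases Finset.mem_insert.1 ha with rfl | ha
        · exact hv
        · exact h1 a ha
      · intro a ha b hb i j h
        rcases Finset.mem_insert.1 ha with ha1 | ha1
        · rcases Finset.mem_insert.1 hb with hb1 | hb1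
          · rw [ha1, hb1]
          · rw [ha1] at h
            exact absurd h (hcon' b hb1 i j)
        · rcases Finset.mem_insert.1 hb with hb1 | hb1
          · rw [hb1] at h
            exact absurd h.symm (hcon' a ha1 j i)
          · exact h2 a ha1 b hb1 i j h
    have h3 := hmax _ hins
    rw [Finset.card_insert_of_notMem hvA] at h3
    omega

end H33.SS
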