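import Pool.Agent.H33.SS.QuoA
import Pool.Agent.H33.SS.NetA
import Pool.Agent.H33.SS.OnA

/-! # SS.SkNor : a finitely generated infinite normal subgroup of infinite index gives sparse skeletons

Notation: `S := S0 ⊕ S1`, `V := V1 × V2`, `X := px X1 X2`, `X2 (inl s) = 1`; `i0 := FreeGroup.map Sum.inl : FreeGroup S0 →* FreeGroup S`.
PROOF. (classical)
(1) `m ≥ 1` with `2 * card S0 ≤ ε * m`; `wrd_ex` for `φ ∘ lift g` (infinite range: `hQ'`) gives `e : Fin m → FreeGroup S`; `D := { (e i)⁻¹ * e j, (e j)⁻¹ * e i }`.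
(2) Given `T`: for `u ∈ T` a path word `l u` with `pv (l u) = u`; `L := ` the sum of the lengths of the `l u`; `m1 ≥ 1` with `2 * L ≤ ε * m1`; `wrd_ex` for `lift g ∘ i0` (infinite range by `hN`) gives `e1 : Fin m1 → FreeGroup S0`. Let `C1` be the finite set of all `(e1 i)⁻¹ * e1 j`. For `c ∈ C1`, `u ∈ T`: `φ` of `lift g u * (lift g (i0 c))⁻¹ * (lift g u)⁻¹` is `1` (`φ (lift g (i0 c)) = 1`), so by `hk` it is `lift g (i0 (n2 c u))` for some `n2 c u : FreeGroup S0`. `R :=` all path words `a ++ l u ++ b` where `a`, `b` are path words in the letters `inl` (path words of `S0` mapped by `inl`) with `pv a = i0 c`, `pv b = i0 (n2 c u)`; the value of such a path word is `lift g (i0 (n2 c u)) * lift g u * lift g (i0 c) = lift g u`.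
(3) Given `W`, `δ`: `W1 := W ∪ D`-words `∪` all `(i0 (e1 i))⁻¹ * i0 (e1 j)`, `W2 := W ∪` all `(e i)⁻¹ * e j`. `sof_mdl` for `g`, `W1`, `δ / (2 * (card D + 1))` and `quo_mdl` for `W2`, the same number: `V1 = Fin n1`, `V2 = Fin n2`. Good points of `V1`, `V2`: all equivalences for `W1`, `W2` hold. For `w ∈ W` and `(v1, v2)` with both good: `ac X w (v1, v2) = (v1, v2)` iff `lift g w = 1` (`ac_px`; `lift g w = 1` implies `φ (lift g w) = 1`); bad points of `V`: at most `(δ/2 + δ/2) * n1 * n2`.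
(4) `net_ex` in `V2` with `m`, `e := fun i => ac X2 (e i)` and the good points: `A2` with `card A2 * m ≤ n2`; every good `v2` is `ac X2 ((e i)⁻¹ * e j) a`. `net_ex` in `V1` with `m1`, `fun i => ac X1 (i0 (e1 i))`: `F1` with `card F1 * m1 ≤ n1`; for every good `v1` there is `c ∈ C1` with `ac X1 (i0 c) v1 ∈ F1`.
(5) `N := {v | v.1 good, v.2 ∈ A2}`. `E := {((x, a), inl s) | a ∈ A2} ∪ {edges in eds X (l u) (f, a) | u ∈ T, f ∈ F1, a ∈ A2}`; `ncard ≤ n1 * card A2 * card S0 + L * card F1 * card A2 ≤ (ε/2) n1 n2 + (ε/2) n1 n2`.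
(6) Covering: for `(v1, v2)` with `v2 = ac X2 d a` good, `d ∈ D` and `(ac X1 d)⁻¹ v1` good, `p := ((ac X1 d)⁻¹ v1, a)` and `ac X d p = (v1, v2)`. The exceptions: `v2` bad or `(ac X1 d)⁻¹ v1` bad for some `d ∈ D`: at most `(δ/2) n1 n2 + card D * δ/(2 (card D + 1)) n1 n2`.
(7) Paths: `p = (p1, a) ∈ N`, `u ∈ T`, `ac X u p ∈ N`: so `ac X2 u a =: a' ∈ A2`. Take `c ∈ C1` with `f := ac X1 (i0 c) p1 ∈ F1`. Path word `a_c ++ l u ++ b`: the first part stays in `V1 × {a}` and uses letters `inl` (`X2 (inl s) = 1`) : edges of `E`; it ends at `(f, a)`; the second part uses edges of `E` and ends at `(.., a')`; the third part stays in `V1 × {a'}`. -/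

set_option autoImplicit false
set_option synthInstance.maxSize 4000

open MeasureTheory H31.BE H33.HN

namespace H33.SS

private theorem SkNor_ia {V : Type} (e : Equiv.Perm V) (x : V) : e⁻¹ (e x) = x :=
  Equiv.symm_apply_apply e x

private theorem SkNor_ai {V : Type} (e : Equiv.Perm V) (x : V) : e (e⁻¹ x) = x :=
  Equiv.apply_symm_apply e x

private def SkNor_il {S0 S1 : Type} (w : List (S0 × Bool)) : List ((S0 ⊕ S1) × Bool) :=
  w.map fun a => (Sum.inl a.1, a.2)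

private theorem SkNor_pvil {S0 S1 : Type} (w : List (S0 × Bool)) :
    pv (SkNor_il w : List ((S0 ⊕ S1) × Bool)) = FreeGroup.map Sum.inl (pv w) := by
  induction w with
  | nil => simp [SkNor_il, pv_nil]
  | cons a w ih =>
    have h1 : (SkNor_il (a :: w) : List ((S0 ⊕ S1) × Bool)) = (Sum.inl a.1, a.2) :: SkNor_il w := rfl
    rw [h1, pv_cons', pv_cons', ih, map_mul]
    congr 1
    rcases a with ⟨s, b⟩
    cases b with
    | true => simp [val]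
    | false => simp [val]

private theorem SkNor_phi {S0 S1 G Q : Type} [Group G] [Group Q] (g : S0 ⊕ S1 → G) (φ : G →* Q)
    (hφ : ∀ s, φ (g (Sum.inl s)) = 1) (c : FreeGroup S0) :
    φ (FreeGroup.lift g (FreeGroup.map Sum.inl c)) = 1 := by
  have h : (φ.comp (FreeGroup.lift g)).comp (FreeGroup.map Sum.inl) = (1 : FreeGroup S0 →* Q) := by
    apply FreeGroup.ext_hom
    intro s
    simp [hφ]
  exact DFunLike.congr_fun h c

private theorem SkNor_ac {S0 S1 V2 : Type} (X2 : S0 ⊕ S1 → Equiv.Perm V2) (hX : ∀ s, X2 (Sum.inl s) = 1)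
    (c : FreeGroup S0) : ac X2 (FreeGroup.map Sum.inl c) = 1 := by
  have h : (ac X2).comp (FreeGroup.map Sum.inl) = (1 : FreeGroup S0 →* Equiv.Perm V2) := by
    apply FreeGroup.ext_hom
    intro s
    simp [hX]
  exact DFunLike.congr_fun h c

private theorem SkNor_on {S0 S1 V1 V2 : Type} (X1 : S0 ⊕ S1 → Equiv.Perm V1) (X2 : S0 ⊕ S1 → Equiv.Perm V2)
    (hX : ∀ s, X2 (Sum.inl s) = 1) (E : Set ((V1 × V2) × (S0 ⊕ S1))) (A : Set V2)
    (hE : ∀ (q : V1 × V2) (s : S0), q.2 ∈ A → (q, Sum.inl s) ∈ E) (w : List (S0 × Bool)) (q : V1 × V2)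
    (hq : q.2 ∈ A) : On E (px X1 X2) (SkNor_il w) q := by
  induction w generalizing q with
  | nil => exact trivial
  | cons a w ih =>
    rcases a with ⟨s, b⟩
    cases b with
    | true =>
      change (q, Sum.inl s) ∈ E ∧ On E (px X1 X2) (SkNor_il w) (px X1 X2 (Sum.inl s) q)
      refine ⟨hE q s hq, ih _ ?_⟩
      change X2 (Sum.inl s) q.2 ∈ A
      rw [hX]
      exact hq
    | false =>
      change ((px X1 X2 (Sum.inl s)).symm q, Sum.inl s) ∈ E ∧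
        On E (px X1 X2) (SkNor_il w) ((px X1 X2 (Sum.inl s)).symm q)
      have h : ((px X1 X2 (Sum.inl s)).symm q).2 ∈ A := by
        change (X2 (Sum.inl s)).symm q.2 ∈ A
        rw [hX]
        exact hq
      exact ⟨hE _ s h, ih _ h⟩

open Classical in
private theorem SkNor_cnt {S V1 V2 : Type} [Fintype V1] [Fintype V2] (X : S → Equiv.Perm (V1 × V2))
    (l : FreeGroup S → List (S × Bool)) (T : Finset (FreeGroup S)) (F : Set V1) (A : Set V2) :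
    {x : (V1 × V2) × S | ∃ u ∈ T, ∃ f ∈ F, ∃ a ∈ A, x ∈ eds X (l u) (f, a)}.ncard ≤
      (∑ u ∈ T, (l u).length) * (F.ncard * A.ncard) := by
  have hF : F.ncard = F.toFinset.card := Set.ncard_eq_toFinset_card' F
  have hA : A.ncard = A.toFinset.card := Set.ncard_eq_toFinset_card' A
  have h1 : {x : (V1 × V2) × S | ∃ u ∈ T, ∃ f ∈ F, ∃ a ∈ A, x ∈ eds X (l u) (f, a)} ⊆
      ((T ×ˢ (F.toFinset ×ˢ A.toFinset)).biUnion fun z => (eds X (l z.1) z.2).toFinset :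
        Finset ((V1 × V2) × S)) := by
    rintro x ⟨u, hu, f, hf, a, ha, hx⟩
    refine Finset.mem_coe.2 (Finset.mem_biUnion.2 ⟨(u, (f, a)), ?_, List.mem_toFinset.2 hx⟩)
    exact Finset.mem_product.2 ⟨hu, Finset.mem_product.2 ⟨Set.mem_toFinset.2 hf, Set.mem_toFinset.2 ha⟩⟩
  refine le_trans (Set.ncard_le_ncard h1 (Finset.finite_toSet _)) ?_
  rw [Set.ncard_coe_finset, hF, hA]
  refine le_trans Finset.card_biUnion_le ?_
  rw [Finset.sum_product, Finset.sum_mul]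
  refine Finset.sum_le_sum fun u _ => ?_
  refine le_trans (Finset.sum_le_card_nsmul _ _ (l u).length fun z _ => ?_) ?_
  · exact le_trans (List.toFinset_card_le _) (le_of_eq (eds_len X (l u) z))
  · rw [Finset.card_product, smul_eq_mul, mul_comm]

private theorem SkNor_num {n1 n2 m m1 a f s L : ℕ} {ε : ℝ} (hε : 0 < ε) (hm : 0 < m) (h1 : 2 * (s : ℝ) ≤ ε * m)
    (h2 : 2 * (L : ℝ) ≤ ε * m1) (ha : a * m ≤ n2) (hf : f * m1 ≤ n1) :
    ((n1 * (a * s) + L * (f * a) : ℕ) : ℝ) ≤ ε * ((n1 * n2 : ℕ) : ℝ) := by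
  have ha' : (a : ℝ) * m ≤ n2 := by exact_mod_cast ha
  have hf' : (f : ℝ) * m1 ≤ n1 := by exact_mod_cast hf
  have ha2 : (a : ℝ) ≤ n2 := by
    have : a ≤ n2 := le_trans (Nat.le_mul_of_pos_right a hm) ha
    exact_mod_cast this
  push_cast
  have e1 : 2 * ((n1 : ℝ) * ((a : ℝ) * s)) ≤ ε * (n1 * n2) := by
    have i1 : (a : ℝ) * (2 * s) ≤ a * (ε * m) := mul_le_mul_of_nonneg_left h1 (Nat.cast_nonneg a)
    have i2 : ε * ((a : ℝ) * m) ≤ ε * n2 := mul_le_mul_of_nonneg_left ha' hε.le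
    have i3 : (n1 : ℝ) * ((a : ℝ) * (2 * s)) ≤ n1 * (ε * n2) :=
      mul_le_mul_of_nonneg_left (by nlinarith) (Nat.cast_nonneg n1)
    nlinarith
  have e2 : 2 * ((L : ℝ) * ((f : ℝ) * a)) ≤ ε * (n1 * n2) := by
    have i1 : (f : ℝ) * (2 * L) ≤ f * (ε * m1) := mul_le_mul_of_nonneg_left h2 (Nat.cast_nonneg f)
    have i2 : ε * ((f : ℝ) * m1) ≤ ε * n1 := mul_le_mul_of_nonneg_left hf' hε.le
    have i3 : (a : ℝ) * ((f : ℝ) * (2 * L)) ≤ a * (ε * n1) :=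
      mul_le_mul_of_nonneg_left (by nlinarith) (Nat.cast_nonneg a)
    have i4 : (ε * n1) * (a : ℝ) ≤ (ε * n1) * n2 :=
      mul_le_mul_of_nonneg_left ha2 (mul_nonneg hε.le (Nat.cast_nonneg n1))
    nlinarith
  linarith

private theorem SkNor_m {ε : ℝ} (hε : 0 < ε) (s : ℕ) : ∃ m : ℕ, 0 < m ∧ 2 * (s : ℝ) ≤ ε * m := by
  obtain ⟨m, hm⟩ := exists_nat_ge (2 * (s : ℝ) / ε)
  refine ⟨m + 1, Nat.succ_pos m, ?_⟩
  rw [div_le_iff₀ hε] at hm
  push_cast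
  nlinarith

private theorem SkNor_pr {n1 n2 : ℕ} (B : Set (Fin n1)) (A : Set (Fin n2)) :
    (B ×ˢ A : Set (Fin n1 × Fin n2)).ncard = B.ncard * A.ncard := Set.ncard_prod

theorem sk_nor {S0 S1 G Q : Type} [Group G] [Group Q] [Fintype S0] [Fintype S1] (hG : Sofic G) (hQ : Sofic Q)
    (g : S0 ⊕ S1 → G) (φ : G →* Q) (hφ : ∀ s, φ (g (Sum.inl s)) = 1)
    (hk : ∀ x : G, φ x = 1 → ∃ w : FreeGroup S0, FreeGroup.lift g (FreeGroup.map Sum.inl w) = x)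
    (hN : (Set.range fun w : FreeGroup S0 => FreeGroup.lift g (FreeGroup.map Sum.inl w)).Infinite)
    (hQ' : (Set.range fun w : FreeGroup (S0 ⊕ S1) => φ (FreeGroup.lift g w)).Infinite) (ε : ℝ) (hε : 0 < ε) :
    SK g ε := by
  classical
  obtain ⟨m, hm, hm2⟩ := SkNor_m hε (Fintype.card S0)
  obtain ⟨e, he⟩ := wrd_ex (fun w : FreeGroup (S0 ⊕ S1) => φ (FreeGroup.lift g w)) hQ' m
  let D : Finset (FreeGroup (S0 ⊕ S1)) :=
    Finset.univ.image fun p : Fin m × Fin m => (e p.1)⁻¹ * e p.2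
  have hD : ∀ i j, (e i)⁻¹ * e j ∈ D := fun i j =>
    Finset.mem_image.2 ⟨(i, j), Finset.mem_univ _, rfl⟩
  refine ⟨D, fun T => ?_⟩
  choose l hl using fun u : FreeGroup (S0 ⊕ S1) => pv_surj u
  choose l0 hl0 using fun u : FreeGroup S0 => pv_surj u
  obtain ⟨m1, hm1, hm12⟩ := SkNor_m hε (∑ u ∈ T, (l u).length)
  obtain ⟨e1, he1⟩ := wrd_ex (fun w : FreeGroup S0 => FreeGroup.lift g (FreeGroup.map Sum.inl w)) hN m1
  have hn2 : ∀ (c : FreeGroup S0) (u : FreeGroup (S0 ⊕ S1)), ∃ w : FreeGroup S0,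
      FreeGroup.lift g (FreeGroup.map Sum.inl w) =
        FreeGroup.lift g u * (FreeGroup.lift g (FreeGroup.map Sum.inl c))⁻¹ * (FreeGroup.lift g u)⁻¹ := by
    intro c u
    apply hk
    rw [map_mul, map_mul, map_inv, map_inv, SkNor_phi g φ hφ, inv_one, mul_one, mul_inv_cancel]
  choose nn hnn using hn2
  let C1 : Finset (FreeGroup S0) :=
    Finset.univ.image fun p : Fin m1 × Fin m1 => (e1 p.1)⁻¹ * e1 p.2
  have hC1 : ∀ i j, (e1 i)⁻¹ * e1 j ∈ C1 := fun i j =>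
    Finset.mem_image.2 ⟨(i, j), Finset.mem_univ _, rfl⟩
  let wd : FreeGroup S0 × FreeGroup (S0 ⊕ S1) → List ((S0 ⊕ S1) × Bool) := fun z =>
    SkNor_il (l0 z.1) ++ (l z.2 ++ SkNor_il (l0 (nn z.1 z.2)))
  refine ⟨(C1 ×ˢ T).image wd, fun W δ hδ => ?_⟩
  let W1 : Finset (FreeGroup (S0 ⊕ S1)) := W ∪ Finset.univ.image fun p : Fin m1 × Fin m1 =>
    (FreeGroup.map Sum.inl (e1 p.1))⁻¹ * FreeGroup.map Sum.inl (e1 p.2)
  have hW1 : ∀ w ∈ W, w ∈ W1 := fun w hw => Finset.mem_union_left _ hw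
  have hW1' : ∀ i j, (FreeGroup.map Sum.inl (e1 i))⁻¹ * FreeGroup.map Sum.inl (e1 j) ∈ W1 := fun i j =>
    Finset.mem_union_right _ (Finset.mem_image.2 ⟨(i, j), Finset.mem_univ _, rfl⟩)
  have hW2 : ∀ w ∈ W, w ∈ W ∪ D := fun w hw => Finset.mem_union_left _ hw
  have hW2' : ∀ w ∈ D, w ∈ W ∪ D := fun w hw => Finset.mem_union_right _ hw
  have hDp : (0 : ℝ) < 2 * ((D.card : ℝ) + 1) := by positivity
  have hδ' : 0 < δ / (2 * ((D.card : ℝ) + 1)) := div_pos hδ hDp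
  obtain ⟨n1, X1, hn1, hb1⟩ := sof_mdl hG g W1 (δ / (2 * ((D.card : ℝ) + 1))) hδ'
  obtain ⟨n2, X2, hn2, hX2, hb2⟩ := quo_mdl hQ g φ hφ (W ∪ D) (δ / (2 * ((D.card : ℝ) + 1))) hδ'
  obtain ⟨δ', hδe⟩ : ∃ δ', δ' = δ / (2 * ((D.card : ℝ) + 1)) := ⟨_, rfl⟩
  rw [← hδe] at hb1 hb2 hδ'
  have hδs : δ' * (2 * ((D.card : ℝ) + 1)) = δ := by
    rw [hδe]
    exact div_mul_cancel₀ δ hDp.ne'
  let B1 : Set (Fin n1) := {v | ¬ ∀ w ∈ W1, (ac X1 w v = v ↔ FreeGroup.lift g w = 1)}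
  let B2 : Set (Fin n2) := {v | ¬ ∀ w ∈ W ∪ D, (ac X2 w v = v ↔ φ (FreeGroup.lift g w) = 1)}
  have hB1 : (B1.ncard : ℝ) ≤ δ' * n1 := hb1
  have hB2 : (B2.ncard : ℝ) ≤ δ' * n2 := hb2
  have hG1 : ∀ v, v ∉ B1 → ∀ w ∈ W1, (ac X1 w v = v ↔ FreeGroup.lift g w = 1) := fun v hv =>
    not_not.1 hv
  have hG2 : ∀ v, v ∉ B2 → ∀ w ∈ W ∪ D, (ac X2 w v = v ↔ φ (FreeGroup.lift g w) = 1) := fun v hv =>
    not_not.1 hv
  obtain ⟨A2, hA2, hA2c, hA2n⟩ := net_ex hm (fun i => ac X2 (e i)) B2ᶜ (by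
    intro v hv i j hij
    apply he
    have h1 : ac X2 ((e i)⁻¹ * e j) v = v := by
      rw [map_mul, map_inv, Equiv.Perm.mul_apply, ← hij, SkNor_ia]
    have h2 := (hG2 v hv _ (hW2' _ (hD i j))).1 h1
    rw [map_mul, map_inv, map_mul, map_inv] at h2
    exact inv_mul_eq_one.1 h2)
  obtain ⟨F1, hF1, hF1c, hF1n⟩ := net_ex hm1 (fun i => ac X1 (FreeGroup.map Sum.inl (e1 i))) B1ᶜ (by
    intro v hv i j hij
    apply he1
    have h1 : ac X1 ((FreeGroup.map Sum.inl (e1 i))⁻¹ * FreeGroup.map Sum.inl (e1 j)) v = v := by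
      rw [map_mul, map_inv, Equiv.Perm.mul_apply, ← hij, SkNor_ia]
    have h2 := (hG1 v hv _ (hW1' i j)).1 h1
    rw [map_mul, map_inv] at h2
    exact inv_mul_eq_one.1 h2)
  rw [Fintype.card_fin] at hA2c hF1c
  let N : Set (Fin n1 × Fin n2) := {v | v.1 ∉ B1 ∧ v.2 ∈ A2}
  let E0 : Set ((Fin n1 × Fin n2) × (S0 ⊕ S1)) := {x | x.1.2 ∈ A2 ∧ ∃ s, x.2 = Sum.inl s}
  let E1 : Set ((Fin n1 × Fin n2) × (S0 ⊕ S1)) :=
    {x | ∃ u ∈ T, ∃ f ∈ F1, ∃ a ∈ A2, x ∈ eds (px X1 X2) (l u) (f, a)}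
  have hcard : Fintype.card (Fin n1 × Fin n2) = n1 * n2 := by
    rw [Fintype.card_prod, Fintype.card_fin, Fintype.card_fin]
  have hgood : ∀ p : Fin n1 × Fin n2, p.1 ∉ B1 → p.2 ∉ B2 → ∀ w ∈ W,
      (ac (px X1 X2) w p = p ↔ FreeGroup.lift g w = 1) := by
    intro p h1 h2 w hw
    rw [ac_px]
    constructor
    · intro h
      exact (hG1 _ h1 w (hW1 w hw)).1 (congrArg Prod.fst h)
    · intro h
      have i1 := (hG1 _ h1 w (hW1 w hw)).2 h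
      have i2 := (hG2 _ h2 w (hW2 w hw)).2 (by rw [h, map_one])
      exact Prod.ext i1 i2
  have hu1 : (Set.univ : Set (Fin n1)).ncard = n1 := by rw [Set.ncard_univ, Nat.card_eq_fintype_card, Fintype.card_fin]
  have hu2 : (Set.univ : Set (Fin n2)).ncard = n2 := by rw [Set.ncard_univ, Nat.card_eq_fintype_card, Fintype.card_fin]
  have hn1r : (0 : ℝ) ≤ n1 := Nat.cast_nonneg n1
  have hn2r : (0 : ℝ) ≤ n2 := Nat.cast_nonneg n2
  have hc1 : ((B1.ncard * n2 : ℕ) : ℝ) ≤ δ' * ((n1 * n2 : ℕ) : ℝ) := by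
    push_cast
    nlinarith
  have hc2 : ((n1 * B2.ncard : ℕ) : ℝ) ≤ δ' * ((n1 * n2 : ℕ) : ℝ) := by
    push_cast
    nlinarith
  refine ⟨Fin n1 × Fin n2, inferInstance, ⟨(⟨0, hn1⟩, ⟨0, hn2⟩)⟩, px X1 X2, N, E0 ∪ E1, ?_, ?_, ?_, ?_, ?_⟩
  · rintro p ⟨hp1, hp2⟩
    exact hgood p hp1 (hA2 hp2)
  · have hs : {v : Fin n1 × Fin n2 | ¬ ∀ w ∈ W, (ac (px X1 X2) w v = v ↔ FreeGroup.lift g w = 1)} ⊆
        (B1 ×ˢ Set.univ) ∪ (Set.univ ×ˢ B2) := by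
      intro v hv
      by_contra h
      apply hv
      refine hgood v (fun h1 => h (Or.inl ⟨h1, trivial⟩)) (fun h2 => h (Or.inr ⟨trivial, h2⟩))
    have h1 := le_trans (Set.ncard_le_ncard hs (Set.toFinite _)) (Set.ncard_union_le _ _)
    rw [SkNor_pr, SkNor_pr, hu1, hu2] at h1
    rw [hcard]
    have h2 : (({v : Fin n1 × Fin n2 | ¬ ∀ w ∈ W, (ac (px X1 X2) w v = v ↔ FreeGroup.lift g w = 1)}.ncard : ℕ) : ℝ) ≤
        ((B1.ncard * n2 : ℕ) : ℝ) + ((n1 * B2.ncard : ℕ) : ℝ) := by exact_mod_cast h1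
    have h3 : (0 : ℝ) ≤ (D.card : ℝ) := Nat.cast_nonneg _
    have h4 : 2 * δ' ≤ δ := by nlinarith
    have h5 : (0 : ℝ) ≤ ((n1 * n2 : ℕ) : ℝ) := Nat.cast_nonneg _
    nlinarith
  · have hs : {v : Fin n1 × Fin n2 | ¬ ∃ p ∈ N, ∃ d ∈ D, ac (px X1 X2) d p = v} ⊆
        (Set.univ ×ˢ B2) ∪ ⋃ d ∈ D, {v : Fin n1 × Fin n2 | (ac X1 d)⁻¹ v.1 ∈ B1} := by
      intro v hv
      by_contra h
      apply hv
      have h2 : v.2 ∉ B2 := fun h2 => h (Or.inl ⟨trivial, h2⟩)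
      have h1 : ∀ d ∈ D, (ac X1 d)⁻¹ v.1 ∉ B1 := fun d hd h1 =>
        h (Or.inr (Set.mem_iUnion₂.2 ⟨d, hd, h1⟩))
      obtain ⟨a, ha, i, j, hij⟩ := hA2n v.2 h2
      have hij' : ac X2 (e i) v.2 = ac X2 (e j) a := hij
      refine ⟨((ac X1 ((e i)⁻¹ * e j))⁻¹ v.1, a), ⟨h1 _ (hD i j), ha⟩, (e i)⁻¹ * e j, hD i j, ?_⟩
      rw [ac_px]
      refine Prod.ext ?_ ?_
      · change ac X1 ((e i)⁻¹ * e j) ((ac X1 ((e i)⁻¹ * e j))⁻¹ v.1) = v.1
        rw [SkNor_ai]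
      · change ac X2 ((e i)⁻¹ * e j) a = v.2
        rw [map_mul, map_inv, Equiv.Perm.mul_apply, ← hij', SkNor_ia]
    have h1 := le_trans (Set.ncard_le_ncard hs (Set.toFinite _)) (Set.ncard_union_le _ _)
    have h2 : (⋃ d ∈ D, {v : Fin n1 × Fin n2 | (ac X1 d)⁻¹ v.1 ∈ B1}).ncard ≤ D.card * (B1.ncard * n2) := by
      refine le_trans (Finset.set_ncard_biUnion_le D _) ?_
      rw [← smul_eq_mul]
      refine Finset.sum_le_card_nsmul _ _ _ fun d _ => ?_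
      rw [← hu2, ← SkNor_pr, hu2]
      refine Set.ncard_le_ncard_of_injOn (fun v => ((ac X1 d)⁻¹ v.1, v.2)) (fun v hv => ⟨hv, trivial⟩) ?_
        (Set.toFinite _)
      intro v _ v' _ hvv
      have i1 := congrArg Prod.fst hvv
      have i2 := congrArg Prod.snd hvv
      exact Prod.ext ((ac X1 d)⁻¹.injective i1) i2
    rw [SkNor_pr, hu1] at h1
    rw [hcard]
    have h3 : (({v : Fin n1 × Fin n2 | ¬ ∃ p ∈ N, ∃ d ∈ D, ac (px X1 X2) d p = v}.ncard : ℕ) : ℝ) ≤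
        ((n1 * B2.ncard : ℕ) : ℝ) + (D.card : ℝ) * ((B1.ncard * n2 : ℕ) : ℝ) := by
      exact_mod_cast le_trans h1 (Nat.add_le_add_left h2 _)
    have h4 : (0 : ℝ) ≤ (D.card : ℝ) := Nat.cast_nonneg _
    have h5 : (0 : ℝ) ≤ ((n1 * n2 : ℕ) : ℝ) := Nat.cast_nonneg _
    have h6 : (D.card : ℝ) * ((B1.ncard * n2 : ℕ) : ℝ) ≤ D.card * (δ' * ((n1 * n2 : ℕ) : ℝ)) :=
      mul_le_mul_of_nonneg_left hc1 h4
    have h7 : δ' * ((D.card : ℝ) + 1) ≤ δ := by nlinarith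
    have h8 : δ' * ((D.card : ℝ) + 1) * ((n1 * n2 : ℕ) : ℝ) ≤ δ * ((n1 * n2 : ℕ) : ℝ) :=
      mul_le_mul_of_nonneg_right h7 h5
    nlinarith
  · have h0 : E0.ncard ≤ n1 * (A2.ncard * Fintype.card S0) := by
      have hs : E0 ⊆ (fun z : (Fin n1 × Fin n2) × S0 => ((z.1, Sum.inl z.2) : (Fin n1 × Fin n2) × (S0 ⊕ S1))) ''
          ((Set.univ ×ˢ A2) ×ˢ Set.univ) := by
        rintro ⟨⟨v1, v2⟩, s⟩ ⟨h2, s0, hs0⟩
        exact ⟨((v1, v2), s0), ⟨⟨trivial, h2⟩, trivial⟩, Prod.ext rfl hs0.symm⟩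
      refine le_trans (Set.ncard_le_ncard hs (Set.toFinite _)) (le_trans (Set.ncard_image_le (Set.toFinite _)) ?_)
      rw [Set.ncard_prod, Set.ncard_prod, hu1, Set.ncard_univ, Nat.card_eq_fintype_card, mul_assoc]
    have h1 : E1.ncard ≤ (∑ u ∈ T, (l u).length) * (F1.ncard * A2.ncard) :=
      SkNor_cnt (px X1 X2) l T F1 A2
    have h2 := SkNor_num (n1 := n1) (n2 := n2) (a := A2.ncard) (f := F1.ncard) hε hm hm2 hm12 hA2c hF1c
    rw [hcard]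
    refine le_trans ?_ h2
    exact_mod_cast le_trans (Set.ncard_union_le E0 E1) (Nat.add_le_add h0 h1)
  · rintro ⟨p1, a⟩ ⟨hp1, ha⟩ u hu hup
    have hp1' : p1 ∉ B1 := hp1
    have ha' : a ∈ A2 := ha
    obtain ⟨f, hf, i, j, hij⟩ := hF1n p1 hp1'
    have hij' : ac X1 (FreeGroup.map Sum.inl (e1 i)) p1 = ac X1 (FreeGroup.map Sum.inl (e1 j)) f := hij
    have hfe : ac X1 (FreeGroup.map Sum.inl ((e1 j)⁻¹ * e1 i)) p1 = f := by
      rw [map_mul, map_inv, map_mul, map_inv, Equiv.Perm.mul_apply, hij', SkNor_ia]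
    obtain ⟨c, hc⟩ : ∃ c, c = (e1 j)⁻¹ * e1 i := ⟨_, rfl⟩
    have hcC : c ∈ C1 := by rw [hc]; exact hC1 j i
    rw [← hc] at hfe
    have hE0 : ∀ (q : Fin n1 × Fin n2) (s : S0), q.2 ∈ A2 →
        ((q, Sum.inl s) : (Fin n1 × Fin n2) × (S0 ⊕ S1)) ∈ E0 ∪ E1 := fun q s hq => Or.inl ⟨hq, s, rfl⟩
    have hq1 : ac (px X1 X2) (pv (SkNor_il (l0 c))) (p1, a) = (f, a) := by
      rw [SkNor_pvil, hl0, ac_px, SkNor_ac X2 hX2]
      exact Prod.ext hfe rfl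
    have hq2 : (ac (px X1 X2) (pv (l u)) (f, a)).2 ∈ A2 := by
      rw [hl, ac_px]
      have h := hup.2
      rw [ac_px] at h
      exact h
    refine ⟨wd (c, u), Finset.mem_image_of_mem wd (Finset.mem_product.2 ⟨hcC, hu⟩), ?_, ?_⟩
    · change FreeGroup.lift g (pv (SkNor_il (l0 c) ++ (l u ++ SkNor_il (l0 (nn c u))))) = FreeGroup.lift g u
      rw [pv_app, pv_app, SkNor_pvil, SkNor_pvil, hl0, hl0, hl, map_mul, map_mul, hnn]
      group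
    · change On (E0 ∪ E1) (px X1 X2) (SkNor_il (l0 c) ++ (l u ++ SkNor_il (l0 (nn c u)))) (p1, a)
      rw [on_app, on_app, hq1]
      refine ⟨SkNor_on X1 X2 hX2 _ A2 hE0 _ _ ha', ?_, SkNor_on X1 X2 hX2 _ A2 hE0 _ _ hq2⟩
      rw [on_iff]
      intro x hx
      exact Or.inr ⟨u, hu, f, hf, a, ha', hx⟩

end H33.SS
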