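import Pool.Agent.H33.SS.MainM
import Pool.Agent.H33.SS.SkNor
import Pool.Agent.H33.SS.SkFin

/-! # SS.FinB : the theorem for groups with a finitely generated infinite normal subgroup of infinite index

PROOF. `sk_b`: (classical) `H` is finitely generated: `G` is finitely generated (`hfg`) and `H` has finite index (`Subgroup.fg_of_index_ne_zero` or the instance for finite index subgroups). Choose a finite family of generators `g0 : Fin k → G` of `G`, `h1 : Fin n1 → H` of `H`, and `h0 : Fin n0 → H` of `N` (`N.FG`, elements of `H` with closure `N`). `gH := Sum.elim h0 h1 : Fin n0 ⊕ Fin n1 → H`, `φ := QuotientGroup.mk' N : H →* H ⧸ N`. `sk_nor`: `hφ`, `hk` since the closure of the range of `h0` is `N` (`x ∈ closure (range h0)` gives a word); `hN`: the range is `N`, infinite; `hQ'`: the range is everything (`gH` generates `H`, `mk'` surjective), infinite. So `SK gH ε'` for every `ε' > 0`, and `sk_fin` (with `g0`, `gH`) gives `SK g0 (C * ε')` with `C` independent of `ε'`.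
`thm_b1`: `Fs :=` a finite set that works for all the letters `g0 i` (from `bS`, union). For every `ε > 0`: `hf_le` with `κ := C * ε'` and `C * ε' * log Fs.card ≤ ε`. Then `HF ν ≤ HF μ + ofReal ε` for all `ε > 0`, so `HF ν ≤ HF μ` (`ENNReal.le_of_forall_pos_le_add` or by cases `HF μ = ⊤`). `thm_b`: both directions, as in `main_thm` of H33/HN/Main. -/

set_option autoImplicit false
set_option synthInstance.maxSize 4000

open MeasureTheory H31.BE H33.HN

namespace H33.SS

private theorem finB_fam {G : Type} [Group G] (P : Subgroup G) (hP : P.FG) :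
    ∃ (k : ℕ) (g : Fin k → G), Subgroup.closure (Set.range g) = P := by
  obtain ⟨S, hS⟩ := hP
  refine ⟨S.card, fun i => (S.equivFin.symm i : G), ?_⟩
  rw [← hS]
  congr 1
  ext x
  constructor
  · rintro ⟨i, rfl⟩
    exact (S.equivFin.symm i).2
  · intro hx
    exact ⟨S.equivFin ⟨x, hx⟩, by simp⟩

private theorem finB_mem {S G : Type} [Group G] (g : S → G) (x : G) :
    (∃ w : FreeGroup S, FreeGroup.lift g w = x) ↔ x ∈ Subgroup.closure (Set.range g) := by
  rw [← FreeGroup.range_lift_eq_closure]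
  rfl

private theorem finB_inl {S0 S1 G : Type} [Group G] (g : S0 ⊕ S1 → G) (w : FreeGroup S0) :
    FreeGroup.lift g (FreeGroup.map Sum.inl w) = FreeGroup.lift (fun s => g (Sum.inl s)) w := by
  have h : (FreeGroup.lift g).comp (FreeGroup.map Sum.inl) =
      FreeGroup.lift (fun s => g (Sum.inl s)) := by
    apply FreeGroup.ext_hom
    intro a
    simp
  exact DFunLike.congr_fun h w

/-- a family of generators with skeletons of arbitrarily small density -/
theorem sk_b (G : Type) [Group G] (hfg : Group.FG G) (H : Subgroup G) [H.FiniteIndex] (N : Subgroup H) [N.Normal]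
    (hN : N.FG) (hNi : Infinite N) (hQi : Infinite (H ⧸ N)) (hH : Sofic H) (hQ : Sofic (H ⧸ N)) :
    ∃ (k : ℕ) (g0 : Fin k → G), Function.Surjective (FreeGroup.lift g0) ∧ ∀ κ : ℝ, 0 < κ → ∃ κ' : ℝ, 0 ≤ κ' ∧
      κ' ≤ κ ∧ SK g0 κ' := by
  classical
  have : Group.FG G := hfg
  have : Group.FG H := inferInstance
  obtain ⟨k, g0, hg0⟩ := finB_fam (⊤ : Subgroup G) Group.FG.out
  obtain ⟨n1, h1, hh1⟩ := finB_fam (⊤ : Subgroup H) Group.FG.out
  obtain ⟨n0, h0, hh0⟩ := finB_fam N hN
  have hg : Function.Surjective (FreeGroup.lift g0) := by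
    intro x
    rw [finB_mem, hg0]
    exact Subgroup.mem_top x
  set gH : Fin n0 ⊕ Fin n1 → H := Sum.elim h0 h1 with hgH
  have hgs : Function.Surjective (FreeGroup.lift gH) := by
    intro x
    rw [finB_mem]
    have h2 : Subgroup.closure (Set.range h1) ≤ Subgroup.closure (Set.range gH) := by
      apply Subgroup.closure_mono
      rintro y ⟨i, rfl⟩
      exact ⟨Sum.inr i, rfl⟩
    apply h2
    rw [hh1]
    exact Subgroup.mem_top x
  have hin : ∀ w : FreeGroup (Fin n0), FreeGroup.lift gH (FreeGroup.map Sum.inl w) =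
      FreeGroup.lift h0 w := fun w => finB_inl gH w
  obtain ⟨C, hC, hCs⟩ := sk_fin H g0 hg gH hgs
  refine ⟨k, g0, hg, fun κ hκ => ?_⟩
  have hC1 : 0 < C + 1 := by linarith
  have hε : 0 < κ / (C + 1) := by positivity
  refine ⟨C * (κ / (C + 1)), by positivity, ?_, ?_⟩
  · have h3 : κ = (C + 1) * (κ / (C + 1)) := by field_simp
    nlinarith
  · refine hCs _ hε.le ?_
    refine sk_nor hH hQ gH (QuotientGroup.mk' N) ?_ ?_ ?_ ?_ _ hε
    · intro s
      have h4 : h0 s ∈ N := by
        rw [← hh0]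
        exact Subgroup.subset_closure ⟨s, rfl⟩
      exact (QuotientGroup.eq_one_iff (h0 s)).mpr h4
    · intro x hx
      have h5 : x ∈ N := (QuotientGroup.eq_one_iff x).mp hx
      rw [← hh0, ← finB_mem] at h5
      obtain ⟨w, hw⟩ := h5
      exact ⟨w, by rw [hin, hw]⟩
    · have h6 : (Set.range fun w : FreeGroup (Fin n0) =>
          FreeGroup.lift gH (FreeGroup.map Sum.inl w)) = (N : Set H) := by
        ext x
        constructor
        · rintro ⟨w, rfl⟩
          rw [SetLike.mem_coe, ← hh0, ← finB_mem]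
          exact ⟨w, (hin w).symm⟩
        · intro hx
          rw [SetLike.mem_coe, ← hh0, ← finB_mem] at hx
          obtain ⟨w, hw⟩ := hx
          exact ⟨w, by simp only [hin, hw]⟩
      rw [h6]
      exact Set.infinite_coe_iff.mp hNi
    · have h7 : (Set.range fun w : FreeGroup (Fin n0 ⊕ Fin n1) =>
          (QuotientGroup.mk' N) (FreeGroup.lift gH w)) = Set.univ := by
        rw [Set.eq_univ_iff_forall]
        intro q
        obtain ⟨x, rfl⟩ := QuotientGroup.mk'_surjective N q
        obtain ⟨w, rfl⟩ := hgs x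
        exact ⟨w, rfl⟩
      rw [h7]
      exact Set.infinite_univ

theorem thm_b1 {G : Type} [Group G] (hfg : Group.FG G) (H : Subgroup G) [H.FiniteIndex] (N : Subgroup H)
    [N.Normal] (hN : N.FG) (hNi : Infinite N) (hQi : Infinite (H ⧸ N)) (hH : Sofic H) (hQ : Sofic (H ⧸ N))
    (μ ν : Measure ℝ) [IsProbabilityMeasure μ] [IsProbabilityMeasure ν] (T S : Bsh G → Bsh G) (h : OE G μ ν T S) :
    HF ν ≤ HF μ := by
  classical
  obtain ⟨k, g0, hg, hSK⟩ := sk_b G hfg H N hN hNi hQi hH hQ
  have : Infinite H := Infinite.of_injective (Subtype.val : N → H) Subtype.val_injective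
  have : Infinite G := Infinite.of_injective (Subtype.val : H → G) Subtype.val_injective
  choose F hF using h.bS
  set Fs : Finset G := Finset.univ.biUnion fun i : Fin k => F (g0 i) with hFs
  have hae : ∀ᵐ y ∂(bern G ν), ∀ s : Fin k, ∃ f ∈ Fs, S (g0 s • y) = f • S y := by
    rw [ae_all_iff]
    intro s
    filter_upwards [hF (g0 s)] with y hy
    obtain ⟨f, hf, hfy⟩ := hy
    exact ⟨f, Finset.mem_biUnion.mpr ⟨s, Finset.mem_univ s, hf⟩, hfy⟩
  have hL : 0 ≤ Real.log (Fs.card : ℝ) := Real.log_natCast_nonneg _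
  apply ENNReal.le_of_forall_pos_le_add
  intro ε hε _
  have hε0 : (0 : ℝ) < ε := by exact_mod_cast hε
  have hL1 : 0 < Real.log (Fs.card : ℝ) + 1 := by linarith
  obtain ⟨κ', hκ0, hκle, hsk⟩ := hSK ((ε : ℝ) / (Real.log (Fs.card : ℝ) + 1)) (by positivity)
  have h1 := hf_le g0 hg κ' hκ0 hsk μ ν T S h Fs hae
  refine h1.trans ?_
  gcongr
  have h2 : κ' * Real.log (Fs.card : ℝ) ≤ ε := by
    have h3 : (ε : ℝ) / (Real.log (Fs.card : ℝ) + 1) * (Real.log (Fs.card : ℝ) + 1) = ε := by
      field_simp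
    have h4 : κ' * Real.log (Fs.card : ℝ) ≤
        (ε : ℝ) / (Real.log (Fs.card : ℝ) + 1) * Real.log (Fs.card : ℝ) :=
      mul_le_mul_of_nonneg_right hκle hL
    have h5 : 0 ≤ (ε : ℝ) / (Real.log (Fs.card : ℝ) + 1) := by positivity
    nlinarith
  calc ENNReal.ofReal (κ' * Real.log (Fs.card : ℝ)) ≤ ENNReal.ofReal (ε : ℝ) :=
        ENNReal.ofReal_le_ofReal h2
    _ = (ε : ENNReal) := ENNReal.ofReal_coe_nnreal

theorem thm_b (G : Type) [Group G] (hfg : Group.FG G) (H : Subgroup G) [H.FiniteIndex] (N : Subgroup H) [N.Normal]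
    (hN : N.FG) (hNi : Infinite N) (hQi : Infinite (H ⧸ N)) (hH : Sofic H) (hQ : Sofic (H ⧸ N))
    (μ ν : Measure ℝ) [IsProbabilityMeasure μ] [IsProbabilityMeasure ν]
    (h : ∃ T S : (G → ℝ) → (G → ℝ),
        MeasurePreserving T (Measure.infinitePi (fun _ : G => μ))
          (Measure.infinitePi (fun _ : G => ν)) ∧
        MeasurePreserving S (Measure.infinitePi (fun _ : G => ν))
          (Measure.infinitePi (fun _ : G => μ)) ∧
        (∀ᵐ x ∂(Measure.infinitePi (fun _ : G => μ)), S (T x) = x) ∧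
        (∀ᵐ y ∂(Measure.infinitePi (fun _ : G => ν)), T (S y) = y) ∧
        (∀ g : G, ∃ F : Finset G, ∀ᵐ x ∂(Measure.infinitePi (fun _ : G => μ)),
          ∃ f ∈ F, T (fun h => x (g⁻¹ * h)) = fun h => T x (f⁻¹ * h)) ∧
        (∀ g : G, ∃ F : Finset G, ∀ᵐ y ∂(Measure.infinitePi (fun _ : G => ν)),
          ∃ f ∈ F, S (fun h => y (g⁻¹ * h)) = fun h => S y (f⁻¹ * h))) :
    HF μ = HF ν := by
  obtain ⟨T, S, hT, hS, hST, hTS, bT, bS⟩ := h
  have h1 : OE G μ ν T S := ⟨hT, hS, hST, hTS, bT, bS⟩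
  have h2 : OE G ν μ S T := ⟨hS, hT, hTS, hST, bS, bT⟩
  exact le_antisymm (thm_b1 hfg H N hN hNi hQi hH hQ ν μ S T h2)
    (thm_b1 hfg H N hN hNi hQi hH hQ μ ν T S h1)

end H33.SS
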