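import Pool.Agent.H33.SS.HubC
import Pool.Agent.H33.SS.SkFin
import Pool.Agent.H33.SS.SkFinW

/-! # SS.SkD : sparse wq-normal subgroups of finite index subgroups give sparse skeletons

PROOF. (classical) `sk_d`: given `κ > 0`, `hyp` for `κ / 2`: `K`, `m`, `w`, `x`. `K` is finitely generated (`G` is, finite index; or `Subgroup.fg_of_index_ne_zero`): generators `y : Fin n → K`, path words `w' j` in `S` for them. `h := Sum.elim x y : Fin m ⊕ Fin n → K`, `cc := Sum.elim w w'`, `hh`: surjective. `wk_hub` (with `sofic_sub`), `c := length of cc`, `ε := κ / 2 * K.index` (positive), gives `WK h c (∑ (w i).length + κ / 2 * K.index)`, and `∑ (w i).length ≤ κ / 2 * K.index`. `sk_fin_w` of SkFin gives `SK g ((∑ (w i).length + κ / 2 * K.index) / K.index)`, and this number is at most `κ`.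
`sk_up`: generators `g0 : Fin k → G` of `G` (`hfg`); `sk_fin` for `H`, `g0`, `h`: `C`; for `κ > 0` take `κ1 ≤ κ / (C + 1)` with `SK h κ1`, then `SK g0 (C * κ1)`. -/

set_option autoImplicit false
set_option synthInstance.maxSize 4000

open MeasureTheory H31.BE H33.HN

namespace H33.SS

private theorem SkD_gen (G : Type) [Group G] (hfg : Group.FG G) :
    ∃ (k : ℕ) (g0 : Fin k → G), Function.Surjective (FreeGroup.lift g0) := by
  obtain ⟨α, hα, φ, hφ⟩ := Group.fg_iff_exists_freeGroup_hom_surjective_finite.1 hfg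
  obtain ⟨k, ⟨e⟩⟩ := Finite.exists_equiv_fin α
  refine ⟨k, fun i => φ (FreeGroup.of (e.symm i)), fun x => ?_⟩
  obtain ⟨u, rfl⟩ := hφ x
  refine ⟨FreeGroup.map e u, ?_⟩
  have h : (FreeGroup.lift fun i => φ (FreeGroup.of (e.symm i))).comp (FreeGroup.map e) = φ := by
    refine FreeGroup.ext_hom (f := (FreeGroup.lift fun i => φ (FreeGroup.of (e.symm i))).comp (FreeGroup.map e))
      (g := φ) ?_
    intro a
    simp
  exact DFunLike.congr_fun h u

theorem sk_d {S G : Type} [Group G] [Fintype S] (hG : Sofic G) (g : S → G)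
    (hg : Function.Surjective (FreeGroup.lift g))
    (hyp : ∀ ε : ℝ, 0 < ε → ∃ (K : Subgroup G) (_ : K.FiniteIndex) (m : ℕ) (w : Fin m → List (S × Bool))
      (x : Fin m → K), (∀ i, FreeGroup.lift g (pv (w i)) = (x i : G)) ∧ WqNormal (Subgroup.closure (Set.range x)) ∧
      (∑ i, ((w i).length : ℝ)) ≤ ε * K.index) (κ : ℝ) (hκ : 0 < κ) :
    ∃ κ' : ℝ, 0 ≤ κ' ∧ κ' ≤ κ ∧ SK g κ' := by
  classical
  obtain ⟨K, hK, m, w, x, hw, hwq, hsum⟩ := hyp (κ / 2) (half_pos hκ)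
  have : K.FiniteIndex := hK
  have hFG : Group.FG G := Group.fg_of_surjective hg
  have hFK : Group.FG K := inferInstance
  obtain ⟨n, y, hy⟩ := SkD_gen K hFK
  have hw' : ∀ j : Fin n, ∃ w' : List (S × Bool), FreeGroup.lift g (pv w') = (y j : G) := by
    intro j
    obtain ⟨u, hu⟩ := hg (y j : G)
    obtain ⟨v, hv⟩ := pv_surj u
    exact ⟨v, by rw [hv, hu]⟩
  choose w' hw' using hw'
  set h : Fin m ⊕ Fin n → K := Sum.elim x y with hh0
  set cc : Fin m ⊕ Fin n → List (S × Bool) := Sum.elim w w' with hcc0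
  have hcc : ∀ a, FreeGroup.lift g (pv (cc a)) = (h a : G) := by
    rintro (a | a)
    · exact hw a
    · exact hw' a
  have hh : Function.Surjective (FreeGroup.lift h) := by
    intro k
    obtain ⟨u, rfl⟩ := hy k
    refine ⟨FreeGroup.map Sum.inr u, ?_⟩
    have h1 : (FreeGroup.lift h).comp (FreeGroup.map Sum.inr) = FreeGroup.lift y := by
      refine FreeGroup.ext_hom (f := (FreeGroup.lift h).comp (FreeGroup.map Sum.inr))
        (g := FreeGroup.lift y) ?_
      intro a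
      simp [hh0]
    exact DFunLike.congr_fun h1 u
  have hidx : (0 : ℝ) < K.index := by
    have := K.index_ne_zero_of_finite
    exact_mod_cast Nat.pos_of_ne_zero this
  have hε : (0 : ℝ) < κ / 2 * K.index := mul_pos (half_pos hκ) hidx
  have hW := wk_hub (sofic_sub hG K) h hh (by simpa [hh0] using hwq) (fun a => (cc a).length)
    (κ / 2 * K.index) hε
  have hs0 : (0 : ℝ) ≤ ∑ i, ((w i).length : ℝ) := Finset.sum_nonneg fun _ _ => Nat.cast_nonneg _
  have hk : (0 : ℝ) ≤ ∑ s, (((cc (Sum.inl s)).length : ℕ) : ℝ) + κ / 2 * K.index := by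
    have : (0 : ℝ) ≤ ∑ s, (((cc (Sum.inl s)).length : ℕ) : ℝ) :=
      Finset.sum_nonneg fun _ _ => Nat.cast_nonneg _
    linarith
  have hSK := sk_fin_w K g hg h hh cc hcc _ hW
  refine ⟨_, div_nonneg hk hidx.le, ?_, hSK⟩
  rw [div_le_iff₀ hidx]
  have e1 : ∑ s, (((cc (Sum.inl s)).length : ℕ) : ℝ) = ∑ i, ((w i).length : ℝ) := rfl
  rw [e1]
  linarith

theorem sk_up (G : Type) [Group G] (hfg : Group.FG G) (H : Subgroup G) [H.FiniteIndex] (k : ℕ) (h : Fin k → H)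
    (hh : Function.Surjective (FreeGroup.lift h))
    (hyp : ∀ κ : ℝ, 0 < κ → ∃ κ' : ℝ, 0 ≤ κ' ∧ κ' ≤ κ ∧ SK h κ') :
    ∃ (k : ℕ) (g0 : Fin k → G), Function.Surjective (FreeGroup.lift g0) ∧ ∀ κ : ℝ, 0 < κ → ∃ κ' : ℝ, 0 ≤ κ' ∧
      κ' ≤ κ ∧ SK g0 κ' := by
  classical
  obtain ⟨k', g0, hg0⟩ := SkD_gen G hfg
  obtain ⟨C, hC, hCk⟩ := sk_fin H g0 hg0 h hh
  refine ⟨k', g0, hg0, fun κ hκ => ?_⟩
  have hC1 : (0 : ℝ) < C + 1 := by linarith
  obtain ⟨κ1, h0, h1, hSK⟩ := hyp (κ / (C + 1)) (div_pos hκ hC1)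
  refine ⟨C * κ1, mul_nonneg hC h0, ?_, hCk κ1 h0 hSK⟩
  have h2 : κ1 * (C + 1) ≤ κ := (le_div_iff₀ hC1).1 h1
  nlinarith [h2, h0, hC]

end H33.SS
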