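import Pool.Agent.H33.SS.MainM
import Pool.Agent.H33.SS.SkD
import Pool.Agent.H33.SS.AscA

/-! # SS.FinD : the theorem for sparse wq-normal subgroups and for ascending HNN extensions

PROOF. `thm_sk1`: `Fs :=` a finite set that works for all the letters `g0 i` (`h.bS`, union; the almost everywhere statements for finitely many letters). For every `ε > 0` choose `κ > 0` with `κ * log Fs.card ≤ ε`, `κ' ≤ κ` with `SK g0 κ'`; `hf_le` (MainM) gives `HF ν ≤ HF μ + ofReal ε`. Hence `HF ν ≤ HF μ`. `thm_sk`: both directions as in `main_thm` of H33/HN/Main.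
`thm_d`: `FreeGroup.lift g` is surjective by `hgen`; `sk_d`: convert the words: for `l : List (Fin k × Bool)` the product `(l.map fun p => if p.2 then g p.1 else (g p.1)⁻¹).prod` is `lift g (pv l.reverse)`, of the same length. `thm_e`: `H` is finitely generated (finite index in `G`), generators `h : Fin k → H`, `asc_d` gives the hypothesis of `sk_d` for `H`, so `SK h κ'` for small `κ'`; then `sk_up` and `thm_sk`. -/

set_option autoImplicit false
set_option synthInstance.maxSize 4000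

open MeasureTheory H31.BE H33.HN

namespace H33.SS

theorem thm_sk1 {G : Type} [Group G] [Infinite G] (k : ℕ) (g0 : Fin k → G)
    (hg : Function.Surjective (FreeGroup.lift g0))
    (hyp : ∀ κ : ℝ, 0 < κ → ∃ κ' : ℝ, 0 ≤ κ' ∧ κ' ≤ κ ∧ SK g0 κ') (μ ν : Measure ℝ) [IsProbabilityMeasure μ]
    [IsProbabilityMeasure ν] (T S : Bsh G → Bsh G) (h : OE G μ ν T S) : HF ν ≤ HF μ := by
  classical
  choose Fi hFi using fun i : Fin k => h.bS (g0 i)
  set Fs : Finset G := Finset.univ.biUnion Fi with hFs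
  have hF : ∀ᵐ y ∂(bern G ν), ∀ s, ∃ f ∈ Fs, S (g0 s • y) = f • S y := by
    refine ae_all_iff.2 fun i => ?_
    filter_upwards [hFi i] with y hy
    obtain ⟨f, hf, e⟩ := hy
    exact ⟨f, Finset.mem_biUnion.2 ⟨i, Finset.mem_univ i, hf⟩, e⟩
  have hL : 0 ≤ Real.log Fs.card := Real.log_natCast_nonneg _
  refine ENNReal.le_of_forall_pos_le_add fun ε hε _ => ?_
  have hε' : (0 : ℝ) < ε := NNReal.coe_pos.2 hε
  have hL1 : 0 < Real.log Fs.card + 1 := by linarith
  obtain ⟨κ, h0, h1, hSK⟩ := hyp (ε / (Real.log Fs.card + 1)) (div_pos hε' hL1)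
  have h2 := hf_le g0 hg κ h0 hSK μ ν T S h Fs hF
  refine h2.trans ?_
  have h3 : κ * Real.log Fs.card ≤ ε := by
    have h4 : κ * (Real.log Fs.card + 1) ≤ ε := (le_div_iff₀ hL1).1 h1
    nlinarith
  have h5 : ENNReal.ofReal (κ * Real.log Fs.card) ≤ (ε : ENNReal) := by
    rw [← ENNReal.ofReal_coe_nnreal]
    exact ENNReal.ofReal_le_ofReal h3
  gcongr

theorem thm_sk (G : Type) [Group G] [Infinite G] (k : ℕ) (g0 : Fin k → G)
    (hg : Function.Surjective (FreeGroup.lift g0))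
    (hyp : ∀ κ : ℝ, 0 < κ → ∃ κ' : ℝ, 0 ≤ κ' ∧ κ' ≤ κ ∧ SK g0 κ') (μ ν : Measure ℝ) [IsProbabilityMeasure μ]
    [IsProbabilityMeasure ν]
    (h : ∃ T S : (G → ℝ) → (G → ℝ),
        MeasurePreserving T (Measure.infinitePi (fun _ : G => μ))
          (Measure.infinitePi (fun _ : G => ν)) ∧
        MeasurePreserving S (Measure.infinitePi (fun _ : G => ν))
          (Measure.infinitePi (fun _ : G => μ)) ∧
        (∀ᵐ x ∂(Measure.infinitePi (fun _ : G => μ)), S (T x) = x) ∧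
        (∀ᵐ y ∂(Measure.infinitePi (fun _ : G => ν)), T (S y) = y) ∧
        (∀ g : G, ∃ F : Finset G, ∀ᵐ x ∂(Measure.infinitePi (fun _ : G => μ)),
          ∃ f ∈ F, T (fun h => x (g⁻¹ * h)) = fun h => T x (f⁻¹ * h)) ∧
        (∀ g : G, ∃ F : Finset G, ∀ᵐ y ∂(Measure.infinitePi (fun _ : G => ν)),
          ∃ f ∈ F, S (fun h => y (g⁻¹ * h)) = fun h => S y (f⁻¹ * h))) :
    HF μ = HF ν := by
  obtain ⟨T, S, hT, hS, hST, hTS, bT, bS⟩ := h
  have h1 : OE G μ ν T S := ⟨hT, hS, hST, hTS, bT, bS⟩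
  have h2 : OE G ν μ S T := ⟨hS, hT, hTS, hST, bS, bT⟩
  exact le_antisymm (thm_sk1 k g0 hg hyp ν μ S T h2) (thm_sk1 k g0 hg hyp μ ν T S h1)

private theorem FinD_pv {G : Type} [Group G] {k : ℕ} (g : Fin k → G) (l : List (Fin k × Bool)) :
    FreeGroup.lift g (pv l.reverse) = (l.map fun p => if p.2 then g p.1 else (g p.1)⁻¹).prod := by
  have h1 : pv l.reverse = (l.map val).prod := by
    unfold pv
    rw [List.map_reverse, List.reverse_reverse]
  rw [h1]
  clear h1
  induction l with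
  | nil => simp
  | cons a l ih =>
    rw [List.map_cons, List.prod_cons, map_mul, ih, List.map_cons, List.prod_cons]
    congr 1
    obtain ⟨i, b⟩ := a
    cases b <;> simp [val]

private theorem FinD_surj {G : Type} [Group G] {k : ℕ} (g : Fin k → G)
    (hgen : Subgroup.closure (Set.range g) = ⊤) : Function.Surjective (FreeGroup.lift g) := by
  rw [← MonoidHom.range_eq_top, eq_top_iff, ← hgen, Subgroup.closure_le]
  rintro _ ⟨i, rfl⟩
  exact ⟨FreeGroup.of i, by simp⟩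

private theorem FinD_gen (G : Type) [Group G] (hfg : Group.FG G) :
    ∃ (k : ℕ) (g0 : Fin k → G), Function.Surjective (FreeGroup.lift g0) := by
  obtain ⟨α, hα, φ, hφ⟩ := Group.fg_iff_exists_freeGroup_hom_surjective_finite.1 hfg
  obtain ⟨k, ⟨e⟩⟩ := Finite.exists_equiv_fin α
  refine ⟨k, fun i => φ (FreeGroup.of (e.symm i)), fun x => ?_⟩
  obtain ⟨u, rfl⟩ := hφ x
  refine ⟨FreeGroup.map e u, ?_⟩
  have h : (FreeGroup.lift fun i => φ (FreeGroup.of (e.symm i))).comp (FreeGroup.map e) = φ := by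
    refine FreeGroup.ext_hom (f := (FreeGroup.lift fun i => φ (FreeGroup.of (e.symm i))).comp (FreeGroup.map e))
      (g := φ) ?_
    intro a
    simp
  exact DFunLike.congr_fun h u

theorem thm_d (G : Type) [Group G] [Infinite G] (hG : Sofic G) (k : ℕ) (g : Fin k → G)
    (hgen : Subgroup.closure (Set.range g) = ⊤)
    (hyp : ∀ ε : ℝ, 0 < ε → ∃ (K : Subgroup G) (_ : K.FiniteIndex) (m : ℕ) (w : Fin m → List (Fin k × Bool))
      (x : Fin m → K), (∀ i, ((w i).map fun p => if p.2 then g p.1 else (g p.1)⁻¹).prod = (x i : G)) ∧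
      WqNormal (Subgroup.closure (Set.range x)) ∧ (∑ i, ((w i).length : ℝ)) ≤ ε * K.index)
    (μ ν : Measure ℝ) [IsProbabilityMeasure μ] [IsProbabilityMeasure ν]
    (h : ∃ T S : (G → ℝ) → (G → ℝ),
        MeasurePreserving T (Measure.infinitePi (fun _ : G => μ))
          (Measure.infinitePi (fun _ : G => ν)) ∧
        MeasurePreserving S (Measure.infinitePi (fun _ : G => ν))
          (Measure.infinitePi (fun _ : G => μ)) ∧
        (∀ᵐ x ∂(Measure.infinitePi (fun _ : G => μ)), S (T x) = x) ∧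
        (∀ᵐ y ∂(Measure.infinitePi (fun _ : G => ν)), T (S y) = y) ∧
        (∀ g : G, ∃ F : Finset G, ∀ᵐ x ∂(Measure.infinitePi (fun _ : G => μ)),
          ∃ f ∈ F, T (fun h => x (g⁻¹ * h)) = fun h => T x (f⁻¹ * h)) ∧
        (∀ g : G, ∃ F : Finset G, ∀ᵐ y ∂(Measure.infinitePi (fun _ : G => ν)),
          ∃ f ∈ F, S (fun h => y (g⁻¹ * h)) = fun h => S y (f⁻¹ * h))) :
    HF μ = HF ν := by
  have hs := FinD_surj g hgen
  refine thm_sk G k g hs (fun κ hκ => sk_d hG g hs ?_ κ hκ) μ ν h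
  intro ε hε
  obtain ⟨K, hK, m, w, x, hw, hwq, hsum⟩ := hyp ε hε
  refine ⟨K, hK, m, fun i => (w i).reverse, x, fun i => ?_, hwq, ?_⟩
  · rw [FinD_pv, hw i]
  · simp only [List.length_reverse]
    exact hsum

theorem thm_e (G : Type) [Group G] [Infinite G] (hfg : Group.FG G) (H : Subgroup G) [H.FiniteIndex] (hH : Sofic H)
    (F : Subgroup H) (hF : F.FG) (hFi : Infinite F) (t : H) (hc : ∀ x ∈ F, t * x * t⁻¹ ∈ F)
    (hgen : Subgroup.closure ((F : Set H) ∪ {t}) = ⊤) (φ : H →* Multiplicative ℤ) (hφF : ∀ x ∈ F, φ x = 1)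
    (hφt : φ t = Multiplicative.ofAdd 1) (μ ν : Measure ℝ) [IsProbabilityMeasure μ] [IsProbabilityMeasure ν]
    (h : ∃ T S : (G → ℝ) → (G → ℝ),
        MeasurePreserving T (Measure.infinitePi (fun _ : G => μ))
          (Measure.infinitePi (fun _ : G => ν)) ∧
        MeasurePreserving S (Measure.infinitePi (fun _ : G => ν))
          (Measure.infinitePi (fun _ : G => μ)) ∧
        (∀ᵐ x ∂(Measure.infinitePi (fun _ : G => μ)), S (T x) = x) ∧
        (∀ᵐ y ∂(Measure.infinitePi (fun _ : G => ν)), T (S y) = y) ∧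
        (∀ g : G, ∃ F : Finset G, ∀ᵐ x ∂(Measure.infinitePi (fun _ : G => μ)),
          ∃ f ∈ F, T (fun h => x (g⁻¹ * h)) = fun h => T x (f⁻¹ * h)) ∧
        (∀ g : G, ∃ F : Finset G, ∀ᵐ y ∂(Measure.infinitePi (fun _ : G => ν)),
          ∃ f ∈ F, S (fun h => y (g⁻¹ * h)) = fun h => S y (f⁻¹ * h))) :
    HF μ = HF ν := by
  have : Group.FG G := hfg
  have hFH : Group.FG H := inferInstance
  obtain ⟨n, y, hy⟩ := FinD_gen H hFH
  obtain ⟨k, g0, hg0, hyp⟩ := sk_up G hfg H n y hy fun κ hκ =>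
    sk_d hH y hy (fun ε hε => asc_d y hy F hF hFi t hc hgen φ hφF hφt ε hε) κ hκ
  exact thm_sk G k g0 hg0 hyp μ ν h

end H33.SS
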