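import Pool.Agent.H33.SS.ThA

/-! # SS.SofM : finite structures of sofic groups

PROOF. (classical) For every `w ∈ W` choose a path word `l w` with `pv (l w) = w` (`pv_surj`). Let `F : Finset G` contain `1`, and for every prefix `w1` of every `l w` the elements `x := lift g (pv w1)`, all `g s * x`, `(g s)⁻¹ * x`, `g s` (`s : S`). Apply `hG` to `F` and `ε := δ / (F.card ^ 2 + F.card + 1)`; `X s := σ (g s)`. Let `i` be outside the union of the sets `{σ a (σ b i) ≠ σ (a * b) i}`, `a, b ∈ F`, and `{σ a i = i}`, `1 ≠ a ∈ F`; the union has at most `δ * n` elements. Then `σ 1 i = i` (from `σ 1 (σ 1 i) = σ 1 i`, injectivity), and `ac X (pv w1) i = σ (lift g (pv w1)) i` for all prefixes `w1`, by induction (add the letters at the end of the list, `List.reverseRecOn` or prefix induction; `pv_app`): for the letter `(s, true)`: `σ (g s) (σ x i) = σ (g s * x) i`; for `(s, false)`: `(σ (g s))⁻¹ (σ x i) = σ ((g s)⁻¹ * x) i` because `σ (g s) (σ ((g s)⁻¹ * x) i) = σ x i`. Hence for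 `w ∈ W`: `ac X w i = σ (lift g w) i`, which is `i` iff `lift g w = 1`. -/

set_option autoImplicit false
set_option synthInstance.maxSize 4000

open MeasureTheory H31.BE H33.HN

namespace H33.SS

private theorem SofM_card {α β : Type} [Finite β] (F : Finset α) (s : α → Set β) (c : ℝ)
    (h : ∀ a ∈ F, ((s a).ncard : ℝ) ≤ c) :
    ((⋃ a ∈ F, s a).ncard : ℝ) ≤ F.card * c := by
  classical
  induction F using Finset.induction_on with
  | empty => simp
  | insert a F ha ih =>
    have h1 : ((⋃ x ∈ insert a F, s x)) = s a ∪ (⋃ x ∈ F, s x) := by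
      ext y
      simp
    rw [h1, Finset.card_insert_of_notMem ha]
    have h2 : ((s a ∪ (⋃ x ∈ F, s x)).ncard : ℝ) ≤ ((s a).ncard : ℝ) + ((⋃ x ∈ F, s x).ncard : ℝ) := by
      exact_mod_cast Set.ncard_union_le _ _
    have h3 := ih fun x hx => h x (Finset.mem_insert_of_mem hx)
    have h4 := h a (Finset.mem_insert_self _ _)
    push_cast
    linarith

/-- the value along a path word -/
private theorem SofM_path {S G : Type} [Group G] {n : ℕ} (g : S → G) (F : Finset G)
    (σ : G → Equiv.Perm (Fin n)) (i : Fin n)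
    (hm : ∀ a ∈ F, ∀ b ∈ F, σ a (σ b i) = σ (a * b) i) (h1 : (1 : G) ∈ F)
    (hg : ∀ s, g s ∈ F) (w : List (S × Bool))
    (hw : ∀ w1 : List (S × Bool), w1 <+: w → FreeGroup.lift g (pv w1) ∈ F) :
    ac (fun s => σ (g s)) (pv w) i = σ (FreeGroup.lift g (pv w)) i := by
  induction w using List.reverseRecOn with
  | nil =>
    have h2 := hm 1 h1 1 h1
    rw [mul_one] at h2
    have h3 : σ 1 i = i := (σ 1).injective h2
    rw [pv_nil, map_one, map_one, h3]
    rfl
  | append_singleton w a ih =>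
    have ih' := ih fun w1 hw1 => hw w1 (hw1.trans (List.prefix_append _ _))
    have hw' : FreeGroup.lift g (pv w) ∈ F := hw w (List.prefix_append _ _)
    have hwa : FreeGroup.lift g (pv (w ++ [a])) ∈ F := hw _ (List.prefix_refl _)
    have e1 : pv (w ++ [a]) = val a * pv w := by
      rw [pv_app, pv_cons', pv_nil, one_mul]
    rw [e1] at hwa ⊢
    rw [map_mul] at hwa ⊢
    rw [Equiv.Perm.mul_apply, ih', map_mul]
    rcases a with ⟨s, b⟩
    cases b with
    | true =>
      have e2 : val (s, true) = FreeGroup.of s := by simp [val]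
      rw [e2]
      have e3 : ac (fun s => σ (g s)) (FreeGroup.of s) = σ (g s) := by
        simp only [ac, FreeGroup.lift_apply_of]
      have e4 : FreeGroup.lift g (FreeGroup.of s) = g s := FreeGroup.lift_apply_of
      rw [e3, e4]
      exact hm _ (hg s) _ hw'
    | false =>
      have e2 : val (s, false) = (FreeGroup.of s)⁻¹ := by simp [val]
      rw [e2] at hwa ⊢
      have e3 : ac (fun s => σ (g s)) (FreeGroup.of s)⁻¹ = (σ (g s))⁻¹ := by
        simp only [ac, map_inv, FreeGroup.lift_apply_of]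
      have e5 : FreeGroup.lift g (FreeGroup.of s)⁻¹ = (g s)⁻¹ := by
        simp only [map_inv, FreeGroup.lift_apply_of]
      rw [e5] at hwa ⊢
      rw [e3]
      have e4 := hm _ (hg s) _ hwa
      rw [mul_inv_cancel_left] at e4
      rw [← e4]
      exact Equiv.symm_apply_apply (σ (g s)) _

theorem sof_mdl {S G : Type} [Group G] [Fintype S] (hG : Sofic G) (g : S → G) (W : Finset (FreeGroup S)) (δ : ℝ)
    (hδ : 0 < δ) :
    ∃ (n : ℕ) (X : S → Equiv.Perm (Fin n)), 0 < n ∧
      ({v | ¬ ∀ w ∈ W, (ac X w v = v ↔ FreeGroup.lift g w = 1)}.ncard : ℝ) ≤ δ * n := by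
  classical
  choose l hl using (pv_surj (S := S))
  let F : Finset G := insert 1 (Finset.univ.image g ∪
    (W.biUnion fun w => ((l w).inits.toFinset).image fun w1 => FreeGroup.lift g (pv w1)))
  have h1 : (1 : G) ∈ F := Finset.mem_insert_self _ _
  have hgF : ∀ s, g s ∈ F := fun s => Finset.mem_insert_of_mem (Finset.mem_union_left _
    (Finset.mem_image_of_mem _ (Finset.mem_univ s)))
  have hpF : ∀ w ∈ W, ∀ w1 : List (S × Bool), w1 <+: l w → FreeGroup.lift g (pv w1) ∈ F := by
    intro w hw w1 hw1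
    refine Finset.mem_insert_of_mem (Finset.mem_union_right _ (Finset.mem_biUnion.2 ⟨w, hw, ?_⟩))
    refine Finset.mem_image.2 ⟨w1, ?_, rfl⟩
    rw [List.mem_toFinset, List.mem_inits]
    exact hw1
  have hc : (0 : ℝ) < (F.card : ℝ) ^ 2 + F.card + 1 := by positivity
  obtain ⟨n, σ, hn, hσ, hσ1⟩ := hG F (δ / ((F.card : ℝ) ^ 2 + F.card + 1)) (div_pos hδ hc)
  refine ⟨n, fun s => σ (g s), hn, ?_⟩
  have hn' : (0 : ℝ) < n := by exact_mod_cast hn
  let B1 : Set (Fin n) := ⋃ p ∈ F ×ˢ F, {i | σ p.1 (σ p.2 i) ≠ σ (p.1 * p.2) i}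
  let B2 : Set (Fin n) := ⋃ a ∈ F.filter (fun a => a ≠ 1), {i | σ a i = i}
  have hB1 : (B1.ncard : ℝ) ≤ (F ×ˢ F).card * (δ / ((F.card : ℝ) ^ 2 + F.card + 1) * n) :=
    SofM_card _ _ _ fun p hp => hσ p.1 (Finset.mem_product.1 hp).1 p.2 (Finset.mem_product.1 hp).2
  have hB2 : (B2.ncard : ℝ) ≤ (F.filter (fun a => a ≠ 1)).card *
      (δ / ((F.card : ℝ) ^ 2 + F.card + 1) * n) :=
    SofM_card _ _ _ fun a ha => hσ1 a (Finset.mem_filter.1 ha).1 (Finset.mem_filter.1 ha).2
  have hsub : {v | ¬ ∀ w ∈ W, (ac (fun s => σ (g s)) w v = v ↔ FreeGroup.lift g w = 1)} ⊆ B1 ∪ B2 := by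
    intro i hi
    by_contra hcon
    rw [Set.mem_union, not_or] at hcon
    apply hi
    have hm : ∀ a ∈ F, ∀ b ∈ F, σ a (σ b i) = σ (a * b) i := by
      intro a ha b hb
      by_contra hne
      exact hcon.1 (Set.mem_biUnion (Finset.mem_product.2 ⟨ha, hb⟩ : (a, b) ∈ F ×ˢ F) hne)
    have hf : ∀ a ∈ F, σ a i = i → a = 1 := by
      intro a ha h
      by_contra hne
      exact hcon.2 (Set.mem_biUnion (Finset.mem_filter.2 ⟨ha, hne⟩) h)
    have hone : σ 1 i = i := by
      have h2 := hm 1 h1 1 h1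
      rw [mul_one] at h2
      exact (σ 1).injective h2
    intro w hw
    have h3 := SofM_path g F σ i hm h1 hgF (l w) (hpF w hw)
    rw [hl w] at h3
    have h4 : FreeGroup.lift g w ∈ F := by
      have := hpF w hw (l w) (List.prefix_refl _)
      rwa [hl w] at this
    rw [h3]
    constructor
    · exact hf _ h4
    · intro h5
      rw [h5, hone]
  have h5 : (({v | ¬ ∀ w ∈ W, (ac (fun s => σ (g s)) w v = v ↔ FreeGroup.lift g w = 1)}.ncard : ℕ) : ℝ) ≤
      (B1.ncard : ℝ) + B2.ncard := by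
    have h6 := (Set.ncard_le_ncard hsub (Set.toFinite _)).trans (Set.ncard_union_le _ _)
    exact_mod_cast h6
  have h7 : ((F.filter (fun a => a ≠ 1)).card : ℝ) ≤ F.card := by
    exact_mod_cast Finset.card_filter_le _ _
  have h8 : ((F ×ˢ F).card : ℝ) = (F.card : ℝ) ^ 2 := by
    rw [Finset.card_product]; push_cast; ring
  have h9 : 0 ≤ δ / ((F.card : ℝ) ^ 2 + F.card + 1) * n := by positivity
  have h10 : ((F.card : ℝ) ^ 2 + F.card) * (δ / ((F.card : ℝ) ^ 2 + F.card + 1) * n) ≤ δ * n := by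
    have h11 : ((F.card : ℝ) ^ 2 + F.card + 1) * (δ / ((F.card : ℝ) ^ 2 + F.card + 1) * n) = δ * n := by
      field_simp
    nlinarith
  rw [h8] at hB1
  have h12 := mul_le_mul_of_nonneg_right h7 h9
  nlinarith

end H33.SS
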