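import Pool.Agent.H33.SS.HubB
import Pool.Agent.H33.SS.SofM

/-! # SS.HubC : skeletons from a wq-normal subgroup

PROOF. (classical) By `con_sub` the connecting elements are a subgroup `M`; it contains the closure of the letters `inl` (`con_inl`), and if `{m | m ∈ M ∧ u * m * u⁻¹ ∈ M}` is infinite then `u ∈ M` by `con_hub`; so `M = ⊤` by `hwq`: all elements are connecting.
`WK`: `D := {1}`. Given `T`: `C0 := 1 + ` the sum of all `c s`, `ε' := ε / (C0 * (T.card + 1))`; for `u ∈ T`: `Con g (lift g u)` for `ε'` gives `R u`, `W u`; `R := ` the union of the `R u`. Given `W`, `δ`: `sof_mdl` for `W ∪` the union of the `W u`: `X` on `Fin n`; `N :=` the points good for this union. `E := {e | ∃ s, e.2 = inl s} ∪` the union of the `E u`. Weight: `∑_{v} ∑_{s : S0} c (inl s) + ∑_u (E u).card * C0 ≤ n * ∑ s, c (inl s) + ε * n`. The last condition of `WK`: from `Con`, with `on_mono`.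
`sofic_sub`: for a finite set of elements of `H` use the property of `G` for the image in `G`, and restrict `σ`. -/

set_option autoImplicit false
set_option synthInstance.maxSize 4000

open MeasureTheory H31.BE H33.HN

namespace H33.SS

private theorem hubc_all {S0 S1 G : Type} [Group G] (g : S0 ⊕ S1 → G)
    (hg : Function.Surjective (FreeGroup.lift g))
    (hwq : WqNormal (Subgroup.closure (Set.range fun s : S0 => g (Sum.inl s)))) (x : G) : Con g x := by
  obtain ⟨M, hM⟩ := con_sub g hg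
  have h1 : M = ⊤ := by
    apply hwq M
    · rw [Subgroup.closure_le]
      rintro _ ⟨s, rfl⟩
      exact (hM _).2 (con_inl g s)
    · intro u hu
      apply (hM u).2
      apply con_hub g hg u
      apply hu.mono
      rintro m ⟨h1, h2⟩
      exact ⟨(hM _).1 h1, (hM _).1 h2⟩
  exact (hM x).1 (h1 ▸ Subgroup.mem_top x)

theorem wk_hub {S0 S1 G : Type} [Group G] [Fintype S0] [Fintype S1] (hG : Sofic G) (g : S0 ⊕ S1 → G)
    (hg : Function.Surjective (FreeGroup.lift g))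
    (hwq : WqNormal (Subgroup.closure (Set.range fun s : S0 => g (Sum.inl s)))) (c : S0 ⊕ S1 → ℕ) (ε : ℝ)
    (hε : 0 < ε) : WK g c (∑ s, (c (Sum.inl s) : ℝ) + ε) := by
  classical
  refine ⟨{1}, fun T => ?_⟩
  set C0 : ℝ := 1 + ∑ s, (c s : ℝ) with hC0
  have hC0pos : 0 < C0 := by
    have : 0 ≤ ∑ s, (c s : ℝ) := Finset.sum_nonneg fun _ _ => Nat.cast_nonneg _
    rw [hC0]; linarith
  have hc : ∀ s, (c s : ℝ) ≤ C0 := by
    intro s
    have h1 : (c s : ℝ) ≤ ∑ s, (c s : ℝ) :=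
      Finset.single_le_sum (f := fun s => (c s : ℝ)) (fun _ _ => Nat.cast_nonneg _) (Finset.mem_univ s)
    rw [hC0]; linarith
  set ε' : ℝ := ε / (C0 * (T.card + 1)) with hε'
  have hTpos : (0 : ℝ) < T.card + 1 := by positivity
  have hε'pos : 0 < ε' := by rw [hε']; positivity
  have hcon : ∀ u : FreeGroup (S0 ⊕ S1), ∃ (R : Finset (List ((S0 ⊕ S1) × Bool))) (W : Finset (FreeGroup (S0 ⊕ S1))),
      ∀ (V : Type) [Fintype V] (X : S0 ⊕ S1 → Equiv.Perm V), ∃ E : Finset (V × (S0 ⊕ S1)),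
      (E.card : ℝ) ≤ ε' * Fintype.card V ∧
      ∀ p : V, (∀ w ∈ W, (ac X w p = p ↔ FreeGroup.lift g w = 1)) →
        ∃ w ∈ R, FreeGroup.lift g (pv w) = FreeGroup.lift g u ∧
          On ((E : Set (V × (S0 ⊕ S1))) ∪ {e | ∃ s, e.2 = Sum.inl s}) X w p := fun u =>
    hubc_all g hg hwq (FreeGroup.lift g u) ε' hε'pos
  choose R W' hRW using hcon
  refine ⟨T.biUnion R, fun W δ hδ => ?_⟩
  obtain ⟨n, X, hn, hX⟩ := sof_mdl hG g (W ∪ T.biUnion W') δ hδ
  have hE : ∀ u : FreeGroup (S0 ⊕ S1), ∃ E : Finset (Fin n × (S0 ⊕ S1)),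
      (E.card : ℝ) ≤ ε' * Fintype.card (Fin n) ∧
      ∀ p : Fin n, (∀ w ∈ W' u, (ac X w p = p ↔ FreeGroup.lift g w = 1)) →
        ∃ w ∈ R u, FreeGroup.lift g (pv w) = FreeGroup.lift g u ∧
          On ((E : Set (Fin n × (S0 ⊕ S1))) ∪ {e | ∃ s, e.2 = Sum.inl s}) X w p := fun u => hRW u (Fin n) X
  choose Eu hEu1 hEu2 using hE
  set E0 : Finset (Fin n × (S0 ⊕ S1)) :=
    (Finset.univ : Finset (Fin n × S0)).image (fun q => (q.1, Sum.inl q.2)) with hE0
  refine ⟨Fin n, inferInstance, ⟨⟨0, hn⟩⟩, X,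
    {p | ∀ w ∈ W ∪ T.biUnion W', (ac X w p = p ↔ FreeGroup.lift g w = 1)}, E0 ∪ T.biUnion Eu, ?_, ?_, ?_, ?_, ?_⟩
  · intro p hp w hw
    exact hp w (Finset.mem_union_left _ hw)
  · rw [Fintype.card_fin]
    refine le_trans ?_ hX
    have := Set.ncard_le_ncard (s := {v | ¬ ∀ w ∈ W, (ac X w v = v ↔ FreeGroup.lift g w = 1)})
      (t := {v | ¬ ∀ w ∈ W ∪ T.biUnion W', (ac X w v = v ↔ FreeGroup.lift g w = 1)}) (by
        intro v hv hall
        exact hv fun w hw => hall w (Finset.mem_union_left _ hw)) (Set.toFinite _)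
    exact_mod_cast this
  · rw [Fintype.card_fin]
    refine le_trans ?_ hX
    have := Set.ncard_le_ncard (s := {v | ¬ ∃ p ∈ {p : Fin n | ∀ w ∈ W ∪ T.biUnion W',
        (ac X w p = p ↔ FreeGroup.lift g w = 1)}, ∃ d ∈ ({1} : Finset (FreeGroup (S0 ⊕ S1))), ac X d p = v})
      (t := {v | ¬ ∀ w ∈ W ∪ T.biUnion W', (ac X w v = v ↔ FreeGroup.lift g w = 1)}) (by
        intro v hv hall
        exact hv ⟨v, hall, 1, Finset.mem_singleton_self _, by simp⟩) (Set.toFinite _)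
    exact_mod_cast this
  · rw [Fintype.card_fin]
    have s1 : ∑ e ∈ E0 ∪ T.biUnion Eu, (c e.2 : ℝ) ≤ ∑ e ∈ E0, (c e.2 : ℝ) + ∑ e ∈ T.biUnion Eu, (c e.2 : ℝ) := by
      have h1 := Finset.sum_union_inter (s₁ := E0) (s₂ := T.biUnion Eu) (f := fun e => (c e.2 : ℝ))
      have h2 : 0 ≤ ∑ e ∈ E0 ∩ T.biUnion Eu, (c e.2 : ℝ) := Finset.sum_nonneg fun _ _ => Nat.cast_nonneg _
      linarith
    have s2 : ∑ e ∈ E0, (c e.2 : ℝ) = n * ∑ s, (c (Sum.inl s) : ℝ) := by
      rw [hE0, Finset.sum_image]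
      · rw [Fintype.sum_prod_type]
        simp
      · rintro ⟨a, s⟩ _ ⟨b, t⟩ _ hab
        simp only [Prod.mk.injEq, Sum.inl.injEq] at hab
        exact Prod.ext hab.1 hab.2
    have s3 : ∑ e ∈ T.biUnion Eu, (c e.2 : ℝ) ≤ (T.card * (ε' * n)) * C0 := by
      have h1 : ∑ e ∈ T.biUnion Eu, (c e.2 : ℝ) ≤ ∑ _e ∈ T.biUnion Eu, C0 := Finset.sum_le_sum fun e _ => hc e.2
      rw [Finset.sum_const, nsmul_eq_mul] at h1
      have h2 : ((T.biUnion Eu).card : ℝ) ≤ ∑ u ∈ T, ((Eu u).card : ℝ) := by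
        exact_mod_cast Finset.card_biUnion_le (s := T) (t := Eu)
      have h3 : ∑ u ∈ T, ((Eu u).card : ℝ) ≤ ∑ _u ∈ T, ε' * n := by
        apply Finset.sum_le_sum
        intro u _
        have := hEu1 u
        rwa [Fintype.card_fin] at this
      rw [Finset.sum_const, nsmul_eq_mul] at h3
      exact h1.trans (mul_le_mul_of_nonneg_right (h2.trans h3) hC0pos.le)
    have s4 : (T.card * (ε' * n)) * C0 ≤ ε * n := by
      have h1 : ε' * C0 * (T.card + 1) = ε := by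
        rw [hε']
        field_simp
      have h2 : (T.card * (ε' * n)) * C0 = (ε' * C0 * T.card) * n := by ring
      rw [h2]
      apply mul_le_mul_of_nonneg_right _ (Nat.cast_nonneg _)
      have h3 : 0 < ε' * C0 := by positivity
      nlinarith
    rw [s2] at s1
    have : (∑ s, (c (Sum.inl s) : ℝ) + ε) * n = n * ∑ s, (c (Sum.inl s) : ℝ) + ε * n := by ring
    rw [this]
    linarith
  · intro p hp u hu _
    obtain ⟨w, hw, hwv, hwo⟩ := hEu2 u p (fun w hw =>
      hp w (Finset.mem_union_right _ (Finset.mem_biUnion.2 ⟨u, hu, hw⟩)))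
    refine ⟨w, Finset.mem_biUnion.2 ⟨u, hu, hw⟩, hwv, on_mono ?_ X w p hwo⟩
    rintro ⟨v, t⟩ (he | ⟨s, hs⟩)
    · exact Finset.mem_coe.2 (Finset.mem_union_right _ (Finset.mem_biUnion.2 ⟨u, hu, he⟩))
    · refine Finset.mem_coe.2 (Finset.mem_union_left _ ?_)
      rw [hE0]
      have hs' : t = Sum.inl s := hs
      exact Finset.mem_image.2 ⟨(v, s), Finset.mem_univ _, by rw [hs']⟩

theorem sofic_sub {G : Type} [Group G] (hG : Sofic G) (H : Subgroup G) : Sofic H := by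
  classical
  intro F ε hε
  obtain ⟨n, σ, hn, h1, h2⟩ := hG (F.image (Subtype.val : H → G)) ε hε
  refine ⟨n, fun x => σ x, hn, ?_, ?_⟩
  · intro a ha b hb
    have := h1 (a : G) (Finset.mem_image.2 ⟨a, ha, rfl⟩) (b : G) (Finset.mem_image.2 ⟨b, hb, rfl⟩)
    simpa using this
  · intro a ha ha1
    have hne : (a : G) ≠ 1 := by
      intro h
      exact ha1 (Subtype.ext h)
    exact h2 (a : G) (Finset.mem_image.2 ⟨a, ha, rfl⟩) hne

end H33.SS
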