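import Pool.Agent.H33.SS.MainM
import Pool.Agent.H33.SS.HubC
import Pool.Agent.H33.SS.SkFinW

/-! # SS.FinE : the inequality for all finitely generated sofic groups, with a subgroup of finite index -/

set_option autoImplicit false
set_option synthInstance.maxSize 4000

open MeasureTheory H31.BE H33.HN

namespace H33.SS

private theorem FinE_gen (G : Type) [Group G] (hfg : Group.FG G) :
    ∃ (k : ℕ) (g0 : Fin k → G), Function.Surjective (FreeGroup.lift g0) := by
  obtain ⟨α, hα, φ, hφ⟩ := Group.fg_iff_exists_freeGroup_hom_surjective_finite.1 hfg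
  obtain ⟨k, ⟨e⟩⟩ := Finite.exists_equiv_fin α
  refine ⟨k, fun i => φ (FreeGroup.of (e.symm i)), fun x => ?_⟩
  obtain ⟨u, rfl⟩ := hφ x
  refine ⟨FreeGroup.map e u, ?_⟩
  have h : (FreeGroup.lift fun i => φ (FreeGroup.of (e.symm i))).comp (FreeGroup.map e) = φ := by
    refine FreeGroup.ext_hom (f := (FreeGroup.lift fun i => φ (FreeGroup.of (e.symm i))).comp (FreeGroup.map e))
      (g := φ) ?_
    intro a
    simp
  exact DFunLike.congr_fun h u

/-- a finite family of path words whose values generate a wq-normal subgroup of a subgroup `K` of finite index gives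
skeletons of density (total length) / (index of `K`), up to `δ` -/
theorem sk_e {S G : Type} [Group G] [Fintype S] (hG : Sofic G) (g : S → G)
    (hg : Function.Surjective (FreeGroup.lift g)) (K : Subgroup G) [K.FiniteIndex] (m : ℕ)
    (w : Fin m → List (S × Bool)) (x : Fin m → K) (hw : ∀ i, FreeGroup.lift g (pv (w i)) = (x i : G))
    (hwq : WqNormal (Subgroup.closure (Set.range x))) (δ : ℝ) (hδ : 0 < δ) :
    SK g ((∑ i, ((w i).length : ℝ)) / K.index + δ) := by
  classical
  have hFG : Group.FG G := Group.fg_of_surjective hg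
  have hFK : Group.FG K := inferInstance
  obtain ⟨n, y, hy⟩ := FinE_gen K hFK
  have hw' : ∀ j : Fin n, ∃ w' : List (S × Bool), FreeGroup.lift g (pv w') = (y j : G) := by
    intro j
    obtain ⟨u, hu⟩ := hg (y j : G)
    obtain ⟨v, hv⟩ := pv_surj u
    exact ⟨v, by rw [hv, hu]⟩
  choose w' hw' using hw'
  set h : Fin m ⊕ Fin n → K := Sum.elim x y with hh0
  set cc : Fin m ⊕ Fin n → List (S × Bool) := Sum.elim w w' with hcc0
  have hcc : ∀ a, FreeGroup.lift g (pv (cc a)) = (h a : G) := by
    rintro (a | a)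
    · exact hw a
    · exact hw' a
  have hh : Function.Surjective (FreeGroup.lift h) := by
    intro k
    obtain ⟨u, rfl⟩ := hy k
    refine ⟨FreeGroup.map Sum.inr u, ?_⟩
    have h1 : (FreeGroup.lift h).comp (FreeGroup.map Sum.inr) = FreeGroup.lift y := by
      refine FreeGroup.ext_hom (f := (FreeGroup.lift h).comp (FreeGroup.map Sum.inr))
        (g := FreeGroup.lift y) ?_
      intro a
      simp [hh0]
    exact DFunLike.congr_fun h1 u
  have hidx : (0 : ℝ) < K.index := by
    have := K.index_ne_zero_of_finite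
    exact_mod_cast Nat.pos_of_ne_zero this
  have hW := wk_hub (sofic_sub hG K) h hh (by simpa [hh0] using hwq) (fun a => (cc a).length)
    (δ * K.index) (mul_pos hδ hidx)
  have hSK := sk_fin_w K g hg h hh cc hcc _ hW
  have e1 : (∑ s, (((cc (Sum.inl s)).length : ℕ) : ℝ) + δ * K.index) / K.index =
      (∑ i, ((w i).length : ℝ)) / K.index + δ := by
    have e2 : ∑ s, (((cc (Sum.inl s)).length : ℕ) : ℝ) = ∑ i, ((w i).length : ℝ) := rfl
    rw [e2, add_div, mul_div_assoc, div_self hidx.ne', mul_one]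
  rwa [e1] at hSK

theorem thm_f (G : Type) [Group G] [Infinite G] (hG : Sofic G) (k : ℕ) (g : Fin k → G)
    (hgen : Subgroup.closure (Set.range g) = ⊤) (K : Subgroup G) [K.FiniteIndex] (m : ℕ)
    (w : Fin m → List (Fin k × Bool)) (x : Fin m → K)
    (hw : ∀ i, ((w i).map fun p => if p.2 then g p.1 else (g p.1)⁻¹).prod = (x i : G))
    (hwq : WqNormal (Subgroup.closure (Set.range x)))
    (F : Finset G) (μ ν : Measure ℝ) [IsProbabilityMeasure μ]
    [IsProbabilityMeasure ν] (T S : (G → ℝ) → (G → ℝ))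
    (mT : MeasurePreserving T (Measure.infinitePi (fun _ : G => μ)) (Measure.infinitePi (fun _ : G => ν)))
    (mS : MeasurePreserving S (Measure.infinitePi (fun _ : G => ν)) (Measure.infinitePi (fun _ : G => μ)))
    (hST : ∀ᵐ x ∂(Measure.infinitePi (fun _ : G => μ)), S (T x) = x)
    (hTS : ∀ᵐ y ∂(Measure.infinitePi (fun _ : G => ν)), T (S y) = y)
    (bT : ∀ g : G, ∃ F : Finset G, ∀ᵐ x ∂(Measure.infinitePi (fun _ : G => μ)),
      ∃ f ∈ F, T (fun h => x (g⁻¹ * h)) = fun h => T x (f⁻¹ * h))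
    (bS : ∀ g : G, ∃ F : Finset G, ∀ᵐ y ∂(Measure.infinitePi (fun _ : G => ν)),
      ∃ f ∈ F, S (fun h => y (g⁻¹ * h)) = fun h => S y (f⁻¹ * h))
    (hF : ∀ i, ∀ᵐ y ∂(Measure.infinitePi (fun _ : G => ν)),
      ∃ f ∈ F, S (fun h => y ((g i)⁻¹ * h)) = fun h => S y (f⁻¹ * h)) :
    HF ν ≤ HF μ + ENNReal.ofReal ((∑ i, ((w i).length : ℝ)) / K.index * Real.log F.card) := by
  classical
  have hs : Function.Surjective (FreeGroup.lift g) := by
    rw [← MonoidHom.range_eq_top, eq_top_iff, ← hgen, Subgroup.closure_le]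
    rintro _ ⟨i, rfl⟩
    exact ⟨FreeGroup.of i, by simp⟩
  have h : OE G μ ν T S := ⟨mT, mS, hST, hTS, bT, bS⟩
  have hpv : ∀ l : List (Fin k × Bool), FreeGroup.lift g (pv l.reverse) =
      (l.map fun p => if p.2 then g p.1 else (g p.1)⁻¹).prod := by
    intro l
    unfold pv
    rw [List.map_reverse, List.reverse_reverse, map_list_prod, List.map_map]
    congr 1
    refine List.map_congr_left fun p _ => ?_
    rcases p with ⟨s, b⟩
    cases b <;> simp [val]
  set κ0 : ℝ := (∑ i, ((w i).length : ℝ)) / K.index with hκ0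
  have hκ0n : 0 ≤ κ0 := div_nonneg (Finset.sum_nonneg fun _ _ => Nat.cast_nonneg _) (Nat.cast_nonneg _)
  have hlog : 0 ≤ Real.log F.card := Real.log_natCast_nonneg _
  refine ENNReal.le_of_forall_pos_le_add fun ε hε _ => ?_
  set δ : ℝ := ε / (Real.log F.card + 1) with hδ
  have hδ0 : 0 < δ := div_pos hε (by linarith)
  have h1 := sk_e hG g hs K m (fun i => (w i).reverse) x (fun i => by rw [hpv, hw]) hwq δ hδ0
  have h2 : (∑ i, (((w i).reverse.length : ℕ) : ℝ)) / K.index = κ0 := by
    simp [hκ0]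
  rw [h2] at h1
  have h3 := hf_le g hs (κ0 + δ) (by linarith) h1 μ ν T S h F (ae_all_iff.2 hF)
  refine h3.trans ?_
  rw [add_assoc]
  refine add_le_add le_rfl ?_
  have h4 : δ * Real.log F.card ≤ ε := by
    rw [hδ, div_mul_eq_mul_div, div_le_iff₀ (by linarith)]
    have : (0 : ℝ) < ε := hε
    nlinarith
  calc ENNReal.ofReal ((κ0 + δ) * Real.log F.card) ≤ ENNReal.ofReal (κ0 * Real.log F.card + ε) := by
        apply ENNReal.ofReal_le_ofReal
        nlinarith
    _ = ENNReal.ofReal (κ0 * Real.log F.card) + ENNReal.ofReal ε := by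
        exact ENNReal.ofReal_add (mul_nonneg hκ0n hlog) (NNReal.coe_nonneg ε)
    _ = ENNReal.ofReal (κ0 * Real.log F.card) + ε := by
        rw [ENNReal.ofReal_coe_nnreal]

end H33.SS
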