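import Pool.Agent.H33.SS.DefsW
import Pool.Agent.H33.SS.OnA

/-! # SS.HubA : the connecting elements are a subgroup

PROOF. (classical) `con_one`: `R := {[]}`, `W := ∅`, `E := ∅`. `con_inl`: `R := {[(Sum.inl s, true)]}`, `E := ∅`. `con_mul x y`: use `hy` and `hx` with `ε / 2`: `Ry, Wy`, `Rx, Wx`. `R :=` all `wy ++ wx`; `W := Wy ∪` all `(pv wy)⁻¹ * w * pv wy` (`wy ∈ Ry`, `w ∈ Wx`). `E := Ey ∪ Ex`. If `p` is good for `W` then for the path `wy` from `p` the end point `q := ac X (pv wy) p` is good for `Wx`: `ac X w q = q` iff `ac X ((pv wy)⁻¹ * w * pv wy) p = p` iff `lift g ((pv wy)⁻¹ * w * pv wy) = 1` iff `lift g w = 1`. Take the path `wx` from `q`; `on_app`, `on_mono`; value `lift g (pv wx * pv wy) = x * y`.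
`con_inv x`: choose a word `u` with `lift g u = x⁻¹` (`hg`). `hx` for `ε`: `R, W`. `R' :=` all `iv w`, `w ∈ R`; `W' :=` all `u⁻¹ * w' * u`, `w' ∈ W`, and all `pv w * u`, `w ∈ R`. The same `E`. Let `p` be good for `W'`, `q := ac X u p` is good for `W`; take `w ∈ R` with value `x` and `On .. w q`. If `lift g (pv w) = x` then `ac X (pv w * u) p = p` since the value is `1`, so the path `w` from `q` ends at `p` and `iv w` from `p` uses the same edges (`on_iv`); the value of `iv w` is `x⁻¹` (`pv_iv'`).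
`con_sub`: the subgroup with carrier `{x | Con g x}`. -/

set_option autoImplicit false
set_option synthInstance.maxSize 4000

open MeasureTheory H31.BE H33.HN

namespace H33.SS

variable {S0 S1 G : Type} [Group G] (g : S0 ⊕ S1 → G)

theorem con_one : Con g 1 := by
  intro ε hε
  refine ⟨{[]}, ∅, fun V _ X => ⟨∅, ?_, fun p _ => ⟨[], by simp, ?_, trivial⟩⟩⟩
  · simp only [Finset.card_empty, Nat.cast_zero]
    positivity
  · rw [pv_nil, map_one]

theorem con_inl (s : S0) : Con g (g (Sum.inl s)) := by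
  intro ε hε
  refine ⟨{[(Sum.inl s, true)]}, ∅, fun V _ X => ⟨∅, ?_, fun p _ => ⟨[(Sum.inl s, true)], by simp, ?_, ?_⟩⟩⟩
  · simp only [Finset.card_empty, Nat.cast_zero]
    positivity
  · rw [pv_cons', pv_nil, one_mul]
    simp [val]
  · exact ⟨Or.inr ⟨s, rfl⟩, trivial⟩

theorem con_mul {x y : G} (hx : Con g x) (hy : Con g y) : Con g (x * y) := by
  classical
  intro ε hε
  obtain ⟨Rx, Wx, hx'⟩ := hx (ε / 2) (by linarith)
  obtain ⟨Ry, Wy, hy'⟩ := hy (ε / 2) (by linarith)
  refine ⟨(Ry ×ˢ Rx).image fun r => r.1 ++ r.2,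
    Wy ∪ (Ry ×ˢ Wx).image fun r => (pv r.1)⁻¹ * r.2 * pv r.1, fun V _ X => ?_⟩
  obtain ⟨Ex, hEx, hx''⟩ := hx' V X
  obtain ⟨Ey, hEy, hy''⟩ := hy' V X
  refine ⟨Ey ∪ Ex, ?_, fun p hp => ?_⟩
  · have h1 : ((Ey ∪ Ex).card : ℝ) ≤ Ey.card + Ex.card := by exact_mod_cast Finset.card_union_le _ _
    linarith
  · obtain ⟨wy, hwy, vy, oy⟩ := hy'' p (fun w hw => hp w (Finset.mem_union_left _ hw))
    set q := ac X (pv wy) p with hq
    have hgood : ∀ w ∈ Wx, (ac X w q = q ↔ FreeGroup.lift g w = 1) := by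
      intro w hw
      have h1 := hp ((pv wy)⁻¹ * w * pv wy) (Finset.mem_union_right _
        (Finset.mem_image.2 ⟨(wy, w), Finset.mem_product.2 ⟨hwy, hw⟩, rfl⟩))
      have h2 : ac X ((pv wy)⁻¹ * w * pv wy) p = p ↔ ac X w q = q := by
        rw [map_mul, map_mul, Equiv.Perm.mul_apply, Equiv.Perm.mul_apply, ← hq, map_inv,
          Equiv.Perm.inv_eq_iff_eq]
      have h3 : FreeGroup.lift g ((pv wy)⁻¹ * w * pv wy) = 1 ↔ FreeGroup.lift g w = 1 := by
        rw [map_mul, map_mul, map_inv]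
        constructor
        · intro h
          have := congrArg (fun z => FreeGroup.lift g (pv wy) * z * (FreeGroup.lift g (pv wy))⁻¹) h
          simpa [mul_assoc] using this
        · intro h
          rw [h, mul_one, inv_mul_cancel]
      rw [← h2, h1, h3]
    obtain ⟨wx, hwx, vx, ox⟩ := hx'' q hgood
    refine ⟨wy ++ wx, Finset.mem_image.2 ⟨(wy, wx), Finset.mem_product.2 ⟨hwy, hwx⟩, rfl⟩, ?_, ?_⟩
    · rw [pv_app, map_mul, vx, vy]
    · rw [on_app]
      refine ⟨on_mono ?_ X wy p oy, on_mono ?_ X wx q ox⟩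
      · intro e he
        rcases he with he | he
        · exact Or.inl (Finset.mem_coe.2 (Finset.mem_union_left _ (Finset.mem_coe.1 he)))
        · exact Or.inr he
      · intro e he
        rcases he with he | he
        · exact Or.inl (Finset.mem_coe.2 (Finset.mem_union_right _ (Finset.mem_coe.1 he)))
        · exact Or.inr he

theorem con_inv (hg : Function.Surjective (FreeGroup.lift g)) {x : G} (hx : Con g x) : Con g x⁻¹ := by
  classical
  intro ε hε
  obtain ⟨u, hu⟩ := hg x⁻¹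
  obtain ⟨R, W, hR⟩ := hx ε hε
  refine ⟨R.image iv, (W.image fun w => u⁻¹ * w * u) ∪ (R.image fun w => pv w * u), fun V _ X => ?_⟩
  obtain ⟨E, hE, h⟩ := hR V X
  refine ⟨E, hE, fun p hp => ?_⟩
  set q := ac X u p with hq
  have hgood : ∀ w ∈ W, (ac X w q = q ↔ FreeGroup.lift g w = 1) := by
    intro w hw
    have h1 := hp (u⁻¹ * w * u) (Finset.mem_union_left _ (Finset.mem_image.2 ⟨w, hw, rfl⟩))
    have h2 : ac X (u⁻¹ * w * u) p = p ↔ ac X w q = q := by
      rw [map_mul, map_mul, Equiv.Perm.mul_apply, Equiv.Perm.mul_apply, ← hq, map_inv,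
        Equiv.Perm.inv_eq_iff_eq]
    have h3 : FreeGroup.lift g (u⁻¹ * w * u) = 1 ↔ FreeGroup.lift g w = 1 := by
      rw [map_mul, map_mul, map_inv]
      constructor
      · intro h
        have := congrArg (fun z => FreeGroup.lift g u * z * (FreeGroup.lift g u)⁻¹) h
        simpa [mul_assoc] using this
      · intro h
        rw [h, mul_one, inv_mul_cancel]
    rw [← h2, h1, h3]
  obtain ⟨w, hw, vw, ow⟩ := h q hgood
  have h4 : ac X (pv w) q = p := by
    have h5 := (hp (pv w * u) (Finset.mem_union_right _ (Finset.mem_image.2 ⟨w, hw, rfl⟩))).2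
      (by rw [map_mul, vw, hu, mul_inv_cancel])
    rwa [map_mul, Equiv.Perm.mul_apply, ← hq] at h5
  refine ⟨iv w, Finset.mem_image.2 ⟨w, hw, rfl⟩, ?_, ?_⟩
  · rw [pv_iv', map_inv, vw]
  · have h6 := (on_iv ((E : Set (V × (S0 ⊕ S1))) ∪ {e | ∃ s, e.2 = Sum.inl s}) X w q).2 ow
    rwa [h4] at h6

theorem con_sub (hg : Function.Surjective (FreeGroup.lift g)) : ∃ M : Subgroup G, ∀ x, x ∈ M ↔ Con g x := by
  exact ⟨{ carrier := {x | Con g x}
           mul_mem' := fun ha hb => con_mul g ha hb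
           one_mem' := con_one g
           inv_mem' := fun ha => con_inv g hg ha }, fun x => Iff.rfl⟩

end H33.SS
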