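import Pool.Agent.H33.SS.HubA
import Pool.Agent.H33.SS.NetA

/-! # SS.HubB : hubs. If infinitely many connecting elements `m` have connecting conjugates `u m u⁻¹` then `u` is connecting.

PROOF. (classical) Fix a path word `lu` with `lift g (pv lu) = u` (`hg`, `pv_surj`), `L := lu.length`, `k ≥ 1` with `2 * L ≤ ε * k`, distinct `m 0, .., m (k-1)` with `Con (m i)`, `Con (u * m i * u⁻¹)`, and words `e i` with `lift g (e i) = m i`. `ε' := ε / (4 * k)`. `Con (m i)` for `ε'`: `R i, W i`; `Con (u * m i * u⁻¹)` for `ε'`: `R' i, W' i`.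
`W :=` union of: the `W i`; all `(pv lu)⁻¹ * w * pv lu`, `w ∈ W' i`; all `(e j)⁻¹ * e i`; all `(e i)⁻¹ * pv w`, `w ∈ R i`; all `(pv lu * e i)⁻¹ * pv w * pv lu`, `w ∈ R' i`. `R :=` all `w1 ++ iv w2 ++ lu ++ w3 ++ iv w4` with `w1 ∈ R i`, `w2 ∈ R j`, `w3 ∈ R' j`, `w4 ∈ R' i`.
Given `V`, `X`: let `good` be the set of points good for `W`. `net_ex` with the permutations `ac X (e i)` (`hinj` from the words `(e j)⁻¹ * e i` and the distinctness of the `m i`; `0 < k`) gives `F1 ⊆ good` with `F1.ncard * k ≤ card V`, and for every good `p` there are `f ∈ F1`, `i`, `j` with `ac X (e i) p = ac X (e j) f`. `E :=` the union of the sets `E i`, `E' i` (from `Con`) and of the edges `eds X lu f`, `f ∈ F1`: at most `2 * k * ε' * n + L * F1.ncard ≤ ε / 2 * n + ε / 2 * n`.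
Let `p` be good, `f`, `i`, `j` as above. (1) `w1 ∈ R i` from `p` with value `m i`: ends at `ac X (e i) p` (word `(e i)⁻¹ * pv w1` has value `1`). (2) `w2 ∈ R j` from `f` with value `m j`: ends at `ac X (e j) f`, the same point; so `iv w2` from this point ends at `f` (`on_iv`). (3) `lu` from `f` (`on_iff`, edges in `E`), ends at `f' := ac X (pv lu) f`. (4) `f'` is good for `W' j`, so `w3 ∈ R' j` from `f'` with value `u * m j * u⁻¹` ends at `ac X (pv lu * e j) f`. (5) `p' := ac X (pv lu) p` is good for `W' i`: `w4 ∈ R' i` from `p'` with value `u * m i * u⁻¹` ends at `ac X (pv lu * e i) p`, which is the same point as in (4); so `iv w4` from it is a path in `E` (`on_iv`). The value of the whole path is `(u m_i u⁻¹)⁻¹ * (u m_j u⁻¹) * u * (m_j)⁻¹ * m_i = u`. -/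

set_option autoImplicit false
set_option synthInstance.maxSize 4000

open MeasureTheory H31.BE H33.HN

namespace H33.SS

private theorem hubB_key {S V : Type} (X : S → Equiv.Perm V) (a b : FreeGroup S) (q : V)
    (h : ac X (a⁻¹ * b) q = q) : ac X b q = ac X a q := by
  rw [map_mul, map_inv, Equiv.Perm.mul_apply, Equiv.Perm.inv_eq_iff_eq] at h
  exact h

private theorem hubB_add {S V : Type} (X : S → Equiv.Perm V) (w w' : List (S × Bool)) (q : V) :
    ac X (pv (w ++ w')) q = ac X (pv w') (ac X (pv w) q) := by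
  rw [pv_app, map_mul, Equiv.Perm.mul_apply]

private theorem hubB_conj {S V G : Type} [Group G] (g : S → G) (X : S → Equiv.Perm V)
    (a w : FreeGroup S) (f : V)
    (h : ac X (a⁻¹ * w * a) f = f ↔ FreeGroup.lift g (a⁻¹ * w * a) = 1) :
    ac X w (ac X a f) = ac X a f ↔ FreeGroup.lift g w = 1 := by
  have h1 : ac X (a⁻¹ * w * a) f = f ↔ ac X w (ac X a f) = ac X a f := by
    rw [map_mul, map_mul, map_inv, Equiv.Perm.mul_apply, Equiv.Perm.mul_apply,
      Equiv.Perm.inv_eq_iff_eq]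
  have h2 : FreeGroup.lift g (a⁻¹ * w * a) = 1 ↔ FreeGroup.lift g w = 1 := by
    rw [map_mul, map_mul, map_inv]
    constructor
    · intro h3
      have h4 : FreeGroup.lift g w = FreeGroup.lift g a *
          ((FreeGroup.lift g a)⁻¹ * FreeGroup.lift g w * FreeGroup.lift g a) *
          (FreeGroup.lift g a)⁻¹ := by group
      rw [h4, h3]
      group
    · intro h3
      rw [h3]
      group
  rw [← h1, h, h2]

/-- the path through the hub -/
private theorem hubB_path {S V G : Type} [Group G] (g : S → G) (X : S → Equiv.Perm V)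
    (E : Set (V × S)) (lu w1 w2 w3 w4 : List (S × Bool)) (u mi mj : G) (ei ej : FreeGroup S) (p f : V)
    (hlu : FreeGroup.lift g (pv lu) = u)
    (hpf : ac X ei p = ac X ej f)
    (v1 : FreeGroup.lift g (pv w1) = mi) (o1 : On E X w1 p) (t1 : ac X (pv w1) p = ac X ei p)
    (v2 : FreeGroup.lift g (pv w2) = mj) (o2 : On E X w2 f) (t2 : ac X (pv w2) f = ac X ej f)
    (ol : On E X lu f)
    (v3 : FreeGroup.lift g (pv w3) = u * mj * u⁻¹) (o3 : On E X w3 (ac X (pv lu) f))
    (t3 : ac X (pv w3) (ac X (pv lu) f) = ac X (pv lu) (ac X ej f))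
    (v4 : FreeGroup.lift g (pv w4) = u * mi * u⁻¹) (o4 : On E X w4 (ac X (pv lu) p))
    (t4 : ac X (pv w4) (ac X (pv lu) p) = ac X (pv lu) (ac X ei p)) :
    FreeGroup.lift g (pv (w1 ++ iv w2 ++ lu ++ w3 ++ iv w4)) = u ∧
      On E X (w1 ++ iv w2 ++ lu ++ w3 ++ iv w4) p := by
  have e1 : ac X (pv (w1 ++ iv w2)) p = f := by
    rw [hubB_add, t1, hpf, ← t2, pv_iv', map_inv]
    exact (ac X (pv w2)).symm_apply_apply f
  have e2 : ac X (pv (w1 ++ iv w2 ++ lu)) p = ac X (pv lu) f := by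
    rw [hubB_add, e1]
  have e3 : ac X (pv (w1 ++ iv w2 ++ lu ++ w3)) p = ac X (pv w4) (ac X (pv lu) p) := by
    rw [hubB_add, e2, t3, t4, hpf]
  refine ⟨?_, ?_⟩
  · rw [pv_app, pv_app, pv_app, pv_app, pv_iv', pv_iv', map_mul, map_mul, map_mul, map_mul,
      map_inv, map_inv, hlu, v1, v2, v3, v4]
    group
  · rw [on_app, on_app, on_app, on_app, e1, e2, e3, on_iv, t1, hpf, ← t2, on_iv]
    exact ⟨⟨⟨⟨o1, o2⟩, ol⟩, o3⟩, o4⟩

theorem con_hub {S0 S1 G : Type} [Group G] (g : S0 ⊕ S1 → G) (hg : Function.Surjective (FreeGroup.lift g)) (u : G)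
    (h : {m | Con g m ∧ Con g (u * m * u⁻¹)}.Infinite) : Con g u := by
  classical
  intro ε hε
  obtain ⟨u0, hu0⟩ := hg u
  obtain ⟨lu, hlu⟩ := pv_surj u0
  have hlu' : FreeGroup.lift g (pv lu) = u := by rw [hlu, hu0]
  obtain ⟨k, hk⟩ := exists_nat_ge ((2 * (lu.length : ℝ)) / ε + 1)
  have hL0 : (0 : ℝ) ≤ (2 * (lu.length : ℝ)) / ε := by positivity
  have hk1 : (1 : ℝ) ≤ k := by linarith
  have hk0 : 0 < k := by
    rcases Nat.eq_zero_or_pos k with h0 | h0
    · rw [h0, Nat.cast_zero] at hk1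
      linarith
    · exact h0
  have hkL : 2 * (lu.length : ℝ) ≤ ε * k := by
    have h1 : (2 * (lu.length : ℝ)) / ε ≤ k := by linarith
    rw [div_le_iff₀ hε] at h1
    linarith
  obtain ⟨t, hts, htc⟩ := h.exists_subset_card_eq k
  obtain ⟨m, hminj, hm⟩ : ∃ m : Fin k → G, Function.Injective m ∧
      ∀ i, Con g (m i) ∧ Con g (u * m i * u⁻¹) := by
    refine ⟨fun i => ((t.equivFinOfCardEq htc).symm i : G), ?_, ?_⟩
    · intro i j hij
      exact (t.equivFinOfCardEq htc).symm.injective (Subtype.ext hij)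
    · intro i
      exact hts (Finset.mem_coe.2 ((t.equivFinOfCardEq htc).symm i).2)
  choose e he using fun i => hg (m i)
  have hk4 : (0 : ℝ) < 4 * k := by linarith
  have hε' : 0 < ε / (4 * k) := div_pos hε hk4
  choose R W hRW using fun i => (hm i).1 (ε / (4 * k)) hε'
  choose R' W' hRW' using fun i => (hm i).2 (ε / (4 * k)) hε'
  refine ⟨Finset.univ.biUnion fun i => Finset.univ.biUnion fun j =>
      ((R i ×ˢ R j) ×ˢ (R' j ×ˢ R' i)).image fun x =>
        x.1.1 ++ iv x.1.2 ++ lu ++ x.2.1 ++ iv x.2.2,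
    ((Finset.univ.biUnion W) ∪ (Finset.univ.biUnion fun i => (W' i).image fun w =>
      (pv lu)⁻¹ * w * pv lu)) ∪ ((Finset.univ.image fun x : Fin k × Fin k => (e x.2)⁻¹ * e x.1) ∪
      ((Finset.univ.biUnion fun i => (R i).image fun w => (e i)⁻¹ * pv w) ∪
      (Finset.univ.biUnion fun i => (R' i).image fun w => (pv lu * e i)⁻¹ * (pv w * pv lu)))), ?_⟩
  intro V _ X
  choose E hE using fun i => hRW i V X
  choose E' hE' using fun i => hRW' i V X
  obtain ⟨Wt, hWt⟩ : ∃ Wt, Wt = ((Finset.univ.biUnion W) ∪ (Finset.univ.biUnion fun i =>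
      (W' i).image fun w => (pv lu)⁻¹ * w * pv lu)) ∪
      ((Finset.univ.image fun x : Fin k × Fin k => (e x.2)⁻¹ * e x.1) ∪
      ((Finset.univ.biUnion fun i => (R i).image fun w => (e i)⁻¹ * pv w) ∪
      (Finset.univ.biUnion fun i => (R' i).image fun w => (pv lu * e i)⁻¹ * (pv w * pv lu)))) :=
    ⟨_, rfl⟩
  rw [← hWt]
  have W1 : ∀ i, ∀ w ∈ W i, w ∈ Wt := by
    intro i w hw
    rw [hWt]
    exact Finset.mem_union_left _ (Finset.mem_union_left _
      (Finset.mem_biUnion.2 ⟨i, Finset.mem_univ _, hw⟩))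
  have W2 : ∀ i, ∀ w ∈ W' i, (pv lu)⁻¹ * w * pv lu ∈ Wt := by
    intro i w hw
    rw [hWt]
    exact Finset.mem_union_left _ (Finset.mem_union_right _
      (Finset.mem_biUnion.2 ⟨i, Finset.mem_univ _, Finset.mem_image_of_mem _ hw⟩))
  have W3 : ∀ i j, (e j)⁻¹ * e i ∈ Wt := by
    intro i j
    rw [hWt]
    exact Finset.mem_union_right _ (Finset.mem_union_left _
      (Finset.mem_image.2 ⟨(i, j), Finset.mem_univ _, rfl⟩))
  have W4 : ∀ i, ∀ w ∈ R i, (e i)⁻¹ * pv w ∈ Wt := by
    intro i w hw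
    rw [hWt]
    exact Finset.mem_union_right _ (Finset.mem_union_right _ (Finset.mem_union_left _
      (Finset.mem_biUnion.2 ⟨i, Finset.mem_univ _, Finset.mem_image_of_mem _ hw⟩)))
  have W5 : ∀ i, ∀ w ∈ R' i, (pv lu * e i)⁻¹ * (pv w * pv lu) ∈ Wt := by
    intro i w hw
    rw [hWt]
    exact Finset.mem_union_right _ (Finset.mem_union_right _ (Finset.mem_union_right _
      (Finset.mem_biUnion.2 ⟨i, Finset.mem_univ _,
        Finset.mem_image.2 ⟨w, hw, rfl⟩⟩)))
  obtain ⟨F1, hF1, hF1c, hF1n⟩ := net_ex hk0 (fun i => ac X (e i))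
    {p : V | ∀ w ∈ Wt, (ac X w p = p ↔ FreeGroup.lift g w = 1)} (by
      intro v hv i j hij
      have h1 : ac X ((e j)⁻¹ * e i) v = v := by
        rw [map_mul, map_inv, Equiv.Perm.mul_apply, Equiv.Perm.inv_eq_iff_eq]
        exact hij
      have h2 := (hv _ (W3 i j)).1 h1
      rw [map_mul, map_inv, he, he, inv_mul_eq_one] at h2
      exact (hminj h2).symm)
  refine ⟨(Finset.univ.biUnion E ∪ Finset.univ.biUnion E') ∪
    (Finset.univ.filter fun v => v ∈ F1).biUnion fun f => (eds X lu f).toFinset, ?_, ?_⟩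
  · have c1 : (Finset.univ.biUnion E).card ≤ ∑ i : Fin k, (E i).card := Finset.card_biUnion_le
    have c2 : (Finset.univ.biUnion E').card ≤ ∑ i : Fin k, (E' i).card := Finset.card_biUnion_le
    have c3 : ((Finset.univ.filter fun v => v ∈ F1).biUnion fun f => (eds X lu f).toFinset).card ≤
        F1.ncard * lu.length := by
      have h1 : (Finset.univ.filter fun v => v ∈ F1).card = F1.ncard := by
        rw [← Set.ncard_coe_finset, Finset.coe_filter_univ]
        rfl
      rw [← h1]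
      refine Finset.card_biUnion_le_card_mul _ _ _ ?_
      intro f _
      exact (List.toFinset_card_le _).trans (le_of_eq (eds_len X lu f))
    have c4 := Finset.card_union_le (Finset.univ.biUnion E ∪ Finset.univ.biUnion E')
      ((Finset.univ.filter fun v => v ∈ F1).biUnion fun f => (eds X lu f).toFinset)
    have c5 := Finset.card_union_le (Finset.univ.biUnion E) (Finset.univ.biUnion E')
    have r1 : ((∑ i : Fin k, (E i).card : ℕ) : ℝ) ≤ k * (ε / (4 * k) * Fintype.card V) := by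
      push_cast
      refine (Finset.sum_le_sum fun i _ => (hE i).1).trans (le_of_eq ?_)
      rw [Finset.sum_const, Finset.card_univ, Fintype.card_fin, nsmul_eq_mul]
    have r2 : ((∑ i : Fin k, (E' i).card : ℕ) : ℝ) ≤ k * (ε / (4 * k) * Fintype.card V) := by
      push_cast
      refine (Finset.sum_le_sum fun i _ => (hE' i).1).trans (le_of_eq ?_)
      rw [Finset.sum_const, Finset.card_univ, Fintype.card_fin, nsmul_eq_mul]
    have r3 : (k : ℝ) * (ε / (4 * k) * Fintype.card V) = ε / 4 * Fintype.card V := by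
      field_simp
    have r4 : (F1.ncard : ℝ) * k ≤ Fintype.card V := by exact_mod_cast hF1c
    have r5 : ((F1.ncard * lu.length : ℕ) : ℝ) ≤ ε / 2 * Fintype.card V := by
      push_cast
      have h1 : (F1.ncard : ℝ) * (2 * lu.length) ≤ F1.ncard * (ε * k) :=
        mul_le_mul_of_nonneg_left hkL (Nat.cast_nonneg _)
      have h2 : (F1.ncard : ℝ) * (ε * k) ≤ ε * Fintype.card V := by
        calc (F1.ncard : ℝ) * (ε * k) = ε * ((F1.ncard : ℝ) * k) := by ring
          _ ≤ ε * Fintype.card V := mul_le_mul_of_nonneg_left r4 hε.le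
      linarith
    have r6 : (((((Finset.univ.biUnion E ∪ Finset.univ.biUnion E') ∪
        (Finset.univ.filter fun v => v ∈ F1).biUnion fun f => (eds X lu f).toFinset).card) : ℕ) :
        ℝ) ≤ ((∑ i : Fin k, (E i).card : ℕ) : ℝ) + ((∑ i : Fin k, (E' i).card : ℕ) : ℝ) +
        ((F1.ncard * lu.length : ℕ) : ℝ) := by
      rw [← Nat.cast_add, ← Nat.cast_add]
      exact Nat.cast_le.2 (by omega)
    rw [r3] at r1 r2
    linarith
  · intro p hp
    obtain ⟨f, hf, i, j, hpf⟩ := hF1n p hp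
    have hfg : ∀ w ∈ Wt, (ac X w f = f ↔ FreeGroup.lift g w = 1) := hF1 hf
    obtain ⟨w1, hw1, v1, o1⟩ := (hE i).2 p (fun w hw => hp w (W1 i w hw))
    obtain ⟨w2, hw2, v2, o2⟩ := (hE j).2 f (fun w hw => hfg w (W1 j w hw))
    obtain ⟨w3, hw3, v3, o3⟩ := (hE' j).2 (ac X (pv lu) f)
      (fun w hw => hubB_conj g X (pv lu) w f (hfg _ (W2 j w hw)))
    obtain ⟨w4, hw4, v4, o4⟩ := (hE' i).2 (ac X (pv lu) p)
      (fun w hw => hubB_conj g X (pv lu) w p (hp _ (W2 i w hw)))
    have t1 : ac X (pv w1) p = ac X (e i) p := by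
      refine hubB_key X _ _ _ ((hp _ (W4 i w1 hw1)).2 ?_)
      rw [map_mul, map_inv, v1, he, inv_mul_cancel]
    have t2 : ac X (pv w2) f = ac X (e j) f := by
      refine hubB_key X _ _ _ ((hfg _ (W4 j w2 hw2)).2 ?_)
      rw [map_mul, map_inv, v2, he, inv_mul_cancel]
    have t3 : ac X (pv w3) (ac X (pv lu) f) = ac X (pv lu) (ac X (e j) f) := by
      have h1 := hubB_key X _ _ _ ((hfg _ (W5 j w3 hw3)).2 (by
        rw [map_mul, map_mul, map_inv, map_mul, v3, he, hlu']
        group))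
      rw [map_mul, map_mul, Equiv.Perm.mul_apply, Equiv.Perm.mul_apply] at h1
      exact h1
    have t4 : ac X (pv w4) (ac X (pv lu) p) = ac X (pv lu) (ac X (e i) p) := by
      have h1 := hubB_key X _ _ _ ((hp _ (W5 i w4 hw4)).2 (by
        rw [map_mul, map_mul, map_inv, map_mul, v4, he, hlu']
        group))
      rw [map_mul, map_mul, Equiv.Perm.mul_apply, Equiv.Perm.mul_apply] at h1
      exact h1
    have s1 : ∀ a, ((E a : Set (V × (S0 ⊕ S1))) ∪ {e | ∃ s, e.2 = Sum.inl s}) ⊆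
        ((((Finset.univ.biUnion E ∪ Finset.univ.biUnion E') ∪
        (Finset.univ.filter fun v => v ∈ F1).biUnion fun f => (eds X lu f).toFinset :
          Finset (V × (S0 ⊕ S1))) : Set (V × (S0 ⊕ S1))) ∪ {e | ∃ s, e.2 = Sum.inl s}) := by
      intro a
      refine Set.union_subset_union_left _ ?_
      intro x hx
      exact Finset.mem_coe.2 (Finset.mem_union_left _ (Finset.mem_union_left _
        (Finset.mem_biUnion.2 ⟨a, Finset.mem_univ _, Finset.mem_coe.1 hx⟩)))
    have s2 : ∀ a, ((E' a : Set (V × (S0 ⊕ S1))) ∪ {e | ∃ s, e.2 = Sum.inl s}) ⊆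
        ((((Finset.univ.biUnion E ∪ Finset.univ.biUnion E') ∪
        (Finset.univ.filter fun v => v ∈ F1).biUnion fun f => (eds X lu f).toFinset :
          Finset (V × (S0 ⊕ S1))) : Set (V × (S0 ⊕ S1))) ∪ {e | ∃ s, e.2 = Sum.inl s}) := by
      intro a
      refine Set.union_subset_union_left _ ?_
      intro x hx
      exact Finset.mem_coe.2 (Finset.mem_union_left _ (Finset.mem_union_right _
        (Finset.mem_biUnion.2 ⟨a, Finset.mem_univ _, Finset.mem_coe.1 hx⟩)))
    have ol : On ((((Finset.univ.biUnion E ∪ Finset.univ.biUnion E') ∪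
        (Finset.univ.filter fun v => v ∈ F1).biUnion fun f => (eds X lu f).toFinset :
          Finset (V × (S0 ⊕ S1))) : Set (V × (S0 ⊕ S1))) ∪ {e | ∃ s, e.2 = Sum.inl s}) X lu f := by
      rw [on_iff]
      intro x hx
      exact Or.inl (Finset.mem_coe.2 (Finset.mem_union_right _
        (Finset.mem_biUnion.2 ⟨f, Finset.mem_filter.2 ⟨Finset.mem_univ _, hf⟩,
          List.mem_toFinset.2 hx⟩)))
    have hfin := hubB_path g X _ lu w1 w2 w3 w4 u (m i) (m j) (e i) (e j) p f hlu' hpf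
      v1 (on_mono (s1 i) X w1 p o1) t1 v2 (on_mono (s1 j) X w2 f o2) t2 ol
      v3 (on_mono (s2 j) X w3 _ o3) t3 v4 (on_mono (s2 i) X w4 _ o4) t4
    refine ⟨_, ?_, hfin⟩
    exact Finset.mem_biUnion.2 ⟨i, Finset.mem_univ _, Finset.mem_biUnion.2 ⟨j, Finset.mem_univ _,
      Finset.mem_image.2 ⟨((w1, w2), (w3, w4)), Finset.mem_product.2
        ⟨Finset.mem_product.2 ⟨hw1, hw2⟩, Finset.mem_product.2 ⟨hw3, hw4⟩⟩, rfl⟩⟩⟩

end H33.SS
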