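import Pool.Agent.H33.SS.ThA

/-! # SS.IndA : induced structures

PROOF. `ac_ix`: induction on `u` (`FreeGroup.induction_on`), for all points; `Th X β u v : FreeGroup SH` is `Th` of Defs for the group `FreeGroup SH` (`th_mul`, `th_one`, `th_of`, `th_inv` of ThA).
`rp c := Quotient.out`-type representatives with `rp (mk 1) = 1`: `rp c := if c = mk 1 then 1 else c.out`. `cst`: `(rp (g s • c))⁻¹ * g s * rp c ∈ H` because the classes of `rp (g s • c)` and `g s * rp c` agree (`QuotientGroup.eq`, `MulAction` of `G` on `G ⧸ H`: `g • mk x = mk (g * x)`). Choose `wH : H → FreeGroup SH` with `lift h (wH x) = x`; `βc c s := wH ⟨.., cst⟩`. `ind_val`: induction on `u` for all `c` (`th_mul` etc.): the product telescopes. -/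

set_option autoImplicit false
set_option synthInstance.maxSize 4000

open MeasureTheory H31.BE H33.HN

namespace H33.SS

theorem ac_ix {S SH V0 V1 : Type} (X : S → Equiv.Perm V0) (β : V0 → S → FreeGroup SH) (Y : SH → Equiv.Perm V1)
    (u : FreeGroup S) (v : V0 × V1) : ac (ix X β Y) u v = (ac X u v.1, ac Y (Th X β u v.1) v.2) := by
  induction u using FreeGroup.induction_on generalizing v with
  | C1 => simp [th_one]
  | of s =>
    rw [th_of, FreeGroup.lift_apply_of, FreeGroup.lift_apply_of]
    rfl
  | inv_of s _ =>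
    rw [th_inv, map_inv, map_inv, FreeGroup.lift_apply_of, FreeGroup.lift_apply_of, map_inv]
    rfl
  | mul a b ha hb =>
    rw [map_mul, Equiv.Perm.mul_apply, hb, ha, map_mul, Equiv.Perm.mul_apply, th_mul, map_mul,
      Equiv.Perm.mul_apply]

theorem ind_ex {S SH G : Type} [Group G] (H : Subgroup G) (g : S → G) (h : SH → H)
    (hh : Function.Surjective (FreeGroup.lift h)) :
    ∃ (rp : G ⧸ H → G) (Xc : S → Equiv.Perm (G ⧸ H)) (βc : G ⧸ H → S → FreeGroup SH),
      rp ((1 : G) : G ⧸ H) = 1 ∧ (∀ c, ((rp c : G) : G ⧸ H) = c) ∧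
      (∀ (u : FreeGroup S) (x : G), ac Xc u (x : G ⧸ H) = ((FreeGroup.lift g u * x : G) : G ⧸ H)) ∧
      ∀ (u : FreeGroup S) (c : G ⧸ H),
        ((FreeGroup.lift h (Th Xc βc u c) : H) : G) = (rp (ac Xc u c))⁻¹ * FreeGroup.lift g u * rp c := by
  classical
  set c0 : G ⧸ H := ((1 : G) : G ⧸ H) with hc0
  set rp : G ⧸ H → G := fun c => if c = c0 then 1 else Quotient.out c with hrp
  have h1 : ∀ c, ((rp c : G) : G ⧸ H) = c := by
    intro c
    by_cases hc : c = c0
    · simp only [hrp, if_pos hc]
      exact hc.symm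
    · simp only [hrp, if_neg hc]
      exact QuotientGroup.out_eq' c
  set Xc : S → Equiv.Perm (G ⧸ H) := fun s => MulAction.toPerm (g s) with hXc
  have h2 : ∀ (u : FreeGroup S) (c : G ⧸ H), ac Xc u c = FreeGroup.lift g u • c := by
    intro u
    induction u using FreeGroup.induction_on with
    | C1 => intro c; simp
    | of s => intro c; rw [FreeGroup.lift_apply_of, FreeGroup.lift_apply_of]; rfl
    | inv_of s _ =>
      intro c
      rw [map_inv, map_inv, FreeGroup.lift_apply_of, FreeGroup.lift_apply_of]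
      rfl
    | mul a b ha hb =>
      intro c
      rw [map_mul, map_mul, Equiv.Perm.mul_apply, hb, ha, mul_smul]
  have h3 : ∀ (s : S) (c : G ⧸ H), (rp (g s • c))⁻¹ * g s * rp c ∈ H := by
    intro s c
    rw [mul_assoc, ← QuotientGroup.eq, h1]
    calc g s • c = g s • ((rp c : G) : G ⧸ H) := by rw [h1]
      _ = ((g s * rp c : G) : G ⧸ H) := rfl
  choose wH hwH using hh
  set βc : G ⧸ H → S → FreeGroup SH := fun c s => wH ⟨_, h3 s c⟩ with hβc
  refine ⟨rp, Xc, βc, if_pos rfl, h1, ?_, ?_⟩
  · intro u x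
    rw [h2]
    rfl
  · intro u
    induction u using FreeGroup.induction_on with
    | C1 =>
      intro c
      simp [th_one]
    | of s =>
      intro c
      rw [th_of, FreeGroup.lift_apply_of, FreeGroup.lift_apply_of]
      simp only [hβc, hwH]
      rfl
    | inv_of s _ =>
      intro c
      rw [th_inv, map_inv, map_inv, FreeGroup.lift_apply_of, map_inv, FreeGroup.lift_apply_of]
      simp only [hβc, hwH]
      have e : g s • (Xc s).symm c = c := (Xc s).apply_symm_apply c
      rw [Subgroup.coe_inv]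
      simp only [e]
      rw [mul_inv_rev, mul_inv_rev, inv_inv]
      show _ = (rp ((Xc s)⁻¹ c))⁻¹ * _ * _
      rw [mul_assoc]
      rfl
    | mul a b ha hb =>
      intro c
      rw [th_mul, map_mul, Subgroup.coe_mul, ha, hb, map_mul, map_mul, Equiv.Perm.mul_apply]
      group

end H33.SS
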