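import Pool.Agent.H33.SS.Defs
import Pool.Agent.H33.HN.GCoc
import Pool.Agent.H31.BE.FreeB

/-! # SS.InfA : the position maps of an orbit equivalence

PROOF. `coc_all` (H33/HN/GCoc) for the orbit equivalence `⟨h.mS, h.mT, h.TS, h.ST, h.bS, h.bT⟩ : OE G ν μ Sv T` gives `π : Bsh G → Equiv.Perm G`, `Xc π`, `Sv (a • y) = π y a • Sv y` almost everywhere for all `a`, and finite sets `J a` with `(π y).symm a ∈ J a` almost everywhere. `θ y k := π y k`. Freeness of the points `Sv y` (`free_bern` for `μ`, transferred by `h.mS`, for all group elements by countability): from `Sv (g s • y) = f • Sv y = π y (g s) • Sv y` with `f ∈ Fs`: `π y (g s) = f ∈ Fs`. `bb y s := if hx : π y (g s) ∈ Fs then ⟨_, hx⟩ else f0` where `f0` is an element of `Fs` (if `S` is empty the function type has one element; if `S` is nonempty then `Fs` is nonempty since the hypothesis `hF` holds for some `y`). `Fm bb`: `{y | π y (g s) = b}` is measurable (`Xc.me`).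
All almost everywhere statements are needed at all points `k • y` of the orbit: countably many, `inv_bern`.
`Leg`: `one`: `Xc.co y 1 1` gives `π y 1 = π (1 • y) 1 * π y 1`, so `π y 1 = 1`. `eq`: `Xc.co y k (g s)` : `π y (g s * k) = π (k • y) (g s) * π y k`. `inj`: `π y` is a bijection. `inv a k0`: `k := (π (k0 • y)).symm a ∈ J a`, `Xc.co y k0 k : π y (k * k0) = π (k0 • y) k * π y k0 = a * π y k0`. The last statement: `T (Sv (k • y)) = k • y` by `h.TS` at `k • y`. -/

set_option autoImplicit false
set_option synthInstance.maxSize 4000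

open MeasureTheory H31.BE H33.HN

namespace H33.SS

theorem inf_a {S G : Type} [Group G] [DecidableEq G] [Countable G] [Infinite G] [Fintype S] (g : S → G)
    (μ ν : Measure ℝ) [IsProbabilityMeasure μ] [IsProbabilityMeasure ν] (hμ : Nontriv μ) (hν : Nontriv ν)
    (T Sv : Bsh G → Bsh G) (h : OE G μ ν T Sv) (Fs : Finset G)
    (hF : ∀ᵐ y ∂(bern G ν), ∀ s, ∃ f ∈ Fs, Sv (g s • y) = f • Sv y) :
    ∃ (J : G → Finset G) (θ : Bsh G → G → G) (bb : Bsh G → S → ↥Fs), Fm bb ∧
      ∀ᵐ y ∂(bern G ν), Leg g (fun (l : S → ↥Fs) s => (l s : G)) J (fun k => bb (k • y)) (θ y) ∧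
        (∀ k, Sv (k • y) = θ y k • Sv y) ∧ ∀ k : G, T (Sv (k • y)) = k • y := by
  classical
  obtain ⟨π, hπ, hS, -, hJ⟩ := coc_all ν μ hν hμ Sv T
    (⟨h.mS, h.mT, h.TS, h.ST, h.bS, h.bT⟩ : OE G ν μ Sv T)
  choose J hJ using hJ
  have hfree : ∀ᵐ y ∂(bern G ν), ∀ a : G, a ≠ 1 → a • Sv y ≠ Sv y := by
    rw [ae_all_iff]
    intro a
    by_cases ha : a = 1
    · exact Filter.Eventually.of_forall fun y h1 => absurd ha h1
    · have h1 := h.mS.quasiMeasurePreserving.ae (free_bern μ hμ a ha)
      filter_upwards [h1] with y hy _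
      exact hy
  have hJ' : ∀ᵐ y ∂(bern G ν), ∀ a : G, (π y).symm a ∈ J a := ae_all_iff.2 hJ
  have hQ : ∀ᵐ y ∂(bern G ν), (∀ s, π y (g s) ∈ Fs) ∧ (∀ a : G, (π y).symm a ∈ J a) ∧
      T (Sv y) = y := by
    filter_upwards [hS, hF, hfree, hJ', h.TS] with y h1 h2 h3 h4 h5
    refine ⟨?_, h4, h5⟩
    intro s
    obtain ⟨f, hf, hf2⟩ := h2 s
    have h6 : π y (g s) • Sv y = f • Sv y := by rw [← h1, hf2]
    have h7 : f = π y (g s) := by
      by_contra hne
      have h8 : (f⁻¹ * π y (g s)) ≠ 1 := by
        intro h9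
        exact hne (inv_mul_eq_one.1 h9)
      apply h3 _ h8
      rw [mul_smul, h6, inv_smul_smul]
    rw [← h7]
    exact hf
  have hQ' : ∀ᵐ y ∂(bern G ν), ∀ k : G, (∀ s, π (k • y) (g s) ∈ Fs) ∧
      (∀ a : G, (π (k • y)).symm a ∈ J a) ∧ T (Sv (k • y)) = k • y := by
    rw [ae_all_iff]
    intro k
    exact (inv_bern ν k).quasiMeasurePreserving.ae hQ
  obtain ⟨f0⟩ : Nonempty (S → ↥Fs) := by
    obtain ⟨y, hy⟩ := hF.exists
    exact ⟨fun s => ⟨(hy s).choose, (hy s).choose_spec.1⟩⟩
  refine ⟨J, fun y k => π y k, fun y s => if hx : π y (g s) ∈ Fs then ⟨π y (g s), hx⟩ else f0 s,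
    ?_, ?_⟩
  · intro a
    have hset : (fun (y : Bsh G) (s : S) => if hx : π y (g s) ∈ Fs then
        (⟨π y (g s), hx⟩ : ↥Fs) else f0 s) ⁻¹' {a} = ⋂ s, {y : Bsh G |
          (if hx : π y (g s) ∈ Fs then (⟨π y (g s), hx⟩ : ↥Fs) else f0 s) = a s} := by
      ext y
      rw [Set.mem_preimage, Set.mem_singleton_iff, Set.mem_iInter, funext_iff]
      rfl
    rw [hset]
    refine MeasurableSet.iInter fun s => ?_
    have hmF : MeasurableSet {y : Bsh G | π y (g s) ∈ Fs} := by
      have h1 : {y : Bsh G | π y (g s) ∈ Fs} = ⋃ b ∈ Fs, {y : Bsh G | π y (g s) = b} := by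
        ext y
        rw [Set.mem_iUnion₂]
        constructor
        · intro hy
          exact ⟨_, hy, rfl⟩
        · rintro ⟨b, hb, hy⟩
          show π y (g s) ∈ Fs
          rw [show π y (g s) = b from hy]
          exact hb
      rw [h1]
      exact Finset.measurableSet_biUnion _ fun b _ => hπ.me (g s) b
    by_cases hfa : f0 s = a s
    · have h1 : {y : Bsh G | (if hx : π y (g s) ∈ Fs then (⟨π y (g s), hx⟩ : ↥Fs) else f0 s) =
          a s} = {y : Bsh G | π y (g s) = (a s : G)} ∪ {y : Bsh G | π y (g s) ∈ Fs}ᶜ := by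
        ext y
        by_cases hx : π y (g s) ∈ Fs
        · constructor
          · intro h2
            left
            have h3 : (if hx : π y (g s) ∈ Fs then (⟨π y (g s), hx⟩ : ↥Fs) else f0 s) = a s := h2
            rw [dif_pos hx] at h3
            exact congrArg Subtype.val h3
          · rintro (h2 | h2)
            · show (if hx : π y (g s) ∈ Fs then (⟨π y (g s), hx⟩ : ↥Fs) else f0 s) = a s
              rw [dif_pos hx]
              exact Subtype.ext h2
            · exact absurd hx h2
        · constructor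
          · intro _
            exact Or.inr hx
          · intro _
            show (if hx : π y (g s) ∈ Fs then (⟨π y (g s), hx⟩ : ↥Fs) else f0 s) = a s
            rw [dif_neg hx, hfa]
      rw [h1]
      exact (hπ.me (g s) (a s : G)).union hmF.compl
    · have h1 : {y : Bsh G | (if hx : π y (g s) ∈ Fs then (⟨π y (g s), hx⟩ : ↥Fs) else f0 s) =
          a s} = {y : Bsh G | π y (g s) = (a s : G)} := by
        ext y
        by_cases hx : π y (g s) ∈ Fs
        · constructor
          · intro h2
            have h3 : (if hx : π y (g s) ∈ Fs then (⟨π y (g s), hx⟩ : ↥Fs) else f0 s) = a s := h2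
            rw [dif_pos hx] at h3
            exact congrArg Subtype.val h3
          · intro h2
            show (if hx : π y (g s) ∈ Fs then (⟨π y (g s), hx⟩ : ↥Fs) else f0 s) = a s
            rw [dif_pos hx]
            exact Subtype.ext h2
        · constructor
          · intro h2
            have h3 : (if hx : π y (g s) ∈ Fs then (⟨π y (g s), hx⟩ : ↥Fs) else f0 s) = a s := h2
            rw [dif_neg hx] at h3
            exact absurd h3 hfa
          · intro h2
            have h3 : π y (g s) = (a s : G) := h2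
            exact absurd (h3 ▸ (a s).2) hx
      rw [h1]
      exact hπ.me (g s) (a s : G)
  · filter_upwards [hS, hQ'] with y h1 h2
    refine ⟨⟨?_, ?_, ?_, ?_⟩, h1, fun k => (h2 k).2.2⟩
    · have h3 := hπ.co y 1 1
      rw [one_smul, mul_one] at h3
      exact left_eq_mul.1 h3
    · intro s k
      have h3 := (h2 k).1 s
      show π y (g s * k) = ((if hx : π (k • y) (g s) ∈ Fs then
        (⟨π (k • y) (g s), hx⟩ : ↥Fs) else f0 s : ↥Fs) : G) * π y k
      rw [dif_pos h3]
      exact hπ.co y k (g s)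
    · exact (π y).injective
    · intro a k0
      refine ⟨(π (k0 • y)).symm a, (h2 k0).2.1 a, ?_⟩
      show π y ((π (k0 • y)).symm a * k0) = a * π y k0
      rw [hπ.co, Equiv.apply_symm_apply]

end H33.SS
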