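import Pool.Agent.H33.SS.Defs
import Pool.Agent.H31.BE.Appr
import Pool.Agent.H31.BE.OEDef
import Pool.Agent.H31.BE.EntF

/-! # SS.InfB : the base labels near a point are approximately functions of the labels of the other side

PROOF. `appr` (H31/BE/Appr) for `μ` and the function `b x := fun d : ↥D => γ0 ((d.1 • T x) 1)` on the other side (`Fm`: `T` is measurable, `Fm.pi`, `Fm.comp_measurable`, `measurable_eval`) and `ε`: `k1`, `q1 : ℝ → Fin k1`, `B : Finset G`, `Φ` with `(bern G μ).real {x | b x ≠ Φ (win (lab q1) B x)} ≤ ε`. `H0 := B`, `ψ := Φ`. `win (lab q1) B x h = q1 ((h • x) 1)` by definition. The set on the other side is measurable (`Fm`); its preimage under the measure preserving `Sv` has the same measure; for almost every `y`, `T (Sv y) = y` (`h.TS`), so the set of the claim is almost everywhere equal to this preimage. -/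

set_option autoImplicit false
set_option synthInstance.maxSize 4000

open MeasureTheory H31.BE H33.HN

namespace H33.SS

theorem inf_b {G Γ : Type} [Group G] [DecidableEq G] [Finite Γ] (μ ν : Measure ℝ) [IsProbabilityMeasure μ]
    [IsProbabilityMeasure ν] (T Sv : Bsh G → Bsh G) (h : OE G μ ν T Sv) (D : Finset G) (γ0 : ℝ → Γ) (hγ : Fm γ0)
    (ε : ℝ) (hε : 0 < ε) :
    ∃ (k1 : ℕ) (q1 : ℝ → Fin k1) (_ : Fm q1) (H0 : Finset G) (ψ : (↥H0 → Fin k1) → ↥D → Γ),
      (bern G ν).real {y | (fun d : ↥D => γ0 ((d.1 • y) 1)) ≠ ψ (fun h : ↥H0 => q1 ((h.1 • Sv y) 1))} ≤ ε := by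
  classical
  have hm : ∀ d : G, Measurable (fun x : Bsh G => (d • T x) 1) := by
    intro d
    have h1 : Measurable (fun y : Bsh G => (d • y) 1) := measurable_eval (d⁻¹ * 1)
    exact h1.comp h.mT.measurable
  have hb : Fm (fun x : Bsh G => fun d : ↥D => γ0 ((d.1 • T x) 1)) :=
    Fm.pi (f := fun (d : ↥D) (x : Bsh G) => γ0 ((d.1 • T x) 1)) fun d =>
      Fm.comp_measurable (hm d.1) hγ
  obtain ⟨k1, q1, hq1, B, Φ, hΦ⟩ := appr μ (fun x : Bsh G => fun d : ↥D => γ0 ((d.1 • T x) 1)) hb ε hε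
  refine ⟨k1, q1, hq1, B, Φ, ?_⟩
  have hw : Fm (win (lab (G := G) q1) B) :=
    Fm.pi (f := fun (i : B) (y : Bsh G) => lab q1 ((i : G) • y))
      (fun i => Fm.comp_measurable (inv_bern (G := G) μ i).measurable hq1.lab)
  have hE : MeasurableSet {x : Bsh G | (fun d : ↥D => γ0 ((d.1 • T x) 1)) ≠ Φ (win (lab q1) B x)} :=
    (hb.prodMk hw).preimage {p | p.1 ≠ Φ p.2}
  have hpre := h.mS.measure_preimage hE.nullMeasurableSet
  have hsub : {y : Bsh G | (fun d : ↥D => γ0 ((d.1 • y) 1)) ≠ Φ (fun h : ↥B => q1 ((h.1 • Sv y) 1))} ⊆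
      (Sv ⁻¹' {x : Bsh G | (fun d : ↥D => γ0 ((d.1 • T x) 1)) ≠ Φ (win (lab q1) B x)}) ∪
        {y | ¬ T (Sv y) = y} := by
    intro y hy
    by_cases hTS : T (Sv y) = y
    · left
      show (fun d : ↥D => γ0 ((d.1 • T (Sv y)) 1)) ≠ Φ (win (lab q1) B (Sv y))
      rw [hTS]
      exact hy
    · exact Or.inr hTS
  have hnull : bern G ν {y | ¬ T (Sv y) = y} = 0 := h.TS
  have hle : bern G ν {y : Bsh G | (fun d : ↥D => γ0 ((d.1 • y) 1)) ≠
      Φ (fun h : ↥B => q1 ((h.1 • Sv y) 1))} ≤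
      bern G μ {x : Bsh G | (fun d : ↥D => γ0 ((d.1 • T x) 1)) ≠ Φ (win (lab q1) B x)} := by
    refine (measure_mono hsub).trans ((measure_union_le _ _).trans ?_)
    rw [hnull, add_zero, hpre]
  refine le_trans ?_ hΦ
  rw [measureReal_def, measureReal_def]
  exact ENNReal.toReal_mono (measure_ne_top _ _) hle

end H33.SS
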