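import Pool.Agent.H33.SS.Defs

/-! # SS.KapA : properties of the kernels (elementary)

PROOF. Let `n := Fintype.card P ≥ 1`. `qt_pos`: `τ / n > 0` and `(1 - τ) * q a ≥ 0`. `qt_le`: `q a ≤ 1` (one term of the sum) so `qt ≤ 1 - τ + τ / n ≤ 1`. `qt_log`: `qt ≥ τ / n`, `Real.log` monotone. `kap_*`: by cases in the definition of `kap` (`dif_pos`, `dif_neg`). `kap_sum`: in the copy case the chosen `j'` satisfies `j < j'`, so `Function.update u j a j' = u j'` and `∑ a, (1 - τ) * (if a = u j' then 1 else 0) + τ / n = 1`; note that the existence statement does not involve `u`. `kap_copy`: `-log (1 - τ + τ / n) ≤ -log (1 - τ) ≤ 2 * τ` for `τ ≤ 1 / 2` (`Real.one_sub_inv_le_log_of_pos` : `1 - 1/x ≤ log x` with `x = 1 - τ`, `τ / (1 - τ) ≤ 2 * τ`). -/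

set_option autoImplicit false
set_option synthInstance.maxSize 4000

open MeasureTheory H31.BE H33.HN

namespace H33.SS

variable {P : Type} [Fintype P] [Nonempty P] {τ : ℝ} (h0 : 0 < τ) (h1 : τ ≤ 1 / 2) {q : P → ℝ} (hq : ∀ a, 0 ≤ q a)
  (hs : ∑ a, q a = 1)

omit [Fintype P] [Nonempty P] in
private theorem KapA_log {n x : ℝ} (h0 : 0 < τ) (hn : 0 < n) (h : τ / n ≤ x) :
    -Real.log x ≤ Real.log (n / τ) := by
  rw [← Real.log_inv]
  have h2 : 0 < τ / n := div_pos h0 hn
  have h3 : 0 < x := lt_of_lt_of_le h2 h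
  apply Real.log_le_log (inv_pos.2 h3)
  rw [← inv_div]
  exact inv_anti₀ h2 h

include h0 h1 hq in
theorem qt_pos (a : P) : 0 < qt τ q a := by
  have hn : (0 : ℝ) < Fintype.card P := by exact_mod_cast Fintype.card_pos
  have h2 : 0 < τ / Fintype.card P := div_pos h0 hn
  have h3 : 0 ≤ (1 - τ) * q a := mul_nonneg (by linarith) (hq a)
  unfold qt
  linarith

include h0 h1 hq hs in
theorem qt_le (a : P) : qt τ q a ≤ 1 := by
  have hn : (1 : ℝ) ≤ Fintype.card P := by exact_mod_cast Fintype.card_pos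
  have h2 : τ / Fintype.card P ≤ τ := div_le_self h0.le hn
  have h3 : q a ≤ 1 := by
    rw [← hs]
    exact Finset.single_le_sum (fun b _ => hq b) (Finset.mem_univ a)
  have h4 : (1 - τ) * q a ≤ (1 - τ) * 1 := mul_le_mul_of_nonneg_left h3 (by linarith)
  unfold qt
  linarith

include h0 h1 hq hs in
theorem qt_sum : ∑ a, qt τ q a = 1 := by
  have hn : (0 : ℝ) < Fintype.card P := by exact_mod_cast Fintype.card_pos
  unfold qt
  rw [Finset.sum_add_distrib, ← Finset.mul_sum, hs, Finset.sum_const, Finset.card_univ, nsmul_eq_mul]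
  field_simp
  ring

include h0 h1 hq in
theorem qt_log (a : P) : -Real.log (qt τ q a) ≤ Real.log (Fintype.card P / τ) := by
  have hn : (0 : ℝ) < Fintype.card P := by exact_mod_cast Fintype.card_pos
  have h2 : 0 < τ / Fintype.card P := div_pos h0 hn
  have h3 : 0 ≤ (1 - τ) * q a := mul_nonneg (by linarith) (hq a)
  exact KapA_log h0 hn (by unfold qt; linarith)

variable {m : ℕ} (R : Fin m → Fin m → Prop)

include hs in
private theorem KapA_sum : ∑ a, qt τ q a = 1 := by
  have hn : (0 : ℝ) < Fintype.card P := by exact_mod_cast Fintype.card_pos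
  unfold qt
  rw [Finset.sum_add_distrib, ← Finset.mul_sum, hs, Finset.sum_const, Finset.card_univ, nsmul_eq_mul]
  field_simp
  ring

include h0 h1 hq in
theorem kap_pos (j : Fin m) (u : Fin m → P) : 0 < kap τ q R j u := by
  have hn : (0 : ℝ) < Fintype.card P := by exact_mod_cast Fintype.card_pos
  have h2 : 0 < τ / Fintype.card P := div_pos h0 hn
  unfold kap
  split_ifs
  · have h3 : 0 ≤ (1 - τ) * 1 := by linarith
    linarith
  · simpa using h2
  · exact qt_pos h0 h1 hq _

include h0 h1 hs in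
theorem kap_sum (j : Fin m) (u : Fin m → P) : ∑ a, kap τ q R j (Function.update u j a) ≤ 1 := by
  classical
  have hn : (0 : ℝ) < Fintype.card P := by exact_mod_cast Fintype.card_pos
  by_cases h : ∃ j', j < j' ∧ R j j'
  · have h2 : ∀ a, kap τ q R j (Function.update u j a) =
        (1 - τ) * (if a = u h.choose then 1 else 0) + τ / Fintype.card P := by
      intro a
      unfold kap
      rw [dif_pos h, Function.update_self, Function.update_of_ne (ne_of_gt h.choose_spec.1)]
    rw [Finset.sum_congr rfl fun a _ => h2 a, Finset.sum_add_distrib, ← Finset.mul_sum,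
      Finset.sum_ite_eq' Finset.univ (u h.choose) (fun _ => (1 : ℝ)), if_pos (Finset.mem_univ _),
      Finset.sum_const, Finset.card_univ, nsmul_eq_mul]
    apply le_of_eq
    field_simp
    ring
  · have h2 : ∀ a, kap τ q R j (Function.update u j a) = qt τ q a := by
      intro a
      unfold kap
      rw [dif_neg h, Function.update_self]
    rw [Finset.sum_congr rfl fun a _ => h2 a]
    exact (KapA_sum hs).le

theorem kap_dep (j : Fin m) (u u' : Fin m → P) (h : ∀ i, j ≤ i → u i = u' i) : kap τ q R j u = kap τ q R j u' := by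
  unfold kap
  by_cases h2 : ∃ j', j < j' ∧ R j j'
  · rw [dif_pos h2, dif_pos h2, h j le_rfl, h h2.choose h2.choose_spec.1.le]
  · rw [dif_neg h2, dif_neg h2, h j le_rfl]

include h0 h1 hq in
theorem kap_log (j : Fin m) (u : Fin m → P) : -Real.log (kap τ q R j u) ≤ Real.log (Fintype.card P / τ) := by
  have hn : (0 : ℝ) < Fintype.card P := by exact_mod_cast Fintype.card_pos
  have h3 : 0 ≤ (1 - τ) * 1 := by linarith
  refine KapA_log h0 hn ?_
  unfold kap
  split_ifs
  · linarith
  · simp
  · have h4 : 0 ≤ (1 - τ) * q (u j) := mul_nonneg (by linarith) (hq _)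
    unfold qt
    linarith

include h0 h1 in
theorem kap_copy (j : Fin m) (u : Fin m → P) (h : ∃ j', j < j' ∧ R j j')
    (hu : ∀ j', j < j' → R j j' → u j = u j') : -Real.log (kap τ q R j u) ≤ 2 * τ := by
  have hn : (0 : ℝ) < Fintype.card P := by exact_mod_cast Fintype.card_pos
  have h2 : 0 < τ / Fintype.card P := div_pos h0 hn
  have h3 : kap τ q R j u = (1 - τ) + τ / Fintype.card P := by
    unfold kap
    rw [dif_pos h, if_pos (hu _ h.choose_spec.1 h.choose_spec.2), mul_one]
  rw [h3]
  have h4 : (0 : ℝ) < 1 - τ := by linarith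
  have h5 : Real.log (1 - τ) ≤ Real.log ((1 - τ) + τ / Fintype.card P) :=
    Real.log_le_log h4 (by linarith)
  have h6 := Real.one_sub_inv_le_log_of_pos h4
  have h7 : (1 - τ)⁻¹ - 1 ≤ 2 * τ := by
    have h8 : (1 - τ)⁻¹ * (1 - τ) = 1 := inv_mul_cancel₀ h4.ne'
    have h9 : (1 - τ)⁻¹ ≤ 2 := by
      rw [inv_le_comm₀ h4 (by norm_num)]
      norm_num
      linarith
    nlinarith
  linarith

theorem kap_rep (j : Fin m) (u : Fin m → P) (h : ¬ ∃ j', j < j' ∧ R j j') : kap τ q R j u = qt τ q (u j) := by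
  unfold kap
  rw [dif_neg h]

end H33.SS
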