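import Pool.Agent.H33.SS.LmA

/-! # SS.RhoA : positions computed from the labels

PROOF. `rho_mem`: by cases in the definition (`Exists.choose_spec`). `rho_ex`: (classical) `K :=` the image of the finite set of all prefixes `w1` of the words `wl k`, `k ∈ K0`, under `w1 ↦ lift g (pv w1)` (use `List.inits`). For `k ∈ K0`: `th_agree` for the two label functions `b ∘ t`, `b ∘ t0` on the structure `lm g` at the points `1`, `1` (`ac_lm`, `mul_one`), then `th_leg1` and `hwl`. For `h ∈ H0`: `Leg.inv h 1` gives `k ∈ J h ⊆ K0` with `θ (k * 1) = h * θ 1 = h`, hence the condition in the definition of `rho` holds, and the chosen `k' ∈ K0` satisfies `θ k' = Th .. = h`. -/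

set_option autoImplicit false
set_option synthInstance.maxSize 4000

open MeasureTheory H31.BE H33.HN

namespace H33.SS

variable {S G Λ : Type} [Group G]

theorem rho_mem (g : S → G) (wl : G → List (S × Bool)) (b : Λ → S → G) (K0 : Finset G) (h1 : (1 : G) ∈ K0)
    (t : G → Λ) (h : G) : rho g wl b K0 t h ∈ K0 := by
  classical
  unfold rho
  split_ifs with hx
  · exact hx.choose_spec.1
  · exact h1

theorem rho_ex (g : S → G) (wl : G → List (S × Bool)) (hwl : ∀ k, FreeGroup.lift g (pv (wl k)) = k)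
    (b : Λ → S → G) (J : G → Finset G) (K0 : Finset G) :
    ∃ K : Finset G, ∀ (H0 : Finset G), (∀ h ∈ H0, J h ⊆ K0) → ∀ (t t0 : G → Λ) (θ : G → G), Leg g b J t0 θ →
      (∀ k ∈ K, t k = t0 k) →
      (∀ k ∈ K0, Th (lm g) (fun k' => b (t k')) (pv (wl k)) 1 = θ k) ∧
      ∀ h ∈ H0, rho g wl b K0 t h ∈ K0 ∧ θ (rho g wl b K0 t h) = h := by
  classical
  refine ⟨K0.biUnion (fun k => ((wl k).inits.map (fun w1 => FreeGroup.lift g (pv w1))).toFinset), ?_⟩
  intro H0 hJ t t0 θ hL hK
  have hpos : ∀ k ∈ K0, Th (lm g) (fun k' => b (t k')) (pv (wl k)) 1 = θ k := by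
    intro k hk
    have e1 : Th (lm g) (fun k' => b (t k')) (pv (wl k)) 1 = Th (lm g) (fun k' => b (t0 k')) (pv (wl k)) 1 := by
      apply th_agree
      intro w1 hw1
      have hm : FreeGroup.lift g (pv w1) ∈
          K0.biUnion (fun k => ((wl k).inits.map (fun w1 => FreeGroup.lift g (pv w1))).toFinset) := by
        refine Finset.mem_biUnion.2 ⟨k, hk, ?_⟩
        rw [List.mem_toFinset]
        exact List.mem_map.2 ⟨w1, (List.mem_inits w1 (wl k)).2 hw1, rfl⟩
      have e2 : ac (lm g) (pv w1) (1 : G) = FreeGroup.lift g (pv w1) := by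
        rw [ac_lm, mul_one]
      simp only [e2, hK _ hm]
    rw [e1, th_leg1 hL (pv (wl k)), hwl k]
  refine ⟨hpos, ?_⟩
  intro h hh
  obtain ⟨k, hkJ, hk⟩ := hL.inv h 1
  rw [mul_one, hL.one, mul_one] at hk
  have hkK : k ∈ K0 := hJ h hh hkJ
  have hx : ∃ k, k ∈ K0 ∧ Th (lm g) (fun k' => b (t k')) (pv (wl k)) 1 = h := ⟨k, hkK, by rw [hpos k hkK, hk]⟩
  have hr : rho g wl b K0 t h = hx.choose := by
    unfold rho
    rw [dif_pos hx]
  rw [hr]
  exact ⟨hx.choose_spec.1, by rw [← hpos _ hx.choose_spec.1]; exact hx.choose_spec.2⟩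

end H33.SS
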