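import Pool.Agent.H33.SS.UpL
import Pool.Agent.H33.SS.RhoA
import Pool.Agent.H33.SS.KapA
import Pool.Agent.H33.HN.ApF

/-! # SS.InfC : approximation of the labels by local functions of independent labels

Notation: `Λ := (S → ↥Fs) × (Fin k1 × Γ)`, `b l s := l.1 s`, `π l := l.2.1`; `L y := (bb y, (q1 (Sv y 1), γ0 (y 1)))`; `TT := {t | ∃ y, Y0 y ∧ t = fun k => L (k • y)}`.
PROOF. (classical) `K1` from `up_loc` (for this `b`, `π`), `K2` from `rho_ex`; the `K'` of the statement is `K1 ∪ K2 ∪ K0 ∪ {1}` and all `lift g d`, `d ∈ D`. `apf` (H33/HN/ApF) for `β y := (bb y, q1 (Sv y 1))` (`Fm`), `q0 := γ0` and `η` gives `A`, `q`, `pr`, `D0`, `β0` with error at most `η`; `β' t := ((β0 t).1, ((β0 t).2, pr (t 1)))`, `D' := insert 1 D0`. If `β (k • y) = β0 (tq q (k • y))` then `β' (sf k (tq q y)) = L (k • y)` (`tq q (k • y) = sf k (tq q y)`; `pr (q ((k • y) 1)) = γ0 ((k • y) 1)`). Let `Bd := {y | ∃ k ∈ K, β (k • y) ≠ β0 (tq q (k • y))}`: measure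 at most `K.card * η` (invariance, union bound, `measureReal_biUnion_finset_le`).
(1) outside `Bd` and the null set where `Y0` fails, `Gd K TT` holds.
(2) for `d ∈ D`, outside `Bd`, the null set, and the exceptional set of `hψ`: `pr (tq q y (lift g d)) = γ0 ((lift g d • y) 1) = ψ (fun h => q1 ((h • Sv y) 1)) ⟨lift g d, _⟩`. The configuration `fun k => β' (sf k (tq q y))` agrees on `K ⊇ K'` with `t0 := fun k => L (k • y)`, so by `up_loc` the labels `Up` are those of `t0`; by `rho_ex` for `t = t0` and the `Leg` of `Y0` (the structure `Leg` for `L` follows from the one for `bb` since `b (L (k • y)) s = bb (k • y) s`): `r := rho .. t0 h` satisfies `θ y r = h`, so `Up .. t0 h = q1 ((Sv (r • y)) 1) = q1 ((h • Sv y) 1)` for `h ∈ H0`.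
(3) `∫ -log (qt τ qq (π (β' (tq q y)))) = ∑ a, ν-probability of {π (β' ..) = a} * (-log (qt τ qq a))`; this probability differs from `qq a = (bern G ν).real {q1 (Sv y 1) = a} = μ.real (q1 ⁻¹' {a})` by at most `η`; `0 ≤ -log (qt τ qq a) ≤ C`; and `∑ a, qq a * (-log (qt τ qq a)) ≤ ∑ a, qq a * (-log (qq a)) - log (1 - τ) ≤ ent μ q1 + 2 * τ` (`qt τ qq a ≥ (1 - τ) * qq a`; terms with `qq a = 0` vanish; `-log (1 - τ) ≤ 2 * τ`). -/

set_option autoImplicit false
set_option synthInstance.maxSize 4000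

open MeasureTheory H31.BE H33.HN

namespace H33.SS

private theorem InfC_fm {G Λ A : Type} [Group G] [Finite A] (q : ℝ → A) (hq : Fm q) (D' : Finset G)
    (β' : (G → A) → Λ) (hβ' : Lc D' β') : Fm (fun y : Bsh G => β' (tq q y)) := by
  classical
  have h1 : Fm (fun (y : Bsh G) (h : ↥D') => q ((((h : G)) • y) 1)) := by
    refine Fm.pi (f := fun (h : ↥D') (y : Bsh G) => q (((h : G) • y) 1)) fun h => ?_
    have hm : Measurable fun y : Bsh G => ((h : G) • y) 1 := measurable_eval ((h : G)⁻¹ * 1)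
    exact Fm.comp_measurable hm hq
  have h2 := h1.comp (fun w : ↥D' → A => β' fun h => if hh : h ∈ D' then w ⟨h, hh⟩ else q 0)
  have e : (fun y : Bsh G => β' (tq q y)) = fun y : Bsh G =>
      β' fun h => if hh : h ∈ D' then q ((h • y) 1) else q 0 := by
    funext y
    refine hβ' _ _ fun h hh => ?_
    rw [dif_pos hh]
    rfl
  rw [e]
  exact h2

private theorem InfC_sf {G A : Type} [Group G] (q : ℝ → A) (k : G) (y : Bsh G) :
    sf k (tq q y) = tq q (k • y) := by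
  funext g
  show q (((g * k) • y) 1) = q ((g • k • y) 1)
  rw [mul_smul]

private theorem InfC_int {Ω α : Type} [MeasurableSpace Ω] (P : Measure Ω) [IsProbabilityMeasure P] [Fintype α]
    {f : Ω → α} (hf : Fm f) (φ : α → ℝ) :
    ∫ ω, φ (f ω) ∂P = ∑ a, P.real (f ⁻¹' {a}) * φ a := by
  classical
  have h1 : ∀ ω, φ (f ω) = ∑ b, (f ⁻¹' {b}).indicator (fun _ => φ b) ω := by
    intro ω
    rw [Finset.sum_eq_single (f ω)]
    · simp
    · intro b _ hb
      exact Set.indicator_of_notMem (fun h => hb h.symm) _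
    · intro h
      exact absurd (Finset.mem_univ _) h
  simp_rw [h1]
  rw [integral_finsetSum]
  · refine Finset.sum_congr rfl fun b _ => ?_
    rw [integral_indicator_const _ (hf b), smul_eq_mul]
  · intro b _
    exact (integrable_const (φ b)).indicator (hf b)

private theorem InfC_le {Ω α : Type} [MeasurableSpace Ω] (P : Measure Ω) [IsProbabilityMeasure P]
    (f f' : Ω → α) (a : α) : P.real (f ⁻¹' {a}) ≤ P.real (f' ⁻¹' {a}) + P.real {ω | f ω ≠ f' ω} := by
  have h1 : f ⁻¹' {a} ⊆ f' ⁻¹' {a} ∪ {ω | f ω ≠ f' ω} := by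
    intro ω hω
    by_cases hb : f ω = f' ω
    · left
      show f' ω = a
      rw [← hb]
      exact hω
    · exact Or.inr hb
  exact (measureReal_mono h1 (measure_ne_top P _)).trans (measureReal_union_le _ _)

/-- the elementary estimate of the last claim -/
private theorem InfC_num {k1 : ℕ} (hk : 0 < k1) (τ : ℝ) (h0 : 0 < τ) (h1 : τ ≤ 1 / 2) (qq p : Fin k1 → ℝ)
    (hq : ∀ a, 0 ≤ qq a) (hs : ∑ a, qq a = 1) (η : ℝ) (hη : 0 ≤ η) (hp : ∀ a, p a ≤ qq a + η) :
    ∑ a, p a * (-Real.log (qt τ qq a)) ≤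
      ∑ a, Real.negMulLog (qq a) + 2 * τ + k1 * η * Real.log (Fintype.card (Fin k1) / τ) := by
  have : Nonempty (Fin k1) := ⟨⟨0, hk⟩⟩
  have hl : ∀ a, 0 ≤ -Real.log (qt τ qq a) := fun a =>
    neg_nonneg.2 (Real.log_nonpos (qt_pos h0 h1 hq a).le (qt_le h0 h1 hq hs a))
  have hu : ∀ a, -Real.log (qt τ qq a) ≤ Real.log (Fintype.card (Fin k1) / τ) := fun a => qt_log h0 h1 hq a
  have ht : (0 : ℝ) < 1 - τ := by linarith
  have hn : (0 : ℝ) < Fintype.card (Fin k1) := by exact_mod_cast Fintype.card_pos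
  have hlog : -Real.log (1 - τ) ≤ 2 * τ := by
    have h6 := Real.one_sub_inv_le_log_of_pos ht
    have h7 : (1 - τ)⁻¹ - 1 ≤ 2 * τ := by
      have h8 : (1 - τ)⁻¹ * (1 - τ) = 1 := inv_mul_cancel₀ ht.ne'
      have h9 : (1 - τ)⁻¹ ≤ 2 := by
        rw [inv_le_comm₀ ht (by norm_num)]
        norm_num
        linarith
      nlinarith
    linarith
  have hterm : ∀ a, qq a * (-Real.log (qt τ qq a)) ≤ Real.negMulLog (qq a) + qq a * (2 * τ) := by
    intro a
    rcases (hq a).eq_or_lt with h | h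
    · rw [← h]
      simp
    · have h2 : Real.log ((1 - τ) * qq a) ≤ Real.log (qt τ qq a) := by
        apply Real.log_le_log (mul_pos ht h)
        unfold qt
        have : 0 < τ / Fintype.card (Fin k1) := div_pos h0 hn
        linarith
      rw [Real.log_mul ht.ne' h.ne'] at h2
      have h3 : qq a * (-Real.log (qt τ qq a)) ≤ qq a * (-Real.log (qq a) + 2 * τ) :=
        mul_le_mul_of_nonneg_left (by linarith) h.le
      unfold Real.negMulLog
      nlinarith
  have e1 : ∑ a, p a * (-Real.log (qt τ qq a)) ≤ ∑ a, (qq a + η) * (-Real.log (qt τ qq a)) :=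
    Finset.sum_le_sum fun a _ => mul_le_mul_of_nonneg_right (hp a) (hl a)
  have e2 : ∑ a, (qq a + η) * (-Real.log (qt τ qq a)) ≤
      ∑ a, ((Real.negMulLog (qq a) + qq a * (2 * τ)) + η * Real.log (Fintype.card (Fin k1) / τ)) := by
    refine Finset.sum_le_sum fun a _ => ?_
    have h3 := hterm a
    have h4 := mul_le_mul_of_nonneg_left (hu a) hη
    nlinarith
  have e3 : ∑ a, ((Real.negMulLog (qq a) + qq a * (2 * τ)) + η * Real.log (Fintype.card (Fin k1) / τ)) =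
      ∑ a, Real.negMulLog (qq a) + 2 * τ + k1 * η * Real.log (Fintype.card (Fin k1) / τ) := by
    rw [Finset.sum_add_distrib, Finset.sum_add_distrib, ← Finset.sum_mul, hs, Finset.sum_const,
      Finset.card_univ, nsmul_eq_mul, Fintype.card_fin]
    ring
  exact (e1.trans e2).trans e3.le

theorem inf_c {S G Γ : Type} [Group G] [DecidableEq G] [Countable G] [Fintype S] [Finite Γ] (g : S → G)
    (wl : G → List (S × Bool)) (hwl : ∀ k, FreeGroup.lift g (pv (wl k)) = k)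
    (μ ν : Measure ℝ) [IsProbabilityMeasure μ] [IsProbabilityMeasure ν] (T Sv : Bsh G → Bsh G) (h : OE G μ ν T Sv)
    (Fs : Finset G) (J : G → Finset G) (θ : Bsh G → G → G) (bb : Bsh G → S → ↥Fs) (hbb : Fm bb)
    (k1 : ℕ) (q1 : ℝ → Fin k1) (hq1 : Fm q1) (γ0 : ℝ → Γ) (hγ : Fm γ0) (H0 K0 : Finset G) (hJ : ∀ h ∈ H0, J h ⊆ K0)
    (D : Finset (FreeGroup S)) (D1 : Finset G) (hD : ∀ d ∈ D, FreeGroup.lift g d ∈ D1)
    (ψ : (↥H0 → Fin k1) → ↥D1 → Γ) (ε1 : ℝ)
    (hψ : (bern G ν).real {y | (fun d : ↥D1 => γ0 ((d.1 • y) 1)) ≠ ψ (fun h : ↥H0 => q1 ((h.1 • Sv y) 1))} ≤ ε1)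
    (Y0 : Bsh G → Prop) (hY0 : ∀ᵐ y ∂(bern G ν), Y0 y)
    (hL : ∀ y, Y0 y → Leg g (fun (l : S → ↥Fs) s => (l s : G)) J (fun k => bb (k • y)) (θ y) ∧
      ∀ k, Sv (k • y) = θ y k • Sv y)
    (τ : ℝ) (h0 : 0 < τ) (h1 : τ ≤ 1 / 2) :
    ∃ K' : Finset G, ∀ (K : Finset G) (_ : K' ⊆ K) (η : ℝ) (_ : 0 < η),
      ∃ (A : Type) (_ : Finite A) (q : ℝ → A) (_ : Fm q) (pr : A → Γ) (_ : ∀ x, pr (q x) = γ0 x)
        (D' : Finset G) (β' : (G → A) → (S → ↥Fs) × (Fin k1 × Γ)) (_ : Lc D' β'),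
        (bern G ν).real {y | ¬ Gd K {t | ∃ y, Y0 y ∧ t = fun k : G => (bb (k • y), (q1 (Sv (k • y) 1), γ0 ((k • y) 1)))}
          (fun k => β' (sf k (tq q y)))} ≤ K.card * η ∧
        (∀ (d : FreeGroup S) (hd : d ∈ D), (bern G ν).real {y | pr (tq q y (FreeGroup.lift g d)) ≠
          ψ (fun h => Up g wl (fun (l : (S → ↥Fs) × (Fin k1 × Γ)) s => (l.1 s : G)) K0 (fun l => l.2.1)
            (fun k => β' (sf k (tq q y))) h) ⟨FreeGroup.lift g d, hD d hd⟩} ≤ K.card * η + ε1) ∧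
        ∫ y, -Real.log (qt τ (fun a => μ.real (q1 ⁻¹' {a})) (β' (tq q y)).2.1) ∂(bern G ν) ≤
          ent μ q1 + 2 * τ + k1 * η * Real.log (Fintype.card (Fin k1) / τ) := by
  classical
  obtain ⟨K1, hK1⟩ := up_loc g wl (fun (l : (S → ↥Fs) × (Fin k1 × Γ)) s => (l.1 s : G)) K0 (fun l => l.2.1)
  obtain ⟨K2, hK2⟩ := rho_ex g wl hwl (fun (l : (S → ↥Fs) × (Fin k1 × Γ)) s => (l.1 s : G)) J K0
  refine ⟨K1 ∪ (K2 ∪ (K0 ∪ ({1} ∪ D.image (FreeGroup.lift g)))), ?_⟩
  intro K hK η hη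
  have hKa : ∀ k ∈ K1, k ∈ K := fun k hk => hK (Finset.mem_union_left _ hk)
  have hKd : ∀ d ∈ D, FreeGroup.lift g d ∈ K := by
    intro d hd
    refine hK (Finset.mem_union_right _ (Finset.mem_union_right _ (Finset.mem_union_right _
      (Finset.mem_union_right _ (Finset.mem_image_of_mem _ hd)))))
  have hm : Measurable (fun y : Bsh G => Sv y 1) := (measurable_eval (1 : G)).comp h.mS.measurable
  have hq1S : Fm (fun y : Bsh G => q1 (Sv y 1)) := Fm.comp_measurable hm hq1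
  have hβ : Fm (fun y : Bsh G => (bb y, q1 (Sv y 1))) := hbb.prodMk hq1S
  obtain ⟨A, hA, q, hq, pr, hpr, D0, β0, hβ0, hap⟩ :=
    apf ν (fun y : Bsh G => (bb y, q1 (Sv y 1))) hβ γ0 hγ η hη
  have hγF : Fm (fun y : Bsh G => β0 (tq q y)) := InfC_fm q hq D0 β0 hβ0
  -- the bad set
  set N : Set (Bsh G) := {y | (bb y, q1 (Sv y 1)) ≠ β0 (tq q y)} with hN
  have hNm : MeasurableSet N :=
    (hβ.prodMk hγF).preimage {p : ((S → ↥Fs) × Fin k1) × ((S → ↥Fs) × Fin k1) | p.1 ≠ p.2}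
  set Bd : Set (Bsh G) := ⋃ k ∈ K, (fun y : Bsh G => k • y) ⁻¹' N with hBd
  have hBdle : (bern G ν).real Bd ≤ K.card * η := by
    refine (measureReal_biUnion_finset_le K _).trans ?_
    have h3 : ∀ k ∈ K, (bern G ν).real ((fun y : Bsh G => k • y) ⁻¹' N) ≤ η := by
      intro k _
      unfold Measure.real
      rw [(inv_bern (G := G) ν k).measure_preimage hNm.nullMeasurableSet]
      exact hap
    refine (Finset.sum_le_sum h3).trans ?_
    rw [Finset.sum_const, nsmul_eq_mul]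
  have hY0' : (bern G ν).real {y | ¬ Y0 y} = 0 := by
    have h3 : bern G ν {y | ¬ Y0 y} = 0 := hY0
    rw [measureReal_def, h3]
    rfl
  -- outside the bad set the approximate labels are the labels
  have hgood : ∀ y, y ∉ Bd → ∀ k ∈ K,
      (((β0 (sf k (tq q y))).1, ((β0 (sf k (tq q y))).2, pr ((sf k (tq q y)) 1))) : (S → ↥Fs) × (Fin k1 × Γ)) =
        (bb (k • y), (q1 (Sv (k • y) 1), γ0 ((k • y) 1))) := by
    intro y hy k hk
    have h3 : β0 (tq q (k • y)) = (bb (k • y), q1 (Sv (k • y) 1)) := by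
      by_contra hne
      apply hy
      rw [hBd, Set.mem_iUnion₂]
      exact ⟨k, hk, fun h4 => hne h4.symm⟩
    have h4 : pr (tq q (k • y) 1) = γ0 ((k • y) 1) := by
      show pr (q (((1 : G) • k • y) 1)) = γ0 ((k • y) 1)
      rw [one_smul, hpr]
    rw [InfC_sf, h3, h4]
  have hgood2 : ∀ y, y ∉ Bd → ∀ d ∈ D, pr (tq q y (FreeGroup.lift g d)) = γ0 ((FreeGroup.lift g d • y) 1) := by
    intro y _ d _
    show pr (q ((FreeGroup.lift g d • y) 1)) = _
    rw [hpr]
  refine ⟨A, hA, q, hq, pr, hpr, insert 1 D0, fun t => ((β0 t).1, ((β0 t).2, pr (t 1))), ?_, ?_, ?_, ?_⟩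
  · -- locality
    intro t t' htt
    have h3 : β0 t = β0 t' := hβ0 t t' fun g hg => htt g (Finset.mem_insert_of_mem hg)
    show (((β0 t).1, ((β0 t).2, pr (t 1))) : (S → ↥Fs) × (Fin k1 × Γ)) = ((β0 t').1, ((β0 t').2, pr (t' 1)))
    rw [h3, htt 1 (Finset.mem_insert_self _ _)]
  · -- the first estimate
    have hsub : {y | ¬ Gd K {t | ∃ y, Y0 y ∧ t = fun k : G => (bb (k • y), (q1 (Sv (k • y) 1), γ0 ((k • y) 1)))}
          (fun k => (((β0 (sf k (tq q y))).1, ((β0 (sf k (tq q y))).2, pr ((sf k (tq q y)) 1))) :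
            (S → ↥Fs) × (Fin k1 × Γ)))} ⊆ Bd ∪ {y | ¬ Y0 y} := by
      intro y hy
      by_cases hb : y ∈ Bd
      · exact Or.inl hb
      · right
        intro hY
        apply hy
        exact ⟨_, ⟨y, hY, rfl⟩, fun k hk => hgood y hb k hk⟩
    refine (measureReal_mono hsub (measure_ne_top _ _)).trans ((measureReal_union_le _ _).trans ?_)
    rw [hY0', add_zero]
    exact hBdle
  · -- the second estimate
    intro d hd
    have hsub : {y | pr (tq q y (FreeGroup.lift g d)) ≠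
          ψ (fun h => Up g wl (fun (l : (S → ↥Fs) × (Fin k1 × Γ)) s => (l.1 s : G)) K0 (fun l => l.2.1)
            (fun k => (((β0 (sf k (tq q y))).1, ((β0 (sf k (tq q y))).2, pr ((sf k (tq q y)) 1))) :
            (S → ↥Fs) × (Fin k1 × Γ))) h) ⟨FreeGroup.lift g d, hD d hd⟩} ⊆
        (Bd ∪ {y | ¬ Y0 y}) ∪
          {y | (fun d : ↥D1 => γ0 ((d.1 • y) 1)) ≠ ψ (fun h : ↥H0 => q1 ((h.1 • Sv y) 1))} := by
      intro y hy
      by_cases hb : y ∈ Bd
      · exact Or.inl (Or.inl hb)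
      by_cases hY : Y0 y
      swap
      · exact Or.inl (Or.inr hY)
      right
      intro hE
      apply hy
      rw [hgood2 y hb d hd]
      have hE' := congrFun hE ⟨FreeGroup.lift g d, hD d hd⟩
      refine Eq.trans hE' ?_
      have hUp : (fun h : ↥H0 => q1 ((h.1 • Sv y) 1)) = fun h : ↥H0 =>
          Up g wl (fun (l : (S → ↥Fs) × (Fin k1 × Γ)) s => (l.1 s : G)) K0 (fun l => l.2.1)
            (fun k => (((β0 (sf k (tq q y))).1, ((β0 (sf k (tq q y))).2, pr ((sf k (tq q y)) 1))) :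
            (S → ↥Fs) × (Fin k1 × Γ))) h := by
        funext h'
        rw [hK1 _ (fun k : G => (bb (k • y), (q1 (Sv (k • y) 1), γ0 ((k • y) 1))))
          (fun k hk => hgood y hb k (hKa k hk)) (h' : G)]
        have hLe : Leg g (fun (l : (S → ↥Fs) × (Fin k1 × Γ)) s => (l.1 s : G)) J
            (fun k : G => (bb (k • y), (q1 (Sv (k • y) 1), γ0 ((k • y) 1)))) (θ y) :=
          ⟨(hL y hY).1.one, (hL y hY).1.eq, (hL y hY).1.inj, (hL y hY).1.inv⟩
        have hr := ((hK2 H0 hJ _ _ (θ y) hLe (fun k _ => rfl)).2 h'.1 h'.2).2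
        show q1 ((h'.1 • Sv y) 1) = q1 (Sv (rho g wl (fun (l : (S → ↥Fs) × (Fin k1 × Γ)) s => (l.1 s : G)) K0
          (fun k : G => (bb (k • y), (q1 (Sv (k • y) 1), γ0 ((k • y) 1)))) h'.1 • y) 1)
        rw [(hL y hY).2, hr]
      rw [hUp]
    refine (measureReal_mono hsub (measure_ne_top _ _)).trans ((measureReal_union_le _ _).trans ?_)
    have h3 := measureReal_union_le (μ := bern G ν) Bd {y | ¬ Y0 y}
    rw [hY0', add_zero] at h3
    linarith
  · -- the third estimate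
    have hk : 0 < k1 := lt_of_le_of_lt (Nat.zero_le _) (q1 0).2
    have hF : Fm (fun y : Bsh G => (β0 (tq q y)).2) := hγF.comp Prod.snd
    have e1 : ∫ y, -Real.log (qt τ (fun a => μ.real (q1 ⁻¹' {a})) (β0 (tq q y)).2) ∂(bern G ν) =
        ∑ a, (bern G ν).real ((fun y : Bsh G => (β0 (tq q y)).2) ⁻¹' {a}) *
          (-Real.log (qt τ (fun a => μ.real (q1 ⁻¹' {a})) a)) :=
      InfC_int (bern G ν) hF (fun a => -Real.log (qt τ (fun a => μ.real (q1 ⁻¹' {a})) a))
    have e2 : ∀ a, (bern G ν).real ((fun y : Bsh G => q1 (Sv y 1)) ⁻¹' {a}) = μ.real (q1 ⁻¹' {a}) := by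
      intro a
      have hp : MeasurePreserving (fun y : Bsh G => Sv y 1) (bern G ν) μ :=
        MeasurePreserving.comp (measurePreserving_eval_infinitePi (fun _ : G => μ) 1) h.mS
      have := hp.measure_preimage (hq1 a).nullMeasurableSet
      rw [measureReal_def, measureReal_def, ← this]
      rfl
    have e3 : ∀ a, (bern G ν).real ((fun y : Bsh G => (β0 (tq q y)).2) ⁻¹' {a}) ≤ μ.real (q1 ⁻¹' {a}) + η := by
      intro a
      rw [← e2 a]
      refine (InfC_le (bern G ν) (fun y : Bsh G => (β0 (tq q y)).2) (fun y : Bsh G => q1 (Sv y 1)) a).trans ?_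
      have h3 : {y : Bsh G | (β0 (tq q y)).2 ≠ q1 (Sv y 1)} ⊆ N := by
        intro y hy hne
        apply hy
        rw [← hne]
      have h4 := (measureReal_mono h3 (measure_ne_top (bern G ν) _)).trans hap
      linarith
    have e4 : ∑ a, μ.real (q1 ⁻¹' {a}) = 1 := entF_sum hq1
    show ∫ y, -Real.log (qt τ (fun a => μ.real (q1 ⁻¹' {a})) (β0 (tq q y)).2) ∂(bern G ν) ≤ _
    rw [e1, ent_eq]
    exact InfC_num hk τ h0 h1 (fun a => μ.real (q1 ⁻¹' {a})) _ (fun a => measureReal_nonneg) e4 η hη.le e3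

end H33.SS
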