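import Pool.Agent.H33.SS.ThA

/-! # SS.LmA : left multiplication, position maps (elementary)

PROOF. `ac_lm`: induction on `w`. `th_leg`: for every word `w` and every `k`: `ac (sk (lm g) β) w (k, θ k) = (lift g w * k, θ (lift g w * k))` with `β k = b (t k)`, by induction on `w` (`FreeGroup.induction_on`): for a generator this is `Leg.eq`; for an inverse generator apply the generator case at `(g s)⁻¹ * k`. Then `ac_sk`. `th_leg1`: `k = 1`, `Leg.one`.
`leg_sf`: direct (`sf u t k = t (k * u)`): `one`: `θ (1 * u) * (θ u)⁻¹ = 1`; `eq`: `h.eq s (k * u)`; `inj`; `inv a k0`: `h.inv a (k0 * u)`. -/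

set_option autoImplicit false
set_option synthInstance.maxSize 4000

open MeasureTheory H31.BE H33.HN

namespace H33.SS

variable {S G Λ : Type} [Group G]

theorem ac_lm (g : S → G) (w : FreeGroup S) (k : G) : ac (lm g) w k = FreeGroup.lift g w * k := by
  refine FreeGroup.induction_on (C := fun w => ∀ k : G, ac (lm g) w k = FreeGroup.lift g w * k) w ?_ ?_ ?_ ?_ k
  · intro k
    simp
  · intro s k
    simp only [ac, FreeGroup.lift_apply_of]
    rfl
  · intro s _ k
    simp only [ac, map_inv, FreeGroup.lift_apply_of]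
    rfl
  · intro x y hx hy k
    rw [map_mul, map_mul, Equiv.Perm.mul_apply, hy, hx, mul_assoc]

theorem th_leg {g : S → G} {b : Λ → S → G} {J : G → Finset G} {t : G → Λ} {θ : G → G} (h : Leg g b J t θ)
    (w : FreeGroup S) (k : G) : Th (lm g) (fun k' => b (t k')) w k * θ k = θ (FreeGroup.lift g w * k) := by
  refine FreeGroup.induction_on
    (C := fun w => ∀ k : G, Th (lm g) (fun k' => b (t k')) w k * θ k = θ (FreeGroup.lift g w * k)) w ?_ ?_ ?_ ?_ k
  · intro k
    rw [th_one]
    simp
  · intro s k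
    rw [th_of, FreeGroup.lift_apply_of, h.eq s k]
  · intro s _ k
    have e1 : (lm g s).symm k = (g s)⁻¹ * k := rfl
    have e2 := h.eq s ((g s)⁻¹ * k)
    rw [mul_inv_cancel_left] at e2
    rw [th_inv, e1, map_inv, FreeGroup.lift_apply_of, e2, inv_mul_cancel_left]
  · intro x y hx hy k
    rw [th_mul, ac_lm, map_mul, mul_assoc, hy, hx, mul_assoc]

theorem th_leg1 {g : S → G} {b : Λ → S → G} {J : G → Finset G} {t : G → Λ} {θ : G → G} (h : Leg g b J t θ)
    (w : FreeGroup S) : Th (lm g) (fun k' => b (t k')) w 1 = θ (FreeGroup.lift g w) := by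
  have h1 := th_leg h w 1
  rw [h.one, mul_one, mul_one] at h1
  exact h1

theorem leg_sf {g : S → G} {b : Λ → S → G} {J : G → Finset G} {t : G → Λ} {θ : G → G} (h : Leg g b J t θ)
    (u : G) : Leg g b J (sf u t) (fun k => θ (k * u) * (θ u)⁻¹) where
  one := by
    simp
  eq := by
    intro s k
    have h1 := h.eq s (k * u)
    change θ (g s * k * u) * (θ u)⁻¹ = b (t (k * u)) s * (θ (k * u) * (θ u)⁻¹)
    rw [mul_assoc (g s) k u, h1, mul_assoc]
  inj := by
    intro k k' hk
    have h1 : θ (k * u) * (θ u)⁻¹ = θ (k' * u) * (θ u)⁻¹ := hk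
    have h2 : θ (k * u) = θ (k' * u) := mul_right_cancel h1
    exact mul_right_cancel (h.inj h2)
  inv := by
    intro a k0
    obtain ⟨k, hk, hk2⟩ := h.inv a (k0 * u)
    refine ⟨k, hk, ?_⟩
    change θ (k * k0 * u) * (θ u)⁻¹ = a * (θ (k0 * u) * (θ u)⁻¹)
    rw [mul_assoc k k0 u, hk2, mul_assoc]

end H33.SS
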