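import Pool.Agent.H33.SS.ParM
import Pool.Agent.H31.BE.TrivB
import Pool.Agent.H31.BE.FEntUp
import Pool.Agent.H31.BE.FEntLo

/-! # SS.MainM : the entropy inequality

PROOF. As `hf_le` in H33/HN/Main. By `fe_ge` it is enough to bound `ENNReal.ofReal (ent ν q0)` for every `q0 : ℝ → Fin k0`. If `ν` is trivial: `ent_triv`. Otherwise `μ` is nontrivial (`nontriv_of_map`), and for every `ε > 0`: `par_m` and `fe_le` give `ent ν q0 ≤ (HF μ).toReal + κ * log Fs.card + ε` if `HF μ ≠ ⊤`; let `ε → 0` (`le_of_forall_pos_le_add`). -/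

set_option autoImplicit false
set_option synthInstance.maxSize 4000

open MeasureTheory H31.BE H33.HN

namespace H33.SS

theorem hf_le {S G : Type} [Group G] [Infinite G] [Fintype S] (g : S → G)
    (hg : Function.Surjective (FreeGroup.lift g)) (κ : ℝ) (hκ : 0 ≤ κ) (hSK : SK g κ) (μ ν : Measure ℝ)
    [IsProbabilityMeasure μ] [IsProbabilityMeasure ν] (T Sv : Bsh G → Bsh G) (h : OE G μ ν T Sv) (Fs : Finset G)
    (hF : ∀ᵐ y ∂(bern G ν), ∀ s, ∃ f ∈ Fs, Sv (g s • y) = f • Sv y) :
    HF ν ≤ HF μ + ENNReal.ofReal (κ * Real.log Fs.card) := by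
  classical
  refine le_of_forall_lt fun c hc => ?_
  obtain ⟨k0, q0, hq0, hlt⟩ := fe_ge ν c hc
  refine lt_of_lt_of_le hlt ?_
  have hlog : 0 ≤ κ * Real.log Fs.card := mul_nonneg hκ (Real.log_natCast_nonneg _)
  by_cases hν : Nontriv ν
  · have hμ : Nontriv μ := nontriv_of_map μ ν T h.mT hν
    by_cases htop : HF μ = ⊤
    · rw [htop, top_add]
      exact le_top
    · have h6 : ent ν q0 ≤ (HF μ).toReal + κ * Real.log Fs.card := by
        refine le_of_forall_pos_le_add fun ε hε => ?_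
        obtain ⟨k1, q1, hq1, he1⟩ := par_m g hg κ hSK μ ν hμ hν T Sv h Fs hF k0 q0 hq0 ε hε
        have h3 := fe_le μ q1 hq1
        have h4 := ENNReal.toReal_mono htop h3
        rw [ENNReal.toReal_ofReal (ent_nonneg _)] at h4
        linarith
      calc ENNReal.ofReal (ent ν q0) ≤ ENNReal.ofReal ((HF μ).toReal + κ * Real.log Fs.card) :=
            ENNReal.ofReal_le_ofReal h6
        _ = HF μ + ENNReal.ofReal (κ * Real.log Fs.card) := by
            rw [ENNReal.ofReal_add ENNReal.toReal_nonneg hlog, ENNReal.ofReal_toReal htop]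
  · rw [ent_triv ν hν q0 hq0, ENNReal.ofReal_zero]
    exact bot_le

end H33.SS
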