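import Pool.Agent.H33.SS.ChD
import Pool.Agent.H33.SS.InfA
import Pool.Agent.H33.SS.InfB
import Pool.Agent.H33.SS.InfC

/-! # SS.ParM : the choice of the parameters

PROOF. (classical) Let `ε > 0`, `ε' := ε / 8`.
1. `wl` from `hg` and `pv_surj`. `hSK` gives `D`. `D1 := D.image (lift g)`.
2. `dec_sum` (DecV) for `Γ := Fin k0`, `ε'` gives `δ1 > 0`.
3. `inf_a`: `J`, `θ`, `bb`; `Y0 y :=` the property of `inf_a`.
4. `inf_b` for `D1`, `γ0 := q0`, `δ1 / 2`: `k1`, `q1`, `H0`, `ψ0`. `P := Fin k1` (nonempty: `q1 0`). `K0 := insert 1 (H0.biUnion J)`, `T0 :=` the image of `K0 × K0` under `(r, r') ↦ r'⁻¹ * r`. `T := T0.image (fun k => pv (wl k))`; `hSK` for `T` gives `R`.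
5. `τ := min (1/2) (ε' / (2 * H0.card + 2))`, so `2 * τ * H0.card ≤ ε'`, `2 * τ ≤ ε'`. `C := log (k1 / τ) ≥ 0`. `qq a := μ.real (q1 ⁻¹' {a})` (sum `1`: `entF_sum`).
6. `K1` from `chn` (`Λ := (S → ↥Fs) × (Fin k1 × Fin k0)`, `b l s := l.1 s`, `π l := l.2.1`), `K'` from `inf_c` (`ε1 := δ1 / 2`); `K := K1 ∪ K'`. Note: `Gd` for `K` implies `Gd` for `K1`.
7. `η > 0` with `K.card * η ≤ δ1 / 2`, `C * H0.card * (K.card * η) ≤ ε'`, `k1 * η * C ≤ ε'`. `inf_c`: `A`, `q`, `pr`, `D'`, `β'`. `ψ u d := if hd : d ∈ D then ψ0 u ⟨lift g d, _⟩ else (an element of Fin k0, q0 0)`.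
8. `chn` with `TT` the set of `inf_c`, `ε := ε'`, and `η := K.card * η`: `Z`. `hTT`: `Leg` for `L` from the `Leg` for `bb`. `gr_of` for `Z`: `W`. `δ > 0` with `δ * C ≤ ε'`, `δ * log (card Γ) ≤ ε'`. `hSK` for `W`, `δ`: `V`, `X`, `N`, `E`. Path property: for `k ∈ T0`, `u := pv (wl k) ∈ T`, `lift g u = k`. `{v | ¬ Gr g X Z v}` is contained in the set of points that are bad for `W`.
9. Divide the inequality of `chn` by `card V > 0`: `ent ν q0 ≤ κ * log Fs.card + (ent μ q1 + 2 * τ + k1 * η * C) + δ * C + 2 * τ * H0.card + C * H0.card * (K.card * η) + ε' + δ * log (card Γ) ≤ ent μ q1 + κ * log Fs.card + ε`. -/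

set_option autoImplicit false
set_option synthInstance.maxSize 4000

open MeasureTheory H31.BE H33.HN

namespace H33.SS

private lemma ParM_aux {a x y : ℝ} (ha : 0 ≤ a) (h : y ≤ x / (a + 1)) (hy : 0 ≤ y) : a * y ≤ x := by
  rw [le_div_iff₀ (by linarith)] at h
  nlinarith

private lemma ParM_eta {a b c x y z : ℝ} (ha : 0 ≤ a) (hb : 0 ≤ b) (hc : 0 ≤ c) (hx : 0 < x) (hy : 0 < y)
    (hz : 0 < z) : ∃ η : ℝ, 0 < η ∧ a * η ≤ x ∧ b * η ≤ y ∧ c * η ≤ z := by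
  have h0 : 0 < min (x / (a + 1)) (min (y / (b + 1)) (z / (c + 1))) :=
    lt_min (by positivity) (lt_min (by positivity) (by positivity))
  refine ⟨min (x / (a + 1)) (min (y / (b + 1)) (z / (c + 1))), h0, ?_, ?_, ?_⟩
  · exact ParM_aux ha (min_le_left _ _) h0.le
  · exact ParM_aux hb ((min_le_right _ _).trans (min_le_left _ _)) h0.le
  · exact ParM_aux hc ((min_le_right _ _).trans (min_le_right _ _)) h0.le

private lemma ParM_fin {n entn En lF I entm τ k η C bad H Kη e unc lG κ δ ε : ℝ} (hn : 0 < n)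
    (h : n * entn ≤ En * lF + n * I + bad * C + 2 * τ * (n * H) + C * (n * H * Kη) + n * e + unc * lG)
    (hE : En ≤ κ * n) (hlF : 0 ≤ lF) (hI : I ≤ entm + 2 * τ + k * η * C) (hbad : bad ≤ δ * n)
    (hunc : unc ≤ δ * n) (hC : 0 ≤ C) (hlG : 0 ≤ lG) (hτ : τ * (2 * H + 2) ≤ e) (hτ0 : 0 ≤ τ)
    (h2 : C * H * Kη ≤ e) (h3 : k * η * C ≤ e) (h4 : δ * C ≤ e) (h5 : δ * lG ≤ e) (h6 : ε = 8 * e) (hH : 0 ≤ H) :
    entn ≤ entm + κ * lF + ε := by
  have a1 : En * lF ≤ κ * n * lF := mul_le_mul_of_nonneg_right hE hlF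
  have a2 : n * I ≤ n * (entm + 2 * τ + k * η * C) := mul_le_mul_of_nonneg_left hI hn.le
  have a3 : bad * C ≤ δ * n * C := mul_le_mul_of_nonneg_right hbad hC
  have a4 : unc * lG ≤ δ * n * lG := mul_le_mul_of_nonneg_right hunc hlG
  have b1 : 2 * τ * H ≤ e := by nlinarith
  have b2 : 2 * τ ≤ e := by nlinarith [mul_nonneg hτ0 hH]
  have he : 0 ≤ e := by nlinarith
  have key : n * entn ≤ n * (entm + κ * lF + ε) := by
    calc n * entn ≤ n * (κ * lF + (entm + 2 * τ + k * η * C) + δ * C + 2 * τ * H + C * H * Kη + e + δ * lG) := by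
          nlinarith
      _ ≤ n * (entm + κ * lF + ε) := by
          apply mul_le_mul_of_nonneg_left _ hn.le
          linarith
  exact le_of_mul_le_mul_left key hn

theorem par_m {S G : Type} [Group G] [DecidableEq G] [Infinite G] [Fintype S] (g : S → G)
    (hg : Function.Surjective (FreeGroup.lift g)) (κ : ℝ) (hSK : SK g κ) (μ ν : Measure ℝ) [IsProbabilityMeasure μ]
    [IsProbabilityMeasure ν] (hμ : Nontriv μ) (hν : Nontriv ν) (T Sv : Bsh G → Bsh G) (h : OE G μ ν T Sv)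
    (Fs : Finset G) (hF : ∀ᵐ y ∂(bern G ν), ∀ s, ∃ f ∈ Fs, Sv (g s • y) = f • Sv y) (k0 : ℕ) (q0 : ℝ → Fin k0)
    (hq0 : Fm q0) (ε : ℝ) (hε : 0 < ε) :
    ∃ (k1 : ℕ) (q1 : ℝ → Fin k1), Fm q1 ∧ ent ν q0 ≤ ent μ q1 + κ * Real.log Fs.card + ε := by
  classical
  set e' : ℝ := ε / 8 with he'
  have he0 : 0 < e' := by positivity
  have hcG : Countable G := hg.countable
  -- step 1
  have hwl0 : ∀ k : G, ∃ l : List (S × Bool), FreeGroup.lift g (pv l) = k := by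
    intro k
    obtain ⟨u, hu⟩ := hg k
    obtain ⟨w, hw⟩ := pv_surj u
    exact ⟨w, by rw [hw, hu]⟩
  choose wl hwl using hwl0
  obtain ⟨D, hD⟩ := hSK
  set D1 : Finset G := D.image (FreeGroup.lift g) with hD1
  have hDm : ∀ d ∈ D, FreeGroup.lift g d ∈ D1 := fun d hd => Finset.mem_image_of_mem _ hd
  -- step 2
  obtain ⟨δ1, hδ1, hdec⟩ := dec_sum (Fin k0) e' he0
  -- step 3
  obtain ⟨J, θ, bb, hbb, hY⟩ := inf_a g μ ν hμ hν T Sv h Fs hF
  -- step 4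
  obtain ⟨k1, q1, hq1, H0, ψ0, hψ0⟩ := inf_b μ ν T Sv h D1 q0 hq0 (δ1 / 2) (by positivity)
  set K0 : Finset G := insert 1 (H0.biUnion J) with hK0
  set T0 : Finset G := (K0 ×ˢ K0).image (fun r => r.2⁻¹ * r.1) with hT0
  have hJ : ∀ h ∈ H0, J h ⊆ K0 := by
    intro x hx
    exact (Finset.subset_biUnion_of_mem J hx).trans (Finset.subset_insert _ _)
  have h1K : (1 : G) ∈ K0 := Finset.mem_insert_self _ _
  have hT0m : ∀ r ∈ K0, ∀ r' ∈ K0, r'⁻¹ * r ∈ T0 := by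
    intro r hr r' hr'
    exact Finset.mem_image.2 ⟨(r, r'), Finset.mem_product.2 ⟨hr, hr'⟩, rfl⟩
  obtain ⟨R, hR⟩ := hD (T0.image (fun k => pv (wl k)))
  -- step 5
  have : Nonempty (Fin k1) := ⟨q1 0⟩
  set τ : ℝ := min (1 / 2) (e' / (2 * (H0.card : ℝ) + 2)) with hτ
  have hτ0 : 0 < τ := lt_min (by norm_num) (by positivity)
  have hτ1 : τ ≤ 1 / 2 := min_le_left _ _
  have hτ2 : τ * (2 * (H0.card : ℝ) + 2) ≤ e' := by
    have h1 : τ ≤ e' / (2 * (H0.card : ℝ) + 2) := min_le_right _ _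
    rwa [le_div_iff₀ (by positivity)] at h1
  set C : ℝ := Real.log ((Fintype.card (Fin k1) : ℝ) / τ) with hC
  have hcard1 : (1 : ℝ) ≤ (Fintype.card (Fin k1) : ℝ) := by
    exact_mod_cast Fintype.card_pos
  have hC0 : 0 ≤ C := by
    apply Real.log_nonneg
    rw [le_div_iff₀ hτ0]
    linarith
  -- step 6
  obtain ⟨K1, hK1⟩ := chn (Λ := (S → ↥Fs) × (Fin k1 × Fin k0)) (P := Fin k1) (Γ := Fin k0) g wl hwl
    (fun l s => l.1 s) J H0 K0 T0 hJ h1K hT0m R (fun l => l.2.1)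
  set Y0 : Bsh G → Prop := fun y => Leg g (fun (l : S → ↥Fs) s => (l s : G)) J (fun k => bb (k • y)) (θ y) ∧
        (∀ k, Sv (k • y) = θ y k • Sv y) ∧ ∀ k : G, T (Sv (k • y)) = k • y with hY0
  obtain ⟨K', hK'⟩ := inf_c g wl hwl μ ν T Sv h Fs J θ bb hbb k1 q1 hq1 q0 hq0 H0 K0 hJ D D1 hDm ψ0 (δ1 / 2)
    hψ0 Y0 hY (fun y hy => ⟨hy.1, hy.2.1⟩) τ hτ0 hτ1
  set K : Finset G := K1 ∪ K' with hK
  -- step 7
  obtain ⟨η, hη0, hη1, hη2, hη3⟩ : ∃ η : ℝ, 0 < η ∧ (K.card : ℝ) * η ≤ δ1 / 2 ∧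
      C * (H0.card : ℝ) * ((K.card : ℝ) * η) ≤ e' ∧ (k1 : ℝ) * η * C ≤ e' := by
    obtain ⟨η, h0, h1, h2, h3⟩ := ParM_eta (a := (K.card : ℝ)) (b := C * (H0.card : ℝ) * (K.card : ℝ))
      (c := (k1 : ℝ) * C) (x := δ1 / 2) (y := e') (z := e') (by positivity) (by positivity) (by positivity)
      (by positivity) he0 he0
    exact ⟨η, h0, h1, by linarith, by linarith⟩
  obtain ⟨A, hA, q, hq, pr, hpr, D', β', hβ', hgd, hdc, hcost⟩ := hK' K Finset.subset_union_right η hη0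
  set ψ : (↥H0 → Fin k1) → FreeGroup S → Fin k0 := fun u d =>
    if hd : d ∈ D then ψ0 u ⟨FreeGroup.lift g d, hDm d hd⟩ else q0 0 with hψ
  -- step 8
  obtain ⟨Z, hZ⟩ := hK1 {t | ∃ y, Y0 y ∧ t = fun k : G => (bb (k • y), (q1 (Sv (k • y) 1), q0 ((k • y) 1)))}
    (by
      rintro t ⟨y, hy, rfl⟩
      exact ⟨θ y, ⟨hy.1.one, hy.1.eq, hy.1.inj, hy.1.inv⟩⟩)
    D e' he0 δ1 hdec ψ A ν q hq q0 hq0 pr hpr D' β' hβ'
    (by
      intro d hd
      have h1 := hdc d hd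
      have h2 : ∀ u, ψ u d = ψ0 u ⟨FreeGroup.lift g d, hDm d hd⟩ := fun u => dif_pos hd
      simp only [h2]
      linarith)
    τ hτ0 hτ1 (fun a => μ.real (q1 ⁻¹' {a})) (fun a => measureReal_nonneg) (entF_sum hq1)
    ((K.card : ℝ) * η)
    (by
      refine le_trans (measureReal_mono ?_) hgd
      intro y hy hy'
      apply hy
      obtain ⟨t0, ht0, ht1⟩ := hy'
      exact ⟨t0, ht0, fun k hk => ht1 k (Finset.mem_union_left _ hk)⟩)
  obtain ⟨W, hW⟩ := gr_of g Z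
  have hG0 : 0 ≤ Real.log (Nat.card (Fin k0) : ℝ) := Real.log_natCast_nonneg _
  obtain ⟨δ, hδ0, hδ2, hδ3⟩ : ∃ δ : ℝ, 0 < δ ∧ δ * C ≤ e' ∧ δ * Real.log (Nat.card (Fin k0) : ℝ) ≤ e' := by
    obtain ⟨δ, h0, h1, h2, _⟩ := ParM_eta (a := C) (b := Real.log (Nat.card (Fin k0) : ℝ))
      (c := 0) (x := e') (y := e') (z := e') hC0 hG0 le_rfl he0 he0 he0
    exact ⟨δ, h0, by linarith, by linarith⟩
  obtain ⟨V, fV, nV, X, N, E, hN, hbad, hcov, hE, hpath⟩ := hR W δ hδ0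
  have hfin := hZ V X N E (fun p hp => hW V X p (hN p hp))
    (by
      intro p hp k hk hpk
      obtain ⟨w, hw, hw1, hw2⟩ := hpath p hp (pv (wl k)) (Finset.mem_image_of_mem _ hk) hpk
      exact ⟨w, hw, by rw [hw1, hwl], hw2⟩)
  refine ⟨k1, q1, hq1, ?_⟩
  -- step 9
  have hn : (0 : ℝ) < Fintype.card V := by exact_mod_cast Fintype.card_pos
  have hbad2 : ({v | ¬ Gr g X Z v}.ncard : ℝ) ≤ δ * Fintype.card V := by
    refine le_trans ?_ hbad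
    have h1 : {v | ¬ Gr g X Z v} ⊆ {v | ¬ ∀ w ∈ W, (ac X w v = v ↔ FreeGroup.lift g w = 1)} := by
      intro v hv hv'
      exact hv (hW V X v hv')
    exact_mod_cast Set.ncard_le_ncard h1 (Set.toFinite _)
  have hlogF : 0 ≤ Real.log (Fs.card : ℝ) := Real.log_natCast_nonneg _
  exact ParM_fin hn hfin hE hlogF hcost hbad2 hcov hC0 hG0 hτ2 hτ0.le hη2 hη3 hδ2 hδ3
    (by rw [he']; ring) (Nat.cast_nonneg _)

end H33.SS
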