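import Pool.Agent.H33.SS.ThA

/-! # SS.PrdA : product structures, trivial letters (elementary)

PROOF. `ac_px`: induction on `w` (`FreeGroup.induction_on`, or both sides are homomorphisms in `w`: `FreeGroup.ext_hom`). `ac_tx`: `ac (tx X2)` and `ac X2 ∘ FreeGroup.lift (Sum.elim (fun _ => 1) FreeGroup.of)` are homomorphisms `FreeGroup (S0 ⊕ S1) →* Equiv.Perm V2` that agree on the generators. `phi_tx`: the same for the homomorphisms `φ ∘ lift g` and `lift (φ ∘ g ∘ inr) ∘ lift (..)` (on `inl s` both are `1` by `hφ`). `quo_mdl`: `sof_mdl` for `Q`, the family `fun s => φ (g (Sum.inr s))` and the image of `W` under `pj := FreeGroup.lift (Sum.elim (fun _ => 1) FreeGroup.of)`; then `X2 := tx X2'`.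
`wrd_ex`: the map `φ ∘ lift g` on words has infinite range: compose an injection `Fin m ↪ range` with a section. -/

set_option autoImplicit false
set_option synthInstance.maxSize 4000

open MeasureTheory H31.BE H33.HN

namespace H33.SS

theorem ac_px {S V1 V2 : Type} (X1 : S → Equiv.Perm V1) (X2 : S → Equiv.Perm V2) (w : FreeGroup S) (v : V1 × V2) :
    ac (px X1 X2) w v = (ac X1 w v.1, ac X2 w v.2) := by
  revert v
  refine FreeGroup.induction_on
    (C := fun w => ∀ v : V1 × V2, ac (px X1 X2) w v = (ac X1 w v.1, ac X2 w v.2)) w ?_ ?_ ?_ ?_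
  · intro v
    simp
  · intro s v
    simp only [ac, FreeGroup.lift_apply_of]
    rfl
  · intro s _ v
    simp only [ac, map_inv, FreeGroup.lift_apply_of]
    rfl
  · intro x y hx hy v
    rw [map_mul, map_mul, map_mul, Equiv.Perm.mul_apply, Equiv.Perm.mul_apply,
      Equiv.Perm.mul_apply, hy, hx]

variable {S0 S1 G Q : Type} [Group G] [Group Q]

theorem ac_tx {V2 : Type} (X2 : S1 → Equiv.Perm V2) (w : FreeGroup (S0 ⊕ S1)) :
    ac (tx X2) w = ac X2 (FreeGroup.lift (Sum.elim (fun _ => 1) FreeGroup.of) w) := by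
  have h : ac (tx (S0 := S0) X2) = (ac X2).comp
      (FreeGroup.lift (Sum.elim (fun _ : S0 => (1 : FreeGroup S1)) FreeGroup.of)) := by
    refine FreeGroup.ext_hom (f := ac (tx (S0 := S0) X2)) (g := (ac X2).comp
      (FreeGroup.lift (Sum.elim (fun _ : S0 => (1 : FreeGroup S1)) FreeGroup.of))) ?_
    rintro (s | s)
    · simp [ac, tx]
    · simp [ac, tx]
  rw [h]
  rfl

theorem phi_tx (g : S0 ⊕ S1 → G) (φ : G →* Q) (hφ : ∀ s, φ (g (Sum.inl s)) = 1) (w : FreeGroup (S0 ⊕ S1)) :
    φ (FreeGroup.lift g w) = FreeGroup.lift (fun s => φ (g (Sum.inr s)))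
      (FreeGroup.lift (Sum.elim (fun _ => 1) FreeGroup.of) w) := by
  have h : φ.comp (FreeGroup.lift g) = (FreeGroup.lift (fun s => φ (g (Sum.inr s)))).comp
      (FreeGroup.lift (Sum.elim (fun _ : S0 => (1 : FreeGroup S1)) FreeGroup.of)) := by
    refine FreeGroup.ext_hom (f := φ.comp (FreeGroup.lift g))
      (g := (FreeGroup.lift (fun s => φ (g (Sum.inr s)))).comp
      (FreeGroup.lift (Sum.elim (fun _ : S0 => (1 : FreeGroup S1)) FreeGroup.of))) ?_
    rintro (s | s)
    · simp [hφ]
    · simp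
  exact DFunLike.congr_fun h w

end H33.SS
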