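import Pool.Agent.H33.SS.PrdA
import Pool.Agent.H33.SS.SofM

/-! # SS.QuoA : structures of the quotient, words with distinct values

PROOF. `quo_mdl`: `sof_mdl` for `Q`, the family `fun s => φ (g (Sum.inr s))` of letters `S1` and the image of `W` under `FreeGroup.lift (Sum.elim (fun _ => 1) FreeGroup.of)`; then `tx X2'` (`ac_tx`, `phi_tx`). `wrd_ex`: the set of the values `f w` is infinite (`hf`); take an injection of `Fin m` into it (`Set.Infinite.exists_subset_card_eq` or `Infinite.natEmbedding`) and choose preimages. -/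

set_option autoImplicit false
set_option synthInstance.maxSize 4000

open MeasureTheory H31.BE H33.HN

namespace H33.SS

theorem quo_mdl {S0 S1 G Q : Type} [Group G] [Group Q] [Fintype S1] (hQ : Sofic Q) (g : S0 ⊕ S1 → G) (φ : G →* Q)
    (hφ : ∀ s, φ (g (Sum.inl s)) = 1) (W : Finset (FreeGroup (S0 ⊕ S1))) (δ : ℝ) (hδ : 0 < δ) :
    ∃ (n : ℕ) (X2 : S0 ⊕ S1 → Equiv.Perm (Fin n)), 0 < n ∧ (∀ s, X2 (Sum.inl s) = 1) ∧
      ({v | ¬ ∀ w ∈ W, (ac X2 w v = v ↔ φ (FreeGroup.lift g w) = 1)}.ncard : ℝ) ≤ δ * n := by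
  classical
  obtain ⟨n, X2, hn, h2⟩ := sof_mdl hQ (fun s => φ (g (Sum.inr s)))
    (W.image (FreeGroup.lift (Sum.elim (fun _ => 1) FreeGroup.of) : FreeGroup (S0 ⊕ S1) →* FreeGroup S1)) δ hδ
  refine ⟨n, tx X2, hn, fun s => rfl, le_trans ?_ h2⟩
  have hs : {v : Fin n | ¬ ∀ w ∈ W, (ac (tx X2 : S0 ⊕ S1 → Equiv.Perm (Fin n)) w v = v ↔ φ (FreeGroup.lift g w) = 1)} ⊆
      {v | ¬ ∀ w ∈ (W.image (FreeGroup.lift (Sum.elim (fun _ => 1) FreeGroup.of) : FreeGroup (S0 ⊕ S1) →* FreeGroup S1)),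
        (ac X2 w v = v ↔ FreeGroup.lift (fun s => φ (g (Sum.inr s))) w = 1)} := by
    intro v hv hw
    refine hv fun w hwW => ?_
    rw [ac_tx, phi_tx g φ hφ]
    exact hw _ (Finset.mem_image_of_mem _ hwW)
  exact_mod_cast Set.ncard_le_ncard hs (Set.toFinite _)

theorem wrd_ex {α β : Type} (f : α → β) (hf : (Set.range f).Infinite) (m : ℕ) :
    ∃ e : Fin m → α, Function.Injective (fun i => f (e i)) := by
  have e := hf.natEmbedding
  choose c hc using fun i : Fin m => (e i.1).2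
  refine ⟨c, fun i j hij => ?_⟩
  have hij' : f (c i) = f (c j) := hij
  rw [hc, hc] at hij'
  exact Fin.ext (e.injective (Subtype.ext hij'))

end H33.SS
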