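import Pool.Agent.H33.SS.RhoA
import Pool.Agent.H33.SS.ShA
import Pool.Agent.H33.SS.PthA

/-! # SS.RelA : related indices have the same label

PROOF. (classical) Take `K` from `rho_ex`, then `(Z1, K1)` from `cf_sf` for `K` and `T0`, `(Z2, K2)` from `th_path` for `R`; `Z :=` union of `Z1`, `Z2` and of all words `pv (wl k') * pv (wl k)` and `pv (wl k'')` for `k' ∈ K0`, `k ∈ T0`, `k'' ∈ K0`; the set of the statement is `K ∪ K1 ∪ K2`.
Let `r := rho (cf p) h`, by `rho_ex` `r ∈ K0`, `θ r = h`. Let `p' := ac X (pv (wl k)) p`. By `cf_sf` the configuration at `p'` agrees on `K` with `sf k t0`, which has the position map `θ' x = θ (x * k) * (θ k)⁻¹` (`leg_sf`); so `r' := rho (cf p') h' ∈ K0` and `θ (r' * k) * (θ k)⁻¹ = h'`. By `th_path` the factor in the hypothesis is `θ k`, so `θ (r' * k) = h' * θ k = h = θ r` and `r' * k = r`. Hence `ac X (pv (wl r')) p' = ac X (pv (wl r') * pv (wl k)) p = ac X (pv (wl r)) p`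 by `Gr`, and the two labels are `π (l ..)` at this point (definitions of `Up`, `cf`). -/

set_option autoImplicit false
set_option synthInstance.maxSize 4000

open MeasureTheory H31.BE H33.HN

namespace H33.SS

variable {S G Λ P : Type} [Group G]

theorem rel_up (g : S → G) (wl : G → List (S × Bool)) (hwl : ∀ k, FreeGroup.lift g (pv (wl k)) = k)
    (b : Λ → S → G) (J : G → Finset G) (H0 K0 T0 : Finset G) (hJ : ∀ h ∈ H0, J h ⊆ K0)
    (R : Finset (List (S × Bool))) (π : Λ → P) :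
    ∃ (Z : Finset (FreeGroup S)) (K2 : Finset G), ∀ (V : Type) (X : S → Equiv.Perm V) (l : V → Λ) (p : V)
      (t0 : G → Λ) (θ : G → G), Gr g X Z p → (∀ k ∈ K2, cf X wl l p k = t0 k) → Leg g b J t0 θ →
      ∀ k ∈ T0, ∀ w ∈ R, FreeGroup.lift g (pv w) = k → ∀ h ∈ H0, ∀ h' ∈ H0,
        h = h' * Th X (fun v => b (l v)) (pv w) p →
        Up g wl b K0 π (cf X wl l p) h = Up g wl b K0 π (cf X wl l (ac X (pv (wl k)) p)) h' := by
  classical
  obtain ⟨K, hK⟩ := rho_ex g wl hwl b J K0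
  obtain ⟨Z1, K1, h1⟩ := cf_sf (Λ := Λ) g wl hwl K T0
  obtain ⟨Z2, Kp, h2⟩ := th_path g wl hwl b J R
  refine ⟨Z1 ∪ Z2 ∪ ((K0 ×ˢ T0).image (fun x => pv (wl x.1) * pv (wl x.2)) ∪
    K0.image (fun x => pv (wl x))), K ∪ K1 ∪ Kp, ?_⟩
  intro V X l p t0 θ hZ hk2 hleg k hk w hw hwk h hh h' hh' heq
  have hkK : ∀ x ∈ K, cf X wl l p x = t0 x := fun x hx =>
    hk2 x (Finset.mem_union_left _ (Finset.mem_union_left _ hx))
  have hkK1 : ∀ x ∈ K1, cf X wl l p x = t0 x := fun x hx =>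
    hk2 x (Finset.mem_union_left _ (Finset.mem_union_right _ hx))
  have hkKp : ∀ x ∈ Kp, cf X wl l p x = t0 x := fun x hx =>
    hk2 x (Finset.mem_union_right _ hx)
  have hZ1 : Gr g X Z1 p := gr_mono
    (fun x hx => Finset.mem_union_left _ (Finset.mem_union_left _ hx)) hZ
  have hZ2 : Gr g X Z2 p := gr_mono
    (fun x hx => Finset.mem_union_left _ (Finset.mem_union_right _ hx)) hZ
  have hr := (hK H0 hJ (cf X wl l p) t0 θ hleg hkK).2 h hh
  have hsf := h1 V X l p t0 hZ1 hkK1 k hk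
  have hr' := (hK H0 hJ (cf X wl l (ac X (pv (wl k)) p)) (sf k t0) _ (leg_sf hleg k) hsf).2 h' hh'
  have hth := h2 V X l p t0 θ hZ2 hkKp hleg w hw
  rw [hwk] at hth
  rw [hth] at heq
  obtain ⟨r, hrdef⟩ : ∃ r, r = rho g wl b K0 (cf X wl l p) h := ⟨_, rfl⟩
  obtain ⟨r', hrdef'⟩ : ∃ r', r' = rho g wl b K0 (cf X wl l (ac X (pv (wl k)) p)) h' := ⟨_, rfl⟩
  rw [← hrdef] at hr
  rw [← hrdef'] at hr'
  have h3 : θ (r' * k) = h := by
    have h4 : θ (r' * k) * (θ k)⁻¹ = h' := hr'.2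
    rw [mul_inv_eq_iff_eq_mul] at h4
    rw [h4, ← heq]
  have h5 : r' * k = r := hleg.inj (by rw [h3, hr.2])
  have hm1 : pv (wl r') * pv (wl k) ∈ Z1 ∪ Z2 ∪ ((K0 ×ˢ T0).image
      (fun x => pv (wl x.1) * pv (wl x.2)) ∪ K0.image (fun x => pv (wl x))) :=
    Finset.mem_union_right _ (Finset.mem_union_left _ (Finset.mem_image.2
      ⟨(r', k), Finset.mem_product.2 ⟨hr'.1, hk⟩, rfl⟩))
  have hm2 : pv (wl r) ∈ Z1 ∪ Z2 ∪ ((K0 ×ˢ T0).image
      (fun x => pv (wl x.1) * pv (wl x.2)) ∪ K0.image (fun x => pv (wl x))) :=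
    Finset.mem_union_right _ (Finset.mem_union_right _ (Finset.mem_image.2 ⟨r, hr.1, rfl⟩))
  have h6 : ac X (pv (wl r') * pv (wl k)) p = ac X (pv (wl r)) p := by
    rw [hZ _ hm1 _ hm2, map_mul, hwl, hwl, hwl, h5]
  rw [map_mul, Equiv.Perm.mul_apply] at h6
  unfold Up
  rw [← hrdef, ← hrdef']
  unfold cf
  rw [h6]

end H33.SS
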