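import Pool.Agent.H33.SS.LmA
import Pool.Agent.H33.SS.ShA

/-! # SS.UpL : the labels at the positions are local functions

PROOF. (classical) `rho_loc`: `K :=` the values `lift g (pv w1)` of all prefixes `w1` of the words `wl k`, `k ∈ K0`. If `t`, `t'` agree on `K` then for every `k ∈ K0` the two values `Th (lm g) .. (pv (wl k)) 1` agree (`th_agree`, `ac_lm`), so the predicates in the definition of `rho` are equal functions of `k` (`k ∈ K0 ∧ ..`, `funext`, `propext`) and the two `rho` are equal (rewrite the predicate; `simp only [rho]` and `congr`). `up_loc`: the set of `rho_loc` together with `K0` and `1` (`rho` is in `K0` or equal to `1`). `gr_of`: `ac X w p = ac X w' p` iff `ac X (w'⁻¹ * w) p = p`. -/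

set_option autoImplicit false
set_option synthInstance.maxSize 4000

open MeasureTheory H31.BE H33.HN

namespace H33.SS

variable {S G Λ P : Type} [Group G]

private theorem UpL_ch (p p' : G → Prop) [i : Decidable (∃ k, p k)] [i' : Decidable (∃ k, p' k)]
    (h : p = p') :
    (if hx : ∃ k, p k then hx.choose else (1 : G)) = (if hx : ∃ k, p' k then hx.choose else (1 : G)) := by
  subst h
  rw [Subsingleton.elim i i']

private theorem UpL_mem (g : S → G) (wl : G → List (S × Bool)) (b : Λ → S → G) (K0 : Finset G)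
    (t : G → Λ) (h : G) : rho g wl b K0 t h ∈ K0 ∨ rho g wl b K0 t h = 1 := by
  classical
  unfold rho
  by_cases hx : ∃ k, k ∈ K0 ∧ Th (lm g) (fun k' => b (t k')) (pv (wl k)) 1 = h
  · rw [dif_pos hx]
    exact Or.inl hx.choose_spec.1
  · rw [dif_neg hx]
    exact Or.inr rfl

theorem rho_loc (g : S → G) (wl : G → List (S × Bool)) (b : Λ → S → G) (K0 : Finset G) :
    ∃ K : Finset G, ∀ t t' : G → Λ, (∀ k ∈ K, t k = t' k) → ∀ h, rho g wl b K0 t h = rho g wl b K0 t' h := by
  classical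
  refine ⟨(K0.biUnion fun k => (wl k).inits.toFinset).image fun w1 => FreeGroup.lift g (pv w1), ?_⟩
  intro t t' htt h
  have key : ∀ k ∈ K0, Th (lm g) (fun k' => b (t k')) (pv (wl k)) 1 =
      Th (lm g) (fun k' => b (t' k')) (pv (wl k)) 1 := by
    intro k hk
    refine th_agree (lm g) (fun k' => b (t k')) (lm g) (fun k' => b (t' k')) (wl k) 1 1 ?_
    intro w1 hw1
    have h1 : t (ac (lm g) (pv w1) 1) = t' (ac (lm g) (pv w1) 1) := by
      apply htt
      rw [ac_lm, mul_one]
      refine Finset.mem_image.2 ⟨w1, Finset.mem_biUnion.2 ⟨k, hk, ?_⟩, rfl⟩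
      rw [List.mem_toFinset, List.mem_inits]
      exact hw1
    change b (t (ac (lm g) (pv w1) 1)) = b (t' (ac (lm g) (pv w1) 1))
    rw [h1]
  unfold rho
  refine UpL_ch (fun k => k ∈ K0 ∧ Th (lm g) (fun k' => b (t k')) (pv (wl k)) 1 = h)
    (fun k => k ∈ K0 ∧ Th (lm g) (fun k' => b (t' k')) (pv (wl k)) 1 = h) ?_
  funext k
  apply propext
  constructor
  · rintro ⟨h1, h2⟩
    exact ⟨h1, by rw [← key k h1]; exact h2⟩
  · rintro ⟨h1, h2⟩
    exact ⟨h1, by rw [key k h1]; exact h2⟩

theorem up_loc (g : S → G) (wl : G → List (S × Bool)) (b : Λ → S → G) (K0 : Finset G) (π : Λ → P) :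
    ∃ K : Finset G, ∀ t t' : G → Λ, (∀ k ∈ K, t k = t' k) → ∀ h, Up g wl b K0 π t h = Up g wl b K0 π t' h := by
  classical
  obtain ⟨K1, hK1⟩ := rho_loc g wl b K0
  refine ⟨K1 ∪ (K0 ∪ {1}), ?_⟩
  intro t t' htt h
  have h1 := hK1 t t' (fun k hk => htt k (Finset.mem_union_left _ hk)) h
  have h2 : t' (rho g wl b K0 t' h) = t (rho g wl b K0 t' h) := by
    symm
    apply htt
    apply Finset.mem_union_right
    rcases UpL_mem g wl b K0 t' h with h3 | h3
    · exact Finset.mem_union_left _ h3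
    · rw [h3]
      exact Finset.mem_union_right _ (Finset.mem_singleton_self 1)
  unfold Up
  rw [h1, h2]

theorem gr_of (g : S → G) (Z : Finset (FreeGroup S)) :
    ∃ W : Finset (FreeGroup S), ∀ (V : Type) (X : S → Equiv.Perm V) (p : V),
      (∀ w ∈ W, (ac X w p = p ↔ FreeGroup.lift g w = 1)) → Gr g X Z p := by
  classical
  refine ⟨(Z ×ˢ Z).image fun q => q.2⁻¹ * q.1, ?_⟩
  intro V X p hW w hw w' hw'
  have h1 := hW (w'⁻¹ * w) (Finset.mem_image.2 ⟨(w, w'), Finset.mem_product.2 ⟨hw, hw'⟩, rfl⟩)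
  have h3 : FreeGroup.lift g (w'⁻¹ * w) = 1 ↔ FreeGroup.lift g w' = FreeGroup.lift g w := by
    rw [map_mul, map_inv, inv_mul_eq_one]
  rw [h3, map_mul, map_inv, Equiv.Perm.mul_apply] at h1
  have h2 : ((ac X w')⁻¹ (ac X w p) = p) ↔ (ac X w p = ac X w' p) := by
    rw [Equiv.Perm.inv_eq_iff_eq]
  rw [h2] at h1
  rw [h1]
  exact eq_comm

end H33.SS
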